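import Pool.Agent.Helper11.LV.StC
import Pool.Agent.Helper73.TM.Co

set_option autoImplicit false

/-!
Project LV, statements of part D (canonical progressions, exchange of windows, existence of one
normal level, all levels), with complete proofs in the docstrings.  Conventions as in `StA.lean`.
`p` need not be prime.

`CC p l a b k z ρ τ`: `z (n ρ) = n τ` for `n < p`.  Write `x_n = n ρ` (row), `σ = τ + e ρ`,
`D = p τ`, `δ = D.val`.  `z1 z τ` is the next window.  `m = a / h`, `r = a % h`.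
-/

namespace Helper11.LV

open Helper11.N1

/-- CA (no dependence).  Facts about canonical progressions.

PROOF.  (1) `z 0 = 0` (`n = 0`).  (2) every row is `x_n` with `n < p`: `n = (x ρ⁻¹).val`.
(3) `sc (x_n) = z (x_n) + e (n ρ) = n σ` (`e` is additive, `e_add`; `e (n ρ) = n e ρ`).
(4) `l σ = -b l + e (l ρ) = -b l + (b + k) l = k l` (`hlr`, `e_natCast`).
(5) `c τ = 0` (`c` an integer) iff `M | c` (`hu`).  (6) `c σ = d l` implies `l | c`: modulo `l`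
(`res`), `res σ = res τ` is a unit; so `c = l c1` and `c1 k l = d l` in `ZMod (p l)`, so
`p | c1 k - d`.
(7) `TL (x_n)` iff `l ≤ n` (`n < p`): `x_n - h = x_n - l ρ`.  If `l ≤ n` it is `x_(n-l)` and
`z = (n - l) τ = n τ + b l` (`hlt`).  If `n < l` it is `x_(n-l+p)`, `z = (n - l + p) τ =
n τ + b l + p τ`, and `p τ ≠ 0` (`p < M`, (5)).
(8) `z1 z τ x = z (x - ρ) + τ`: for `x = x_n`, `n ≥ 1`: `x - ρ = x_(n-1)`; for `x = 0`: `-ρ = x_(p-1)`,
`(p - 1) τ + τ = p τ`.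
(9) `TC p l a b k (z1 z τ)`: `sc (z1 z τ) x = sc z (x - ρ) + σ`;
`box (z1 z τ) j X S ↔ box z (j - ρ) (X - τ) (S - σ)` (`off_translate_sub`); so `hD`, `hinj`, `hsx`,
`htie` follow.  `hF`: `FF (z1 z τ) X W S = FF z (X - τ) (W - ρ) (S - σ)`: substitute `j → j + ρ` in the
sum; `tri` is invariant (`e (W - ρ) = e W - e ρ`).
(10) If `LD z W lam rho` then LD for `z1 z τ` at `W + ρ` with `lam (X - τ)`, `rho (S - σ)`; so
`Nrm z W → Nrm (z1 z τ) (W + ρ)`.
(11) `z x ≠ D - b l`: `D - b l = (p + l) τ`, `z x = n τ`, `n < p`, `0 < p + l - n < 2 p ≤ M`, (5).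
(12) `δ ≥ 1`. -/
def StCA : Prop := ∀ (p l a b k : ℕ) [NeZero p] [NeZero l] (z : ZMod p → ZMod (p * l))
  (ρ : ZMod p) (τ : ZMod (p * l)), CC p l a b k z ρ τ →
  (z 0 = 0 ∧ sc l z 0 = 0) ∧
  (∀ x : ZMod p, ∃ n : ℕ, n < p ∧ x = (n : ZMod p) * ρ) ∧
  (∀ n : ℕ, n < p → sc l z ((n : ZMod p) * ρ) = (n : ZMod (p * l)) * (τ + e p l ρ)) ∧
  ((l : ZMod (p * l)) * (τ + e p l ρ) = ((k * l : ℕ) : ZMod (p * l))) ∧
  (∀ c : ℤ, (c : ZMod (p * l)) * τ = 0 → ((p * l : ℕ) : ℤ) ∣ c) ∧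
  (∀ c d : ℤ, (c : ZMod (p * l)) * (τ + e p l ρ) = (d : ZMod (p * l)) * l →
    ∃ c1 : ℤ, c = l * c1 ∧ (p : ℤ) ∣ c1 * k - d) ∧
  (∀ n : ℕ, n < p → (TL l b k z ((n : ZMod p) * ρ) ↔ l ≤ n)) ∧
  (∀ x : ZMod p, z1 z τ x = z (x - ρ) + τ) ∧
  TC p l a b k (z1 z τ) ∧
  (∀ W, Nrm l a b z W → Nrm l a b (z1 z τ) (W + ρ)) ∧
  (∀ x : ZMod p, z x ≠ (p : ZMod (p * l)) * τ - b * l) ∧
  1 ≤ ((p : ZMod (p * l)) * τ).val

/-- CH (to prove: `theorem ch : StCA → StCH`).  Length of chains.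

PROOF.  `h = b + k`, `m = a / h`, `r = a % h`, `a = m h + r`.  Given `1 ≤ dd ≤ b`,
`a < dd + n h ≤ a + b`.  `n ≥ m`, since otherwise `dd + n h ≤ b + (m - 1) h < m h ≤ a` (`b < h`).
If `r ≤ k` and `n ≥ m + 1`: `dd + n h ≥ 1 + (m + 1) h = 1 + a - r + b + k > a + b`, contradiction.
If `p ≤ (m + 1) l`: `x = x_v`, `v < p` (CA (2)); by induction `TL (x - i h)` for `i < n` gives
`v ≥ n l` (CA (7); `x_v - h = x_(v-l)`); so `n l ≤ v < (m + 1) l`, `n ≤ m`. -/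
def StCH : Prop := ∀ (p l a b k : ℕ) [NeZero p] [NeZero l] (z : ZMod p → ZMod (p * l))
  (ρ : ZMod p) (τ : ZMod (p * l)), CC p l a b k z ρ τ → b + k ≤ a →
  (p ≤ (a / (b + k) + 1) * l ∨ a % (b + k) ≤ k) → HM l a b k z

/-- DIF (no dependence).  The data of one level in two successive windows.

PROOF.  `z` and `z1 z τ` differ only in the row `0` (`z 0 = 0`, `sc 0 = 0`, `z1 0 = D = sc (z1) 0`).
In the sums of `LD.lj`, `LD.rj` only the terms of the row `0` differ (`aR a W 0` iff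
`1 ≤ W.val ≤ a` etc., `NBaux.aR_iff`).  A function `g` with `g (X+1) - g X = [X = A] - [X = B]` for
all `X` is `g A + [1 ≤ (X - A).val ≤ (B - A).val]` (induction on `(X - A).val`).
(1) `1 ≤ d ≤ b` (`R 0`, `B 0` active): `i - lam` has jumps `[X = 0] - [X = D]`, `rho - u` has jumps
`[S = 0] - [S = D]`.  So `i = lam + [X ∈ I] - g1`, `u - 2 = rho - [S ∈ I] - g2` with
`I = {1 ≤ val ≤ δ}`.  Line at `X = 0` (`e W = d l`): `NN z` counts the box `0` (`off 0 0 = 0 < d l`),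
`NN z1` counts it iff `δ < d l` (BL); the other boxes are the same.  So
`1 - [δ < d l] + (i - lam) 0 + (u - 2 - rho) (d l) = 0`: `1 - [δ < d l] - g1 - [d l ≤ δ] - g2 = 0`,
`g1 + g2 = 0`.  Replace `lam`, `rho` by `lam - g1`, `rho + g1` (again LD; values
`{c, c-1}`, `{-c, -c+1}` with `c - g1`).  So `i = lam + [I]`, `u = 2 + rho - [I]`.  `i X = 0` for some
`X`: `lam X ≤ 0`, so `c ≤ 1`.  `u S = 0` for some `S`: `rho S = -2 + [I] ≤ -1`, so `-c ≤ -1`, `c ≥ 1`.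
(2) `b < d ≤ a` (`R 0`, `L 0` active; `B 0`, `T 0` not): `rho - u` is constant;
`i - lam` has jumps `[X = 0] - [X = D] - [X = -b l] + [X = D - b l]`, so
`i = lam + [X ∈ I] - [X ∈ A] - g1`, `A = {1 ≤ (X + b l).val ≤ δ}`.  Line at `X = -b l`: `NN z` does
not count the box `0` (`off X 0 = b l`), `NN z1` counts it iff `(δ + b l) mod M < b l` iff
`δ + b l ≥ M`; `-b l ∈ I` iff `M - b l ≤ δ`; `-b l ∉ A`.  So `g1 + g2 = 0` again.
`u = 0`: `rho = -2`, so `c ≤ 3`, `c ≥ 2`; `i = 0`: `lam = [A] - [I] ≤ 1`, so `c ≤ 2`.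
(3) `a < d ≤ a + b` (`L 0`, `T 0` active): `i = lam - [X ∈ A] - g1`, `u - 2 = rho + [S ∈ E'] - g2`,
`E' = {1 ≤ (S - a l).val ≤ δ}`.  Line at `X = -b l`, `S = (d - b) l`: `NN z` does not count the box
`0`; `NN z1` counts it iff `(d - a) l ≤ (δ + b l) mod M < b l` iff `δ + (a + b - d) l ≥ M` and
`d < a + b` (use `δ < M`), which is the same as `S ∈ E'` (`(S - a l).val = M - (a + b - d) l`); so
`g1 + g2 = 0`.  `i = 0`: `lam ≤ 1`, `c ≤ 2`; `u = 0`: `rho ≤ -2`, `c ≥ 2`.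
(4) `d = 0` or `d > a + b`: no terms of the row `0`, the box `0` has no line points (BL), so
`lam' - lam`, `rho' - rho` are constant with sum `0`; so `Nrm z W` (LD for `z` exists: `StLDX`). -/
def StDIF : Prop := ∀ (p l a b k : ℕ) [NeZero p] [NeZero l] (z : ZMod p → ZMod (p * l))
  (ρ : ZMod p) (τ : ZMod (p * l)), CC p l a b k z ρ τ → b + k ≤ a → ∀ W : ZMod p,
  Nrm l a b (z1 z τ) W →
  let δ := ((p : ZMod (p * l)) * τ).val
  (∀ i u, AB l a b z W i u → 1 ≤ W.val → W.val ≤ b → ∃ lam rho : ZMod (p * l) → ℤ,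
    LD l a b (z1 z τ) W lam rho ∧ (∀ X, lam X = 1 ∨ lam X = 0) ∧ (∀ S, rho S = -1 ∨ rho S = 0) ∧
    (∀ X : ZMod (p * l), i X = lam X + (if 1 ≤ X.val ∧ X.val ≤ δ then 1 else 0)) ∧
    (∀ S : ZMod (p * l), u S = 2 + rho S - (if 1 ≤ S.val ∧ S.val ≤ δ then 1 else 0))) ∧
  (∀ i u, AB l a b z W i u → b < W.val → W.val ≤ a → ∃ lam rho : ZMod (p * l) → ℤ,
    LD l a b (z1 z τ) W lam rho ∧ (∀ X, lam X = 2 ∨ lam X = 1) ∧ (∀ S, rho S = -2 ∨ rho S = -1) ∧
    (∀ X : ZMod (p * l), i X = lam X + (if 1 ≤ X.val ∧ X.val ≤ δ then 1 else 0) -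
      (if 1 ≤ (X + b * l).val ∧ (X + b * l).val ≤ δ then 1 else 0)) ∧
    (∀ S : ZMod (p * l), u S = 2 + rho S)) ∧
  (∀ i u, AB l a b z W i u → a < W.val → W.val ≤ a + b → ∃ lam rho : ZMod (p * l) → ℤ,
    LD l a b (z1 z τ) W lam rho ∧ (∀ X, lam X = 2 ∨ lam X = 1) ∧ (∀ S, rho S = -2 ∨ rho S = -1) ∧
    (∀ X : ZMod (p * l), i X = lam X -
      (if 1 ≤ (X + b * l).val ∧ (X + b * l).val ≤ δ then 1 else 0)) ∧
    (∀ S : ZMod (p * l), u S = 2 + rho S +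
      (if 1 ≤ (S - a * l).val ∧ (S - a * l).val ≤ δ then 1 else 0))) ∧
  (W.val = 0 ∨ a + b < W.val → Nrm l a b z W)

/-- EXS (to prove: `theorem exs : StCA → StJV → StJH → StDIF → StEXS`).  The structures `EB`, `EM`,
`ET`.

PROOF.  For `x ≠ 0` the boxes of `z` and `z1 z τ` are the same.  `I`, `A`, `E'` as in DIF.
(EB) DIF (1).  `hL`: `i = 0` gives `lam = 0`, not in `I`.  `hU`: `u = 0` gives `rho = -1`, in `I`; and
`S ≠ D`: JH for `z1 z τ` (TC from CA (9)) and the box `0` (`sc = D`, `B 0` active):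
`rho (D + 1) = rho D - 1`, so `rho D = 0`, `u D = 1`.  `hst`: `lam X = 1`, `rho S = 0`, `up` for
`z1`: `NN ≤ 0`.  `hln`: `i = 0`, so `lam X = 0`; on the line of `z1` `NN = 1` (the box `x`), so
`rho = -1`; on the line of `z` `NN = 1`, so `u = 1 = 2 - 1 - [I]`, so not in `I`.
(EM) DIF (2).  `hu`: `u = 2 + rho ≤ 1`.  `hL`: `i = 0` gives `lam = 1`, `X ∈ A`, `X ∉ I`.  Let
`s = (X + b l).val`, `1 ≤ s ≤ δ`.  If `s > b l` then `X.val = s - b l ∈ [1, δ]`, `X ∈ I`,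
contradiction; so `s ≤ b l`, `off X 0 = b l - s < b l`.
(ET) DIF (3).  `tl`, `TL h`: CA (7), `h = x_l` (`hlr`); `z h = -b l`.
`hz`: `-b l ∉ A`, so `i (-b l) = lam ≥ 1`; `-b l + 1 ∈ A` (`δ ≥ 1`), so `i (-b l + 1) ≤ 1`; and
`i (-b l + 1) = i (-b l)` by JV for `z`: `eR x`, `z x = -b l` gives `x = h` (`hinj`), but
`dd W h + k = W.val - b ≤ a` (`dd W h = W.val - (b + k)`) and `TL h`; `eL y`, `z y - b l = -b l` gives
`y = 0`, but `TL (0 + h)` and `W.val > a ≥ b + k`.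
`hL`: `i X = 0` gives `X ∈ A`; `(X + b l).val ≠ 1` since `i (-b l + 1) = 1`; `≠ δ`: if
`X = D - b l`, then `X + 1 ∉ A`, `i (X + 1) = lam ≥ 1`, so `i` rises at `X`, so `eR x` with
`z x = D - b l` (JV), impossible by CA (11).
`hU`: `u = 0` gives `[E'] = 0`.  `hB`: `S = D + a l`; suppose `u (S + 1) = 0`; `u S ≥ 1` (`S ∈ E'`),
so by JH for `z` `B x` is active with `sc x = S`, `x ≠ 0` (`dd W 0 > b`).  JH for `z1`: `B x` gives
`rho (S + 1) = rho S - 1`, `T 0` (`sc (z1) 0 + a l = S`) gives `rho (S + 1) = rho S + 1`.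
`hst`: `lam X = 2`, `rho S = -1`, `NN ≤ 0`.  `hln`: `X ∈ A`, `lam X = 1`, `NN = 1` on the line of
`z1`, so `rho = -2`; `u = 1` (line of `z`), so in `E'`.
`hcp`: let `f = x_v`, `sc f = n k l`, `n h ≤ a`.  By CA (3), (4) `(v - n l) σ = 0`, so (CA (6))
`v = (n + c1) l`, `p | c1 k`; if `c1 < 0` then `-c1 ≤ n`, `-c1 k ≤ n k ≤ a < p`, contradiction.  So
`v ≥ n l`, and `f - i h = x_(v - i l)`, `v - i l ≥ l`, for `i < n`; CA (7). -/
def StEXS : Prop := ∀ (p l a b k : ℕ) [NeZero p] [NeZero l] (z : ZMod p → ZMod (p * l))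
  (ρ : ZMod p) (τ : ZMod (p * l)), CC p l a b k z ρ τ → b + k ≤ a → ∀ W : ZMod p,
  Nrm l a b (z1 z τ) W → ∀ i u, AB l a b z W i u →
  (1 ≤ W.val → W.val ≤ b → EB a b k z W i u ((p : ZMod (p * l)) * τ).val) ∧
  (b < W.val → W.val ≤ a → EM a b k z W i u) ∧
  (a < W.val → W.val ≤ a + b → ET a b k z W i u ((p : ZMod (p * l)) * τ).val)

/-- PIG (to prove: `theorem pig : StCA → StPIG`).

PROOF.  The `p` numbers `(n τ).val / (b l)`, `n < p`, take at most `p / b + 1 < p` values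
(`b ≥ 2`, `p ≥ 5`), so there are `n1 < n2 < p` with `|(n1 τ).val - (n2 τ).val| < b l`, and they are
different (CA (5)).  With `n = n2 - n1 ∈ [1, p - 1]`: `(n τ).val ∈ [1, b l - 1]` (contradiction to the
first hypothesis) or `w = (-(n τ)).val ∈ [1, b l - 1]`.  Then `n ≠ l` (`-(l τ) = b l`).  If `n > l`:
`(n - l) τ = b l - w` has `val ∈ [1, b l]`, contradiction to the first hypothesis.  If `n < l`:
contradiction to the second. -/
def StPIG : Prop := ∀ (p l a b k : ℕ) [NeZero p] [NeZero l] (z : ZMod p → ZMod (p * l))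
  (ρ : ZMod p) (τ : ZMod (p * l)), CC p l a b k z ρ τ →
  (∀ n : ℕ, 1 ≤ n → n < p → ¬ (1 ≤ ((n : ZMod (p * l)) * τ).val ∧
    ((n : ZMod (p * l)) * τ).val ≤ b * l)) →
  (∀ n : ℕ, 1 ≤ n → n < l → ¬ (1 ≤ (-((n : ZMod (p * l)) * τ)).val ∧
    (-((n : ZMod (p * l)) * τ)).val ≤ b * l)) → False

/-- E1 (to prove: `theorem e1 : StCA → StTYP → StTA → StTB → StPIG → StE1`).  A normal level if there
are no chains from a bottom to a top.

PROOF.  `m = a / h`, `r = a % h`.  (1) At no level `AB W i u` with `i ≤ 1` (and `HM`): `u S = 0` for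
some `S`, TB (1): a good `x`; TB (2): `r < dd W x ≤ b` and `TL (x - s h)` for `s < m`; with `x = x_v`
this gives `m l ≤ v < p` (CA (7)); contradiction to the hypothesis `b ≤ r ∨ p ≤ m l`.
(2) Suppose the level `W = 1` is not normal (`StLDX` gives LD): TYP and (1): `AB` with `u ≤ 1`.
`dd W 0 = 1`, `z 0 = 0` is a line point of the box `0`; TA (1): `i = 1`; `eR 0` (CA (7)); TA (5):
no `g` with `off 1 (z g) < b l`; for `g = x_n`, `1 ≤ n < p`: not `1 ≤ (n τ).val ≤ b l`.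
(3) The same for `W = x_(l-1) + 1` and the box `x_(l-1)` (not `TL`): no `g` with
`off (z x_(l-1) + 1) (z g) < b l`; for `g = x_(l-1-n)`, `1 ≤ n < l`: `z g - z x_(l-1) = - n τ`, so not
`1 ≤ (-(n τ)).val ≤ b l`.  PIG. -/
def StE1 : Prop := ∀ (p l a b k : ℕ) [NeZero p] [NeZero l] (z : ZMod p → ZMod (p * l))
  (ρ : ZMod p) (τ : ZMod (p * l)), CC p l a b k z ρ τ → b + k ≤ a → HM l a b k z →
  (b ≤ a % (b + k) ∨ p ≤ a / (b + k) * l) → ∃ W, Nrm l a b z W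

/-- E2 (to prove:
`theorem e2 : StCA → StTYP → StJV → StNB → StCOV → StTA → StTB → StTCB → StPIG → StE2`).

PROOF.  `m = a / h ≥ 1`, `r = a % h < b`, `m l < p`, `a = m h + r`.  Let `y_s = x_(p-1-s l)`,
`s < m`, and `W = x_(p-1) + (h + r + 1)`: `dd W y_s = r + 1 + (s + 1) h` (`y_(s+1) = y_s - h`;
`≤ a + 1 < p`), `dd W y_(m-1) = a + 1`.  `f = x_(l-1) = x_(p-1) + h` (`p ρ = 0`, `l ρ = h`):
`dd W f = r + 1 ≤ b`.  Suppose the level `W` is not normal: TYP, `AB` with `u ≤ 1` or `i ≤ 1`.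
(A) `u ≤ 1`.  `f`: `z f` is a line point, TA (1), `eR f` (not `TL f`), TA (5): as in E1 (3) the second
hypothesis of PIG.  `y_(m-1)`: `a < dd = a + 1 < a + b`, it has line points (BL), TA (2): `i = 1`.
Going left: for `s ≥ 1` not `eL (y_s)` (`TL (y_s + h)`, `y_s + h = y_(s-1)`, `dd > b + k`), NB (4):
`y_(s-1)` is on the line with the same `i`.  So `y_0` is on the line with `i = 1`; `eL y_0`
(`b < dd = r + 1 + h ≤ a + b`; `y_0 + h = x_(l-1)` is not `TL`); TA (6): no `g` with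
`off (z y_0 - b l) (z g) < b l`; for `g = x_(p-1-n)`, `1 ≤ n < p`: `z g - z y_0 + b l = b l - n τ`, so
not `1 ≤ (n τ).val ≤ b l`.  PIG.
(B) `i ≤ 1`.  `y_0` is on the line (BL), `eL y_0`, NB (3): `i (z y_0 - b l) = i + 1 ≤ 1`, so `i = 0` on
`y_0`.  For `s ≤ m - 2`: `TL y_s`, `dd + k < a` (`(m - 1) h + r + 1 + k = a + 1 - b < a`), so
not `eR`, NB (7): `y_(s+1)` is on the line with the same `i`, `u`.  So `i = 0` on the line points of
all `y_s`: all columns of `y_s` for `s ≤ m - 2` (`b < dd ≤ a`), and `z y_(m-1) - t`, `l ≤ t < b l`.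
With `ζ = z y_(m-1) = z y_0 + (m - 1) b l`: `i = 0` on `ζ - m b l + 1, ..., ζ - l`.
NB (8) for `y_(m-1)`: at the column `Xs = ζ - l + 1`: `i = 0`, `u = 2` at its row (`u` before was
`1`).  Claim: `i = 0` on `ζ - l + 1, ..., ζ + 1`.  Otherwise let `X` be the first of these columns with
`i X ≠ 0`, `X ≠ Xs`; `i` rises at `X - 1`, JV: `eR y`, `z y = X - 1 ∈ [Xs, ζ]`; `Xs = z y - t`,
`0 ≤ t < l`, is a line point of `y` (BL, `1 ≤ dd W y ≤ a`), so `i + u = 1` there (COV (3)),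
contradiction.  So the `m b l + 1` columns `ζ + 1 - n`, `n ≤ m b l`, have `i = 0`.
`u S = 0` for some `S`, TB (1): a good `x`; TCB (1): `f'` contains `(ζ + 1, sc x + 1)`.  TCB (3) with
`n = m b l`, `off = off (ζ + 1) (z f') < b l`: `(off + m b l) / (b l) ≥ m`, so
`off (sc f') (sc x) = m k l` (TCB (2) gives `≤`) and `TL (f' + s h)` for `1 ≤ s ≤ m`.  Let
`f' = x_v'`, `x = x_v`.  By CA (7) (`TL (x - s h)`, `s < m`, TB (2)) `v ≥ m l`, and `v' + m l < p`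
(`f' + m h = x_n'` with `TL (x_n' - s h)` for `s < m`, so `n' ≥ m l`, `f' = x_(n' - m l)`).
`sc x = sc f' + m k l` gives `(v - v' - m l) σ = 0`, CA (6): `v - v' - m l = c1 l`, `p | c1 k`.
If `c1 > 0`: `(c1 + m) l ≤ v < p`, contradiction to the hypothesis.  If `c1 < 0`:
`v' + m l = v - c1 l ≥ (m - c1) l`, so `(- c1 + m) l < p`, contradiction to the hypothesis.  So
`v = v' + m l`, `z x = z f' - m b l = ζ + 1 - (m b l - off)`, so `i (z x) = 0`, contradiction to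
TB (2).  (Here `0 ≤ m b l - off ≤ m b l`.) -/
def StE2 : Prop := ∀ (p l a b k : ℕ) [NeZero p] [NeZero l] (z : ZMod p → ZMod (p * l))
  (ρ : ZMod p) (τ : ZMod (p * l)), CC p l a b k z ρ τ → b + k ≤ a → HM l a b k z →
  a % (b + k) < b → a / (b + k) * l < p →
  (∀ c1 : ℕ, 1 ≤ c1 → p ∣ c1 * k → p ≤ (c1 + a / (b + k)) * l) → ∃ W, Nrm l a b z W

/-- E3 (to prove: `theorem e3 : StCA → StTYP → StNB → StCOV → StTA → StTB → StTCB → StTR → StE3`).
A normal level if `sc` is not injective.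

PROOF.  `m = a / h ≥ 1`, `r = a % h`, `a = m h + r`, `1 ≤ r ≤ k`.  Suppose no level is normal.
(1) CLAIM: if `v + (m + 1) l < p` there is `n < l` with `1 ≤ (z x_v - z x_n).val < b l`.
Let `y_s = x_(v + s l)` for `s ≤ m + 1`: `y_s = x_v + s h`, `z y_s = z x_v - s b l`, `TL y_s` for
`s ≥ 1` (CA (7)).  Let `W = x_v + (a + b)`: `dd W y_s = a + b - s h` for `s ≤ m`.  For `1 ≤ s ≤ m`:
`b < b + r ≤ dd W y_s ≤ a - k`, so all columns of `y_s` are line points of `y_s` (BL); not `eR y_s`.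
`eL y_m` (`dd = b + r ≤ b + k`); for `s < m` not `eL y_s` (`TL y_(s+1)`, `dd > b + k`).
`StLDX`, TYP: `AB W i u` with `u ≤ 1` or `i ≤ 1`, `i` not constant `0`, `u ≤ 2`.
NB (7) for `y_1` (`dd + k = a`): with `X0 = z y_1 + 1` (column), `i X0 = i (z y_1)`,
`u (X0 + e W) = u (z y_1 + e W) + 1`.  NB (4) (going left from `y_s` to `y_(s+1)`, `s < m`) and NB (1):
`i = i0`, `u = u0` on all line points of `y_1, ..., y_m`, with `(i0, u0) = (0, 1)` or `(1, 0)`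
(COV (3)).  NB (3) for `y_m`: `i (z y_m - b l) = i0 + 1`.
(A) `u ≤ 1`: `u0 + 1 ≤ 1`, so `i0 = 1`, `i (z y_m - b l) = 2`, but `z y_m - b l = z y_(m+1)` is a
column of `y_(m+1)`: contradiction to TA (4).
(B) `i ≤ 1`: `i0 = 0`, `u0 = 1`; so `i = 0` on the `m b l` columns
`z y_m - b l + 1, ..., z y_1`, and `i X0 = 0`, `u (X0 + e W) = 2`.
TR for `X0`: `n0`, `j` with `i = 0` on `X0, ..., X0 + n0 = z j`, `eR j`.  `u S = 0` for some `S`,
TB (1): a good `x`; TCB (1): `f` contains `(z j, sc x + 1)`; TCB (3) with `n = m b l + n0` and TCB (2):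
`(off (z j) (z f) + m b l + n0) / (b l) * (k l) ≤ m k l`, so `n0 < b l`.  Let `s = b l - 1 - n0`;
`z x_v = z y_1 + b l = z j + s`.  `s ≠ 0`: otherwise `j = x_v` (`hinj`), but `dd W j ≤ a < a + b`.  So
`1 ≤ (z x_v - z j).val = s < b l`.
Not `TL j`: otherwise `a < dd W j + k` (`eR`), so `b < dd W j ≤ a`, and `X0 = z j - n0` is a line
point of `j` (BL), so `i X0 + u (X0 + e W) = 1` (COV (3)), contradiction.  So `j = x_n`, `n < l`
(CA (2), (7)).
(2) For a column `X` let `cc X` be the number of the `j` with `off X (z j) < b l`.  `cc X * a ≤ p`: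
the sets of rows `{S : off (sc j + 1) S < a l}` of these boxes are disjoint (`hD`) with `a l`
elements each, and there are `p l` rows.
(3) The set `V = {v : v + (m + 1) l < p}` has `p - (m + 1) l` elements.  Choose `n(v)` for `v ∈ V`.  For
`n < l` the boxes `x_v`, `v ∈ V`, `n(v) = n`, and `x_n` are different (`z x_v ≠ z x_n`) and contain
the column `z x_n`; so `(#{v ∈ V : n(v) = n} + 1) a ≤ p`.  Sum over `n < l`:
`(p - (m + 1) l + l) a ≤ l p`, i.e. `(p - m l) a ≤ l p`.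
(4) `c1 k ≥ p` (a positive multiple of `p`), `k < a`: `c1 a > p`.  `p - m l > c1 l`, so
`(p - m l) a > l c1 a > l p`, contradiction. -/
def StE3 : Prop := ∀ (p l a b k : ℕ) [NeZero p] [NeZero l] (z : ZMod p → ZMod (p * l))
  (ρ : ZMod p) (τ : ZMod (p * l)), CC p l a b k z ρ τ → b + k ≤ a → HM l a b k z →
  1 ≤ a % (b + k) → a % (b + k) ≤ k →
  (∃ c1 : ℕ, 1 ≤ c1 ∧ p ∣ c1 * k ∧ (c1 + a / (b + k)) * l < p) → ∃ W, Nrm l a b z W

/-- V0 (to prove: `theorem v0 : StCA → StRUN → StJV → StV0`).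

PROOF.  `h = b + k`, `a < h < a + b` (`k < a`).
(1) Let `l ≤ n < p`, `x0 = x_n`, `y = x0 - h = x_(n-l)`, `W = x0`: `dd W x0 = 0`, `dd W y = h`.
`TL x0`: `z y = z x0 + b l`, `sc y = sc x0 - k l`.  `S1 = sc y + a l`.  CLAIM: there is `x` with
`sc x = S1`.  Suppose not.  LD exists (`StLDX`).  The line points of `y` are `z y - t`,
`(h - a) l ≤ t < b l`; RUN: `lam = α`, `rho = β` there, `α + β = -1` (`line`, one box).  `eL y`
(`b < h ≤ b + k`), JV: `lam (z x0) = lam (z y - b l) = α + 1`.  `S1` is the row of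
`z y - (h - a) l`; in `LD.rj` at `S1` there is no `B` (no `x` with `sc x = S1`) and `T y` is active, so
`rho (S1 + 1) ≥ β + 1`.  The box `x0` contains `(z x0, S1 + 1)`:
`off (sc x0 + 1) (S1 + 1) = (a - k) l < a l`.  `up`: `1 + α + 1 + β + 1 ≤ 1`, contradiction.
(2) `n = l` (`y = 0`): `x_u` with `u σ = a l`, `u < p`; CA (6): `u = u1 l`, `p | u1 k - a`.
`n = p - 1`: `x_v` with `(v - (p - 1 - l)) σ = a l`; CA (6): `v - (p - 1 - l) = v1 l`,
`p | v1 k - a`.  `gcd k p = 1` (it divides `a`), so `p | u1 - v1`.  `(u1 - v1) l = u - v + (p - 1 - l)`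
lies in `[-l, 2 p - 2 - l]`, so `-1 ≤ u1 - v1 < p` (`l ≥ 2`), `u1 = v1`.  `u1 ≥ 0`, and `v < p` gives
`v1 ≤ 1`.  `u1 = 0`: `p | a`, false.  `u1 = 1`: `p | k - a`, false (`0 < a - k < p`). -/
def StV0 : Prop := ∀ (p l a b k : ℕ) [NeZero p] [NeZero l] (z : ZMod p → ZMod (p * l))
  (ρ : ZMod p) (τ : ZMod (p * l)), CC p l a b k z ρ τ → a.Coprime p → a < b + k → False

/-- V1 (to prove: `theorem v1 : StCA → StNB → StV1`).

PROOF.  `h = b + k ≤ a`.  `x0 = x_(j l)`, `y_s = x0 - s h = x_(j l - s l)`, `W = x0`, so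
`dd W y_s = s h` (`s ≤ j`, `j h ≤ a + b < p`).  `j ≥ 2` as `j h > a ≥ h`.  LD exists (`StLDX`).
`y_1` is on the line (BL; `dd = h`, `b < h ≤ a`), values `α`, `β`, `α + β = -1` (`line`).  `eL y_1`
(`dd ≤ b + k`): NB (3): `lam (z y_1 - b l) = α + 1`, and `z y_1 - b l = z x0` (`TL x0`, CA (7)).
For `1 ≤ s ≤ j - 1`: `TL y_s` (`(j - s) l ≥ l`), `s h + k ≤ (j - 1) h + k ≤ a` (`j h ≤ a + b`), not
`eR y_s`; NB (7): for `s ≤ j - 2` `s h + k < a`, so `y_(s+1)` is on the line with `α`, `β`.  For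
`s = j - 1`: if `(j - 1) h + k < a`: `y_j` is on the line with `α`, `β`, `a < dd W y_j`, NB (8):
`rho (sc y_j + a l + 1) = β + 1`; if `(j - 1) h + k = a`: NB (7): `rho (z y_(j-1) + 1 + e W) = β + 1`,
and `z y_(j-1) + e W = sc y_(j-1) + (j - 1) h l = sc y_j + a l`.  `sc y_j = sc x0 - j k l`; the box `x0`
contains `(z x0, sc y_j + a l + 1)`: `off (sc x0 + 1) (..) = (a - j k) l < a l`.  `up`:
`1 + (α + 1) + (β + 1) ≤ 1`, contradiction. -/
def StV1 : Prop := ∀ (p l a b k : ℕ) [NeZero p] [NeZero l] (z : ZMod p → ZMod (p * l))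
  (ρ : ZMod p) (τ : ZMod (p * l)), CC p l a b k z ρ τ → b + k ≤ a → ∀ j : ℕ, j * l < p →
  a < j * (b + k) → j * (b + k) ≤ a + b → j * k ≤ a → False

/-- LC (to prove: `theorem lc : StCA → StCH → StTYP → StDIF → StEXS → StPM → StPB1 → StPB2 → StPT1 →
StPT2 → StE1 → StE2 → StE3 → StV1 → StLC`).  All levels of a canonical progression.

PROOF.  `m = a / h`, `r = a % h`.  (0) `p ≤ (m + 1) l` or `r < k`: otherwise V1 with `j = m + 1`:
`a < (m + 1) h = a - r + h ≤ a + b` (`k ≤ r`), `(m + 1) k ≤ m h + r = a`.  So `HM` (CH).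
(1) `Nrm (z1 z τ) W → Nrm z W` for all `W`: for `W.val = 0` or `> a + b` DIF (4).  Otherwise take LD
for `z` (`StLDX`) and TYP.  If normal: done.  Otherwise `AB W i u`; EXS; `W.val ≤ b`: `u ≤ 1`: PB1;
`i ≤ 1`: PB2.  `b < W.val ≤ a`: PM.  `a < W.val`: `u ≤ 1`: PT1; otherwise `i ≤ 1` and `u S = 2` for
some `S`: PT2.
(2) Some level is normal: E1 if `b ≤ r` or `p ≤ m l`.  Otherwise, if there is `c1 ≥ 1` with `p | c1 k`,
`(c1 + m) l < p`: the rows `0` and `x_(c1 l)` have the same `sc` (CA (3), (4)), so `sc` is not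
injective, `hsx` gives `1 ≤ r`; and `r < k` by (0) (`(m + 1) l < p`); E3.  Otherwise E2.
(3) `Nrm z W → Nrm z (W + ρ)` (CA (10) and (1)), `ρ` is a unit, so all levels are normal. -/
def StLC : Prop := ∀ (p l a b k : ℕ) [NeZero p] [NeZero l] (z : ZMod p → ZMod (p * l))
  (ρ : ZMod p) (τ : ZMod (p * l)), CC p l a b k z ρ τ → b + k ≤ a → ∀ W : ZMod p, Nrm l a b z W

/-- LX (to prove: `theorem lx : StLC → StV0 → StLX`).  The result for the exact tie model.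

PROOF.  `zc x = z (x + i0) - z i0`.  `CC p l a b k zc ρ τ`:
`hz` from `hAP`; `sc zc x = sc z (x + i0) - sc z i0`; `box zc j X S ↔
box z (j + i0) (X + z i0) (S + sc z i0)`; `hD`, `hF` by translation as in CA (9); `hinj`: `EX.zinj`;
`htie`: `EX.tie_iff` and `EX.row`.
`hsx`: suppose `sc` is not injective: there are `n1 < n2 < p` with `(n2 - n1) σ = 0`; modulo `l`:
`l | n2 - n1 = c1 l`, and `c1 k l = 0` in `ZMod (p l)`, `p | c1 k`, `c1 ≥ 1`, `c1 l < p ≤ c1 k`; so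
`l < k`, `3 ≤ k`.  `a b ≤ p`: `N1.cnt` and `NN ≤ 1`.  Suppose `a % (b + k) = 0`, `a = m h`, `m ≥ 1`.
`l ρ = h`, `ρ = ±a b` in `ZMod p`: `h (l m b) = ±h`, and `h` is prime to `p` (`h | a`), so
`p | l m b - 1` or `p | l m b + 1`, `l m b ≥ p - 1` (`l m b > 1`).  But
`l m b ≤ (k - 1) m b = a b - (b + 1) m b ≤ p - 6`.
StLC; `Nrm` for `zc` at `W - i0` gives `Nrm` for `z` at `W` (`lam (X - z i0)`, `rho (S - sc z i0)`).
The first part: V0. -/
def StLX : Prop := ∀ (p l a b k : ℕ) [NeZero p] [NeZero l] (z : ZMod p → ZMod (p * l))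
  (i0 ρ : ZMod p) (τ : ZMod (p * l)), Helper73.TM.EX p l a b z i0 ρ τ (k : ℤ) → Disj l a b z →
  1 ≤ k → k < a → 2 * a < p → 2 * b < p → a.Coprime p → b.Coprime p →
  (ρ = (a : ZMod p) * b ∨ ρ = -((a : ZMod p) * b)) → b + k ≤ a ∧ ∀ W : ZMod p, Nrm l a b z W

end Helper11.LV
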