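import Pool.Agent.Helper11.LV.StD
import Pool.Agent.Helper11.N1.All

set_option autoImplicit false

/-!
# Project LV, module CA: facts about canonical progressions
-/

namespace Helper11.LV

open Helper11.N1

namespace CAaux

variable {p l : ℕ} [NeZero p] [NeZero l]

/-- the translated configuration -/
def sh (z : ZMod p → ZMod (p * l)) (ρ : ZMod p) (τ : ZMod (p * l)) (x : ZMod p) : ZMod (p * l) :=
  z (x - ρ) + τ

theorem e_mul (ρ : ZMod p) (n : ℕ) :
    e p l ((n : ZMod p) * ρ) = (n : ZMod (p * l)) * e p l ρ := by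
  induction n with
  | zero => rw [Nat.cast_zero, Nat.cast_zero, zero_mul, zero_mul, e_zero]
  | succ n ih =>
    have h : ((n + 1 : ℕ) : ZMod p) * ρ = (n : ZMod p) * ρ + ρ := by push_cast; ring
    rw [h, e_add, ih]
    push_cast
    ring

variable (z : ZMod p → ZMod (p * l)) (ρ : ZMod p) (τ : ZMod (p * l))

theorem sc_sh (x : ZMod p) : sc l (sh z ρ τ) x = sc l z (x - ρ) + (τ + e p l ρ) := by
  unfold sc sh
  rw [e_sub]
  ring

theorem box_sh (a b : ℕ) (j : ZMod p) (X S : ZMod (p * l)) :
    box l a b (sh z ρ τ) j X S ↔ box l a b z (j - ρ) (X - τ) (S - (τ + e p l ρ)) := by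
  have h1 : off X (sh z ρ τ j) = off (X - τ) (z (j - ρ)) := by
    have h := off_translate_sub X (z (j - ρ) + τ) τ
    rw [add_sub_cancel_right] at h
    exact h.symm
  have h2 : off (sc l (sh z ρ τ) j + 1) S = off (sc l z (j - ρ) + 1) (S - (τ + e p l ρ)) := by
    rw [sc_sh]
    have h := off_translate_sub (sc l z (j - ρ) + (τ + e p l ρ) + 1) S (τ + e p l ρ)
    rw [show sc l z (j - ρ) + (τ + e p l ρ) + 1 - (τ + e p l ρ) = sc l z (j - ρ) + 1 by ring] at h
    exact h.symm
  unfold box
  rw [h1, h2]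

theorem NN_sh (a b : ℕ) (X S : ZMod (p * l)) :
    NN l a b (sh z ρ τ) X S = NN l a b z (X - τ) (S - (τ + e p l ρ)) := by
  classical
  unfold NN
  exact Fintype.sum_equiv (Equiv.subRight ρ) _ _
    (fun j => if_congr (box_sh z ρ τ a b j X S) rfl rfl)

theorem tri_sh (X : ZMod (p * l)) (W : ZMod p) (S x : ZMod (p * l)) (j : ZMod p) :
    tri l X W S (x + τ) (j + ρ) ↔ tri l (X - τ) (W - ρ) (S - (τ + e p l ρ)) x j := by
  have h1 : off X (x + τ) = off (X - τ) x := by
    have h := off_translate_sub X (x + τ) τ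
    rw [add_sub_cancel_right] at h
    exact h.symm
  have h2 : j + ρ - W = j - (W - ρ) := by ring
  have h3 : off (X + e p l W) S = off (X - τ + e p l (W - ρ)) (S - (τ + e p l ρ)) := by
    have h := off_translate_sub (X + e p l W) S (τ + e p l ρ)
    rw [show X + e p l W - (τ + e p l ρ) = X - τ + e p l (W - ρ) by rw [e_sub]; ring] at h
    exact h.symm
  unfold tri
  rw [h1, h2, h3]

theorem FF_sh (a b : ℕ) (X : ZMod (p * l)) (W : ZMod p) (S : ZMod (p * l)) :
    FF l a b (sh z ρ τ) X W S = FF l a b z (X - τ) (W - ρ) (S - (τ + e p l ρ)) := by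
  classical
  unfold FF
  refine Fintype.sum_equiv (Equiv.subRight ρ) _ _ (fun j => ?_)
  have t1 := tri_sh ρ τ X W S (z (j - ρ)) (j - ρ)
  have t2 := tri_sh ρ τ X W S (z (j - ρ)) (j - ρ + a)
  have t3 := tri_sh ρ τ X W S (z (j - ρ) - b * l) (j - ρ + b)
  have t4 := tri_sh ρ τ X W S (z (j - ρ) - b * l) (j - ρ + a + b)
  rw [show j - ρ + ρ = j by ring] at t1
  rw [show j - ρ + a + ρ = j + a by ring] at t2
  rw [show j - ρ + b + ρ = j + b by ring,
    show z (j - ρ) - b * l + τ = z (j - ρ) + τ - b * l by ring] at t3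
  rw [show j - ρ + a + b + ρ = j + a + b by ring,
    show z (j - ρ) - b * l + τ = z (j - ρ) + τ - b * l by ring] at t4
  have e0 : (Equiv.subRight ρ) j = j - ρ := rfl
  rw [e0]
  have s : sh z ρ τ j = z (j - ρ) + τ := rfl
  rw [s, if_congr t1 rfl rfl, if_congr t2 rfl rfl, if_congr t3 rfl rfl, if_congr t4 rfl rfl]

theorem LD_sh (a b : ℕ) (W : ZMod p) (lam rho : ZMod (p * l) → ℤ) (h : LD l a b z W lam rho) :
    LD l a b (sh z ρ τ) (W + ρ) (fun X => lam (X - τ)) (fun S => rho (S - (τ + e p l ρ))) := by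
  classical
  have hW : ∀ X : ZMod (p * l), X + e p l (W + ρ) - (τ + e p l ρ) = X - τ + e p l W := by
    intro X
    rw [e_add]
    ring
  refine ⟨?_, ?_, ?_, ?_, ?_⟩
  · intro X
    have h1 := h.lj (X - τ)
    have e1 : X + 1 - τ = X - τ + 1 := by ring
    rw [e1, h1]
    have s1 := Fintype.sum_equiv (Equiv.subRight ρ)
      (fun j : ZMod p => if aR a (W + ρ) j ∧ sh z ρ τ j = X then (1 : ℤ) else 0)
      (fun j : ZMod p => if aR a W j ∧ z j = X - τ then (1 : ℤ) else 0) (fun j => by
        refine if_congr ?_ rfl rfl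
        have e0 : (Equiv.subRight ρ) j = j - ρ := rfl
        rw [e0]
        refine and_congr ?_ ?_
        · unfold aR
          rw [show W + ρ - 1 - j = W - 1 - (j - ρ) by ring]
        · unfold sh
          constructor
          · intro h2; rw [← h2]; ring
          · intro h2; rw [h2]; ring)
    have s2 := Fintype.sum_equiv (Equiv.subRight ρ)
      (fun j : ZMod p => if aL a b (W + ρ) j ∧ sh z ρ τ j - b * l = X then (1 : ℤ) else 0)
      (fun j : ZMod p => if aL a b W j ∧ z j - b * l = X - τ then (1 : ℤ) else 0) (fun j => by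
        refine if_congr ?_ rfl rfl
        have e0 : (Equiv.subRight ρ) j = j - ρ := rfl
        rw [e0]
        refine and_congr ?_ ?_
        · unfold aL
          rw [show W + ρ - b - 1 - j = W - b - 1 - (j - ρ) by ring]
        · unfold sh
          constructor
          · intro h2; rw [← h2]; ring
          · intro h2
            have h3 : z (j - ρ) + τ - b * l = z (j - ρ) - b * l + τ := by ring
            rw [h3, h2]; ring)
    rw [s1, s2]
  · intro S
    have h1 := h.rj (S - (τ + e p l ρ))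
    have e1 : S + 1 - (τ + e p l ρ) = S - (τ + e p l ρ) + 1 := by ring
    rw [e1, h1]
    have s1 := Fintype.sum_equiv (Equiv.subRight ρ)
      (fun j : ZMod p => if aT a b (W + ρ) j ∧ sc l (sh z ρ τ) j + a * l = S then (1 : ℤ) else 0)
      (fun j : ZMod p => if aT a b W j ∧ sc l z j + a * l = S - (τ + e p l ρ) then (1 : ℤ) else 0)
      (fun j => by
        refine if_congr ?_ rfl rfl
        have e0 : (Equiv.subRight ρ) j = j - ρ := rfl
        rw [e0, sc_sh]
        refine and_congr ?_ ?_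
        · unfold aT
          rw [show W + ρ - a - 1 - j = W - a - 1 - (j - ρ) by ring]
        · constructor
          · intro h2; rw [← h2]; ring
          · intro h2
            have h3 : sc l z (j - ρ) + (τ + e p l ρ) + a * l =
              sc l z (j - ρ) + a * l + (τ + e p l ρ) := by ring
            rw [h3, h2]; ring)
    have s2 := Fintype.sum_equiv (Equiv.subRight ρ)
      (fun j : ZMod p => if aB b (W + ρ) j ∧ sc l (sh z ρ τ) j = S then (1 : ℤ) else 0)
      (fun j : ZMod p => if aB b W j ∧ sc l z j = S - (τ + e p l ρ) then (1 : ℤ) else 0)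
      (fun j => by
        refine if_congr ?_ rfl rfl
        have e0 : (Equiv.subRight ρ) j = j - ρ := rfl
        rw [e0, sc_sh]
        refine and_congr ?_ ?_
        · unfold aB
          rw [show W + ρ - 1 - j = W - 1 - (j - ρ) by ring]
        · constructor
          · intro h2; rw [← h2]; ring
          · intro h2; rw [h2]; ring)
    rw [s1, s2]
  · intro X
    have h1 := h.line (X - τ)
    rw [NN_sh, hW]
    exact h1
  · intro X S
    rw [NN_sh]
    exact h.up _ _
  · intro X S
    rw [NN_sh]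
    exact h.lo _ _

end CAaux

open CAaux in
/-- CA: facts about canonical progressions -/
theorem ca : StCA := by
  intro p l a b k _ _ z ρ τ hC
  have hTC := hC.toTC
  have hl2 : 2 ≤ l := hC.hl2
  have hp5 : a + b < p := hC.hP.hab
  have ha := hC.hP.ha
  have hb := hC.hP.hb
  have hp0 : 0 < p := by omega
  have hM : 2 * p ≤ p * l := by
    rw [mul_comm 2 p]
    exact Nat.mul_le_mul_left p hl2
  have : NeZero (p * l) := ⟨by positivity⟩
  -- (1)
  have h1 : z 0 = 0 ∧ sc l z 0 = 0 := by
    have h := hC.hz 0 hp0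
    rw [Nat.cast_zero, Nat.cast_zero, zero_mul, zero_mul] at h
    refine ⟨h, ?_⟩
    unfold sc
    rw [h, e_zero, add_zero]
  -- (2)
  have h2 : ∀ x : ZMod p, ∃ n : ℕ, n < p ∧ x = (n : ZMod p) * ρ := by
    intro x
    obtain ⟨u, hu⟩ := hC.hρ
    refine ⟨(x * (u⁻¹ : (ZMod p)ˣ)).val, ZMod.val_lt _, ?_⟩
    rw [ZMod.natCast_zmod_val, ← hu, mul_assoc, Units.inv_mul, mul_one]
  -- (3)
  have h3 : ∀ n : ℕ, n < p → sc l z ((n : ZMod p) * ρ) = (n : ZMod (p * l)) * (τ + e p l ρ) := by
    intro n hn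
    unfold sc
    rw [hC.hz n hn, e_mul]
    ring
  -- (4)
  have h4 : (l : ZMod (p * l)) * (τ + e p l ρ) = ((k * l : ℕ) : ZMod (p * l)) := by
    have h5 : e p l ((l : ZMod p) * ρ) = (l : ZMod (p * l)) * e p l ρ := e_mul ρ l
    rw [hC.hlr] at h5
    unfold hh at h5
    rw [e_natCast] at h5
    rw [mul_add, hC.hlt, ← h5]
    push_cast
    ring
  -- (5)
  have h5 : ∀ c : ℤ, (c : ZMod (p * l)) * τ = 0 → ((p * l : ℕ) : ℤ) ∣ c := by
    intro c hc
    have h6 : (c : ZMod (p * l)) = 0 := (hC.hu.mul_left_eq_zero).1 hc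
    exact (ZMod.intCast_zmod_eq_zero_iff_dvd c (p * l)).1 h6
  -- (6)
  have h6 : ∀ c d : ℤ, (c : ZMod (p * l)) * (τ + e p l ρ) = (d : ZMod (p * l)) * l →
      ∃ c1 : ℤ, c = l * c1 ∧ (p : ℤ) ∣ c1 * k - d := by
    intro c d hcd
    have g1 := congrArg (res p l) hcd
    rw [res_mul_q, map_mul, map_add, res_e, add_zero, map_intCast] at g1
    have g2 : IsUnit (res p l τ) := hC.hu.map (res p l)
    have g3 : (c : ZMod l) = 0 := (g2.mul_left_eq_zero).1 g1
    obtain ⟨c1, hc1⟩ := (ZMod.intCast_zmod_eq_zero_iff_dvd c l).1 g3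
    refine ⟨c1, hc1, ?_⟩
    have g4 : (((c1 * k - d) * l : ℤ) : ZMod (p * l)) = 0 := by
      have g5 : (c : ZMod (p * l)) * (τ + e p l ρ) = (c1 : ZMod (p * l)) * ((k * l : ℕ) : ZMod (p * l)) := by
        rw [← h4, hc1]
        push_cast
        ring
      rw [hcd] at g5
      push_cast at g5 ⊢
      rw [sub_mul, g5]
      ring
    have g6 := (ZMod.intCast_zmod_eq_zero_iff_dvd _ (p * l)).1 g4
    have hl0 : (l : ℤ) ≠ 0 := by exact_mod_cast (NeZero.ne l)
    push_cast at g6
    exact (mul_dvd_mul_iff_right hl0).1 g6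
  have hpτ : (p : ZMod (p * l)) * τ ≠ 0 := by
    intro h
    have h7 := h5 (p : ℤ) (by rw [Int.cast_natCast]; exact h)
    have h8 : p * l ∣ p := by exact_mod_cast h7
    have h9 := Nat.le_of_dvd hp0 h8
    omega
  have hpρ : ((p : ℕ) : ZMod p) = 0 := ZMod.natCast_self p
  -- (7)
  have h7 : ∀ n : ℕ, n < p → (TL l b k z ((n : ZMod p) * ρ) ↔ l ≤ n) := by
    intro n hn
    unfold TL
    rw [← hC.hlr]
    constructor
    · intro h
      by_contra hln
      push Not at hln
      have hlp := hC.hlp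
      have e1 : (n : ZMod p) * ρ - (l : ZMod p) * ρ = ((n + p - l : ℕ) : ZMod p) * ρ := by
        rw [Nat.cast_sub (by omega), Nat.cast_add, hpρ]
        ring
      rw [e1, hC.hz (n + p - l) (by omega), hC.hz n hn] at h
      apply hpτ
      rw [Nat.cast_sub (by omega), Nat.cast_add] at h
      have e2 : ((n : ZMod (p * l)) + (p : ZMod (p * l)) - (l : ZMod (p * l))) * τ =
          (n : ZMod (p * l)) * τ + (p : ZMod (p * l)) * τ - (l : ZMod (p * l)) * τ := by ring
      rw [e2, hC.hlt] at h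
      have e3 : (p : ZMod (p * l)) * τ = ((n : ZMod (p * l)) * τ + (p : ZMod (p * l)) * τ -
        -((b : ZMod (p * l)) * (l : ZMod (p * l)))) - ((n : ZMod (p * l)) * τ + b * l) := by ring
      rw [e3, h, sub_self]
    · intro hln
      have e1 : (n : ZMod p) * ρ - (l : ZMod p) * ρ = ((n - l : ℕ) : ZMod p) * ρ := by
        rw [Nat.cast_sub hln]
        ring
      rw [e1, hC.hz (n - l) (by omega), hC.hz n hn, Nat.cast_sub hln, sub_mul, hC.hlt]
      ring
  -- (8)
  have h8 : ∀ x : ZMod p, z1 z τ x = z (x - ρ) + τ := by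
    intro x
    unfold z1
    by_cases hx : x = 0
    · rw [if_pos hx, hx]
      have e1 : (0 : ZMod p) - ρ = ((p - 1 : ℕ) : ZMod p) * ρ := by
        rw [Nat.cast_sub (by omega), hpρ]
        push_cast
        ring
      rw [e1, hC.hz (p - 1) (by omega), Nat.cast_sub (by omega)]
      push_cast
      ring
    · rw [if_neg hx]
      obtain ⟨n, hn, rfl⟩ := h2 x
      have hn0 : n ≠ 0 := by
        rintro rfl
        apply hx
        rw [Nat.cast_zero, zero_mul]
      have e1 : (n : ZMod p) * ρ - ρ = ((n - 1 : ℕ) : ZMod p) * ρ := by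
        rw [Nat.cast_sub (by omega)]
        push_cast
        ring
      rw [e1, hC.hz (n - 1) (by omega), hC.hz n hn, Nat.cast_sub (by omega)]
      push_cast
      ring
  have h8' : z1 z τ = sh z ρ τ := funext h8
  -- (9)
  have h9 : TC p l a b k (z1 z τ) := by
    rw [h8']
    refine ⟨hTC.hP, hTC.ha2, hTC.hb2, hTC.hl2, hTC.hk, hTC.hk2, ?_, ?_, ?_, ?_, ?_⟩
    · intro i j X S hi hj
      have h := hTC.hD _ _ _ _ ((box_sh z ρ τ a b i X S).1 hi) ((box_sh z ρ τ a b j X S).1 hj)
      exact sub_left_injective h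
    · intro x y h
      unfold sh at h
      exact sub_left_injective (hTC.hinj (add_right_cancel h))
    · rcases hTC.hsx with h | h
      · left
        intro x y hxy
        rw [sc_sh, sc_sh] at hxy
        exact sub_left_injective (h (add_right_cancel hxy))
      · exact Or.inr h
    · intro x y h
      unfold sh at h
      have h' : z (x - ρ) = z (y - ρ) - b * l := by
        have e1 : z (y - ρ) - b * l = (z (y - ρ) + τ - b * l) - τ := by ring
        rw [e1, ← h]
        ring
      have h'' := hTC.htie _ _ h'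
      have e2 : x = x - ρ + ρ := by ring
      rw [e2, h'']
      ring
    · intro X W S
      rw [FF_sh]
      exact hTC.hF _ _ _
  refine ⟨h1, h2, h3, h4, h5, h6, h7, h8, h9, ?_, ?_, ?_⟩
  · -- (10)
    rintro W ⟨lam, rho, c, hLD, hl, hr⟩
    rw [h8']
    exact ⟨_, _, c, LD_sh z ρ τ a b W lam rho hLD, fun X => hl _, fun S => hr _⟩
  · -- (11)
    intro x h
    obtain ⟨n, hn, rfl⟩ := h2 x
    have hlp := hC.hlp
    rw [hC.hz n hn] at h
    have g1 : (((p : ℤ) + l - n : ℤ) : ZMod (p * l)) * τ = 0 := by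
      push_cast
      have e1 : ((p : ZMod (p * l)) + (l : ZMod (p * l)) - (n : ZMod (p * l))) * τ =
          (p : ZMod (p * l)) * τ + (l : ZMod (p * l)) * τ - (n : ZMod (p * l)) * τ := by ring
      rw [e1, hC.hlt, h]
      ring
    have g2 := h5 _ g1
    have g3 : (p : ℤ) + l - n = ((p + l - n : ℕ) : ℤ) := by
      rw [Nat.cast_sub (by omega)]
      push_cast
      ring
    rw [g3] at g2
    have g4 : p * l ∣ p + l - n := by exact_mod_cast g2
    have g5 := Nat.le_of_dvd (by omega) g4
    omega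
  · -- (12)
    have h := (ZMod.val_eq_zero ((p : ZMod (p * l)) * τ)).not.2 hpτ
    omega

end Helper11.LV
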