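import Pool.Agent.Helper11.LV.StD
import Pool.Agent.Helper11.N1.All

set_option autoImplicit false

/-! # MP_0a4b47_nt, module CH: length of chains -/

namespace Helper11.LV

open Helper11.N1

namespace CHaux

/-- lower bound for the number of ties of a chain -/
theorem lower {a b k n d : ℕ} (hk : 1 ≤ k) (hd : d ≤ b) (h : a < d + n * (b + k)) :
    a / (b + k) ≤ n := by
  by_contra hcon
  push Not at hcon
  have h1 : (n + 1) * (b + k) ≤ a / (b + k) * (b + k) := Nat.mul_le_mul_right _ hcon
  have h2 : a / (b + k) * (b + k) ≤ a := Nat.div_mul_le_self _ _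
  have h3 : (n + 1) * (b + k) = n * (b + k) + (b + k) := by ring
  omega

/-- upper bound for the number of ties of a chain, small remainder -/
theorem upper {a b k n d : ℕ} (hr : a % (b + k) ≤ k) (hd : 1 ≤ d) (h : d + n * (b + k) ≤ a + b) :
    n ≤ a / (b + k) := by
  by_contra hcon
  push Not at hcon
  have h1 : (a / (b + k) + 1) * (b + k) ≤ n * (b + k) := Nat.mul_le_mul_right _ hcon
  have h2 : (b + k) * (a / (b + k)) + a % (b + k) = a := Nat.div_add_mod _ _
  have h3 : (a / (b + k) + 1) * (b + k) = (b + k) * (a / (b + k)) + (b + k) := by ring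
  omega

/-- a chain of ties in a progression -/
theorem chain {p l : ℕ} {ρ h x : ZMod p} {P : ZMod p → Prop} {v : ℕ} (hv : v < p)
    (hx : x = (v : ZMod p) * ρ) (hlr : (l : ZMod p) * ρ = h)
    (hP : ∀ n : ℕ, n < p → P ((n : ZMod p) * ρ) → l ≤ n) (n : ℕ)
    (hc : ∀ i < n, P (x - (i : ZMod p) * h)) : n * l ≤ v := by
  induction n with
  | zero => simp
  | succ n ih =>
    have h1 : n * l ≤ v := ih fun i hi => hc i (by omega)
    have h2 := hc n (by omega)
    have h3 : x - (n : ZMod p) * h = ((v - n * l : ℕ) : ZMod p) * ρ := by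
      rw [hx, ← hlr, Nat.cast_sub h1]
      push_cast
      ring
    rw [h3] at h2
    have h4 := hP _ (by omega) h2
    have h5 : (n + 1) * l = n * l + l := by ring
    omega

end CHaux

theorem ch : StCA → StCH := by
  intro hCA p l a b k _ _ z ρ τ hC _ hor W x n hd1 hd2 htl hlo hup
  have hk : 1 ≤ k := hC.hk
  have hge := CHaux.lower hk hd2 hlo
  rcases hor with hp | hr
  · obtain ⟨-, h2, -, -, -, -, h7, -⟩ := hCA p l a b k z ρ τ hC
    obtain ⟨v, hv, hx⟩ := h2 x
    have h3 := CHaux.chain (P := TL l b k z) hv hx hC.hlr (fun n hn ht => (h7 n hn).1 ht) n htl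
    by_contra hne
    have h4 : a / (b + k) + 1 ≤ n := by omega
    have h5 : (a / (b + k) + 1) * l ≤ n * l := Nat.mul_le_mul_right _ h4
    omega
  · have := CHaux.upper hr hd1 hup
    omega

end Helper11.LV

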