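import Pool.Agent.Helper11.LV.StB
import Pool.Agent.Helper11.N1.M_BL
import Pool.Agent.Helper11.N1.M_CNT

set_option autoImplicit false

/-!
Module CN of project LV: counting the line points in boxes.
-/

namespace Helper11.LV

open Helper11.N1

namespace CNaux

theorem sum_card {M : ℕ} [NeZero M] (P : ZMod M → Prop) [DecidablePred P] :
    (∑ X : ZMod M, if P X then (1 : ℤ) else 0) = ((Finset.univ.filter fun X => P X).card : ℤ) := by
  rw [Finset.card_filter]
  push_cast
  rfl

theorem sum_one (M : ℕ) [NeZero M] : (∑ _X : ZMod M, (1 : ℤ)) = (M : ℤ) := by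
  rw [Finset.sum_const, Finset.card_univ, ZMod.card]
  simp

/-- the total -/
theorem tot {p l a b k : ℕ} [NeZero p] [NeZero l] {z : ZMod p → ZMod (p * l)}
    (h : TC p l a b k z) {W : ZMod p} {i u : ZMod (p * l) → ℤ} (hA : AB l a b z W i u) :
    ((a * b * l : ℕ) : ℤ) = 2 * ((p * l : ℕ) : ℤ) - ∑ X, i X - ∑ S, u S := by
  have h1 : ∑ X : ZMod (p * l), NN l a b z X (X + e p l W) = (a * b * l : ℕ) :=
    (N1.cnt N1.bl) p l a b h.hP z W
  have h2 : ∑ X : ZMod (p * l), u (X + e p l W) = ∑ S, u S :=
    Equiv.sum_comp (Equiv.addRight (e p l W)) u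
  have h3 : ∀ X : ZMod (p * l), NN l a b z X (X + e p l W) = 2 * 1 - i X - u (X + e p l W) := by
    intro X
    have h4 := hA.ld.line X
    linarith
  rw [← h1, Finset.sum_congr rfl fun X _ => h3 X, Finset.sum_sub_distrib, Finset.sum_sub_distrib,
    ← Finset.mul_sum, sum_one, h2]

end CNaux

open CNaux in
/-- module CN -/
theorem cn : StCN := by
  classical
  intro p l a b k _ _ z h W i u hA
  have ht := tot h hA
  constructor
  · intro hu
    have e1 : ∑ S, u S = ((p * l : ℕ) : ℤ) -
        ((Finset.univ.filter fun S => u S = 0).card : ℤ) := by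
      rw [← sum_one (p * l), ← sum_card, ← Finset.sum_sub_distrib]
      refine Finset.sum_congr rfl fun S _ => ?_
      have h1 := hA.u0 S
      have h2 := hu S
      split_ifs with h3 <;> omega
    have e2 : ((p * l : ℕ) : ℤ) - ((Finset.univ.filter fun X => i X = 0).card : ℤ) ≤ ∑ X, i X := by
      rw [← sum_one (p * l), ← sum_card, ← Finset.sum_sub_distrib]
      refine Finset.sum_le_sum fun X _ => ?_
      have h1 := hA.i0 X
      split_ifs with h3 <;> omega
    have e3 : ((a * b * l : ℕ) : ℤ) ≤ (((Finset.univ.filter fun X => i X = 0).card +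
        (Finset.univ.filter fun S => u S = 0).card : ℕ) : ℤ) := by
      rw [ht, e1]
      push_cast
      push_cast at e2
      linarith
    exact_mod_cast e3
  · intro hi hu
    have e1 : ∑ S, u S = ((p * l : ℕ) : ℤ) -
        ((Finset.univ.filter fun S => u S = 0).card : ℤ) +
        ((Finset.univ.filter fun S => u S = 2).card : ℤ) := by
      rw [← sum_one (p * l), ← sum_card, ← sum_card, ← Finset.sum_sub_distrib,
        ← Finset.sum_add_distrib]
      refine Finset.sum_congr rfl fun S _ => ?_
      have h1 := hA.u0 S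
      have h2 := hu S
      split_ifs with h3 h4 h4 <;> omega
    have e2 : ∑ X, i X = ((p * l : ℕ) : ℤ) -
        ((Finset.univ.filter fun X => i X = 0).card : ℤ) := by
      rw [← sum_one (p * l), ← sum_card, ← Finset.sum_sub_distrib]
      refine Finset.sum_congr rfl fun X _ => ?_
      have h1 := hA.i0 X
      have h2 := hi X
      split_ifs with h3 <;> omega
    have e3 : ((a * b * l + (Finset.univ.filter fun S => u S = 2).card : ℕ) : ℤ) =
        (((Finset.univ.filter fun X => i X = 0).card +
        (Finset.univ.filter fun S => u S = 0).card : ℕ) : ℤ) := by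
      push_cast
      push_cast at ht e1 e2
      linarith
    exact_mod_cast e3

end Helper11.LV
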