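import Pool.Agent.Helper11.LV.StB

set_option autoImplicit false
set_option linter.unusedSectionVars false

/-!
Project LV, module COV: boxes over a column.
-/

namespace Helper11.LV.COVaux

open Helper11.N1

section

variable {M : ℕ} [NeZero M]

theorem succ_left {x v : ZMod M} (h : x ≠ v) : off x v = off (x + 1) v + 1 := by
  have h0 : off x v ≠ 0 := fun h1 => h (off_eq_zero.1 h1)
  have h2 := off_spec x v
  have h3 := off_lt x v
  have h4 : v = x + 1 + ((off x v - 1 : ℕ) : ZMod M) := by
    rw [Nat.cast_sub (by omega), Nat.cast_one]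
    linear_combination -h2
  have h5 : off (x + 1) v = off x v - 1 := by
    have h6 := off_nat (x + 1) (n := off x v - 1) (by omega)
    rwa [← h4] at h6
  omega

theorem L1 {x v : ZMod M} {c : ℕ} (h1 : off (x + 1) v < c) (h2 : ¬ off x v < c) :
    v = x + (c : ZMod M) := by
  have h3 : x ≠ v := by
    intro h4
    rw [h4, off_self] at h2
    omega
  have h4 := succ_left h3
  have h5 : off x v = c := by omega
  have h6 := off_spec x v
  rw [h5] at h6
  exact h6.symm

theorem L2 {x v : ZMod M} {c : ℕ} (h1 : off x v < c) (h2 : ¬ off (x + 1) v < c) : v = x := by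
  by_contra h3
  have h4 := succ_left (x := x) (v := v) (fun h5 => h3 h5.symm)
  omega

/-- two points within distance less than `c` above a common point -/
theorem near {X v w : ZMod M} {c : ℕ} (h1 : off X v < c) (h2 : off X w < c) :
    off v w < c ∨ off w v < c := by
  have h3 := off_spec X v
  have h4 := off_spec X w
  have h5 := off_lt X v
  have h6 := off_lt X w
  rcases le_total (off X v) (off X w) with h7 | h7
  · left
    have h8 : w = v + ((off X w - off X v : ℕ) : ZMod M) := by
      rw [Nat.cast_sub h7]
      linear_combination h3 - h4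
    have h9 := off_nat v (n := off X w - off X v) (by omega)
    rw [← h8] at h9
    omega
  · right
    have h8 : v = w + ((off X v - off X w : ℕ) : ZMod M) := by
      rw [Nat.cast_sub h7]
      linear_combination h4 - h3
    have h9 := off_nat w (n := off X v - off X w) (by omega)
    rw [← h8] at h9
    omega

end

section

variable {p l a b k : ℕ} [NeZero p] [NeZero l] {z : ZMod p → ZMod (p * l)}

theorem NN_one (hD : Disj l a b z) {X S : ZMod (p * l)} {f : ZMod p} (h : box l a b z f X S) :
    NN l a b z X S = 1 := by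
  unfold NN
  rw [Finset.sum_eq_single f, if_pos h]
  · intro g _ hg
    rw [if_neg (fun h1 => hg (hD g f X S h1 h))]
  · intro h1
    exact absurd (Finset.mem_univ f) h1

theorem NN_zero {X S : ZMod (p * l)} (h : ∀ f, ¬ box l a b z f X S) : NN l a b z X S = 0 := by
  unfold NN
  refine Finset.sum_eq_zero fun f _ => ?_
  rw [if_neg (h f)]

/-- no box on the top of another box over a common column -/
theorem noStack (hND : StND) (hT : TC p l a b k z) (hba : b + k ≤ a) {X : ZMod (p * l)}
    {x y : ZMod p} (hx : off X (z x) < b * l) (hy : off X (z y) < b * l) :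
    sc l z x ≠ sc l z y + a * l := by
  intro h
  obtain ⟨h1, h2⟩ := hND p l a b k z hT hba x y h
  rcases near hx hy with h3 | h3 <;> omega

end

end Helper11.LV.COVaux

namespace Helper11.LV

open Helper11.N1

open COVaux in
theorem cov : StND → StCOV := by
  intro hND p l a b k _ _ z hT hba W i u hAB
  have hD := hT.hD
  have hup : ∀ X S, NN l a b z X S + i X + (u S - 2) ≤ 1 := hAB.ld.up
  have hlo : ∀ X S, -1 ≤ NN l a b z X S + i X + (u S - 2) := hAB.ld.lo
  have hline : ∀ X, NN l a b z X (X + e p l W) + i X + (u (X + e p l W) - 2) = 0 := hAB.ld.line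
  have c1 : ∀ X S, i X = 0 → u S = 0 → ∃ f, box l a b z f X S := by
    intro X S h1 h2
    by_contra h3
    push Not at h3
    have h4 := hlo X S
    rw [NN_zero h3, h1, h2] at h4
    omega
  have hal : ((a * l : ℕ) : ZMod (p * l)) = a * l := by push_cast; ring
  have hbl : ((b * l : ℕ) : ZMod (p * l)) = b * l := by push_cast; ring
  refine ⟨c1, ?_, ?_, ?_, ?_, ?_, ?_⟩
  · intro X S h1 f h2
    have h3 := hup X S
    rw [NN_one hD h2] at h3
    omega
  · intro X f h1
    have h2 := hline X
    rw [NN_one hD h1] at h2
    have h3 := hAB.i0 X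
    have h4 := hAB.u0 (X + e p l W)
    omega
  · intro X h1
    have h2 := hline X
    rw [NN_zero h1] at h2
    omega
  · intro X S f g h1 h2
    by_cases hgf : g = f
    · exact Or.inl hgf
    right
    have h3 : ¬ off X (z g) < b * l := by
      intro h4
      exact hgf (hD g f X S ⟨h4, h2.2⟩ h1)
    have h5 : ¬ off (X + 1) (z f) < b * l := by
      intro h4
      exact hgf (hD g f (X + 1) S h2 ⟨h4, h1.2⟩)
    have h6 := L1 h2.1 h3
    have h7 := L2 h1.1 h5
    rw [hbl] at h6
    have h8 : f = g + hh p b k := by
      apply hT.htie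
      rw [h7, h6]
      ring
    have h9 : g = f - hh p b k := by rw [h8]; ring
    refine ⟨h7, by rw [h6]; ring, h9, ?_⟩
    unfold TL
    rw [← h9, h6, h7]
  · intro X S f h1 h2 h3
    by_contra h4
    obtain ⟨g, hg⟩ := c1 X (S + 1) h1 h2
    have h5 : ¬ off (sc l z f + 1) (S + 1) < a * l := fun h6 => h4 ⟨h3.1, h6⟩
    have h6 : ¬ off (sc l z g + 1) S < a * l := by
      intro h7
      have h8 := hD g f X S ⟨hg.1, h7⟩ h3
      rw [h8] at hg
      exact h4 hg
    have h7 := hg.2
    rw [off_translate] at h5 h7
    have h8 := L1 h3.2 h5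
    have h9 := L2 h7 h6
    rw [hal] at h8
    exact noStack hND hT hba hg.1 h3.1 (h9.symm.trans h8)
  · intro X S f h1 h2 h3
    by_contra h4
    obtain ⟨g, hg⟩ := c1 X S h1 h2
    have h5 : ¬ off (sc l z f + 1) S < a * l := fun h6 => h4 ⟨h3.1, h6⟩
    have h6 : ¬ off (sc l z g + 1) (S + 1) < a * l := by
      intro h7
      have h8 := hD g f X (S + 1) ⟨hg.1, h7⟩ h3
      rw [h8] at hg
      exact h4 hg
    have h7 := h3.2
    rw [off_translate] at h6 h7
    have h8 := L1 hg.2 h6
    have h9 := L2 h7 h5
    rw [hal] at h8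
    exact noStack hND hT hba h3.1 hg.1 (h9.symm.trans h8)

end Helper11.LV
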