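import Pool.Agent.Helper11.LV.StD
import Pool.Agent.Helper11.N1.All

set_option autoImplicit false
set_option linter.unusedSectionVars false

/-!
# DIF: the data of one level in two successive windows
-/

namespace Helper11.LV

open Helper11.N1

namespace DIFaux

section circ

variable {M : ℕ} [NeZero M]

/-- the indicator of the arc `(A, B]` -/
def jI (A B X : ZMod M) : ℤ :=
  if 1 ≤ (X - A).val ∧ (X - A).val ≤ (B - A).val then 1 else 0

theorem jI_step (A B X : ZMod M) : jI A B (X + 1) - jI A B X =
    (if X = A then (1 : ℤ) else 0) - (if X = B then (1 : ℤ) else 0) := by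
  have hn := ZMod.val_lt (X - A)
  have hm := ZMod.val_lt (B - A)
  have e0 : X = A ↔ (X - A).val = 0 := by
    rw [ZMod.val_eq_zero, sub_eq_zero]
  have e1 : X = B ↔ (X - A).val = (B - A).val := by
    constructor
    · intro h
      rw [h]
    · intro h
      have h2 := ZMod.val_injective M h
      exact sub_left_injective h2
  have e2 : X + 1 - A = (((X - A).val + 1 : ℕ) : ZMod M) := by
    push_cast
    rw [ZMod.natCast_zmod_val]
    ring
  have e3 : (X + 1 - A).val = ((X - A).val + 1) % M := by
    rw [e2, ZMod.val_natCast]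
  unfold jI
  simp only [e0, e1]
  rw [e3]
  rcases Nat.lt_or_ge ((X - A).val + 1) M with h | h
  · rw [Nat.mod_eq_of_lt h]
    split_ifs <;> omega
  · have : (X - A).val + 1 = M := by omega
    rw [this, Nat.mod_self]
    split_ifs <;> omega

theorem cst (g : ZMod M → ℤ) (h : ∀ X, g (X + 1) = g X) (X : ZMod M) : g X = g 0 := by
  have h1 : ∀ n : ℕ, g (n : ZMod M) = g 0 := by
    intro n
    induction n with
    | zero => rw [Nat.cast_zero]
    | succ n ih => rw [Nat.cast_succ, h, ih]
  have h2 := h1 X.val
  rwa [ZMod.natCast_zmod_val] at h2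

end circ

theorem jI_self {M : ℕ} [NeZero M] (A B : ZMod M) : jI A B A = 0 := by
  unfold jI
  rw [sub_self, ZMod.val_zero, if_neg (by omega)]

theorem jI_I {M : ℕ} [NeZero M] (D X : ZMod M) :
    jI 0 D X = if 1 ≤ X.val ∧ X.val ≤ D.val then 1 else 0 := by
  unfold jI
  rw [sub_zero, sub_zero]

theorem jI_A {M : ℕ} [NeZero M] (D β X : ZMod M) :
    jI (-β) (D - β) X = if 1 ≤ (X + β).val ∧ (X + β).val ≤ D.val then 1 else 0 := by
  unfold jI
  rw [sub_neg_eq_add, sub_neg_eq_add, sub_add_cancel]

theorem jI_E {M : ℕ} [NeZero M] (D α S : ZMod M) :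
    jI α (D + α) S = if 1 ≤ (S - α).val ∧ (S - α).val ≤ D.val then 1 else 0 := by
  unfold jI
  rw [add_sub_cancel_right]

theorem ia {α : Type*} (P : Prop) (A X : α) [Decidable (P ∧ A = X)] [Decidable P]
    [Decidable (X = A)] :
    (if P ∧ A = X then (1 : ℤ) else 0) = if P then (if X = A then 1 else 0) else 0 := by
  by_cases h : P <;> by_cases h2 : A = X
  · rw [if_pos ⟨h, h2⟩, if_pos h, if_pos h2.symm]
  · rw [if_neg (fun h3 => h2 h3.2), if_pos h, if_neg (fun h3 => h2 h3.symm)]
  · rw [if_neg (fun h3 => h h3.1), if_neg h]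
  · rw [if_neg (fun h3 => h h3.1), if_neg h]

theorem four {p : ℕ} [NeZero p] (f1 g1 f2 g2 : ZMod p → ℤ) (h1 : ∀ j, j ≠ 0 → f1 j = f2 j)
    (h2 : ∀ j, j ≠ 0 → g1 j = g2 j) :
    (∑ j, f1 j - ∑ j, g1 j) - (∑ j, f2 j - ∑ j, g2 j) = (f1 0 - f2 0) - (g1 0 - g2 0) := by
  have h3 : ∑ j, f1 j - ∑ j, f2 j = f1 0 - f2 0 := by
    rw [← Finset.sum_sub_distrib]
    apply Finset.sum_eq_single (f := fun j => f1 j - f2 j)
    · intro j _ hj
      rw [h1 j hj, sub_self]
    · intro h
      exact absurd (Finset.mem_univ _) h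
  have h4 : ∑ j, g1 j - ∑ j, g2 j = g1 0 - g2 0 := by
    rw [← Finset.sum_sub_distrib]
    apply Finset.sum_eq_single (f := fun j => g1 j - g2 j)
    · intro j _ hj
      rw [h2 j hj, sub_self]
    · intro h
      exact absurd (Finset.mem_univ _) h
  linarith

section main

variable {p l a b k : ℕ} [NeZero p] [NeZero l]

theorem z1_ne (z : ZMod p → ZMod (p * l)) (τ : ZMod (p * l)) {j : ZMod p} (hj : j ≠ 0) :
    z1 z τ j = z j := by
  unfold z1
  rw [if_neg hj]

theorem z1_zero (z : ZMod p → ZMod (p * l)) (τ : ZMod (p * l)) :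
    z1 z τ 0 = (p : ZMod (p * l)) * τ := by
  unfold z1
  rw [if_pos rfl]

theorem sc_ne (z : ZMod p → ZMod (p * l)) (τ : ZMod (p * l)) {j : ZMod p} (hj : j ≠ 0) :
    sc l (z1 z τ) j = sc l z j := by
  unfold sc
  rw [z1_ne z τ hj]

theorem sc_zero (z : ZMod p → ZMod (p * l)) (τ : ZMod (p * l)) :
    sc l (z1 z τ) 0 = (p : ZMod (p * l)) * τ := by
  unfold sc
  rw [z1_zero, e_zero, add_zero]

theorem box_ne (z : ZMod p → ZMod (p * l)) (τ : ZMod (p * l)) {j : ZMod p} (hj : j ≠ 0)
    (X S : ZMod (p * l)) : box l a b (z1 z τ) j X S ↔ box l a b z j X S := by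
  unfold box
  rw [sc_ne z τ hj, z1_ne z τ hj]

/-- the jumps of the first functions -/
theorem jl (z : ZMod p → ZMod (p * l)) (τ : ZMod (p * l)) (h0 : z 0 = 0) (W : ZMod p)
    (i v lam rho : ZMod (p * l) → ℤ) (hL : LD l a b z W i v)
    (hL1 : LD l a b (z1 z τ) W lam rho) (X : ZMod (p * l)) :
    (i (X + 1) - i X) - (lam (X + 1) - lam X) =
    (open Classical in if aR a W 0 then (if X = 0 then (1 : ℤ) else 0) -
      (if X = (p : ZMod (p * l)) * τ then 1 else 0) else 0) -
    (open Classical in if aL a b W 0 then (if X = -((b : ZMod (p * l)) * l) then (1 : ℤ) else 0) -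
      (if X = (p : ZMod (p * l)) * τ - b * l then 1 else 0) else 0) := by
  rw [hL.lj X, hL1.lj X, four]
  · classical
    rw [h0, z1_zero, ia, ia, ia, ia, zero_sub]
    by_cases c1 : aR a W 0 <;> by_cases c2 : aL a b W 0 <;> simp [c1, c2]
  · intro j hj
    rw [z1_ne z τ hj]
  · intro j hj
    rw [z1_ne z τ hj]

/-- the jumps of the second functions -/
theorem jr (z : ZMod p → ZMod (p * l)) (τ : ZMod (p * l)) (h0 : z 0 = 0) (W : ZMod p)
    (i v lam rho : ZMod (p * l) → ℤ) (hL : LD l a b z W i v)
    (hL1 : LD l a b (z1 z τ) W lam rho) (S : ZMod (p * l)) :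
    (v (S + 1) - v S) - (rho (S + 1) - rho S) =
    (open Classical in if aT a b W 0 then (if S = (a : ZMod (p * l)) * l then (1 : ℤ) else 0) -
      (if S = (p : ZMod (p * l)) * τ + a * l then 1 else 0) else 0) -
    (open Classical in if aB b W 0 then (if S = 0 then (1 : ℤ) else 0) -
      (if S = (p : ZMod (p * l)) * τ then 1 else 0) else 0) := by
  rw [hL.rj S, hL1.rj S, four]
  · have hs0 : sc l z 0 = 0 := by
      unfold sc
      rw [h0, e_zero, add_zero]
    classical
    rw [hs0, sc_zero, ia, ia, ia, ia, zero_add]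
    by_cases c1 : aT a b W 0 <;> by_cases c2 : aB b W 0 <;> simp [c1, c2]
  · intro j hj
    rw [sc_ne z τ hj]
  · intro j hj
    rw [sc_ne z τ hj]

/-- the line -/
theorem jn (z : ZMod p → ZMod (p * l)) (τ : ZMod (p * l)) (W : ZMod p)
    (i v lam rho : ZMod (p * l) → ℤ) (hL : LD l a b z W i v)
    (hL1 : LD l a b (z1 z τ) W lam rho) (X : ZMod (p * l)) :
    (open Classical in if box l a b z 0 X (X + e p l W) then (1 : ℤ) else 0) -
    (open Classical in if box l a b (z1 z τ) 0 X (X + e p l W) then (1 : ℤ) else 0) +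
    (i X - lam X) + (v (X + e p l W) - rho (X + e p l W)) = 0 := by
  classical
  have h1 := hL.line X
  have h2 := hL1.line X
  unfold NN at h1 h2
  have h3 := four (fun j : ZMod p =>
      (open Classical in if box l a b z j X (X + e p l W) then (1 : ℤ) else 0)) (fun _ => 0)
    (fun j : ZMod p =>
      (open Classical in if box l a b (z1 z τ) j X (X + e p l W) then (1 : ℤ) else 0))
    (fun _ => 0) (by
      intro j hj
      exact if_congr (box_ne z τ hj _ _).symm rfl rfl) (fun _ _ => rfl)
  simp only [Finset.sum_const_zero, sub_zero] at h3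
  linarith

/-- the difference of the data of the two windows -/
theorem two (z : ZMod p → ZMod (p * l)) (τ : ZMod (p * l)) (h0 : z 0 = 0) (W : ZMod p)
    (i v lam rho : ZMod (p * l) → ℤ) (hL : LD l a b z W i v)
    (hL1 : LD l a b (z1 z τ) W lam rho) : ∃ C1 C2 : ℤ,
    (∀ X, i X = lam X + C1 +
      (open Classical in if aR a W 0 then jI 0 ((p : ZMod (p * l)) * τ) X else 0) -
      (open Classical in if aL a b W 0 then
        jI (-((b : ZMod (p * l)) * (l : ZMod (p * l))))
          ((p : ZMod (p * l)) * τ - (b : ZMod (p * l)) * (l : ZMod (p * l))) X else 0)) ∧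
    (∀ S, v S = rho S + C2 +
      (open Classical in if aT a b W 0 then
        jI ((a : ZMod (p * l)) * (l : ZMod (p * l)))
          ((p : ZMod (p * l)) * τ + (a : ZMod (p * l)) * (l : ZMod (p * l))) S else 0) -
      (open Classical in if aB b W 0 then jI 0 ((p : ZMod (p * l)) * τ) S else 0)) := by
  classical
  set D := (p : ZMod (p * l)) * τ with hD
  refine ⟨i 0 - lam 0 - (if aR a W 0 then jI 0 D 0 else 0) +
    (if aL a b W 0 then jI (-((b : ZMod (p * l)) * (l : ZMod (p * l)))) (D - (b : ZMod (p * l)) * (l : ZMod (p * l))) 0 else 0),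
    v 0 - rho 0 - (if aT a b W 0 then jI ((a : ZMod (p * l)) * (l : ZMod (p * l))) (D + (a : ZMod (p * l)) * (l : ZMod (p * l))) 0 else 0) +
    (if aB b W 0 then jI 0 D 0 else 0), ?_, ?_⟩
  · intro X
    have h := cst (fun X => i X - lam X - (if aR a W 0 then jI 0 D X else 0) +
      (if aL a b W 0 then jI (-((b : ZMod (p * l)) * (l : ZMod (p * l)))) (D - (b : ZMod (p * l)) * (l : ZMod (p * l))) X else 0)) (by
        intro X
        have j1 := jl z τ h0 W i v lam rho hL hL1 X
        have j2 := jI_step 0 D X
        have j3 := jI_step (-((b : ZMod (p * l)) * (l : ZMod (p * l)))) (D - (b : ZMod (p * l)) * (l : ZMod (p * l))) X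
        rw [← hD] at j1
        by_cases c1 : aR a W 0 <;> by_cases c2 : aL a b W 0 <;>
          simp only [c1, c2, if_true, if_false] at j1 ⊢ <;> linarith) X
    linarith
  · intro S
    have h := cst (fun S => v S - rho S -
      (if aT a b W 0 then jI ((a : ZMod (p * l)) * (l : ZMod (p * l))) (D + (a : ZMod (p * l)) * (l : ZMod (p * l))) S else 0) +
      (if aB b W 0 then jI 0 D S else 0)) (by
        intro S
        have j1 := jr z τ h0 W i v lam rho hL hL1 S
        have j2 := jI_step 0 D S
        have j3 := jI_step ((a : ZMod (p * l)) * (l : ZMod (p * l))) (D + (a : ZMod (p * l)) * (l : ZMod (p * l))) S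
        rw [← hD] at j1
        by_cases c1 : aT a b W 0 <;> by_cases c2 : aB b W 0 <;>
          simp only [c1, c2, if_true, if_false] at j1 ⊢ <;> linarith) S
    linarith

/-- moving a constant -/
theorem shift (z : ZMod p → ZMod (p * l)) (W : ZMod p) (lam rho : ZMod (p * l) → ℤ)
    (hL : LD l a b z W lam rho) (C : ℤ) :
    LD l a b z W (fun X => lam X + C) (fun S => rho S - C) where
  lj X := by have := hL.lj X; rw [← this]; ring
  rj S := by have := hL.rj S; rw [← this]; ring
  line X := by have := hL.line X; linarith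
  up X S := by have := hL.up X S; linarith
  lo X S := by have := hL.lo X S; linarith

end main

end DIFaux

open DIFaux

theorem dif : StDIF := by
  intro p l a b k _ _ z ρ τ hC hba W hN δ
  classical
  obtain ⟨lam, rho, c, hL1, hlam, hrho⟩ := hN
  have hP := hC.hP
  have hk := hC.hk
  have ha2 := hC.ha2
  have hb2 := hC.hb2
  have hl2 := hC.hl2
  obtain ⟨q1, q2, q3, q4⟩ := NBaux.prods hP
  have hp : 0 < p := by omega
  have hz0 : z 0 = 0 := by
    have := hC.hz 0 hp
    simpa using this
  have hδ : ((p : ZMod (p * l)) * τ).val = δ := rfl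
  have hδM : δ < p * l := ZMod.val_lt _
  have hWp : W.val < p := ZMod.val_lt _
  have hW1 : W.val * l + l ≤ p * l := by
    calc W.val * l + l = (W.val + 1) * l := by ring
      _ ≤ p * l := Nat.mul_le_mul_right l hWp
  have eWv : (e p l W).val = W.val * l := by
    rw [e_val p l q1, Nat.mul_comm]
  -- the line box of the row 0
  have bz : ∀ X : ZMod (p * l), box l a b z 0 X (X + e p l W) ↔
      (W.val - a) * l ≤ off X 0 ∧ off X 0 < b * l ∧ off X 0 < W.val * l := by
    intro X
    have h := (bl p l a b hP z W 0).1 X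
    rwa [sub_zero, hz0] at h
  have bz1 : ∀ X : ZMod (p * l), box l a b (z1 z τ) 0 X (X + e p l W) ↔
      (W.val - a) * l ≤ off X ((p : ZMod (p * l)) * τ) ∧
      off X ((p : ZMod (p * l)) * τ) < b * l ∧
      off X ((p : ZMod (p * l)) * τ) < W.val * l := by
    intro X
    have h := (bl p l a b hP (z1 z τ) W 0).1 X
    rwa [sub_zero, z1_zero] at h
  -- activity
  have hR : aR a W 0 ↔ 1 ≤ W.val ∧ W.val ≤ a := by
    have h := NBaux.aR_iff hP W 0
    rwa [sub_zero] at h
  have hL : aL a b W 0 ↔ b + 1 ≤ W.val ∧ W.val ≤ a + b := by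
    have h := NBaux.aL_iff hP W 0
    rwa [sub_zero] at h
  have hB : aB b W 0 ↔ 1 ≤ W.val ∧ W.val ≤ b := by
    have h := NBaux.aB_iff hP W 0
    rwa [sub_zero] at h
  have hT : aT a b W 0 ↔ a + 1 ≤ W.val ∧ W.val ≤ a + b := by
    have h := NBaux.aT_iff hP W 0
    rwa [sub_zero] at h
  -- the point - b l
  have hbv : (b * l) < p * l := by omega
  have o1 : off (-((b : ZMod (p * l)) * (l : ZMod (p * l)))) 0 = b * l := by
    apply NBaux.off_cast _ _ hbv
    push_cast
    ring
  have o2 : off (-((b : ZMod (p * l)) * (l : ZMod (p * l)))) ((p : ZMod (p * l)) * τ) =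
      if δ + b * l < p * l then δ + b * l else δ + b * l - p * l := by
    have e1 : ((p : ZMod (p * l)) * τ) - (-((b : ZMod (p * l)) * (l : ZMod (p * l)))) =
        ((δ + b * l : ℕ) : ZMod (p * l)) := by
      rw [Nat.cast_add, ← hδ, ZMod.natCast_zmod_val]
      push_cast
      ring
    split_ifs with h
    · exact NBaux.off_cast _ _ h e1
    · apply NBaux.off_cast _ _ (by omega)
      rw [e1, Nat.cast_sub (by omega), ZMod.natCast_self, sub_zero]
  have o3 : (-((b : ZMod (p * l)) * (l : ZMod (p * l)))).val = p * l - b * l := by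
    have e1 : -((b : ZMod (p * l)) * (l : ZMod (p * l))) = ((p * l - b * l : ℕ) : ZMod (p * l)) := by
      rw [Nat.cast_sub (by omega), ZMod.natCast_self]
      push_cast
      ring
    rw [e1, ZMod.val_natCast, Nat.mod_eq_of_lt (by omega)]
  have hsubl : ∀ m n : ℕ, (m - n) * l = m * l - n * l := fun m n => Nat.sub_mul _ _ _
  refine ⟨?_, ?_, ?_, ?_⟩
  · -- (1)
    intro i u hA h1 h2
    obtain ⟨C1, C2, hi, hv⟩ := two z τ hz0 W i (fun S => u S - 2) lam rho hA.ld hL1
    have hn := jn z τ W i (fun S => u S - 2) lam rho hA.ld hL1 0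
    have r : aR a W 0 := hR.2 ⟨h1, by omega⟩
    have lf : ¬ aL a b W 0 := fun h => by have := hL.1 h; omega
    have bt : aB b W 0 := hB.2 ⟨h1, h2⟩
    have tp : ¬ aT a b W 0 := fun h => by have := hT.1 h; omega
    simp only [r, lf, bt, tp, if_true, if_false, jI_I, hδ] at hi hv
    have hW2 : W.val * l ≤ b * l := Nat.mul_le_mul_right l h2
    have hW3 : l ≤ W.val * l := by
      calc l = 1 * l := (one_mul l).symm
        _ ≤ W.val * l := Nat.mul_le_mul_right l h1
    have hda : (W.val - a) * l = 0 := by
      rw [Nat.sub_eq_zero_of_le (by omega), zero_mul]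
    have hC0 : C1 + C2 = 0 := by
      have g1 := hi 0
      have g2 := hv (0 + e p l W)
      simp only [bz, bz1, off_self, hda] at hn
      have o4 : off 0 ((p : ZMod (p * l)) * τ) = δ := by
        unfold off
        rw [sub_zero]
      rw [o4] at hn
      rw [ZMod.val_zero] at g1
      rw [zero_add] at g2 hn
      rw [eWv] at g2
      split_ifs at hn g1 g2 <;> omega
    refine ⟨fun X => lam X + C1, fun S => rho S - C1, shift _ W lam rho hL1 C1, ?_⟩
    obtain ⟨X0, hX0⟩ := hA.ei
    obtain ⟨S0, hS0⟩ := hA.eu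
    have c1 : c + C1 = 1 := by
      have g1 := hi X0
      have g2 := hv S0
      have g3 := hlam X0
      have g4 := hrho S0
      split_ifs at g1 g2 <;> omega
    refine ⟨fun X => ?_, fun S => ?_, fun X => ?_, fun S => ?_⟩
    · have := hlam X
      show lam X + C1 = 1 ∨ lam X + C1 = 0
      omega
    · have := hrho S
      show rho S - C1 = -1 ∨ rho S - C1 = 0
      omega
    · have := hi X
      show i X = lam X + C1 + _
      linarith
    · have := hv S
      show u S = 2 + (rho S - C1) - _
      linarith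
  · -- (2)
    intro i u hA h1 h2
    obtain ⟨C1, C2, hi, hv⟩ := two z τ hz0 W i (fun S => u S - 2) lam rho hA.ld hL1
    have hn := jn z τ W i (fun S => u S - 2) lam rho hA.ld hL1
      (-((b : ZMod (p * l)) * (l : ZMod (p * l))))
    have r : aR a W 0 := hR.2 ⟨by omega, h2⟩
    have lf : aL a b W 0 := hL.2 ⟨by omega, by omega⟩
    have bt : ¬ aB b W 0 := fun h => by have := hB.1 h; omega
    have tp : ¬ aT a b W 0 := fun h => by have := hT.1 h; omega
    simp only [r, lf, bt, tp, if_true, if_false, jI_I, jI_A, hδ] at hi hv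
    have hW2 : b * l ≤ W.val * l := Nat.mul_le_mul_right l h1.le
    have hda : (W.val - a) * l = 0 := by
      rw [Nat.sub_eq_zero_of_le (by omega), zero_mul]
    have hC0 : C1 + C2 = 0 := by
      have g1 := hi (-((b : ZMod (p * l)) * (l : ZMod (p * l))))
      have g2 := hv (-((b : ZMod (p * l)) * (l : ZMod (p * l))) + e p l W)
      simp only [bz, bz1, hda, o1, o2] at hn
      rw [o3, neg_add_cancel, ZMod.val_zero] at g1
      split_ifs at hn g1 g2 <;> omega
    refine ⟨fun X => lam X + C1, fun S => rho S - C1, shift _ W lam rho hL1 C1, ?_⟩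
    obtain ⟨X0, hX0⟩ := hA.ei
    obtain ⟨S0, hS0⟩ := hA.eu
    have c1 : c + C1 = 2 := by
      have g1 := hi X0
      have g2 := hv S0
      have g3 := hlam X0
      have g4 := hrho S0
      split_ifs at g1 <;> omega
    refine ⟨fun X => ?_, fun S => ?_, fun X => ?_, fun S => ?_⟩
    · have := hlam X
      show lam X + C1 = 2 ∨ lam X + C1 = 1
      omega
    · have := hrho S
      show rho S - C1 = -2 ∨ rho S - C1 = -1
      omega
    · have := hi X
      show i X = lam X + C1 + _ - _
      linarith
    · have := hv S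
      show u S = 2 + (rho S - C1)
      linarith
  · -- (3)
    intro i u hA h1 h2
    obtain ⟨C1, C2, hi, hv⟩ := two z τ hz0 W i (fun S => u S - 2) lam rho hA.ld hL1
    have hn := jn z τ W i (fun S => u S - 2) lam rho hA.ld hL1
      (-((b : ZMod (p * l)) * (l : ZMod (p * l))))
    have r : ¬ aR a W 0 := fun h => by have := hR.1 h; omega
    have lf : aL a b W 0 := hL.2 ⟨by omega, by omega⟩
    have bt : ¬ aB b W 0 := fun h => by have := hB.1 h; omega
    have tp : aT a b W 0 := hT.2 ⟨by omega, by omega⟩
    simp only [r, lf, bt, tp, if_true, if_false, jI_A, jI_E, hδ] at hi hv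
    have hW2 : b * l + l ≤ W.val * l := by
      calc b * l + l = (b + 1) * l := by ring
        _ ≤ W.val * l := Nat.mul_le_mul_right l (by omega)
    have hW3 : a * l + l ≤ W.val * l := by
      calc a * l + l = (a + 1) * l := by ring
        _ ≤ W.val * l := Nat.mul_le_mul_right l (by omega)
    have hda : (W.val - a) * l = W.val * l - a * l := hsubl _ _
    have hW4 : W.val = a + b ∨ W.val * l + l ≤ a * l + b * l := by
      rcases Nat.lt_or_ge W.val (a + b) with h | h
      · right
        calc W.val * l + l = (W.val + 1) * l := by ring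
          _ ≤ (a + b) * l := Nat.mul_le_mul_right l h
          _ = _ := by ring
      · left
        omega
    have hW5 : W.val * l ≤ a * l + b * l := by
      calc W.val * l ≤ (a + b) * l := Nat.mul_le_mul_right l h2
        _ = _ := by ring
    have o5 : (-((b : ZMod (p * l)) * (l : ZMod (p * l))) + e p l W -
        (a : ZMod (p * l)) * (l : ZMod (p * l))).val =
        if W.val = a + b then 0 else p * l - (a * l + b * l - W.val * l) := by
      have e2 : e p l W = ((W.val * l : ℕ) : ZMod (p * l)) := by
        unfold e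
        rw [Nat.mul_comm l W.val]
      split_ifs with h
      · rw [e2, h, ZMod.val_eq_zero]
        push_cast
        ring
      · have e1 : -((b : ZMod (p * l)) * (l : ZMod (p * l))) + e p l W -
            (a : ZMod (p * l)) * (l : ZMod (p * l)) =
            ((p * l - (a * l + b * l - W.val * l) : ℕ) : ZMod (p * l)) := by
          rw [Nat.cast_sub (by omega), Nat.cast_sub (by omega), ZMod.natCast_self, e2]
          push_cast
          ring
        rw [e1, ZMod.val_natCast, Nat.mod_eq_of_lt]
        rcases hW4 with h6 | h6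
        · exact absurd h6 h
        · omega
    have hWe : W.val = a + b → W.val * l = a * l + b * l := by
      intro h
      rw [h]
      ring
    have hC0 : C1 + C2 = 0 := by
      have g1 := hi (-((b : ZMod (p * l)) * (l : ZMod (p * l))))
      have g2 := hv (-((b : ZMod (p * l)) * (l : ZMod (p * l))) + e p l W)
      simp only [bz, bz1, hda, o1, o2] at hn
      rw [neg_add_cancel, ZMod.val_zero] at g1
      rw [o5] at g2
      split_ifs at hn g1 g2 <;> omega
    refine ⟨fun X => lam X + C1, fun S => rho S - C1, shift _ W lam rho hL1 C1, ?_⟩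
    obtain ⟨X0, hX0⟩ := hA.ei
    obtain ⟨S0, hS0⟩ := hA.eu
    have c1 : c + C1 = 2 := by
      have g1 := hi X0
      have g2 := hv S0
      have g3 := hlam X0
      have g4 := hrho S0
      split_ifs at g1 g2 <;> omega
    refine ⟨fun X => ?_, fun S => ?_, fun X => ?_, fun S => ?_⟩
    · have := hlam X
      show lam X + C1 = 2 ∨ lam X + C1 = 1
      omega
    · have := hrho S
      show rho S - C1 = -2 ∨ rho S - C1 = -1
      omega
    · have := hi X
      show i X = lam X + C1 - _
      linarith
    · have := hv S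
      show u S = 2 + (rho S - C1) + _
      linarith
  · -- (4)
    intro h
    obtain ⟨i, v, hA⟩ := aLDX p l a b hP z W (fun X S => hC.hF X W S)
    obtain ⟨C1, C2, hi, hv⟩ := two z τ hz0 W i v lam rho hA hL1
    have hn := jn z τ W i v lam rho hA hL1 0
    have r : ¬ aR a W 0 := fun h => by have := hR.1 h; omega
    have lf : ¬ aL a b W 0 := fun h => by have := hL.1 h; omega
    have bt : ¬ aB b W 0 := fun h => by have := hB.1 h; omega
    have tp : ¬ aT a b W 0 := fun h => by have := hT.1 h; omega
    simp only [r, lf, bt, tp, if_false] at hi hv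
    have hC0 : C1 + C2 = 0 := by
      have g1 := hi 0
      have g2 := hv (0 + e p l W)
      have n1 : ¬ box l a b z 0 0 (0 + e p l W) := by
        rw [bz]
        rcases h with h | h
        · rw [h, zero_mul]
          omega
        · intro h6
          have : b * l + l ≤ (W.val - a) * l := by
            calc b * l + l = (b + 1) * l := by ring
              _ ≤ _ := Nat.mul_le_mul_right l (by omega)
          omega
      have n2 : ¬ box l a b (z1 z τ) 0 0 (0 + e p l W) := by
        rw [bz1]
        rcases h with h | h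
        · rw [h, zero_mul]
          omega
        · intro h6
          have : b * l + l ≤ (W.val - a) * l := by
            calc b * l + l = (b + 1) * l := by ring
              _ ≤ _ := Nat.mul_le_mul_right l (by omega)
          omega
      rw [if_neg n1, if_neg n2] at hn
      linarith
    refine ⟨i, v, c + C1, hA, fun X => ?_, fun S => ?_⟩
    · have := hlam X
      have := hi X
      omega
    · have := hrho S
      have := hv S
      omega

end Helper11.LV
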