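import Pool.Agent.Helper11.LV.StD
import Pool.Agent.Helper11.N1.All

set_option autoImplicit false

/-!
# E1: a normal level if there are no chains from a bottom to a top
-/

namespace Helper11.LV

open Helper11.N1

namespace E1aux

section

variable {p l a b k : ℕ} [NeZero p] [NeZero l]

/-- stepping down from a small distance -/
theorem off_step {M : ℕ} [NeZero M] (c w g : ZMod M) (B : ℕ) (hg : g - c = w)
    (h1 : 1 ≤ w.val) (h2 : w.val ≤ B) : off (c + 1) g < B := by
  have hw := ZMod.val_lt w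
  have h3 : g - (c + 1) = w - ((1 : ℕ) : ZMod M) := by
    rw [← hg]; push_cast; ring
  have h4 : (w - ((1 : ℕ) : ZMod M)).val = w.val - 1 := by
    rw [NBaux.val_sub_nat w 1 (by omega), if_pos h1]
  unfold off
  rw [h3, h4]
  omega

/-- no level with `i ≤ 1` -/
theorem noAB (hca : StCA) (htb : StTB) (z : ZMod p → ZMod (p * l)) (ρ : ZMod p)
    (τ : ZMod (p * l)) (hC : CC p l a b k z ρ τ) (hbk : b + k ≤ a) (hHM : HM l a b k z)
    (hyp : b ≤ a % (b + k) ∨ p ≤ a / (b + k) * l) (W : ZMod p) (i u : ZMod (p * l) → ℤ)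
    (hA : AB l a b z W i u) (hi : ∀ X, i X ≤ 1) : False := by
  obtain ⟨-, ca2, -, -, -, -, ca7, -⟩ := hca p l a b k z ρ τ hC
  obtain ⟨S, hS⟩ := hA.eu
  obtain ⟨hb1, hb2⟩ := htb p l a b k z hC.toTC hbk hHM W i u hA hi
  obtain ⟨x, hx, -⟩ := hb1 S hS
  obtain ⟨h1, h2, -⟩ := hb2 x hx
  obtain ⟨-, h3, -⟩ := hx
  have hyp2 : p ≤ a / (b + k) * l := by
    rcases hyp with h | h
    · omega
    · exact h
  obtain ⟨v, hv, hxv⟩ := ca2 x
  have key : ∀ s : ℕ, s ≤ a / (b + k) → s * l ≤ v := by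
    intro s
    induction s with
    | zero => intro _; simp
    | succ s ih =>
      intro hs
      have ih' := ih (by omega)
      have h4 := h2 s (by omega)
      have h5 : x - (s : ZMod p) * hh p b k = ((v - s * l : ℕ) : ZMod p) * ρ := by
        rw [Nat.cast_sub ih', hxv, ← hC.hlr]
        push_cast
        ring
      rw [h5] at h4
      have h6 := (ca7 (v - s * l) (by omega)).1 h4
      have h7 : (s + 1) * l = s * l + l := by ring
      omega
  have := key _ (le_refl _)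
  omega

/-- a box right below a level which is not normal -/
theorem core (hca : StCA) (htyp : StTYP) (hta : StTA) (htb : StTB) (z : ZMod p → ZMod (p * l))
    (ρ : ZMod p) (τ : ZMod (p * l)) (hC : CC p l a b k z ρ τ) (hbk : b + k ≤ a)
    (hHM : HM l a b k z) (hyp : b ≤ a % (b + k) ∨ p ≤ a / (b + k) * l)
    (hN : ∀ W, ¬ Nrm l a b z W) (n0 : ℕ) (hn0 : n0 < l) (g : ZMod p) :
    ¬ off (z ((n0 : ZMod p) * ρ) + 1) (z g) < b * l := by
  obtain ⟨-, -, -, -, -, -, ca7, -⟩ := hca p l a b k z ρ τ hC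
  have hlp := hC.hlp
  have hP := hC.toTC.hP
  have ha := hP.ha
  have hb := hP.hb
  have hab := hP.hab
  have hl2 := hC.toTC.hl2
  obtain ⟨q1, q2, q3, q4⟩ := NBaux.prods hP
  set x : ZMod p := (n0 : ZMod p) * ρ with hx
  obtain ⟨lam, rho, hLD⟩ := aLDX p l a b hP z (x + 1) (fun X S => hC.toTC.hF X (x + 1) S)
  have hdd : dd (x + 1) x = 1 := by
    unfold dd
    rw [add_sub_cancel_left]
    have h1 : (1 : ZMod p) = ((1 : ℕ) : ZMod p) := by norm_cast
    rw [h1, ZMod.val_natCast, Nat.mod_eq_of_lt (by omega)]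
  rcases htyp p l a b k z hC.toTC (x + 1) lam rho hLD with h | h
  · obtain ⟨c, hc1, hc2⟩ := h
    exact absurd ⟨lam, rho, c, hLD, hc1, hc2⟩ (hN (x + 1))
  · obtain ⟨i, u, c, hA, -, -, -, -, hor, -, -⟩ := h
    rcases hor with hu | hi
    · obtain ⟨ta1, -, -, -, ta5, -⟩ := hta p l a b k z hC.toTC hbk (x + 1) i u hA hu
      have hbox : box l a b z x (z x) (z x + e p l (x + 1)) := by
        have hd : (x + 1 - x).val = 1 := hdd
        rw [((bl p l a b hP z (x + 1) x).1 (z x)), off_self, hd]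
        refine ⟨?_, ?_, ?_⟩
        · rw [Nat.sub_eq_zero_of_le (by omega)]; omega
        · omega
        · omega
      have h1 := ta1 (z x) x hbox (by rw [hdd]; omega)
      refine ta5 (z x) x hbox h1.1 (by rw [hdd]; omega) ⟨by rw [hdd], by rw [hdd]; omega, ?_⟩ g
      intro hT
      have h2 := (ca7 n0 (by omega)).1 hT
      omega
    · exact (noAB hca htb z ρ τ hC hbk hHM hyp (x + 1) i u hA hi).elim

end

end E1aux

theorem e1 : StCA → StTYP → StTA → StTB → StPIG → StE1 := by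
  intro hca htyp hta htb hpig p l a b k _ _ z ρ τ hC hbk hHM hyp
  by_contra hne
  have hN : ∀ W, ¬ Nrm l a b z W := fun W hW => hne ⟨W, hW⟩
  obtain ⟨⟨hz0, -⟩, -⟩ := hca p l a b k z ρ τ hC
  have hlp := hC.hlp
  have hl2 := hC.toTC.hl2
  have hz := hC.hz
  refine hpig p l a b k z ρ τ hC ?_ ?_
  · rintro n hn1 hn2 ⟨h1, h2⟩
    have h3 := E1aux.core hca htyp hta htb z ρ τ hC hbk hHM hyp hN 0 (by omega)
      ((n : ZMod p) * ρ)
    apply h3
    rw [Nat.cast_zero, zero_mul, hz0, hz n hn2]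
    exact E1aux.off_step 0 _ _ _ (by rw [sub_zero]) h1 h2
  · rintro n hn1 hn2 ⟨h1, h2⟩
    have h3 := E1aux.core hca htyp hta htb z ρ τ hC hbk hHM hyp hN (l - 1) (by omega)
      (((l - 1 - n : ℕ) : ZMod p) * ρ)
    apply h3
    rw [hz (l - 1) (by omega), hz (l - 1 - n) (by omega)]
    refine E1aux.off_step _ _ _ _ ?_ h1 h2
    rw [Nat.cast_sub (show n ≤ l - 1 by omega)]
    ring

end Helper11.LV
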