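import Pool.Agent.Helper11.LV.StD
import Pool.Agent.Helper11.N1.All

set_option autoImplicit false
set_option linter.unusedSectionVars false

/-!
Project LV, module E2: a normal level, second case.
-/

namespace Helper11.LV

open Helper11.N1

namespace E2aux

section

variable {p l a b k : ℕ} [NeZero p] [NeZero l] {z : ZMod p → ZMod (p * l)} {ρ : ZMod p}
  {τ : ZMod (p * l)}

theorem row_sub (hC : CC p l a b k z ρ τ) {n s : ℕ} (h : s * l ≤ n) :
    ((n - s * l : ℕ) : ZMod p) * ρ = (n : ZMod p) * ρ - (s : ZMod p) * hh p b k := by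
  rw [Nat.cast_sub h, ← hC.hlr]
  push_cast
  ring

theorem z_sub (hC : CC p l a b k z ρ τ) {n s : ℕ} (hn : n < p) (h : s * l ≤ n) :
    z (((n - s * l : ℕ) : ZMod p) * ρ) =
      z ((n : ZMod p) * ρ) + ((s * (b * l) : ℕ) : ZMod (p * l)) := by
  rw [hC.hz _ (by omega), hC.hz n hn, Nat.cast_sub h]
  push_cast
  linear_combination (-(s : ZMod (p * l))) * hC.hlt

/-- indices of chains -/
theorem idx_chain (hC : CC p l a b k z ρ τ)
    (hTL : ∀ n : ℕ, n < p → (TL l b k z ((n : ZMod p) * ρ) ↔ l ≤ n)) {v : ℕ} (hv : v < p) (m : ℕ)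
    (h : ∀ s < m, TL l b k z ((v : ZMod p) * ρ - (s : ZMod p) * hh p b k)) : m * l ≤ v := by
  induction m with
  | zero => rw [Nat.zero_mul]; exact Nat.zero_le _
  | succ m ih =>
    have h1 := ih fun s hs => h s (by omega)
    have h2 := h m (by omega)
    rw [← row_sub hC h1, hTL _ (by omega)] at h2
    rw [Nat.succ_mul]
    omega

theorem dd_of {W x : ZMod p} {d : ℕ} (hd : d < p) (h : W = x + (d : ZMod p)) : dd W x = d := by
  unfold dd
  rw [h, add_sub_cancel_left, ZMod.val_natCast, Nat.mod_eq_of_lt hd]

end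

end E2aux

open E2aux in
/-- module E2 -/
theorem e2 : StCA → StTYP → StJV → StNB → StCOV → StTA → StTB → StTCB → StPIG → StE2 := by
  intro hCA hTYP hJV hNB hCOV hTA hTB hTCB hPIG p l a b k _ _ z ρ τ hC hba hHM hr hml hc1
  classical
  obtain ⟨-, hrow, hsc, hlσ, -, hσ, hTL, -, -, -, -, -⟩ := hCA p l a b k z ρ τ hC
  have hT := hC.toTC
  obtain ⟨hl1, hal, hbl, hM⟩ := NBaux.prods hT.hP
  have hab := hT.hP.hab
  have ha2 := hT.hP.ha
  have hb2 := hT.hP.hb
  have hk1 := hT.hk
  have hl2 := hT.hl2
  have hlp := hC.hlp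
  set m := a / (b + k) with hm
  set r := a % (b + k) with hrdef
  have ham : m * (b + k) + r = a := by
    rw [hm, hrdef, mul_comm]
    exact Nat.div_add_mod a (b + k)
  have hm1 : 1 ≤ m := by
    rw [hm]
    exact (Nat.one_le_div_iff (by omega)).2 hba
  obtain ⟨m', hm'⟩ : ∃ m', m = m' + 1 := ⟨m - 1, by omega⟩
  -- the boxes
  have hYl : ∀ s, s ≤ m → s * l ≤ p - 1 := fun s hs => by
    have := Nat.mul_le_mul_right l hs
    omega
  set Y : ℕ → ZMod p := fun s => (((p - 1) - s * l : ℕ) : ZMod p) * ρ with hY
  have hYrow : ∀ s, s ≤ m → Y s = ((p - 1 : ℕ) : ZMod p) * ρ - (s : ZMod p) * hh p b k :=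
    fun s hs => row_sub hC (hYl s hs)
  have hY0 : Y 0 = ((p - 1 : ℕ) : ZMod p) * ρ := by
    rw [hYrow 0 (by omega), Nat.cast_zero, zero_mul, sub_zero]
  have hYs : ∀ s, s + 1 ≤ m → Y s = Y (s + 1) + hh p b k := by
    intro s hs
    rw [hYrow s (by omega), hYrow (s + 1) hs]
    push_cast
    ring
  have hYz : ∀ s, s ≤ m → z (Y s) = z (Y 0) + ((s * (b * l) : ℕ) : ZMod (p * l)) := by
    intro s hs
    rw [hY0]
    exact z_sub hC (by omega) (hYl s hs)
  have hYTL : ∀ s, s + 1 ≤ m → TL l b k z (Y s) := by
    intro s hs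
    have h1 := hYl (s + 1) hs
    rw [Nat.succ_mul] at h1
    exact (hTL _ (by omega)).2 (by omega)
  obtain ⟨W, hW⟩ : ∃ W : ZMod p, W = Y 0 + ((b + k + r + 1 : ℕ) : ZMod p) := ⟨_, rfl⟩
  have hYd : ∀ s, s + 1 ≤ m → dd W (Y s) = r + 1 + (s + 1) * (b + k) := by
    intro s hs
    have h1 : (s + 1) * (b + k) ≤ m * (b + k) := Nat.mul_le_mul_right _ hs
    apply dd_of (by omega)
    rw [hW, hY0, hYrow s (by omega)]
    unfold hh
    push_cast
    ring
  -- the box `f`
  obtain ⟨f, hf⟩ : ∃ f : ZMod p, f = ((l - 1 : ℕ) : ZMod p) * ρ := ⟨_, rfl⟩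
  have hfY : f = Y 0 + hh p b k := by
    rw [hf, hY0, Nat.cast_sub hl1, Nat.cast_sub (by omega), ← hC.hlr, ZMod.natCast_self]
    push_cast
    ring
  have hfTL : ¬ TL l b k z f := by
    rw [hf, hTL _ (by omega)]
    omega
  have hfd : dd W f = r + 1 := by
    apply dd_of (by omega)
    rw [hW, hfY]
    unfold hh
    push_cast
    ring
  by_contra hno
  obtain ⟨lam, rho, hLD⟩ := (ldx (lj bl) dec) p l a b hT.hP z W (hT.hF · W ·)
  rcases hTYP p l a b k z hT W lam rho hLD with ⟨c, h1, h2⟩ | ⟨i, u, c, hA, -, -, hi2, hu2, hui,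
    -, -⟩
  · exact hno ⟨W, lam, rho, c, hLD, h1, h2⟩
  have nb := hNB p l a b k z hT hba W i (fun S => u S - 2) hA.ld
  obtain ⟨c1, c2, c3, c4, c5, c6, c7⟩ := hCOV p l a b k z hT hba W i u hA
  -- the line point at distance `l` in `Y s`
  have hYbox : ∀ s, s + 1 ≤ m → ∀ t : ℕ, l ≤ t → t < b * l →
      box l a b z (Y s) (z (Y s) - (t : ZMod (p * l)))
        (z (Y s) - (t : ZMod (p * l)) + e p l W) := by
    intro s hs t ht1 ht2
    rw [(bl p l a b hT.hP z W (Y s)).1, off_nat' _ (by omega)]
    have h1 : (s + 1) * (b + k) ≤ m * (b + k) := Nat.mul_le_mul_right _ hs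
    have h2 := hYd s hs
    unfold dd at h2
    rw [h2]
    have h3 : r + 1 + (s + 1) * (b + k) - a ≤ 1 := by omega
    have h4 : b * l ≤ (r + 1 + (s + 1) * (b + k)) * l := by
      apply Nat.mul_le_mul_right
      have : 1 * (b + k) ≤ (s + 1) * (b + k) := Nat.mul_le_mul_right _ (by omega)
      omega
    have h5 := Nat.mul_le_mul_right l h3
    omega
  have hYL : ∀ s, s + 1 + 1 ≤ m → ¬ eL l a b k z W (Y (s + 1)) := by
    rintro s hs ⟨-, -, h3⟩
    have h4 := h3 (by rw [← hYs s (by omega)]; exact hYTL s (by omega))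
    rw [hYd (s + 1) hs] at h4
    have : 2 * (b + k) ≤ (s + 1 + 1) * (b + k) := Nat.mul_le_mul_right _ (by omega)
    omega
  have hY0L : eL l a b k z W (Y 0) := by
    have h1 := hYd 0 hm1
    have h2 : 1 * (b + k) ≤ m * (b + k) := Nat.mul_le_mul_right _ hm1
    refine ⟨by omega, by omega, fun h3 => ?_⟩
    rw [← hfY] at h3
    exact absurd h3 hfTL
  rcases hui with hu1 | hi1
  · -- `u ≤ 1`
    obtain ⟨t1, t2, t3, t4, t5, t6⟩ := hTA p l a b k z hT hba W i u hA hu1
    refine hPIG p l a b k z ρ τ hC ?_ ?_
    · -- first hypothesis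
      have key : ∀ s, s + 1 ≤ m → ∃ X, box l a b z (Y (m' - s)) X (X + e p l W) ∧ i X = 1 := by
        intro s
        induction s with
        | zero =>
          intro _
          have h1 := hYbox m' (by omega) l le_rfl (by
            have := Nat.mul_le_mul_right l hb2
            omega)
          have h2 := hYd m' (by omega)
          rw [← hm', ] at h2
          exact ⟨_, h1, (t2 _ _ h1 (by omega)).1⟩
        | succ s ih =>
          intro hs
          obtain ⟨X, hX, hiX⟩ := ih (by omega)
          obtain ⟨q, hq⟩ : ∃ q, m' - s = q + 1 := ⟨m' - s - 1, by omega⟩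
          have hq' : m' - (s + 1) = q := by omega
          rw [hq] at hX
          rw [hq']
          obtain ⟨-, -, -, -, n5, -, -, -⟩ := nb _ X hX
          have h1 := hYd (q + 1) (by omega)
          have h2 : 1 * (b + k) ≤ (q + 1 + 1) * (b + k) := Nat.mul_le_mul_right _ (by omega)
          obtain ⟨-, -, -, -, m5, m6, -⟩ := n5 (by omega) (hYL q (by omega))
          rw [← hYs q (by omega)] at m5
          exact ⟨_, m5, by rw [m6, hiX]⟩
      obtain ⟨X, hX, hiX⟩ := key m' (by omega)
      rw [Nat.sub_self] at hX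
      have h1 := hYd 0 hm1
      intro n hn1 hnp ⟨h2, h3⟩
      have h4 := t6 X (Y 0) hX hiX (by omega) hY0L (((p - 1 - n : ℕ) : ZMod p) * ρ)
      apply h4
      have h5 : z (((p - 1 - n : ℕ) : ZMod p) * ρ) - (z (Y 0) - b * l) =
          ((b * l - ((n : ZMod (p * l)) * τ).val : ℕ) : ZMod (p * l)) := by
        rw [hY0, hC.hz _ (by omega), hC.hz _ (by omega), Nat.cast_sub h3, ZMod.natCast_zmod_val,
          Nat.cast_sub (by omega)]
        push_cast
        ring
      rw [NBaux.off_cast _ _ (by omega) h5]
      omega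
    · -- second hypothesis
      have hfb : box l a b z f (z f) (z f + e p l W) := by
        rw [(bl p l a b hT.hP z W f).1, off_self]
        unfold dd at hfd
        rw [hfd]
        refine ⟨?_, by omega, Nat.mul_pos (by omega) hl1⟩
        have : r + 1 - a = 0 := by omega
        rw [this, Nat.zero_mul]
      have h1 := (t1 _ _ hfb (by omega)).1
      have hfR : eR l a b k z W f := ⟨by omega, by omega, fun h => absurd h hfTL⟩
      intro n hn1 hnl ⟨h2, h3⟩
      have h4 := t5 _ _ hfb h1 (by omega) hfR (((l - 1 - n : ℕ) : ZMod p) * ρ)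
      apply h4
      have h5 : z (((l - 1 - n : ℕ) : ZMod p) * ρ) - (z f + 1) =
          (((-((n : ZMod (p * l)) * τ)).val - 1 : ℕ) : ZMod (p * l)) := by
        rw [hf, hC.hz _ (by omega), hC.hz _ (by omega), Nat.cast_sub h2, ZMod.natCast_zmod_val,
          Nat.cast_sub (by omega)]
        push_cast
        ring
      rw [NBaux.off_cast _ _ (by omega) h5]
      omega
  · -- `i ≤ 1`
    have hQ : ∀ s, s + 1 ≤ m → ∀ X, box l a b z (Y s) X (X + e p l W) →
        i X = 0 ∧ u (X + e p l W) = 1 := by
      intro s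
      induction s with
      | zero =>
        intro _ X hX
        obtain ⟨-, -, -, n4, -, -, -, -⟩ := nb _ X hX
        have h1 := (n4 hY0L.1 hY0L).1
        have h2 := hi1 (z (Y 0) - b * l)
        rcases c3 X _ hX with h3 | h3
        · exact h3
        · omega
      | succ s ih =>
        intro hs X hX
        have h1 := hYbox s (by omega) l le_rfl (by
          have := Nat.mul_le_mul_right l hb2
          omega)
        have h2 := ih (by omega) _ h1
        obtain ⟨-, -, -, -, -, -, n7, -⟩ := nb _ _ h1
        have h3 := hYd s (by omega)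
        have h4 : (s + 1 + 1) * (b + k) ≤ m * (b + k) := Nat.mul_le_mul_right _ hs
        have h5 : (s + 1 + 1) * (b + k) = (s + 1) * (b + k) + (b + k) := Nat.succ_mul _ _
        obtain ⟨-, -, -, m4, m5, -⟩ := n7 (by omega) (by
          rintro ⟨-, -, h6⟩
          have h7 := h6 (hYTL s (by omega))
          omega)
        obtain ⟨m5, m6⟩ := m5 (by omega)
        have h6 : Y s - hh p b k = Y (s + 1) := by
          rw [hYs s (by omega), add_sub_cancel_right]
        rw [h6] at m5
        obtain ⟨-, n2, -⟩ := nb _ _ m5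
        obtain ⟨h7, h8⟩ := n2 X hX
        have m6' : u (z (Y s) + 1 + e p l W) - 2 =
          u (z (Y s) - (l : ZMod (p * l)) + e p l W) - 2 := m6
        have h8' : u (X + e p l W) - 2 = u (z (Y s) + 1 + e p l W) - 2 := h8
        exact ⟨by rw [h7, m4, h2.1], by omega⟩
    -- the last columns
    obtain ⟨ζ, hζ⟩ : ∃ ζ, ζ = z (Y m') := ⟨_, rfl⟩
    have hlbl : l < b * l := by
      have := Nat.mul_le_mul_right l hb2
      omega
    have hdm : dd W (Y m') = a + 1 := by
      have h2 := hYd m' (by omega)
      rw [← hm'] at h2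
      omega
    have hXs : i (ζ - l + 1) = 0 ∧ u (ζ - l + 1 + e p l W) = 2 := by
      have h1 := hYbox m' (by omega) l le_rfl hlbl
      obtain ⟨-, -, -, -, -, -, -, n8⟩ := nb _ _ h1
      obtain ⟨h2, h3⟩ := n8 (by omega)
      have h4 := hQ m' (by omega) _ h1
      have h5 : dd W (Y m') - a = 1 := by omega
      rw [h5, Nat.one_mul, ← hζ] at h3
      have h6 : u (sc l z (Y m') + a * l + 1) - 2 =
        u (z (Y m') - (l : ZMod (p * l)) + e p l W) - 2 + 1 := h2
      have h7 : ζ - l + 1 + e p l W = sc l z (Y m') + a * l + 1 := by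
        rw [hζ, NBaux.eW W (Y m')]
        unfold dd at hdm
        rw [hdm]
        unfold sc
        push_cast
        ring
      rw [h7]
      rw [hζ] at h3 ⊢
      exact ⟨by rw [h3, h4.1], by omega⟩
    obtain ⟨j1, j2, j3⟩ := hJV p l a b k z hT W i (fun S => u S - 2) hA.ld
    have hlast : ∀ c : ℕ, c ≤ l → i (ζ - l + 1 + (c : ZMod (p * l))) = 0 := by
      intro c
      induction c with
      | zero =>
        intro _
        rw [Nat.cast_zero, add_zero]
        exact hXs.1
      | succ c ih =>
        intro hc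
        have h1 := ih (by omega)
        have h2 : i (ζ - l + 1 + (c : ZMod (p * l)) + 1) =
            i (ζ - l + 1 + (c : ZMod (p * l))) := by
          apply j3
          · intro x hx hzx
            have h3 : ζ - l + 1 = z x - (c : ZMod (p * l)) := by rw [hzx]; ring
            have h4 : box l a b z x (ζ - l + 1) (ζ - l + 1 + e p l W) := by
              rw [(bl p l a b hT.hP z W x).1, h3, off_nat' _ (by omega)]
              obtain ⟨h5, h6, -⟩ := hx
              unfold dd at h5 h6
              have h7 : (W - x).val - a = 0 := by omega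
              have h8 : 1 * l ≤ (W - x).val * l := Nat.mul_le_mul_right _ h5
              rw [h7, Nat.zero_mul]
              omega
            have h9 := c3 _ _ h4
            have h10 := hXs.1
            have h11 := hXs.2
            omega
          · intro y hy hzy
            have h3 := j2 y hy
            rw [hzy, h1] at h3
            have h4 := hA.i0 (ζ - l + 1 + (c : ZMod (p * l)) + 1)
            omega
        rw [Nat.cast_succ, ← add_assoc, h2, h1]
    have hYζ : ∀ s, s ≤ m' → z (Y (m' - s)) = ζ - ((s * (b * l) : ℕ) : ZMod (p * l)) := by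
      intro s hs
      rw [hζ, hYz (m' - s) (by omega), hYz m' (by omega), Nat.sub_mul, Nat.cast_sub
        (Nat.mul_le_mul_right _ hs)]
      ring
    have hcol : ∀ t : ℕ, t < m * (b * l) → i (ζ - (t : ZMod (p * l))) = 0 := by
      intro t ht
      rcases lt_or_ge t l with h1 | h1
      · have h2 := hlast (l - 1 - t) (by omega)
        have h3 : ζ - l + 1 + ((l - 1 - t : ℕ) : ZMod (p * l)) = ζ - (t : ZMod (p * l)) := by
          rw [Nat.cast_sub (by omega), Nat.cast_sub hl1]
          push_cast
          ring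
        rw [h3] at h2
        exact h2
      · rcases lt_or_ge t (b * l) with h2 | h2
        · have h3 := hYbox m' (by omega) t h1 h2
          rw [hζ]
          exact (hQ m' (by omega) _ h3).1
        · obtain ⟨s, t', hs, ht'⟩ : ∃ s t', t = s * (b * l) + t' ∧ t' < b * l :=
            ⟨t / (b * l), t % (b * l), by rw [mul_comm]; exact (Nat.div_add_mod _ _).symm,
              Nat.mod_lt _ (by omega)⟩
          have hs1 : 1 ≤ s := by
            by_contra h
            have : s = 0 := by omega
            rw [this, Nat.zero_mul] at hs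
            omega
          have hsm : s ≤ m' := by
            by_contra h
            have : m * (b * l) ≤ s * (b * l) := Nat.mul_le_mul_right _ (by omega)
            omega
          have h3 : ζ - (t : ZMod (p * l)) = z (Y (m' - s)) - (t' : ZMod (p * l)) := by
            rw [hYζ s hsm, hs]
            push_cast
            ring
          have h4 : m' - s + 1 ≤ m := by omega
          have h5 := hYd (m' - s) h4
          have h6 : (m' - s + 1) * (b + k) + (b + k) ≤ m * (b + k) := by
            rw [← Nat.succ_mul]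
            exact Nat.mul_le_mul_right _ (by omega)
          have h7 : box l a b z (Y (m' - s)) (z (Y (m' - s)) - (t' : ZMod (p * l)))
              (z (Y (m' - s)) - (t' : ZMod (p * l)) + e p l W) := by
            rw [(bl p l a b hT.hP z W _).1, off_nat' _ (by omega)]
            unfold dd at h5
            rw [h5]
            have h8 : r + 1 + (m' - s + 1) * (b + k) - a = 0 := by omega
            have h9 : b * l ≤ (r + 1 + (m' - s + 1) * (b + k)) * l := by
              apply Nat.mul_le_mul_right
              have : 1 * (b + k) ≤ (m' - s + 1) * (b + k) := Nat.mul_le_mul_right _ (by omega)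
              omega
            rw [h8, Nat.zero_mul]
            omega
          rw [h3]
          exact (hQ _ h4 _ h7).1
    have hcol' : ∀ n : ℕ, n ≤ m * (b * l) → i (ζ + 1 - (n : ZMod (p * l))) = 0 := by
      intro n hn
      rcases Nat.eq_zero_or_pos n with h1 | h1
      · have h2 := hlast l le_rfl
        have h3 : ζ - l + 1 + (l : ZMod (p * l)) = ζ + 1 - (n : ZMod (p * l)) := by
          rw [h1, Nat.cast_zero]
          ring
        rwa [h3] at h2
      · have h2 := hcol (n - 1) (by omega)
        have h3 : ζ - ((n - 1 : ℕ) : ZMod (p * l)) = ζ + 1 - (n : ZMod (p * l)) := by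
          rw [Nat.cast_sub h1]
          push_cast
          ring
        rwa [h3] at h2
    -- a good box
    obtain ⟨S, hS⟩ := hA.eu
    obtain ⟨b1, b2⟩ := hTB p l a b k z hT hba hHM W i u hA hi1
    obtain ⟨x, hx, -⟩ := b1 S hS
    obtain ⟨-, g2, -, -, g5⟩ := b2 x hx
    obtain ⟨d1, d2, d3⟩ := hTCB p l a b k z hT hba hHM W i u hA hi1 x hx
    have hz0 := hcol' 0 (Nat.zero_le _)
    rw [Nat.cast_zero, sub_zero] at hz0
    obtain ⟨f', hf'⟩ := d1 (ζ + 1) hz0
    have hoff := (d2 (ζ + 1) f' hz0 hf').2
    obtain ⟨-, -, d4, d5⟩ := d3 (ζ + 1) f' (m * (b * l)) (fun n' hn' => hcol' n' hn') hf'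
    have hofl : off (ζ + 1) (z f') < b * l := hf'.1
    have hbl0 : 0 < b * l := by omega
    have hq : (off (ζ + 1) (z f') + m * (b * l)) / (b * l) = m := by
      rw [Nat.add_mul_div_right _ _ hbl0, Nat.div_eq_of_lt hofl, Nat.zero_add]
    rw [hq] at d4 d5
    rw [← hm] at hoff
    have hoff' : off (sc l z f') (sc l z x) = m * (k * l) := by
      have : m * k * l = m * (k * l) := by ring
      omega
    -- indices
    obtain ⟨v, hv, hxv⟩ := hrow x
    obtain ⟨n', hn', hgn⟩ := hrow (f' + (m : ZMod p) * hh p b k)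
    have hmv : m * l ≤ v := by
      apply idx_chain hC hTL hv
      intro s hs
      rw [← hxv]
      exact g2 s hs
    have hmn : m * l ≤ n' := by
      apply idx_chain hC hTL hn'
      intro s hs
      rw [← hgn]
      have h1 := d5 (m - s) (by omega) (by omega)
      rw [Nat.cast_sub (by omega)] at h1
      have h2 : f' + (m : ZMod p) * hh p b k - (s : ZMod p) * hh p b k =
        f' + ((m : ZMod p) - (s : ZMod p)) * hh p b k := by ring
      rw [h2]
      exact h1
    have hf'n : f' = ((n' - m * l : ℕ) : ZMod p) * ρ := by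
      rw [row_sub hC hmn, ← hgn]
      ring
    have hscx : sc l z x = sc l z f' + ((m * (k * l) : ℕ) : ZMod (p * l)) := by
      rw [← hoff', off_spec]
    rw [hxv, hf'n, hsc v hv, hsc _ (by omega)] at hscx
    have hz1 : (((v : ℤ) - n' : ℤ) : ZMod (p * l)) * (τ + e p l ρ) =
        ((0 : ℤ) : ZMod (p * l)) * l := by
      rw [Nat.cast_sub hmn] at hscx
      push_cast at hscx hlσ ⊢
      linear_combination hscx + (m : ZMod (p * l)) * (-1 : ZMod (p * l)) * hlσ
    obtain ⟨c1', hc1', hdvd⟩ := hσ _ _ hz1
    rw [sub_zero] at hdvd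
    have hcz : c1' = 0 := by
      by_contra hne
      have hle : ∀ c : ℕ, 1 ≤ c → (p : ℤ) ∣ (c : ℤ) * k → p ≤ (c + m) * l := by
        intro c hc hd
        exact hc1 c hc (by exact_mod_cast hd)
      rcases lt_or_gt_of_ne hne with h | h
      · obtain ⟨c, hc⟩ := Int.eq_ofNat_of_zero_le (show 0 ≤ -c1' by omega)
        have h1 := hle c (by omega) (by
          rw [← hc, neg_mul]
          exact (dvd_neg).2 hdvd)
        have h2 : (n' : ℤ) = v + l * c := by
          rw [← hc]
          linear_combination -hc1'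
        have h3 : n' = v + l * c := by exact_mod_cast h2
        have h4 : (c + m) * l = l * c + m * l := by ring
        omega
      · obtain ⟨c, hc⟩ := Int.eq_ofNat_of_zero_le (show 0 ≤ c1' by omega)
        have h1 := hle c (by omega) (by rw [← hc]; exact hdvd)
        have h2 : (v : ℤ) = n' + l * c := by
          rw [← hc]
          linear_combination hc1'
        have h3 : v = n' + l * c := by exact_mod_cast h2
        have h4 : (c + m) * l = l * c + m * l := by ring
        omega
    have hvn : v = n' := by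
      rw [hcz, mul_zero] at hc1'
      omega
    -- the column `z x`
    have h1 := hcol' (m * (b * l) - off (ζ + 1) (z f')) (by omega)
    have h2 : ζ + 1 - ((m * (b * l) - off (ζ + 1) (z f') : ℕ) : ZMod (p * l)) = z x := by
      have h3 : b * l ≤ m * (b * l) := by
        have := Nat.mul_le_mul_right (b * l) hm1
        omega
      have h4 : z f' = z x + ((m * (b * l) : ℕ) : ZMod (p * l)) := by
        rw [hf'n, hxv, hvn]
        exact z_sub hC hn' hmn
      have h5 := off_spec (ζ + 1) (z f')
      rw [Nat.cast_sub (by omega)]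
      linear_combination h5 + h4
    rw [h2] at h1
    omega

end Helper11.LV
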