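import Pool.Agent.Helper11.LV.StD
import Pool.Agent.Helper11.N1.All

set_option autoImplicit false
set_option linter.unusedSectionVars false

/-!
# E3: a normal level if `sc` is not injective
-/

namespace Helper11.LV

open Helper11.N1

namespace E3aux

section

variable {p l a b k : ℕ} [NeZero p] [NeZero l]

/-- a column meets at most `p / a` boxes -/
theorem cols (hP : Par p l a b) (z : ZMod p → ZMod (p * l)) (hD : Disj l a b z)
    (X : ZMod (p * l)) (s : Finset (ZMod p)) (hs : ∀ j ∈ s, off X (z j) < b * l) :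
    s.card * a ≤ p := by
  obtain ⟨q1, q2, q3, q4⟩ := NBaux.prods hP
  have hM : ∀ (j : ZMod p) (t : ℕ), t < a * l →
      off (sc l z j + 1) (sc l z j + 1 + (t : ZMod (p * l))) = t :=
    fun j t ht => off_nat _ (by omega)
  have h1 : (s ×ˢ Finset.range (a * l)).card ≤ (Finset.univ : Finset (ZMod (p * l))).card := by
    apply Finset.card_le_card_of_injOn (fun q => sc l z q.1 + 1 + ((q.2 : ℕ) : ZMod (p * l)))
    · intro q _
      exact Finset.mem_coe.2 (Finset.mem_univ _)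
    · intro q hq q' hq' he
      rw [Finset.mem_coe, Finset.mem_product, Finset.mem_range] at hq hq'
      have e1 : sc l z q.1 + 1 + ((q.2 : ℕ) : ZMod (p * l)) =
          sc l z q'.1 + 1 + ((q'.2 : ℕ) : ZMod (p * l)) := he
      have b1 : box l a b z q.1 X (sc l z q.1 + 1 + ((q.2 : ℕ) : ZMod (p * l))) :=
        ⟨hs _ hq.1, by rw [hM _ _ hq.2]; exact hq.2⟩
      have b2 : box l a b z q'.1 X (sc l z q.1 + 1 + ((q.2 : ℕ) : ZMod (p * l))) :=
        ⟨hs _ hq'.1, by rw [e1, hM _ _ hq'.2]; exact hq'.2⟩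
      have e2 := hD _ _ _ _ b1 b2
      have e3 : q.2 = q'.2 := by
        rw [← hM q.1 q.2 hq.2, e1, ← e2, hM q.1 q'.2 hq'.2]
      exact Prod.ext e2 e3
  rw [Finset.card_product, Finset.card_range, Finset.card_univ, ZMod.card] at h1
  have h2 : (s.card * a) * l ≤ p * l := by
    calc (s.card * a) * l = s.card * (a * l) := by ring
      _ ≤ p * l := h1
  exact Nat.le_of_mul_le_mul_right h2 (by omega)

/-- going along the progression -/
theorem y_succ {ρ : ZMod p} (hlr : (l : ZMod p) * ρ = hh p b k) (v s : ℕ) :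
    ((v + (s + 1) * l : ℕ) : ZMod p) * ρ = ((v + s * l : ℕ) : ZMod p) * ρ + hh p b k := by
  rw [← hlr]
  push_cast
  ring

theorem z_succ {z : ZMod p → ZMod (p * l)} {ρ : ZMod p} {τ : ZMod (p * l)}
    (hC : CC p l a b k z ρ τ) (v s : ℕ) (h : v + (s + 1) * l < p) :
    z (((v + (s + 1) * l : ℕ) : ZMod p) * ρ) = z (((v + s * l : ℕ) : ZMod p) * ρ) - b * l := by
  have h1 : (s + 1) * l = s * l + l := by ring
  rw [hC.hz _ h, hC.hz _ (by omega)]
  have h2 := hC.hlt
  have h3 : ((v + (s + 1) * l : ℕ) : ZMod (p * l)) * τ =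
      ((v + s * l : ℕ) : ZMod (p * l)) * τ + (l : ZMod (p * l)) * τ := by
    push_cast
    ring
  rw [h3, h2]
  ring

/-- counting -/
theorem count (hP : Par p l a b) (z : ZMod p → ZMod (p * l)) (hD : Disj l a b z)
    (ρ : ZMod p) (hρ : IsUnit ρ) (m : ℕ) (hm : (m + 1) * l < p)
    (hcl : ∀ v : ℕ, v + (m + 1) * l < p → ∃ n : ℕ, n < l ∧
      1 ≤ (z ((v : ZMod p) * ρ) - z ((n : ZMod p) * ρ)).val ∧
      (z ((v : ZMod p) * ρ) - z ((n : ZMod p) * ρ)).val < b * l) :
    (p - m * l) * a ≤ l * p := by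
  classical
  obtain ⟨q1, q2, q3, q4⟩ := NBaux.prods hP
  choose! N hN1 hN2 hN3 using hcl
  set V := Finset.range (p - (m + 1) * l) with hV
  have hVm : ∀ v ∈ V, v + (m + 1) * l < p := by
    intro v hv
    rw [hV, Finset.mem_range] at hv
    omega
  have hinj : ∀ u v : ℕ, u < p → v < p → (u : ZMod p) * ρ = (v : ZMod p) * ρ → u = v := by
    intro u v hu hv he
    exact NBaux.cast_inj hu hv (hρ.mul_left_injective he)
  have h1 : ∀ n ∈ Finset.range l, ((V.filter fun v => N v = n).card + 1) * a ≤ p := by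
    intro n hn
    rw [Finset.mem_range] at hn
    have h2 : ((n : ZMod p) * ρ) ∉ (V.filter fun v => N v = n).image
        (fun v : ℕ => (v : ZMod p) * ρ) := by
      intro hmem
      rw [Finset.mem_image] at hmem
      obtain ⟨v, hv, hve⟩ := hmem
      rw [Finset.mem_filter] at hv
      have h3 := hN2 v (hVm v hv.1)
      rw [hv.2, hve, sub_self, ZMod.val_zero] at h3
      omega
    have h3 : (insert ((n : ZMod p) * ρ) ((V.filter fun v => N v = n).image
        (fun v : ℕ => (v : ZMod p) * ρ))).card = (V.filter fun v => N v = n).card + 1 := by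
      rw [Finset.card_insert_of_notMem h2, Finset.card_image_of_injOn]
      intro u hu v hv he
      rw [Finset.mem_coe, Finset.mem_filter] at hu hv
      have := hVm u hu.1
      have := hVm v hv.1
      exact hinj u v (by omega) (by omega) he
    rw [← h3]
    apply cols hP z hD (z ((n : ZMod p) * ρ))
    intro j hj
    rw [Finset.mem_insert, Finset.mem_image] at hj
    rcases hj with hj | ⟨v, hv, hve⟩
    · rw [hj, off_self]
      omega
    · rw [Finset.mem_filter] at hv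
      have h4 := hN3 v (hVm v hv.1)
      rw [hv.2] at h4
      rw [← hve]
      exact h4
  have h2 := Finset.sum_le_sum h1
  rw [Finset.sum_const, Finset.card_range, smul_eq_mul, ← Finset.sum_mul,
    Finset.sum_add_distrib, Finset.sum_const, Finset.card_range, smul_eq_mul, mul_one,
    ← Finset.card_eq_sum_card_fiberwise] at h2
  · rw [hV, Finset.card_range] at h2
    have h3 : p - (m + 1) * l + l = p - m * l := by
      have h4 : (m + 1) * l = m * l + l := by ring
      omega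
    rw [h3] at h2
    exact h2
  · intro v hv
    rw [Finset.mem_coe] at hv ⊢
    rw [Finset.mem_range]
    exact hN1 v (hVm v hv)

/-- the distances of the boxes `x_v + s h` at the level `x_v + a + b` -/
theorem ddy {z : ZMod p → ZMod (p * l)} {ρ : ZMod p} {τ : ZMod (p * l)}
    (hC : CC p l a b k z ρ τ) (v s : ℕ) (hs : s * (b + k) ≤ a + b) :
    dd ((v : ZMod p) * ρ + ((a + b : ℕ) : ZMod p)) (((v + s * l : ℕ) : ZMod p) * ρ) =
      a + b - s * (b + k) := by
  have hab := hC.toTC.hP.hab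
  unfold dd
  have h1 : (v : ZMod p) * ρ + ((a + b : ℕ) : ZMod p) - ((v + s * l : ℕ) : ZMod p) * ρ =
      ((a + b - s * (b + k) : ℕ) : ZMod p) := by
    rw [Nat.cast_sub hs]
    have h2 : ((v + s * l : ℕ) : ZMod p) * ρ = (v : ZMod p) * ρ + (s : ZMod p) *
        hh p b k := by
      rw [← hC.hlr]
      push_cast
      ring
    rw [h2]
    unfold hh
    push_cast
    ring
  rw [h1, ZMod.val_natCast, Nat.mod_eq_of_lt (by omega)]

/-- numbers -/
theorem nums {s : ℕ} (hs1 : 1 ≤ s) (hs2 : s ≤ a / (b + k)) :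
    b + k ≤ s * (b + k) ∧ s * (b + k) + a % (b + k) ≤ a ∧
    (s < a / (b + k) → s * (b + k) + (b + k) + a % (b + k) ≤ a) ∧
    (s = a / (b + k) → s * (b + k) + a % (b + k) = a) := by
  have h1 : a / (b + k) * (b + k) + a % (b + k) = a := Nat.div_add_mod' a (b + k)
  have h2 : s * (b + k) ≤ a / (b + k) * (b + k) := Nat.mul_le_mul_right _ hs2
  have h3 : 1 * (b + k) ≤ s * (b + k) := Nat.mul_le_mul_right _ hs1
  refine ⟨by omega, by omega, ?_, ?_⟩
  · intro h
    have h4 : (s + 1) * (b + k) ≤ a / (b + k) * (b + k) := Nat.mul_le_mul_right _ h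
    have h5 : (s + 1) * (b + k) = s * (b + k) + (b + k) := by ring
    omega
  · intro h
    rw [← h] at h1
    exact h1

/-- the box `x_v + s h` and its sides -/
theorem facts {z : ZMod p → ZMod (p * l)} {ρ : ZMod p} {τ : ZMod (p * l)}
    (hC : CC p l a b k z ρ τ) (hr1 : 1 ≤ a % (b + k)) (hr2 : a % (b + k) ≤ k)
    (v : ℕ) (hv : v + (a / (b + k) + 1) * l < p) (s : ℕ) (hs1 : 1 ≤ s)
    (hs2 : s ≤ a / (b + k)) (W : ZMod p) (hW : W = (v : ZMod p) * ρ + ((a + b : ℕ) : ZMod p)) :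
    dd W (((v + s * l : ℕ) : ZMod p) * ρ) = a + b - s * (b + k) ∧
    (∀ X, off X (z (((v + s * l : ℕ) : ZMod p) * ρ)) < b * l →
      box l a b z (((v + s * l : ℕ) : ZMod p) * ρ) X (X + e p l W)) ∧
    TL l b k z (((v + s * l : ℕ) : ZMod p) * ρ) ∧
    ¬ eR l a b k z W (((v + s * l : ℕ) : ZMod p) * ρ) ∧
    (s < a / (b + k) → ¬ eL l a b k z W (((v + s * l : ℕ) : ZMod p) * ρ)) ∧
    (s = a / (b + k) → eL l a b k z W (((v + s * l : ℕ) : ZMod p) * ρ)) := by
  subst hW
  have hP := hC.toTC.hP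
  obtain ⟨n1, n2, n3, n4⟩ := nums (a := a) (b := b) (k := k) hs1 hs2
  have hd := ddy hC v s (by omega)
  have hT : ∀ t : ℕ, t ≤ a / (b + k) →
      TL l b k z (((v + (t + 1) * l : ℕ) : ZMod p) * ρ) := by
    intro t ht
    have h1 : (t + 1) * l ≤ (a / (b + k) + 1) * l := Nat.mul_le_mul_right l (by omega)
    have h2 := z_succ hC v t (by omega)
    unfold TL
    rw [h2, y_succ hC.hlr v t]
    have h3 : ((v + t * l : ℕ) : ZMod p) * ρ + hh p b k - hh p b k =
        ((v + t * l : ℕ) : ZMod p) * ρ := by ring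
    rw [h3]
    ring
  have hTs : TL l b k z (((v + s * l : ℕ) : ZMod p) * ρ) := by
    obtain ⟨t, rfl⟩ : ∃ t, s = t + 1 := ⟨s - 1, by omega⟩
    exact hT t (by omega)
  refine ⟨hd, ?_, hTs, ?_, ?_, ?_⟩
  · intro X hX
    rw [(bl p l a b hP z _ _).1 X]
    have hd' : ((v : ZMod p) * ρ + ((a + b : ℕ) : ZMod p) -
        ((v + s * l : ℕ) : ZMod p) * ρ).val = a + b - s * (b + k) := hd
    rw [hd']
    refine ⟨?_, hX, ?_⟩
    · rw [Nat.sub_eq_zero_of_le (by omega)]
      omega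
    · have h1 : b * l ≤ (a + b - s * (b + k)) * l := Nat.mul_le_mul_right l (by omega)
      omega
  · rintro ⟨-, -, h3⟩
    have h4 := h3 hTs
    rw [hd] at h4
    omega
  · rintro h ⟨-, -, h3⟩
    rw [← y_succ hC.hlr v s] at h3
    have h4 := h3 (hT s hs2)
    rw [hd] at h4
    have := n3 h
    omega
  · intro h
    have := n4 h
    refine ⟨?_, ?_, ?_⟩
    · rw [hd]
      omega
    · rw [hd]
      omega
    · intro _
      rw [hd]
      omega

/-- the values on the chain -/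
theorem chain (hnb : StNB) {z : ZMod p → ZMod (p * l)} {ρ : ZMod p} {τ : ZMod (p * l)}
    (hC : CC p l a b k z ρ τ) (hbk : b + k ≤ a) (hr1 : 1 ≤ a % (b + k))
    (hr2 : a % (b + k) ≤ k) (v : ℕ)
    (hv : v + (a / (b + k) + 1) * l < p) (i u : ZMod (p * l) → ℤ) (W : ZMod p)
    (hW : W = (v : ZMod p) * ρ + ((a + b : ℕ) : ZMod p))
    (hA : AB l a b z W i u) :
    ∀ s : ℕ, s < a / (b + k) → ∀ X : ZMod (p * l),
      off X (z (((v + (s + 1) * l : ℕ) : ZMod p) * ρ)) < b * l →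
      i X = i (z (((v + l : ℕ) : ZMod p) * ρ)) ∧
      u (X + e p l W) = u (z (((v + l : ℕ) : ZMod p) * ρ) + e p l W) := by
  have hP := hC.toTC.hP
  obtain ⟨q1, q2, q3, q4⟩ := NBaux.prods hP
  have hone : v + (0 + 1) * l = v + l := by ring
  intro s
  induction s with
  | zero =>
    intro hs X hX
    obtain ⟨f1, f2, f3, f4, f5, f6⟩ := facts hC hr1 hr2 v hv (0 + 1) (by omega) (by omega) W hW
    have hb0 := f2 (z (((v + (0 + 1) * l : ℕ) : ZMod p) * ρ)) (by rw [off_self]; omega)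
    obtain ⟨-, g2, -⟩ := hnb p l a b k z hC.toTC hbk W i (fun S => u S - 2) hA.ld _ _ hb0
    obtain ⟨g3, g4⟩ := g2 X (f2 X hX)
    rw [hone] at g3 g4
    refine ⟨g3, ?_⟩
    have g5 : u (X + e p l W) - 2 = u (z (((v + l : ℕ) : ZMod p) * ρ) + e p l W) - 2 := g4
    omega
  | succ s ih =>
    intro hs X hX
    obtain ⟨f1, f2, f3, f4, f5, f6⟩ := facts hC hr1 hr2 v hv (s + 1) (by omega) (by omega) W hW
    obtain ⟨e1, e2, e3, e4, e5, e6⟩ :=
      facts hC hr1 hr2 v hv (s + 1 + 1) (by omega) (by omega) W hW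
    obtain ⟨n1, n2, n3, n4⟩ := nums (a := a) (b := b) (k := k) (s := s + 1) (by omega)
      (by omega)
    have hb0 := f2 (z (((v + (s + 1) * l : ℕ) : ZMod p) * ρ)) (by rw [off_self]; omega)
    have ih0 := ih (by omega) (z (((v + (s + 1) * l : ℕ) : ZMod p) * ρ))
      (by rw [off_self]; omega)
    obtain ⟨-, -, -, -, g5, -⟩ :=
      hnb p l a b k z hC.toTC hbk W i (fun S => u S - 2) hA.ld _ _ hb0
    obtain ⟨-, -, -, -, g7, g8, g9⟩ := g5 (by rw [f1]; have := n3 hs; omega) (f5 hs)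
    have g9' : u (z (((v + (s + 1) * l : ℕ) : ZMod p) * ρ) - b * l + e p l W) - 2 =
        u (z (((v + (s + 1) * l : ℕ) : ZMod p) * ρ) + e p l W) - 2 := g9
    rw [← y_succ hC.hlr v (s + 1)] at g7
    obtain ⟨-, k2, -⟩ := hnb p l a b k z hC.toTC hbk W i (fun S => u S - 2) hA.ld _ _ g7
    obtain ⟨k3, k4⟩ := k2 X (e2 X hX)
    have k4' : u (X + e p l W) - 2 =
        u (z (((v + (s + 1) * l : ℕ) : ZMod p) * ρ) - b * l + e p l W) - 2 := k4
    exact ⟨by rw [k3, g8, ih0.1], by omega⟩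

/-- what the chain gives -/
theorem chain2 (hnb : StNB) (hcov : StCOV) {z : ZMod p → ZMod (p * l)} {ρ : ZMod p}
    {τ : ZMod (p * l)}
    (hC : CC p l a b k z ρ τ) (hbk : b + k ≤ a) (hr1 : 1 ≤ a % (b + k))
    (hr2 : a % (b + k) ≤ k) (v : ℕ)
    (hv : v + (a / (b + k) + 1) * l < p) (i u : ZMod (p * l) → ℤ) (W : ZMod p)
    (hW : W = (v : ZMod p) * ρ + ((a + b : ℕ) : ZMod p))
    (hA : AB l a b z W i u) (Y : ZMod (p * l)) (hY : Y = z (((v + l : ℕ) : ZMod p) * ρ)) :
    i (Y + 1) = i Y ∧ u (Y + 1 + e p l W) = u (Y + e p l W) + 1 ∧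
    (∀ t : ℕ, t < a / (b + k) * (b * l) → i (Y - (t : ZMod (p * l))) = i Y) ∧
    i (z (((v + (a / (b + k) + 1) * l : ℕ) : ZMod p) * ρ)) = i Y + 1 ∧
    ((i Y = 0 ∧ u (Y + e p l W) = 1) ∨ (i Y = 1 ∧ u (Y + e p l W) = 0)) := by
  have hP := hC.toTC.hP
  obtain ⟨q1, q2, q3, q4⟩ := NBaux.prods hP
  have hm1 : 1 ≤ a / (b + k) := Nat.div_pos hbk (by have := hP.hb; omega)
  have hone : v + 1 * l = v + l := by ring
  have hch := chain hnb hC hbk hr1 hr2 v hv i u W hW hA
  obtain ⟨f1, f2, f3, f4, f5, f6⟩ := facts hC hr1 hr2 v hv 1 (by omega) hm1 W hW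
  rw [hone, ← hY] at f2
  rw [hone] at f1 f3 f4 f5 f6
  have hb0 := f2 Y (by rw [off_self]; omega)
  obtain ⟨n1, n2, n3, n4⟩ := nums (a := a) (b := b) (k := k) (s := 1) (by omega) hm1
  obtain ⟨-, -, -, -, -, -, g7, -⟩ :=
    hnb p l a b k z hC.toTC hbk W i (fun S => u S - 2) hA.ld _ _ hb0
  obtain ⟨-, -, -, g8, -, g9⟩ := g7 (by rw [f1]; omega) f4
  have g9' := g9 (by rw [f1]; omega)
  have g10 : u (z (((v + l : ℕ) : ZMod p) * ρ) + 1 + e p l W) - 2 =
      u (Y + e p l W) - 2 + 1 := g9'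
  rw [← hY] at g8 g10
  obtain ⟨-, -, c3, -⟩ := hcov p l a b k z hC.toTC hbk W i u hA
  refine ⟨g8, by omega, ?_, ?_, c3 Y _ hb0⟩
  · -- columns
    have hzs : ∀ s : ℕ, s ≤ a / (b + k) → z (((v + (s + 1) * l : ℕ) : ZMod p) * ρ) =
        Y - ((s * (b * l) : ℕ) : ZMod (p * l)) := by
      intro s
      induction s with
      | zero =>
        intro _
        rw [hY]
        have : v + (0 + 1) * l = v + l := by ring
        rw [this]
        simp
      | succ s ih =>
        intro hs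
        have h1 : (s + 1 + 1) * l ≤ (a / (b + k) + 1) * l := Nat.mul_le_mul_right l (by omega)
        rw [z_succ hC v (s + 1) (by omega), ih (by omega)]
        push_cast
        ring
    intro t ht
    have hbl : 0 < b * l := by omega
    have hs : t / (b * l) < a / (b + k) := Nat.div_lt_of_lt_mul (by rw [mul_comm]; exact ht)
    have h1 := hch (t / (b * l)) hs (Y - (t : ZMod (p * l))) (by
      have h2 : z (((v + (t / (b * l) + 1) * l : ℕ) : ZMod p) * ρ) =
          Y - (t : ZMod (p * l)) + ((t % (b * l) : ℕ) : ZMod (p * l)) := by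
        rw [hzs _ hs.le]
        have h3 : t = t / (b * l) * (b * l) + t % (b * l) := (Nat.div_add_mod' t (b * l)).symm
        have h4 : (t : ZMod (p * l)) = ((t / (b * l) * (b * l) : ℕ) : ZMod (p * l)) +
            ((t % (b * l) : ℕ) : ZMod (p * l)) := by
          rw [← Nat.cast_add, ← h3]
        rw [h4]
        ring
      have h5 : t % (b * l) < b * l := Nat.mod_lt _ hbl
      rw [h2, off_nat _ (by omega)]
      exact h5)
    rw [h1.1, ← hY]
  · -- the left end
    obtain ⟨mm, hmm⟩ : ∃ mm, a / (b + k) = mm + 1 := ⟨a / (b + k) - 1, by omega⟩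
    obtain ⟨e1, e2, e3, e4, e5, e6⟩ :=
      facts hC hr1 hr2 v hv (a / (b + k)) hm1 le_rfl W hW
    have hb1 := e2 (z (((v + a / (b + k) * l : ℕ) : ZMod p) * ρ)) (by rw [off_self]; omega)
    obtain ⟨-, -, -, k4, -⟩ :=
      hnb p l a b k z hC.toTC hbk W i (fun S => u S - 2) hA.ld _ _ hb1
    obtain ⟨m1, m2, m3, m4⟩ := nums (a := a) (b := b) (k := k) (s := a / (b + k)) hm1 le_rfl
    have k5 := (k4 (by rw [e1]; have := m4 rfl; omega) (e6 rfl)).1
    have h1 := hch mm (by omega) (z (((v + (mm + 1) * l : ℕ) : ZMod p) * ρ))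
      (by rw [off_self]; omega)
    rw [← hmm, ← hY] at h1
    rw [z_succ hC v (a / (b + k)) hv, k5, h1.1]

/-- the claim -/
theorem claim (hca : StCA) (htyp : StTYP) (hnb : StNB) (hcov : StCOV) (hta : StTA)
    (htb : StTB) (htcb : StTCB) (htr : StTR) {z : ZMod p → ZMod (p * l)} {ρ : ZMod p}
    {τ : ZMod (p * l)}
    (hC : CC p l a b k z ρ τ) (hbk : b + k ≤ a) (hHM : HM l a b k z)
    (hr1 : 1 ≤ a % (b + k)) (hr2 : a % (b + k) ≤ k)
    (hN : ∀ W, ¬ Nrm l a b z W) (v : ℕ)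
    (hv : v + (a / (b + k) + 1) * l < p) :
    ∃ n : ℕ, n < l ∧ 1 ≤ (z ((v : ZMod p) * ρ) - z ((n : ZMod p) * ρ)).val ∧
      (z ((v : ZMod p) * ρ) - z ((n : ZMod p) * ρ)).val < b * l := by
  obtain ⟨-, ca2, -, -, -, -, ca7, -⟩ := hca p l a b k z ρ τ hC
  have hP := hC.toTC.hP
  have ha := hP.ha
  have hb := hP.hb
  have hab := hP.hab
  have hk := hC.toTC.hk
  obtain ⟨q1, q2, q3, q4⟩ := NBaux.prods hP
  have hm1 : 1 ≤ a / (b + k) := Nat.div_pos hbk (by omega)
  obtain ⟨W, hW⟩ : ∃ W : ZMod p, W = (v : ZMod p) * ρ + ((a + b : ℕ) : ZMod p) := ⟨_, rfl⟩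
  obtain ⟨Y, hY⟩ : ∃ Y : ZMod (p * l), Y = z (((v + l : ℕ) : ZMod p) * ρ) := ⟨_, rfl⟩
  obtain ⟨lam, rho, hLD⟩ := aLDX p l a b hP z W (fun X S => hC.toTC.hF X W S)
  rcases htyp p l a b k z hC.toTC W lam rho hLD with h | h
  · obtain ⟨c, hc1, hc2⟩ := h
    exact absurd ⟨lam, rho, c, hLD, hc1, hc2⟩ (hN W)
  obtain ⟨i, u, c, hA, -, -, -, -, hor, hi1, -⟩ := h
  obtain ⟨d1, d2, d3, d4, d5⟩ :=
    chain2 hnb hcov hC hbk hr1 hr2 v hv i u W hW hA Y hY
  obtain ⟨-, -, c3, -⟩ := hcov p l a b k z hC.toTC hbk W i u hA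
  rcases hor with hu | hi
  · -- `u ≤ 1`
    exfalso
    obtain ⟨-, -, -, ta4, -⟩ := hta p l a b k z hC.toTC hbk W i u hA hu
    have h1 := hu (Y + 1 + e p l W)
    have h2 : i (z (((v + (a / (b + k) + 1) * l : ℕ) : ZMod p) * ρ)) = 2 := by
      rcases d5 with h | h
      · omega
      · omega
    refine ta4 _ (((v + (a / (b + k) + 1) * l : ℕ) : ZMod p) * ρ) h2 ?_
    rw [off_self]
    omega
  -- `i ≤ 1`
  have hY0 : i Y = 0 := by
    have h1 := hi (z (((v + (a / (b + k) + 1) * l : ℕ) : ZMod p) * ρ))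
    rcases d5 with h | h
    · exact h.1
    · omega
  have hY1 : u (Y + e p l W) = 1 := by
    rcases d5 with h | h
    · exact h.2
    · omega
  obtain ⟨n0, j, r1, r2, r3, r4, r5, r6⟩ :=
    htr p l a b k z hC.toTC hbk W i u hA hi1 (Y + 1) (by rw [d1, hY0])
  -- the columns to the left of `z j`
  have hcol : ∀ n' : ℕ, n' ≤ a / (b + k) * (b * l) + n0 →
      i (z j - (n' : ZMod (p * l))) = 0 := by
    intro n' hn'
    rw [r2]
    rcases le_or_gt n' n0 with h | h
    · have h1 : Y + 1 + (n0 : ZMod (p * l)) - (n' : ZMod (p * l)) =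
          Y + 1 + ((n0 - n' : ℕ) : ZMod (p * l)) := by
        rw [Nat.cast_sub h]
        ring
      rw [h1]
      exact r1 _ (by omega)
    · have h1 : Y + 1 + (n0 : ZMod (p * l)) - (n' : ZMod (p * l)) =
          Y - ((n' - n0 - 1 : ℕ) : ZMod (p * l)) := by
        rw [Nat.cast_sub (by omega), Nat.cast_sub (by omega)]
        push_cast
        ring
      rw [h1, d3 _ (by omega), hY0]
  -- a good box
  obtain ⟨S, hS⟩ := hA.eu
  obtain ⟨tb1, -⟩ := htb p l a b k z hC.toTC hbk hHM W i u hA hi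
  obtain ⟨x, hx, -⟩ := tb1 S hS
  obtain ⟨t1, t2, t3⟩ := htcb p l a b k z hC.toTC hbk hHM W i u hA hi x hx
  have hzj0 : i (z j) = 0 := by
    have := hcol 0 (by omega)
    rwa [Nat.cast_zero, sub_zero] at this
  obtain ⟨f, hf⟩ := t1 (z j) hzj0
  have h2 := (t2 (z j) f hzj0 hf).2
  have h3 := (t3 (z j) f (a / (b + k) * (b * l) + n0) hcol hf).2.2.1
  have hn0 : n0 < b * l := by
    by_contra hcon
    push Not at hcon
    have h4 : (a / (b + k) + 1) ≤ (off (z j) (z f) + (a / (b + k) * (b * l) + n0)) / (b * l) := by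
      rw [Nat.le_div_iff_mul_le (by omega)]
      have h5 : (a / (b + k) + 1) * (b * l) = a / (b + k) * (b * l) + b * l := by ring
      omega
    have h5 : (a / (b + k) + 1) * (k * l) ≤ a / (b + k) * k * l :=
      (Nat.mul_le_mul_right _ h4).trans (h3.trans h2)
    have h6 : (a / (b + k) + 1) * (k * l) = a / (b + k) * k * l + k * l := by ring
    have h7 : 0 < k * l := Nat.mul_pos (by omega) (by omega)
    omega
  -- the box `x_v`
  have hzv : z ((v : ZMod p) * ρ) = z j + ((b * l - 1 - n0 : ℕ) : ZMod (p * l)) := by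
    have h4 := z_succ hC v 0 (by
      have h5 : (0 + 1) * l ≤ (a / (b + k) + 1) * l := Nat.mul_le_mul_right l (by omega)
      omega)
    have h5 : v + (0 + 1) * l = v + l := by ring
    have h6 : v + 0 * l = v := by ring
    rw [h5, h6, ← hY] at h4
    rw [r2, h4, Nat.cast_sub (by omega), Nat.cast_sub (by omega)]
    push_cast
    ring
  have hs0 : 1 ≤ b * l - 1 - n0 := by
    by_contra hcon
    have h4 : b * l - 1 - n0 = 0 := by omega
    rw [h4, Nat.cast_zero, add_zero] at hzv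
    have h5 := hC.toTC.hinj hzv
    have h6 := ddy hC v 0 (by omega)
    have h7 : v + 0 * l = v := by ring
    rw [h7, h5, ← h5, ← hW, h5] at h6
    have h8 := r3.2.1
    omega
  have hval : (z ((v : ZMod p) * ρ) - z j).val = b * l - 1 - n0 := by
    rw [hzv, add_sub_cancel_left, ZMod.val_natCast, Nat.mod_eq_of_lt (by omega)]
  have hnT : ¬ TL l b k z j := by
    intro hT
    obtain ⟨s1, s2, s3⟩ := r3
    have s4 := s3 hT
    have hbox : box l a b z j (Y + 1) (Y + 1 + e p l W) := by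
      have h4 : off (Y + 1) (z j) = n0 := by
        rw [r2, off_nat _ (by omega)]
      rw [(bl p l a b hP z W j).1 (Y + 1), h4]
      have h5 : (W - j).val = dd W j := rfl
      rw [h5]
      have h6 : b * l ≤ dd W j * l := Nat.mul_le_mul_right l (by omega)
      refine ⟨?_, hn0, by omega⟩
      rw [Nat.sub_eq_zero_of_le s2]
      omega
    rcases c3 (Y + 1) j hbox with h | h <;> omega
  obtain ⟨n, hn, hjn⟩ := ca2 j
  have hnl : n < l := by
    by_contra hcon
    rw [hjn] at hnT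
    exact hnT ((ca7 n hn).2 (by omega))
  refine ⟨n, hnl, ?_, ?_⟩
  · rw [← hjn, hval]
    exact hs0
  · rw [← hjn, hval]
    omega

end

end E3aux

theorem e3 : StCA → StTYP → StNB → StCOV → StTA → StTB → StTCB → StTR → StE3 := by
  intro hca htyp hnb hcov hta htb htcb htr p l a b k _ _ z ρ τ hC hbk hHM hr1 hr2 hex
  by_contra hne
  have hN : ∀ W, ¬ Nrm l a b z W := fun W hW => hne ⟨W, hW⟩
  obtain ⟨c1, hc1, hc2, hc3⟩ := hex
  have hP := hC.toTC.hP
  have hl2 := hC.toTC.hl2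
  have hk2 := hC.toTC.hk2
  have h1 : (a / (b + k) + 1) * l ≤ (c1 + a / (b + k)) * l :=
    Nat.mul_le_mul_right l (by omega)
  have h2 := E3aux.count hP z hC.toTC.hD ρ hC.hρ (a / (b + k)) (by omega)
    (fun v hv => E3aux.claim hca htyp hnb hcov hta htb htcb htr hC hbk hHM hr1 hr2 hN v hv)
  have hk := hC.toTC.hk
  have h3 : p ≤ c1 * k := Nat.le_of_dvd (Nat.mul_pos (by omega) (by omega)) hc2
  have h4 : c1 * k < c1 * a := Nat.mul_lt_mul_of_pos_left hk2 (by omega)
  have h5 : c1 * l + 1 ≤ p - a / (b + k) * l := by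
    have h6 : (c1 + a / (b + k)) * l = c1 * l + a / (b + k) * l := by ring
    omega
  have h6 : (c1 * l + 1) * a ≤ (p - a / (b + k) * l) * a := Nat.mul_le_mul_right a h5
  have h7 : l * (p + 1) ≤ l * (c1 * a) := Nat.mul_le_mul_left l (by omega)
  have h8 : (c1 * l + 1) * a = l * (c1 * a) + a := by ring
  have h9 : l * (p + 1) = l * p + l := by ring
  omega

end Helper11.LV
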