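import Pool.Agent.Helper11.LV.Sc
import Pool.Agent.Helper11.N1.All

set_option autoImplicit false

/-!
# JH: the jumps of `rho`
-/

namespace Helper11.LV

open Helper11.N1

namespace JHaux

open Helper11.N1.NBaux

section

variable {p l a b k : ℕ} [NeZero p] [NeZero l] {z : ZMod p → ZMod (p * l)}

/-- there are no active letters `B x` and `T y` at the same place -/
theorem key (hND : StND) (h : TC p l a b k z) (hba : b + k ≤ a) (W x y : ZMod p)
    (hx1 : 1 ≤ dd W x) (hx2 : dd W x ≤ b) (hy1 : a < dd W y) (hy2 : dd W y ≤ a + b)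
    (hS : sc l z y + a * l = sc l z x) : False := by
  obtain ⟨n1, n2⟩ := hND p l a b k z h hba x y hS.symm
  obtain ⟨hq, haq, hbq, hM⟩ := prods h.hP
  have hl : 1 ≤ l := hq
  have hz : z x = z y + a * l - (((dd W y - dd W x) * l : ℕ) : ZMod (p * l)) := by
    have e1 := eW (q := l) W x
    have e2 := eW (q := l) W y
    have e3 : sc l z x = z x + e p l x := rfl
    have e4 : sc l z y = z y + e p l y := rfl
    rw [e3, e4] at hS
    have e5 : (((dd W y - dd W x) * l : ℕ) : ZMod (p * l)) =
        (((W - y).val * l : ℕ) : ZMod (p * l)) - (((W - x).val * l : ℕ) : ZMod (p * l)) := by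
      unfold dd at *
      rw [Nat.sub_mul, Nat.cast_sub (Nat.mul_le_mul_right l (by omega))]
    rw [e5]
    have e6 : e p l x = e p l W - (((W - x).val * l : ℕ) : ZMod (p * l)) := by rw [e1]; ring
    have e7 : e p l y = e p l W - (((W - y).val * l : ℕ) : ZMod (p * l)) := by rw [e2]; ring
    rw [e6, e7] at hS
    linear_combination -hS
  have hbl : 0 < b * l := by omega
  rcases le_or_gt (dd W y - dd W x) a with hc | hc
  · have h1 : (a - (dd W y - dd W x)) * l < b * l := Nat.mul_lt_mul_of_pos_right (by omega) hl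
    have h2 : off (z y) (z x) = (a - (dd W y - dd W x)) * l := off_cast _ _ (by omega) (by
      rw [hz, Nat.sub_mul a, Nat.cast_sub (Nat.mul_le_mul_right l hc)]
      push_cast
      ring)
    omega
  · have h1 : ((dd W y - dd W x) - a) * l < b * l := Nat.mul_lt_mul_of_pos_right (by omega) hl
    have h2 : off (z x) (z y) = ((dd W y - dd W x) - a) * l := off_cast _ _ (by omega) (by
      rw [hz, Nat.sub_mul (dd W y - dd W x), Nat.cast_sub (Nat.mul_le_mul_right l hc.le)]
      push_cast
      ring)
    omega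

end

end JHaux

open JHaux NBaux

theorem jh : StND → StJH := by
  classical
  intro hND p l a b k _ _ z h hba W lam rho hL
  have hrj := hL.rj
  have hB0 : ∀ S, (∀ x, 1 ≤ dd W x → dd W x ≤ b → sc l z x ≠ S) →
      (∑ j : ZMod p, if aB b W j ∧ sc l z j = S then (1 : ℤ) else 0) = 0 := by
    intro S hS
    refine Finset.sum_eq_zero fun j _ => if_neg ?_
    rintro ⟨h1, h2⟩
    rw [aB_iff h.hP] at h1
    exact hS j h1.1 h1.2 h2
  have hT0 : ∀ S, (∀ y, a < dd W y → dd W y ≤ a + b → sc l z y + a * l ≠ S) →
      (∑ j : ZMod p, if aT a b W j ∧ sc l z j + a * l = S then (1 : ℤ) else 0) = 0 := by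
    intro S hS
    refine Finset.sum_eq_zero fun j _ => if_neg ?_
    rintro ⟨h1, h2⟩
    rw [aT_iff h.hP] at h1
    exact hS j h1.1 h1.2 h2
  refine ⟨?_, ?_, ?_⟩
  · intro x hx1 hx2
    have h1 := hrj (sc l z x)
    have h2 : (∑ j : ZMod p, if aB b W j ∧ sc l z j = sc l z x then (1 : ℤ) else 0) = 1 := by
      rw [Finset.sum_eq_single x]
      · exact if_pos ⟨(aB_iff h.hP W x).2 ⟨hx1, hx2⟩, rfl⟩
      · intro j _ hj
        refine if_neg fun hh => hj (bot_uniq h hh.2 ?_ hx2)
        have := (aB_iff h.hP W j).1 hh.1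
        exact this.2
      · intro hh
        exact absurd (Finset.mem_univ _) hh
    have h3 := hT0 (sc l z x) (fun y hy1 hy2 hS => key hND h hba W x y hx1 hx2 hy1 hy2 hS)
    rw [h2] at h1
    rw [h3] at h1
    linarith
  · intro y hy1 hy2
    have h1 := hrj (sc l z y + a * l)
    have h2 : (∑ j : ZMod p, if aT a b W j ∧ sc l z j + a * l = sc l z y + a * l
        then (1 : ℤ) else 0) = 1 := by
      rw [Finset.sum_eq_single y]
      · exact if_pos ⟨(aT_iff h.hP W y).2 ⟨hy1, hy2⟩, rfl⟩
      · intro j _ hj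
        have ht : ¬ (aT a b W j ∧ sc l z j + a * l = sc l z y + a * l) := by
          rintro ⟨hh1, hh2⟩
          have := (aT_iff h.hP W j).1 hh1
          have d1 : dd W j = (W - j).val := rfl
          exact hj (top_uniq (W := W) h (add_right_cancel hh2) (by omega) (by omega) (by omega) (by omega))
        exact if_neg ht
      · intro hh
        exact absurd (Finset.mem_univ _) hh
    have h3 := hB0 (sc l z y + a * l)
      (fun x hx1 hx2 hS => key hND h hba W x y hx1 hx2 hy1 hy2 hS.symm)
    rw [h2] at h1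
    rw [h3] at h1
    linarith
  · intro S hS1 hS2
    have h1 := hrj S
    have h2 := hB0 S hS1
    have h3 := hT0 S hS2
    rw [h2] at h1
    rw [h3] at h1
    linarith

end Helper11.LV
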