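import Pool.Agent.Helper11.LV.StA
import Pool.Agent.Helper11.N1.All

set_option autoImplicit false
set_option linter.unusedSectionVars false

/-!
# JV: the jumps of `lam`
-/

namespace Helper11.LV

open Helper11.N1

namespace JVaux

theorem sum_one {α : Type*} [Fintype α] {P : α → Prop} {inst : DecidablePred P} (i : α) (hi : P i)
    (h : ∀ j, P j → j = i) : (∑ j : α, if P j then (1 : ℤ) else 0) = 1 := by
  classical
  rw [Finset.sum_eq_single i, if_pos hi]
  · intro j _ hj
    rw [if_neg (fun h' => hj (h j h'))]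
  · intro h'
    exact absurd (Finset.mem_univ i) h'

theorem sum_zero {α : Type*} [Fintype α] {P : α → Prop} {inst : DecidablePred P} (h : ∀ j, ¬ P j) :
    (∑ j : α, if P j then (1 : ℤ) else 0) = 0 :=
  Finset.sum_eq_zero fun j _ => if_neg (h j)

variable {p : ℕ} [NeZero p]

theorem dd_sub (W x : ZMod p) (n : ℕ) (hn : n < p) :
    dd W (x - (n : ZMod p)) = if dd W x + n < p then dd W x + n else dd W x + n - p := by
  unfold dd
  have h1 : W - (x - (n : ZMod p)) = (W - x) + (n : ZMod p) := by ring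
  have h2 := ZMod.val_lt (W - x)
  rw [h1, ZMod.val_add, ZMod.val_natCast, Nat.mod_eq_of_lt hn]
  split_ifs with h
  · rw [Nat.mod_eq_of_lt h]
  · rw [Nat.mod_eq_sub_mod (by omega), Nat.mod_eq_of_lt (by omega)]

end JVaux

open JVaux NBaux

theorem jv : StJV := by
  intro p l a b k _ _ z hT W lam rho hL
  have hP := hT.hP
  have hab := hP.hab
  have hk2 := hT.hk2
  have hk1 := hT.hk
  have ha2 := hT.ha2
  have hn : b + k < p := by omega
  have hdd : ∀ x : ZMod p, dd W x < p := fun x => ZMod.val_lt _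
  have hsub : ∀ x : ZMod p, dd W (x - hh p b k) =
      if dd W x + (b + k) < p then dd W x + (b + k) else dd W x + (b + k) - p :=
    fun x => dd_sub W x (b + k) hn
  have hR : ∀ x : ZMod p, aR a W x ↔ 1 ≤ dd W x ∧ dd W x ≤ a := fun x => aR_iff hP W x
  have hLl : ∀ x : ZMod p, aL a b W x ↔ b + 1 ≤ dd W x ∧ dd W x ≤ a + b := fun x => aL_iff hP W x
  have hS1 : ∀ (X : ZMod (p * l)) (i j : ZMod p), (aR a W i ∧ z i = X) → (aR a W j ∧ z j = X) → j = i :=
    fun X i j hi hj => hT.hinj (hj.2.trans hi.2.symm)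
  have hS2 : ∀ (X : ZMod (p * l)) (i j : ZMod p), (aL a b W i ∧ z i - b * l = X) →
      (aL a b W j ∧ z j - b * l = X) → j = i :=
    fun X i j hi hj => hT.hinj (sub_left_inj.1 (hj.2.trans hi.2.symm))
  refine ⟨?_, ?_, ?_⟩
  · intro x hx
    obtain ⟨h1, h2, h3⟩ := hx
    have h4 := hL.lj (z x)
    rw [sum_one x ⟨(hR x).2 ⟨h1, h2⟩, rfl⟩ (fun j hj => hS1 _ _ _ ⟨(hR x).2 ⟨h1, h2⟩, rfl⟩ hj),
      sum_zero] at h4
    · linarith
    · rintro y ⟨hy, hy2⟩
      have h5 := hT.htie x y hy2.symm
      have h6 : y = x - hh p b k := by rw [h5]; ring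
      have h7 : TL l b k z x := by
        unfold TL
        rw [← h6, ← hy2]
        ring
      have h8 := h3 h7
      have h9 := (hLl y).1 hy
      rw [h6, hsub x] at h9
      split_ifs at h9 <;> omega
  · intro y hy
    obtain ⟨h1, h2, h3⟩ := hy
    have h4 := hL.lj (z y - b * l)
    have hy' : aL a b W y := (hLl y).2 ⟨h1, h2⟩
    rw [sum_zero, sum_one y ⟨hy', rfl⟩ (fun j hj => hS2 _ _ _ ⟨hy', rfl⟩ hj)] at h4
    · linarith
    · rintro x ⟨hx, hx2⟩
      have h5 := hT.htie x y hx2
      have h6 : y = x - hh p b k := by rw [h5]; ring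
      have h7 : TL l b k z (y + hh p b k) := by
        unfold TL
        rw [add_sub_cancel_right, ← h5, hx2]
        ring
      have h8 := h3 h7
      have h9 := (hR x).1 hx
      have h10 := hsub x
      rw [← h6] at h10
      split_ifs at h10 <;> omega
  · intro X hX1 hX2
    have h4 := hL.lj X
    by_cases hx : ∃ x, aR a W x ∧ z x = X
    · obtain ⟨x, hx, hxX⟩ := hx
      have h1 := (hR x).1 hx
      have h2 : TL l b k z x ∧ dd W x + k ≤ a := by
        by_contra hc
        refine hX1 x ⟨h1.1, h1.2, fun ht => ?_⟩ hxX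
        by_contra h3
        exact hc ⟨ht, by omega⟩
      obtain ⟨ht, h3⟩ := h2
      have h5 := hsub x
      rw [if_pos (by omega)] at h5
      have h6 : aL a b W (x - hh p b k) := (hLl _).2 ⟨by omega, by omega⟩
      have h7 : z (x - hh p b k) - b * l = X := by
        unfold TL at ht
        rw [ht, ← hxX]
        ring
      rw [sum_one x ⟨hx, hxX⟩ (fun j hj => hS1 _ _ _ ⟨hx, hxX⟩ hj),
        sum_one (x - hh p b k) ⟨h6, h7⟩ (fun j hj => hS2 _ _ _ ⟨h6, h7⟩ hj)] at h4
      linarith
    · rw [sum_zero (fun x hx' => hx ⟨x, hx'⟩), sum_zero] at h4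
      · linarith
      · rintro y ⟨hy, hyX⟩
        have h1 := (hLl y).1 hy
        have h2 : TL l b k z (y + hh p b k) ∧ b + k < dd W y := by
          by_contra hc
          refine hX2 y ⟨h1.1, h1.2, fun ht => ?_⟩ hyX
          by_contra h3
          exact hc ⟨ht, by omega⟩
        obtain ⟨ht, h3⟩ := h2
        have h5 := hsub (y + hh p b k)
        rw [add_sub_cancel_right] at h5
        have h6 := hdd (y + hh p b k)
        have h7 : aR a W (y + hh p b k) := by
          rw [hR]
          split_ifs at h5 <;> omega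
        refine hx ⟨y + hh p b k, h7, ?_⟩
        unfold TL at ht
        rw [add_sub_cancel_right] at ht
        rw [← hyX, ht]
        ring

end Helper11.LV
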