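import Pool.Agent.Helper11.LV.StD
import Pool.Agent.Helper11.N1.All

set_option autoImplicit false

/-!
# Project LV, module LC: all levels of a canonical progression
-/

namespace Helper11.LV

open Helper11.N1

namespace LCaux

/-- the arithmetic of step (0) -/
theorem arith0 {a b k r m : ℕ} (hm : a = (b + k) * m + r) (hr : r < b + k) (hkr : k ≤ r) :
    a < (m + 1) * (b + k) ∧ (m + 1) * (b + k) ≤ a + b ∧ (m + 1) * k ≤ a := by
  refine ⟨?_, ?_, ?_⟩
  · nlinarith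
  · nlinarith
  · nlinarith [Nat.zero_le (b * m)]

/-- step (0): long chains do not exist -/
theorem step0 (hV1 : StV1) {p l a b k : ℕ} [NeZero p] [NeZero l] {z : ZMod p → ZMod (p * l)}
    {ρ : ZMod p} {τ : ZMod (p * l)} (hC : CC p l a b k z ρ τ) (hbk : b + k ≤ a) :
    p ≤ (a / (b + k) + 1) * l ∨ a % (b + k) < k := by
  by_contra hcon
  push Not at hcon
  obtain ⟨h1, h2⟩ := hcon
  have hb := hC.hP.hb
  have hdm := Nat.div_add_mod a (b + k)
  have hr : a % (b + k) < b + k := Nat.mod_lt _ (by omega)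
  obtain ⟨h3, h4, h5⟩ := arith0 hdm.symm hr h2
  exact hV1 p l a b k z ρ τ hC hbk (a / (b + k) + 1) h1 h3 h4 h5

/-- step (1): a normal level of the next window is normal -/
theorem step1 (hTYP : StTYP) (hDIF : StDIF) (hEXS : StEXS) (hPM : StPM) (hPB1 : StPB1)
    (hPB2 : StPB2) (hPT1 : StPT1) (hPT2 : StPT2) {p l a b k : ℕ} [NeZero p] [NeZero l]
    {z : ZMod p → ZMod (p * l)} {ρ : ZMod p} {τ : ZMod (p * l)} (hC : CC p l a b k z ρ τ)
    (hbk : b + k ≤ a) (hHM : HM l a b k z) (W : ZMod p) (hN : Nrm l a b (z1 z τ) W) :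
    Nrm l a b z W := by
  by_cases h0 : W.val = 0 ∨ a + b < W.val
  · exact (hDIF p l a b k z ρ τ hC hbk W hN).2.2.2 h0
  push Not at h0
  obtain ⟨lam, rho, hLD⟩ := aLDX p l a b hC.hP z W (fun X S => hC.hF X W S)
  rcases hTYP p l a b k z hC.toTC W lam rho hLD with ⟨c, h1, h2⟩ | ⟨i, u, c, hAB, -, -, hi2, hu2,
    hor, -, -⟩
  · exact ⟨lam, rho, c, hLD, h1, h2⟩
  exfalso
  obtain ⟨hB, hM, hT⟩ := hEXS p l a b k z ρ τ hC hbk W hN i u hAB
  rcases Nat.lt_or_ge b W.val with h1 | h1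
  · rcases Nat.lt_or_ge a W.val with h2 | h2
    · have hE := hT h2 h0.2
      by_cases hu : ∀ S, u S ≤ 1
      · exact hPT1 p l a b k z W i u _ hE hbk hu
      · have hi : ∀ X, i X ≤ 1 := by
          rcases hor with h | h
          · exact absurd h hu
          · exact h
        push Not at hu
        obtain ⟨S, hS⟩ := hu
        exact hPT2 p l a b k z W i u _ hE hbk hHM hi hu2 ⟨S, le_antisymm (hu2 S) (by omega)⟩
    · exact hPM p l a b k z W i u (hM h1 h2) hbk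
  · have hE := hB (Nat.one_le_iff_ne_zero.2 h0.1) h1
    rcases hor with h | h
    · exact hPB1 p l a b k z W i u _ hE hbk h
    · exact hPB2 p l a b k z W i u _ hE hbk hHM h hu2

/-- two rows with the same second coordinate -/
theorem not_inj (hCA : StCA) {p l a b k : ℕ} [NeZero p] [NeZero l] {z : ZMod p → ZMod (p * l)}
    {ρ : ZMod p} {τ : ZMod (p * l)} (hC : CC p l a b k z ρ τ) {c1 : ℕ} (h1 : 1 ≤ c1)
    (h2 : p ∣ c1 * k) (h3 : c1 * l < p) : ¬ Function.Injective (sc l z) := by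
  intro hinj
  obtain ⟨⟨hz0, hs0⟩, -, hsc, hls, -⟩ := hCA p l a b k z ρ τ hC
  have hl := hC.hl2
  have h4 : sc l z (((c1 * l : ℕ) : ZMod p) * ρ) = 0 := by
    rw [hsc _ h3, Nat.cast_mul, mul_assoc, hls, ← Nat.cast_mul]
    obtain ⟨d, hd⟩ := h2
    have : c1 * (k * l) = d * (p * l) := by
      rw [← mul_assoc, hd]
      ring
    rw [this, Nat.cast_mul, ZMod.natCast_self, mul_zero]
  have h5 : ((c1 * l : ℕ) : ZMod p) * ρ = 0 := hinj (by rw [h4, hs0])
  have h6 : ((c1 * l : ℕ) : ZMod p) = 0 := (hC.hρ.mul_left_eq_zero).1 h5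
  rw [ZMod.natCast_eq_zero_iff] at h6
  have h7 : 0 < c1 * l := Nat.mul_pos h1 (by omega)
  exact absurd (Nat.le_of_dvd h7 h6) (by omega)

/-- step (2): some level is normal -/
theorem step2 (hCA : StCA) (hE1 : StE1) (hE2 : StE2) (hE3 : StE3) {p l a b k : ℕ} [NeZero p]
    [NeZero l] {z : ZMod p → ZMod (p * l)} {ρ : ZMod p} {τ : ZMod (p * l)}
    (hC : CC p l a b k z ρ τ) (hbk : b + k ≤ a) (hHM : HM l a b k z)
    (h0 : p ≤ (a / (b + k) + 1) * l ∨ a % (b + k) < k) : ∃ W, Nrm l a b z W := by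
  by_cases h1 : b ≤ a % (b + k) ∨ p ≤ a / (b + k) * l
  · exact hE1 p l a b k z ρ τ hC hbk hHM h1
  push Not at h1
  by_cases h2 : ∃ c1 : ℕ, 1 ≤ c1 ∧ p ∣ c1 * k ∧ (c1 + a / (b + k)) * l < p
  · obtain ⟨c1, h3, h4, h5⟩ := h2
    have h6 : (a / (b + k) + 1) * l ≤ (c1 + a / (b + k)) * l := by
      refine Nat.mul_le_mul_right l ?_
      rw [Nat.add_comm c1]
      exact Nat.add_le_add_left h3 _
    have h7 : c1 * l ≤ (c1 + a / (b + k)) * l := Nat.mul_le_mul_right l (Nat.le_add_right _ _)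
    have h8 : a % (b + k) < k := by
      rcases h0 with h | h
      · omega
      · exact h
    rcases hC.hsx with h | h
    · exact absurd h (not_inj hCA hC h3 h4 (by omega))
    · exact hE3 p l a b k z ρ τ hC hbk hHM h.2 h8.le ⟨c1, h3, h4, h5⟩
  · push Not at h2
    exact hE2 p l a b k z ρ τ hC hbk hHM h1.1 h1.2 h2

end LCaux

open LCaux in
/-- all levels of a canonical progression are in normal form -/
theorem lc : StCA → StCH → StTYP → StDIF → StEXS → StPM → StPB1 → StPB2 → StPT1 → StPT2 → StE1 →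
    StE2 → StE3 → StV1 → StLC := by
  intro hCA hCH hTYP hDIF hEXS hPM hPB1 hPB2 hPT1 hPT2 hE1 hE2 hE3 hV1 p l a b k _ _ z ρ τ hC hbk W
  have h0 := step0 hV1 hC hbk
  have hHM : HM l a b k z := hCH p l a b k z ρ τ hC hbk (h0.imp id (fun h => h.le))
  have hs : ∀ W, Nrm l a b z W → Nrm l a b z (W + ρ) := by
    intro W hW
    have h1 : Nrm l a b (z1 z τ) (W + ρ) :=
      (hCA p l a b k z ρ τ hC).2.2.2.2.2.2.2.2.2.1 W hW
    exact step1 hTYP hDIF hEXS hPM hPB1 hPB2 hPT1 hPT2 hC hbk hHM _ h1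
  obtain ⟨W0, hW0⟩ := step2 hCA hE1 hE2 hE3 hC hbk hHM h0
  have hn : ∀ n : ℕ, Nrm l a b z (W0 + (n : ZMod p) * ρ) := by
    intro n
    induction n with
    | zero => simpa using hW0
    | succ n ih =>
      have h1 := hs _ ih
      have h2 : W0 + (n : ZMod p) * ρ + ρ = W0 + ((n + 1 : ℕ) : ZMod p) * ρ := by
        push_cast
        ring
      rwa [h2] at h1
  obtain ⟨r, hr⟩ := hC.hρ
  have h1 := hn ((W - W0) * ((r⁻¹ : (ZMod p)ˣ) : ZMod p)).val
  rw [ZMod.natCast_zmod_val, ← hr, mul_assoc, Units.inv_mul, mul_one, add_sub_cancel] at h1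
  exact h1

end Helper11.LV
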