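import Pool.Agent.Helper11.LV.StD
import Pool.Agent.Helper11.N1.All

set_option autoImplicit false
set_option linter.unusedSectionVars false

/-!
# LX: transfer to the exact tie model
-/

namespace Helper11.LV

open Helper11.N1 Helper55.KE Helper73.TM

namespace LXaux

/-- the translated configuration -/
def zt {p l : ℕ} (z : ZMod p → ZMod (p * l)) (i0 : ZMod p) (c : ZMod (p * l)) (x : ZMod p) :
    ZMod (p * l) := z (x + i0) - c

section tr

variable {p l a b : ℕ} [NeZero p] [NeZero l] (z : ZMod p → ZMod (p * l)) (i0 : ZMod p)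
  (c : ZMod (p * l))

theorem sc_zt (x : ZMod p) : sc l (zt z i0 c) x = sc l z (x + i0) - (c + e p l i0) := by
  unfold sc zt
  rw [e_add]
  ring

theorem box_zt (j : ZMod p) (X S : ZMod (p * l)) :
    box l a b (zt z i0 c) j X S ↔ box l a b z (j + i0) (X + c) (S + (c + e p l i0)) := by
  unfold box
  rw [sc_zt]
  have h1 : off X (zt z i0 c j) = off (X + c) (z (j + i0)) := by
    rw [← off_translate X (zt z i0 c j) c]
    unfold zt
    rw [sub_add_cancel]
  have h2 : off (sc l z (j + i0) - (c + e p l i0) + 1) S =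
      off (sc l z (j + i0) + 1) (S + (c + e p l i0)) := by
    rw [← off_translate (sc l z (j + i0) - (c + e p l i0) + 1) S (c + e p l i0)]
    congr 1
    ring
  rw [h1, h2]

theorem NN_zt (X S : ZMod (p * l)) :
    NN l a b (zt z i0 c) X S = NN l a b z (X + c) (S + (c + e p l i0)) := by
  classical
  unfold NN
  rw [← Equiv.sum_comp (Equiv.addRight i0)
    (fun j => if box l a b z j (X + c) (S + (c + e p l i0)) then (1 : ℤ) else 0)]
  refine Finset.sum_congr rfl fun j _ => ?_
  exact if_congr (box_zt z i0 c j X S) rfl rfl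

theorem tri_zt (X : ZMod (p * l)) (W : ZMod p) (S x : ZMod (p * l)) (j : ZMod p) :
    tri l X W S (x - c) j ↔ tri l (X + c) (W + i0) (S + (c + e p l i0)) x (j + i0) := by
  unfold tri
  have h1 : off X (x - c) = off (X + c) x := by
    rw [← off_translate X (x - c) c, sub_add_cancel]
  have h2 : off (X + e p l W) S =
      off (X + c + e p l (W + i0)) (S + (c + e p l i0)) := by
    rw [← off_translate (X + e p l W) S (c + e p l i0), e_add]
    congr 1
    ring
  have h3 : j + i0 - (W + i0) = j - W := by ring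
  rw [h1, h2, h3]

theorem FF_zt (X : ZMod (p * l)) (W : ZMod p) (S : ZMod (p * l)) :
    FF l a b (zt z i0 c) X W S =
      FF l a b z (X + c) (W + i0) (S + (c + e p l i0)) := by
  classical
  unfold FF
  rw [← Equiv.sum_comp (Equiv.addRight i0)
    (fun j => ((if tri l (X + c) (W + i0) (S + (c + e p l i0)) (z j) j then (1 : ℤ) else 0) -
      (if tri l (X + c) (W + i0) (S + (c + e p l i0)) (z j) (j + a) then 1 else 0) -
      (if tri l (X + c) (W + i0) (S + (c + e p l i0)) (z j - b * l) (j + b) then 1 else 0) +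
      (if tri l (X + c) (W + i0) (S + (c + e p l i0)) (z j - b * l) (j + a + b) then 1 else 0)))]
  refine Finset.sum_congr rfl fun j _ => ?_
  have e1 : zt z i0 c j - b * l = (z (j + i0) - b * l) - c := by
    unfold zt
    ring
  have e2 : zt z i0 c j = z (j + i0) - c := rfl
  have e3 : j + a + i0 = j + i0 + a := by ring
  have e4 : j + b + i0 = j + i0 + b := by ring
  have e5 : j + a + b + i0 = j + i0 + a + b := by ring
  rw [e1, e2, Equiv.coe_addRight]
  have t1 := tri_zt i0 c X W S (z (j + i0)) j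
  have t2 := tri_zt i0 c X W S (z (j + i0)) (j + a)
  have t3 := tri_zt i0 c X W S (z (j + i0) - b * l) (j + b)
  have t4 := tri_zt i0 c X W S (z (j + i0) - b * l) (j + a + b)
  rw [e3] at t2
  rw [e4] at t3
  rw [e5] at t4
  exact congrArg₂ (· + ·) (congrArg₂ (· - ·) (congrArg₂ (· - ·) (if_congr t1 rfl rfl)
    (if_congr t2 rfl rfl)) (if_congr t3 rfl rfl)) (if_congr t4 rfl rfl)

theorem LD_zt {W : ZMod p} {lam rho : ZMod (p * l) → ℤ}
    (h : LD l a b (zt z i0 c) W lam rho) :
    LD l a b z (W + i0) (fun X => lam (X - c)) (fun S => rho (S - (c + e p l i0))) := by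
  classical
  have hR : ∀ j, aR a (W + i0) (j + i0) ↔ aR a W j := by
    intro j
    unfold aR
    rw [show W + i0 - 1 - (j + i0) = W - 1 - j by ring]
  have hL : ∀ j, aL a b (W + i0) (j + i0) ↔ aL a b W j := by
    intro j
    unfold aL
    rw [show W + i0 - b - 1 - (j + i0) = W - b - 1 - j by ring]
  have hB : ∀ j, aB b (W + i0) (j + i0) ↔ aB b W j := by
    intro j
    unfold aB
    rw [show W + i0 - 1 - (j + i0) = W - 1 - j by ring]
  have hT : ∀ j, aT a b (W + i0) (j + i0) ↔ aT a b W j := by
    intro j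
    unfold aT
    rw [show W + i0 - a - 1 - (j + i0) = W - a - 1 - j by ring]
  refine ⟨?_, ?_, ?_, ?_, ?_⟩
  · intro X
    have h1 := h.lj (X - c)
    have e1 : X + 1 - c = X - c + 1 := by ring
    show lam (X + 1 - c) - lam (X - c) = _
    rw [e1, h1]
    congr 1
    · rw [← Equiv.sum_comp (Equiv.addRight i0)
        (fun j => if aR a (W + i0) j ∧ z j = X then (1 : ℤ) else 0)]
      refine Finset.sum_congr rfl fun j _ => ?_
      have e2 : zt z i0 c j = X - c ↔ z (j + i0) = X := by
        unfold zt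
        exact sub_left_inj
      simp only [Equiv.coe_addRight, hR, e2]
    · rw [← Equiv.sum_comp (Equiv.addRight i0)
        (fun j => if aL a b (W + i0) j ∧ z j - b * l = X then (1 : ℤ) else 0)]
      refine Finset.sum_congr rfl fun j _ => ?_
      have e2 : zt z i0 c j - b * l = X - c ↔ z (j + i0) - b * l = X := by
        unfold zt
        rw [sub_right_comm]
        exact sub_left_inj
      simp only [Equiv.coe_addRight, hL, e2]
  · intro S
    have h1 := h.rj (S - (c + e p l i0))
    have e1 : S + 1 - (c + e p l i0) = S - (c + e p l i0) + 1 := by ring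
    show rho (S + 1 - (c + e p l i0)) - rho (S - (c + e p l i0)) = _
    rw [e1, h1]
    congr 1
    · rw [← Equiv.sum_comp (Equiv.addRight i0)
        (fun j => if aT a b (W + i0) j ∧ sc l z j + a * l = S then (1 : ℤ) else 0)]
      refine Finset.sum_congr rfl fun j _ => ?_
      have e2 : sc l (zt z i0 c) j + a * l = S - (c + e p l i0) ↔
          sc l z (j + i0) + a * l = S := by
        rw [sc_zt, sub_add_eq_add_sub]
        exact sub_left_inj
      simp only [Equiv.coe_addRight, hT, e2]
    · rw [← Equiv.sum_comp (Equiv.addRight i0)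
        (fun j => if aB b (W + i0) j ∧ sc l z j = S then (1 : ℤ) else 0)]
      refine Finset.sum_congr rfl fun j _ => ?_
      have e2 : sc l (zt z i0 c) j = S - (c + e p l i0) ↔ sc l z (j + i0) = S := by
        rw [sc_zt]
        exact sub_left_inj
      simp only [Equiv.coe_addRight, hB, e2]
  · intro X
    have h1 := h.line (X - c)
    rw [NN_zt] at h1
    have e1 : X - c + c = X := by ring
    have e2 : X - c + e p l W + (c + e p l i0) = X + e p l (W + i0) := by
      rw [e_add]
      ring
    have e3 : X + e p l (W + i0) - (c + e p l i0) = X - c + e p l W := by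
      rw [e_add]
      ring
    rw [e1, e2] at h1
    show NN l a b z X (X + e p l (W + i0)) + lam (X - c) +
      rho (X + e p l (W + i0) - (c + e p l i0)) = 0
    rw [e3]
    exact h1
  · intro X S
    have h1 := h.up (X - c) (S - (c + e p l i0))
    rw [NN_zt, sub_add_cancel, sub_add_cancel] at h1
    exact h1
  · intro X S
    have h1 := h.lo (X - c) (S - (c + e p l i0))
    rw [NN_zt, sub_add_cancel, sub_add_cancel] at h1
    exact h1

theorem Nrm_zt {W : ZMod p} (h : Nrm l a b (zt z i0 c) W) : Nrm l a b z (W + i0) := by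
  obtain ⟨lam, rho, g, h1, h2, h3⟩ := h
  exact ⟨_, _, g, LD_zt z i0 c h1, fun X => h2 _, fun S => h3 _⟩

end tr

section main

variable {p l a b k : ℕ} [NeZero p] [NeZero l] {z : ZMod p → ZMod (p * l)} {i0 ρ : ZMod p}
  {τ : ZMod (p * l)}

theorem NN_le (hd : Disj l a b z) (X S : ZMod (p * l)) : NN l a b z X S ≤ 1 := by
  unfold NN
  by_cases h : ∃ i, box l a b z i X S
  · obtain ⟨i, hi⟩ := h
    rw [Finset.sum_eq_single_of_mem i (Finset.mem_univ i), if_pos hi]
    intro j _ hj
    exact if_neg fun h => hj (hd j i X S h hi)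
  · rw [Finset.sum_eq_zero]
    · exact zero_le_one
    · intro j _
      exact if_neg fun h' => h ⟨j, h'⟩

theorem ab_le (hP : Par p l a b) (hd : Disj l a b z) : a * b ≤ p := by
  have hl0 : 0 < l := Nat.pos_of_ne_zero (NeZero.ne l)
  have h1 := cnt bl p l a b hP z 0
  have h2 : ∑ X : ZMod (p * l), NN l a b z X (X + e p l 0) ≤ ∑ _X : ZMod (p * l), (1 : ℤ) :=
    Finset.sum_le_sum fun X _ => NN_le hd _ _
  rw [h1, Finset.sum_const, Finset.card_univ, ZMod.card, nsmul_eq_mul, mul_one] at h2
  have h3 : a * b * l ≤ p * l := by exact_mod_cast h2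
  exact Nat.le_of_mul_le_mul_right h3 hl0

theorem hsx_of (h : EX p l a b z i0 ρ τ (k : ℤ)) (hD : Disj l a b z) (hk : 1 ≤ k)
    (hcop : a.Coprime p) (hρ : ρ = (a : ZMod p) * b ∨ ρ = -((a : ZMod p) * b)) :
    Function.Injective (sc l (zt z i0 (z i0))) ∨ (3 ≤ k ∧ 1 ≤ a % (b + k)) := by
  by_cases hi : Function.Injective (sc l (zt z i0 (z i0)))
  · exact Or.inl hi
  right
  have hl2 := h.hl2
  have ha := h.hP.ha
  have hb := h.hP.hb
  unfold Function.Injective at hi
  push Not at hi
  obtain ⟨x, y, hxy, hne⟩ := hi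
  rw [sc_zt, sc_zt] at hxy
  have hxy' : sc l z (x + i0) = sc l z (y + i0) := sub_left_injective hxy
  obtain ⟨n, hn, hxn⟩ := ap_row h.hAP (x + i0)
  obtain ⟨m, hm, hym⟩ := ap_row h.hAP (y + i0)
  rw [hxn, hym] at hxy'
  obtain ⟨j, hj1, hj2⟩ := h.bb hn hm hxy'.symm
  have hnm : n ≠ m := by
    intro hnm
    apply hne
    have : x + i0 = y + i0 := by rw [hxn, hym, hnm]
    exact add_right_cancel this
  have hj0 : j ≠ 0 := by
    intro h0
    rw [h0, zero_mul] at hj1
    omega
  have hJ1 : 1 ≤ j.natAbs := Nat.one_le_iff_ne_zero.2 (Int.natAbs_ne_zero.2 hj0)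
  have hJl : j.natAbs * l < p := by
    have e1 : j.natAbs * l = ((n : ℤ) - m).natAbs := by
      rw [hj1, Int.natAbs_mul, Int.natAbs_natCast]
    rw [e1]
    omega
  have hJk : p ≤ j.natAbs * k := by
    have h1 : p ∣ j.natAbs * k := by
      have h2 := Int.natAbs_dvd_natAbs.2 hj2
      rwa [Int.natAbs_mul, Int.natAbs_natCast, Int.natAbs_natCast] at h2
    exact Nat.le_of_dvd (Nat.mul_pos (by omega) (by omega)) h1
  have hlk : l < k := by
    by_contra hcon
    have h1 : j.natAbs * k ≤ j.natAbs * l := Nat.mul_le_mul_left _ (not_lt.1 hcon)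
    omega
  refine ⟨by omega, ?_⟩
  by_contra hcon
  have hr : a % (b + k) = 0 := by omega
  have ham : a = (b + k) * (a / (b + k)) := by
    have := Nat.div_add_mod a (b + k)
    omega
  set m' := a / (b + k) with hm'
  have hm1 : 1 ≤ m' := by
    rcases Nat.eq_zero_or_pos m' with h0 | h0
    · rw [h0, mul_zero] at ham
      omega
    · exact h0
  have hab := ab_le h.hP hD
  have hcop2 : (b + k).Coprime p := Nat.Coprime.coprime_dvd_left ⟨m', ham⟩ hcop
  have hcop3 : IsCoprime (p : ℤ) ((b + k : ℕ) : ℤ) :=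
    Nat.isCoprime_iff_coprime.2 hcop2.symm
  have hlr := h.hlr
  have hbig : 4 ≤ l * m' * b := by
    calc 4 = 2 * 1 * 2 := by norm_num
      _ ≤ l * m' * b := Nat.mul_le_mul (Nat.mul_le_mul hl2 hm1) hb
  have hp1 : p ≤ l * m' * b + 1 := by
    rcases hρ with hρ | hρ
    · have h1 : (((b + k : ℕ) : ℤ) * ((l * m' * b : ℕ) - 1 : ℤ) : ℤ) =
          (l : ℤ) * (a * b) - (k + b) := by
        rw [show (a : ℤ) = (b + k) * m' by exact_mod_cast ham]
        push_cast
        ring
      have h2 : (p : ℤ) ∣ ((b + k : ℕ) : ℤ) * ((l * m' * b : ℕ) - 1 : ℤ) := by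
        rw [h1, ← ZMod.intCast_zmod_eq_zero_iff_dvd]
        push_cast
        rw [hρ] at hlr
        push_cast at hlr
        rw [hlr, sub_self]
      have h3 := hcop3.dvd_of_dvd_mul_left h2
      have h4 := Int.le_of_dvd (by omega) h3
      omega
    · have h1 : (((b + k : ℕ) : ℤ) * ((l * m' * b : ℕ) + 1 : ℤ) : ℤ) =
          (l : ℤ) * (a * b) + (k + b) := by
        rw [show (a : ℤ) = (b + k) * m' by exact_mod_cast ham]
        push_cast
        ring
      have h2 : (p : ℤ) ∣ ((b + k : ℕ) : ℤ) * ((l * m' * b : ℕ) + 1 : ℤ) := by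
        rw [h1, ← ZMod.intCast_zmod_eq_zero_iff_dvd]
        push_cast
        rw [hρ] at hlr
        push_cast at hlr
        rw [← hlr]
        ring
      have h3 := hcop3.dvd_of_dvd_mul_left h2
      have h4 := Int.le_of_dvd (by omega) h3
      omega
  have hsmall : l * m' * b + 6 ≤ p := by
    have h1 : (l + 1) * (m' * b) ≤ k * (m' * b) := Nat.mul_le_mul_right _ hlk
    have h2 : a * b = b * (m' * b) + k * (m' * b) := by
      conv_lhs => rw [ham]
      ring
    have h3 : 2 ≤ m' * b := by
      calc 2 = 1 * 2 := by norm_num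
        _ ≤ m' * b := Nat.mul_le_mul hm1 hb
    have h4 : 2 * (m' * b) ≤ b * (m' * b) := Nat.mul_le_mul_right _ hb
    have h5 : l * m' * b = l * (m' * b) := by ring
    have h6 : (l + 1) * (m' * b) = l * (m' * b) + m' * b := by ring
    omega
  omega

theorem cc_of (h : EX p l a b z i0 ρ τ (k : ℤ)) (hD : Disj l a b z) (hk : 1 ≤ k) (hk2 : k < a)
    (ha2 : 2 * a < p) (hb2 : 2 * b < p) (hcop : a.Coprime p)
    (hρ : ρ = (a : ZMod p) * b ∨ ρ = -((a : ZMod p) * b)) :
    CC p l a b k (zt z i0 (z i0)) ρ τ := by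
  have hlr : (l : ZMod p) * ρ = hh p b k := by
    rw [h.hlr]
    unfold hh
    push_cast
    ring
  refine { hP := h.hP, ha2 := ha2, hb2 := hb2, hl2 := h.hl2, hk := hk, hk2 := hk2, hD := ?_,
           hinj := ?_, hsx := hsx_of h hD hk hcop hρ, htie := ?_, hF := ?_, hlp := h.hlp,
           hρ := h.hAP.1, hu := h.hu, hz := ?_, hlt := h.hlt, hlr := hlr }
  · intro i j X S hi hj
    rw [box_zt] at hi hj
    exact add_right_cancel (hD _ _ _ _ hi hj)
  · intro x y hxy
    have h1 : z (x + i0) = z (y + i0) := sub_left_injective hxy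
    exact add_right_cancel (h.zinj h1)
  · intro x y hxy
    have h1 : z (y + i0) - b * l = z (x + i0) := by
      have h2 : z (x + i0) - z i0 = z (y + i0) - z i0 - b * l := hxy
      rw [sub_right_comm] at h2
      exact (sub_left_injective h2).symm
    obtain ⟨n, hn, hxn⟩ := ap_row h.hAP (x + i0)
    obtain ⟨m, hm, hym⟩ := ap_row h.hAP (y + i0)
    rw [hxn, hym, h.tie_iff hn hm] at h1
    have hx : x = (n : ZMod p) * ρ := by
      rw [add_comm x i0] at hxn
      exact add_left_cancel hxn
    have hy : y = (m : ZMod p) * ρ := by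
      rw [add_comm y i0] at hym
      exact add_left_cancel hym
    rw [hx, hy, ← h1, ← hlr]
    push_cast
    ring
  · intro X W S
    rw [FF_zt]
    exact h.hF _ _ _
  · intro n hn
    have h1 := h.zn hn
    show z ((n : ZMod p) * ρ + i0) - z i0 = _
    rw [add_comm, h1, add_sub_cancel_left]

end main

end LXaux

open LXaux in
theorem lx : StLC → StV0 → StLX := by
  intro hLC hV0 p l a b k _ _ z i0 ρ τ hE hD hk hk2 ha2 hb2 hca _hcb hρ
  have hC := cc_of hE hD hk hk2 ha2 hb2 hca hρ
  have h1 : b + k ≤ a := by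
    by_contra hcon
    exact hV0 p l a b k _ ρ τ hC hca (by omega)
  refine ⟨h1, fun W => ?_⟩
  have h2 := hLC p l a b k _ ρ τ hC h1 (W - i0)
  have h3 := Nrm_zt z i0 (z i0) h2
  rwa [sub_add_cancel] at h3

end Helper11.LV
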