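import Pool.Agent.Helper11.LV.StA
import Pool.Agent.Helper11.N1.All

set_option autoImplicit false
set_option linter.unusedSectionVars false

/-!
# NB: transitions along the line
-/

namespace Helper11.LV

open Helper11.N1

namespace NBaux

open Helper11.N1.NBaux

section main

variable {p l a b k : ℕ} [NeZero p] [NeZero l]

theorem dd_add (W j : ZMod p) (hk : b + k < p) :
    dd W (j + hh p b k) = if b + k ≤ dd W j then dd W j - (b + k) else dd W j + p - (b + k) := by
  unfold dd hh
  have e1 : W - (j + ((b + k : ℕ) : ZMod p)) = (W - j) - ((b + k : ℕ) : ZMod p) := by ring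
  rw [e1, val_sub_nat _ (b + k) hk]

theorem dd_sub (W j : ZMod p) (hk : b + k < p) (h : dd W j + (b + k) < p) :
    dd W (j - hh p b k) = dd W j + (b + k) := by
  have h1 := dd_add (b := b) (k := k) W (j - hh p b k) hk
  rw [sub_add_cancel] at h1
  have h2 : dd W (j - hh p b k) < p := ZMod.val_lt _
  split_ifs at h1 with h3
  · omega
  · omega

theorem box_mk (hP : Par p l a b) {z : ZMod p → ZMod (p * l)} {x : ZMod p} {X S : ZMod (p * l)}
    {t s : ℕ} (ht : t < b * l) (hs : s < a * l) (h1 : z x = X + (t : ZMod (p * l)))
    (h2 : S = sc l z x + 1 + (s : ZMod (p * l))) : box l a b z x X S := by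
  obtain ⟨hq, haq, hbq, hM⟩ := prods hP
  refine ⟨?_, ?_⟩
  · rw [h1, off_nat X (by omega)]
    exact ht
  · rw [h2, off_nat _ (by omega)]
    exact hs

theorem top_of (hP : Par p l a b) {z : ZMod p → ZMod (p * l)} {x : ZMod p} {S : ZMod (p * l)}
    (h1 : off (sc l z x + 1) S < a * l) (h2 : ¬ off (sc l z x + 1) (S + 1) < a * l) :
    S = sc l z x + a * l := by
  obtain ⟨hq, haq, hbq, hM⟩ := prods hP
  have h3 := off_spec (sc l z x + 1) S
  have h4 : off (sc l z x + 1) (S + 1) = off (sc l z x + 1) S + 1 := by
    apply off_cast _ _ (by omega)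
    conv_lhs => rw [← h3]
    push_cast
    ring
  rw [h4] at h2
  have h5 : off (sc l z x + 1) S = a * l - 1 := by omega
  rw [← h3, h5, Nat.cast_sub (by omega)]
  push_cast
  ring

/-- if two multiples of `l` on the circle are equal -/
theorem mul_inj (_hP : Par p l a b) {u v : ℕ} (hu : u < p) (hv : v < p)
    (h : ((u * l : ℕ) : ZMod (p * l)) = ((v * l : ℕ) : ZMod (p * l))) : u = v := by
  have hl : 0 < l := Nat.pos_of_ne_zero (NeZero.ne l)
  have h1 := cast_inj (M := p * l) (Nat.mul_lt_mul_of_pos_right hu hl)
    (Nat.mul_lt_mul_of_pos_right hv hl) h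
  exact Nat.eq_of_mul_eq_mul_right hl h1

theorem sc_row (z : ZMod p → ZMod (p * l)) (W x : ZMod p) :
    sc l z x + ((dd W x * l : ℕ) : ZMod (p * l)) = z x + e p l W := by
  unfold sc dd
  rw [eW W x]
  ring

end main

end NBaux

open NBaux Helper11.N1.NBaux

theorem nb : StRUN → StJV → StJH → StND → StNB := by
  intro hRUN hJV hJH hND p l a b k _ _ z hT hbka W lam rho hL j X hX
  have hP := hT.hP
  have hD := hT.hD
  have htie := hT.htie
  have hinj := hT.hinj
  have hk1 := hT.hk
  have hka := hT.hk2
  have h2a := hT.ha2
  obtain ⟨hq, haq, hbq, hM⟩ := prods hP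
  obtain ⟨ha2, hb2, hab2, -⟩ := hP
  have hP := hT.hP
  obtain ⟨v1, v2, v3⟩ := hJV p l a b k z hT W lam rho hL
  obtain ⟨w1, w2, w3⟩ := hJH p l a b k z hT hbka W lam rho hL
  have hnd := hND p l a b k z hT hbka
  have hBL := fun x => (bl p l a b hP z W x).1
  have hstep := hRUN p l a b k z hT W lam rho hL j
  have hrow := fun x => sc_row (l := l) z W x
  have hmul : ∀ c c' : ℕ, c ≤ c' → c * l ≤ c' * l := fun c c' h => Nat.mul_le_mul_right l h
  have hmul' : ∀ c c' : ℕ, c < c' → c * l + l ≤ c' * l := by
    intro c c' h
    calc c * l + l = (c + 1) * l := by ring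
      _ ≤ _ := Nat.mul_le_mul_right l h
  have hsubm : ∀ c c' : ℕ, (c - c') * l = c * l - c' * l := fun c c' => Nat.sub_mul _ _ _
  have hab : (a + b) * l = a * l + b * l := by ring
  have hddp : ∀ x : ZMod p, dd W x < p := fun x => ZMod.val_lt _
  have hddM : ∀ x : ZMod p, dd W x * l + l ≤ p * l := fun x => hmul' _ _ (hddp x)
  have hBL' : ∀ (x : ZMod p) (Y : ZMod (p * l)), box l a b z x Y (Y + e p l W) ↔
      (dd W x - a) * l ≤ off Y (z x) ∧ off Y (z x) < b * l ∧ off Y (z x) < dd W x * l :=
    fun x Y => hBL x Y
  -- the position `z x` from a horizontal letter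
  have hzB : ∀ (x : ZMod p) (Y : ZMod (p * l)), sc l z x = Y + e p l W →
      z x = Y + ((dd W x * l : ℕ) : ZMod (p * l)) := by
    intro x Y h
    have h1 := hrow x
    rw [h] at h1
    have h2 : z x + e p l W = Y + ((dd W x * l : ℕ) : ZMod (p * l)) + e p l W := by
      rw [← h1]; ring
    exact add_right_cancel h2
  have hzT : ∀ (x : ZMod p) (Y : ZMod (p * l)), a ≤ dd W x → sc l z x + a * l = Y + e p l W →
      z x = Y + (((dd W x - a) * l : ℕ) : ZMod (p * l)) := by
    intro x Y hx h
    have h1 := hrow x
    have h2 : z x + e p l W = Y + (((dd W x - a) * l : ℕ) : ZMod (p * l)) + e p l W := by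
      rw [← h1, hsubm, Nat.cast_sub (hmul _ _ hx)]
      have : sc l z x = Y + e p l W - a * l := by rw [← h]; ring
      rw [this]
      push_cast
      ring
    exact add_right_cancel h2
  -- the boxes next to active sides
  have hboxR : ∀ (x : ZMod p), 1 ≤ dd W x → dd W x ≤ a →
      box l a b z x (z x) (z x + e p l W) := by
    intro x h1 h2
    rw [hBL', off_self, hsubm]
    have h3 := hmul _ _ h2
    have h4 := hmul' 0 (dd W x) h1
    refine ⟨by omega, by omega, by omega⟩
  have hboxL : ∀ (y : ZMod p) (Y : ZMod (p * l)), b < dd W y → dd W y ≤ a + b →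
      z y - b * l = Y → box l a b z y (Y + 1) (Y + e p l W) := by
    intro y Y h1 h2 h3
    have h4 := hmul' _ _ h1
    have h5 := hmul _ _ h2
    have hz : z y = Y + ((b * l : ℕ) : ZMod (p * l)) := by rw [← h3]; push_cast; ring
    refine box_mk hP (t := b * l - 1) (s := dd W y * l - b * l - 1) (by omega) (by omega) ?_ ?_
    · rw [hz, Nat.cast_sub (by omega)]; push_cast; ring
    · have h6 := hrow y
      have h7 : sc l z y = z y + e p l W - ((dd W y * l : ℕ) : ZMod (p * l)) := by
        rw [← h6]; ring
      rw [h7, hz, Nat.cast_sub (by omega), Nat.cast_sub (by omega)]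
      push_cast
      ring
  have hboxT : ∀ (y : ZMod p) (Y : ZMod (p * l)), a < dd W y → dd W y ≤ a + b →
      sc l z y + a * l = Y + e p l W → box l a b z y (Y + 1) (Y + e p l W) := by
    intro y Y h1 h2 h3
    have h4 := hmul' _ _ h1
    have h5 := hmul _ _ h2
    have hz := hzT y Y h1.le h3
    refine box_mk hP (t := (dd W y - a) * l - 1) (s := a * l - 1) (by rw [hsubm]; omega)
      (by omega) ?_ ?_
    · rw [hz, Nat.cast_sub (by rw [hsubm]; omega)]; push_cast; ring
    · rw [← h3, Nat.cast_sub (by omega)]; push_cast; ring
  obtain ⟨d, hd⟩ : ∃ d, d = dd W j := ⟨_, rfl⟩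
  have hX' := (hBL' j X).1 hX
  rw [← hd] at hX'
  have hdp : d < p := by rw [hd]; exact hddp j
  have hdM : d * l + l ≤ p * l := by rw [hd]; exact hddM j
  have hd1 : 1 ≤ d := by
    by_contra h
    have h0 : d = 0 := by omega
    rw [h0] at hX'
    omega
  have hd2 : d < a + b := by
    by_contra h
    have h4 := hmul (a + b) d (by omega)
    have h5 := hsubm d a
    omega
  have hdl : l ≤ d * l := by
    have := hmul' 0 d hd1
    omega
  have hpt : ∀ t : ℕ, t < p * l →
      (box l a b z j (z j - (t : ZMod (p * l))) (z j - (t : ZMod (p * l)) + e p l W) ↔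
        (d - a) * l ≤ t ∧ t < b * l ∧ t < d * l) := by
    intro t ht
    rw [hBL', off_nat' (z j) ht, ← hd]
  have hconst : ∀ t n : ℕ, (d - a) * l ≤ t → t + n < b * l → t + n < d * l →
      lam (z j - ((t + n : ℕ) : ZMod (p * l))) = lam (z j - (t : ZMod (p * l))) ∧
      rho (z j - ((t + n : ℕ) : ZMod (p * l)) + e p l W) =
        rho (z j - (t : ZMod (p * l)) + e p l W) := by
    intro t n h1 h2 h3
    induction n with
    | zero => exact ⟨rfl, rfl⟩
    | succ n ih =>
      have ih' := ih (by omega) (by omega)
      have e1 : z j - ((t + (n + 1) : ℕ) : ZMod (p * l)) + 1 =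
          z j - ((t + n : ℕ) : ZMod (p * l)) := by push_cast; ring
      have b1 := (hpt (t + (n + 1)) (by omega)).2 ⟨by omega, by omega, by omega⟩
      have b2 := (hpt (t + n) (by omega)).2 ⟨by omega, by omega, by omega⟩
      have b3 := hstep (z j - ((t + (n + 1) : ℕ) : ZMod (p * l))) b1 (by rw [e1]; exact b2)
      rw [e1] at b3
      exact ⟨b3.1.symm.trans ih'.1, b3.2.symm.trans ih'.2⟩
  have hall : ∀ t : ℕ, (d - a) * l ≤ t → t < b * l → t < d * l →
      lam (z j - (t : ZMod (p * l))) = lam X ∧
      rho (z j - (t : ZMod (p * l)) + e p l W) = rho (X + e p l W) := by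
    intro t h1 h2 h3
    have c1 := hconst ((d - a) * l) (t - (d - a) * l) le_rfl (by omega) (by omega)
    have c2 := hconst ((d - a) * l) (off X (z j) - (d - a) * l) le_rfl (by omega) (by omega)
    have e1 : (d - a) * l + (t - (d - a) * l) = t := by omega
    have e2 : (d - a) * l + (off X (z j) - (d - a) * l) = off X (z j) := by omega
    rw [e1] at c1
    rw [e2, off_spec'] at c2
    exact ⟨c1.1.trans c2.1.symm, c1.2.trans c2.2.symm⟩
  have hrj : sc l z j + ((d * l : ℕ) : ZMod (p * l)) = z j + e p l W := by
    rw [hd]; exact hrow j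
  have hbk : b + k < p := by omega
  -- `rho` does not change at the left side
  have hrhoL : b < d → rho (z j - b * l + e p l W + 1) = rho (z j - b * l + e p l W) := by
    intro hdb
    have hdb' := hmul' b d hdb
    have hLt : (d - a) * l < b * l := by
      have := hmul' d (a + b) hd2
      rw [hsubm]
      omega
    obtain ⟨X', hX'd⟩ : ∃ X' : ZMod (p * l), X' = z j - b * l := ⟨_, rfl⟩
    rw [← hX'd]
    have e1 : X' + 1 = z j - ((b * l - 1 : ℕ) : ZMod (p * l)) := by
      rw [hX'd, Nat.cast_sub (by omega)]; push_cast; ring
    have b0 := (hpt (b * l - 1) (by omega)).2 ⟨by omega, by omega, by omega⟩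
    rw [← e1] at b0
    apply w3
    · intro x hx1 hx2 hx3
      have hzx := hzB x X' hx3
      have hx4 := hmul _ _ hx2
      have hx5 := hmul' 0 (dd W x) hx1
      have hx6 := hddM x
      have b1 : box l a b z x (X' + 1) (X' + 1 + e p l W) := by
        rw [hBL']
        have h1 : off (X' + 1) (z x) = dd W x * l - 1 := by
          apply off_cast _ _ (by omega)
          rw [hzx, Nat.cast_sub (by omega)]
          push_cast
          ring
        rw [h1, hsubm]
        refine ⟨by omega, by omega, by omega⟩
      have hxj := hD x j _ _ b1 b0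
      rw [hxj] at hx2
      omega
    · intro y hy1 hy2 hy3
      have b1 := hboxT y X' hy1 hy2 hy3
      have b2 : box l a b z j (X' + 1) (X' + e p l W) := by
        refine box_mk hP (t := b * l - 1) (s := d * l - b * l - 1) (by omega)
          (by have := hmul' d (a + b) hd2; omega) ?_ ?_
        · rw [e1]; ring
        · have h7 : sc l z j = z j + e p l W - ((d * l : ℕ) : ZMod (p * l)) := by
            rw [← hrj]; ring
          rw [h7, hX'd, Nat.cast_sub (by omega), Nat.cast_sub (by omega)]
          push_cast
          ring
      have hyj := hD y j _ _ b1 b2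
      have hzy := hzT y X' hy1.le hy3
      rw [hyj, ← hd, hX'd] at hzy
      rw [hyj, ← hd] at hy1
      have h5 : ((b * l : ℕ) : ZMod (p * l)) = (((d - a) * l : ℕ) : ZMod (p * l)) := by
        have h6 : z j + ((b * l : ℕ) : ZMod (p * l)) =
            z j + (((d - a) * l : ℕ) : ZMod (p * l)) := by
          conv_lhs => rw [hzy]
          push_cast
          ring
        exact add_left_cancel h6
      have := mul_inj hP (by omega) (by omega) h5
      omega
  -- no bottom at the row position of the right side
  have hnB : d ≤ a → ∀ x : ZMod p, 1 ≤ dd W x → dd W x ≤ b → sc l z x ≠ z j + e p l W := by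
    intro hda x hx1 hx2 hx3
    have hzx := hzB x (z j) hx3
    have hx4 := hmul _ _ hx2
    have hx5 := hmul' 0 (dd W x) hx1
    have hx6 := hddM x
    have hoff : off (z j) (z x) = dd W x * l := by
      rw [hzx]
      exact off_nat _ (by omega)
    rcases lt_or_ge (dd W x) b with hlt | hge
    · have hlt' := hmul' _ _ hlt
      rcases lt_or_ge d a with hlt2 | hge2
      · have hlt2' := hmul' _ _ hlt2
        have b1 : box l a b z x (z j) (sc l z x + 1) := by
          refine box_mk hP (t := dd W x * l) (s := 0) (by omega) (by omega) hzx ?_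
          rw [Nat.cast_zero, add_zero]
        have b2 : box l a b z j (z j) (sc l z x + 1) := by
          refine box_mk hP (t := 0) (s := d * l) (by omega) (by omega) ?_ ?_
          · rw [Nat.cast_zero, add_zero]
          · rw [hx3, ← hrj]; ring
        have hxj := hD x j _ _ b1 b2
        rw [hxj] at hoff
        rw [off_self, ← hd] at hoff
        omega
      · have hda2 : d = a := by omega
        have h1 : sc l z x = sc l z j + a * l := by
          rw [hx3, ← hrj, hda2]; push_cast; ring
        have h2 := (hnd x j h1).1
        omega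
    · have hdx : dd W x = b := by omega
      have h1 : z j = z x - b * l := by
        rw [hzx, hdx]; push_cast; ring
      have h2 := htie j x h1
      have h3 := dd_add (b := b) (k := k) W x hbk
      rw [← h2, ← hd] at h3
      split_ifs at h3 <;> omega
  have hnT : d ≤ a → ∀ y : ZMod p, a < dd W y → dd W y ≤ a + b →
      sc l z y + a * l = z j + e p l W → y = j - hh p b k ∧ TL l b k z j ∧ d + k = a := by
    intro hda y hy1 hy2 hy3
    have hzy := hzT y (z j) hy1.le hy3
    have hyj : y ≠ j := by
      intro h
      rw [h] at hy1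
      omega
    have hy4 := hmul' _ _ hy1
    rcases lt_or_ge (dd W y) (a + b) with hlt | hge
    · exfalso
      have hlt' := hmul' _ _ hlt
      have b1 : box l a b z y (z j) (z j + e p l W) := by
        refine box_mk hP (t := (dd W y - a) * l) (s := a * l - 1) (by rw [hsubm]; omega) (by omega)
          hzy ?_
        rw [← hy3, Nat.cast_sub (by omega)]; push_cast; ring
      have b2 := hboxR j (by omega) (by omega)
      exact hyj (hD y j _ _ b1 b2)
    · have hdy : dd W y = a + b := by omega
      have h1 : z j = z y - b * l := by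
        have h0 : dd W y - a = b := by omega
        rw [hzy, h0]; push_cast; ring
      have h2 := htie j y h1
      have h3 := dd_add (b := b) (k := k) W y hbk
      rw [← h2, ← hd] at h3
      have h4 : y = j - hh p b k := by rw [h2]; ring
      refine ⟨h4, ?_, ?_⟩
      · show z (j - hh p b k) = z j + b * l
        rw [← h4, h1]
        ring
      · split_ifs at h3 <;> omega
  rw [← hd]
  refine ⟨⟨hd1, hd2⟩, ?_, ?_, ?_, ?_, ?_, ?_, ?_⟩
  · -- constancy
    intro X' h'
    have h2 := (hBL' j X').1 h'
    rw [← hd] at h2
    have h3 := hall (off X' (z j)) h2.1 h2.2.1 h2.2.2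
    rw [off_spec'] at h3
    exact h3
  · -- the letter `B`
    intro hdb
    have hdb' := hmul d b hdb
    have hda0 : (d - a) * l = 0 := by
      have : d - a = 0 := by omega
      rw [this, zero_mul]
    obtain ⟨X', hX'd⟩ : ∃ X' : ZMod (p * l), X' = z j - ((d * l : ℕ) : ZMod (p * l)) := ⟨_, rfl⟩
    have e1 : X' + 1 = z j - ((d * l - 1 : ℕ) : ZMod (p * l)) := by
      rw [hX'd, Nat.cast_sub (by omega)]; push_cast; ring
    have e2 : X' + e p l W = sc l z j := by
      have : e p l W = sc l z j + ((d * l : ℕ) : ZMod (p * l)) - z j := by rw [hrj]; ring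
      rw [this, hX'd]; ring
    have c1 := hall (d * l - 1) (by omega) (by omega) (by omega)
    rw [← e1] at c1
    have c2 := w1 j (by omega) (by omega)
    have c3 : lam (X' + 1) = lam X' := by
      apply v3
      · intro x hx hzx
        obtain ⟨hx1, hx2, hx3⟩ := hx
        have hxj : x ≠ j := by
          intro h
          rw [h, hX'd] at hzx
          have h5 : ((d * l : ℕ) : ZMod (p * l)) = ((0 * l : ℕ) : ZMod (p * l)) := by
            have := sub_eq_self.1 hzx.symm
            rw [this, zero_mul, Nat.cast_zero]
          have := mul_inj hP hdp (by omega) h5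
          omega
        have b1 := hboxR x hx1 hx2
        rw [hzx, e2] at b1
        rcases lt_or_ge d b with hlt | hge
        · have hlt' := hmul' _ _ hlt
          have b2 : box l a b z j X' (sc l z j + 1) := by
            refine box_mk hP (t := d * l) (s := 0) (by omega) (by omega) ?_ ?_
            · rw [hX'd]; ring
            · rw [Nat.cast_zero, add_zero]
          have b3 : ¬ off (sc l z x + 1) (sc l z j + 1) < a * l := by
            intro h
            exact hxj (hD x j _ _ ⟨b1.1, h⟩ b2)
          have b4 := top_of hP b1.2 b3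
          have b5 := (hnd j x b4).1
          have b6 : off (z x) (z j) = d * l := by
            apply off_cast _ _ (by omega)
            rw [hzx, hX'd]; ring
          omega
        · have hdb2 : d = b := by omega
          have h5 : z x = z j - b * l := by
            rw [hzx, hX'd, hdb2]; push_cast; ring
          have h6 := htie x j h5
          have h7 := dd_add (b := b) (k := k) W j hbk
          rw [← h6, ← hd] at h7
          split_ifs at h7 <;> omega
      · intro y hy hzy
        obtain ⟨hy1, hy2, hy3⟩ := hy
        have b1 := hboxL y X' hy1 hy2 hzy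
        rw [e2] at b1
        have hzyj : z y = z j + (((b - d) * l : ℕ) : ZMod (p * l)) := by
          have : z y = X' + b * l := by rw [← hzy]; ring
          rw [this, hX'd, hsubm, Nat.cast_sub hdb']
          push_cast
          ring
        by_cases b2 : off (sc l z y + 1) (sc l z j + 1) < a * l
        · have b3 : box l a b z j (X' + 1) (sc l z j + 1) := by
            refine box_mk hP (t := d * l - 1) (s := 0) (by omega) (by omega) ?_ ?_
            · rw [e1]; ring
            · rw [Nat.cast_zero, add_zero]
          have hyj := hD y j _ _ ⟨b1.1, b2⟩ b3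
          rw [hyj] at hzyj hy1
          have h5 : (((b - d) * l : ℕ) : ZMod (p * l)) = ((0 * l : ℕ) : ZMod (p * l)) := by
            have := left_eq_add.1 hzyj
            rw [this, zero_mul, Nat.cast_zero]
          have := mul_inj hP (by omega) (by omega) h5
          omega
        · have b3 := top_of hP b1.2 b2
          have b4 := (hnd j y b3).2
          have h9 := hmul' (b - d) b (by omega)
          have b5 : off (z j) (z y) = (b - d) * l := by
            rw [hzyj]
            exact off_nat _ (by omega)
          omega
    have e3 : z j - ((d * l : ℕ) : ZMod (p * l)) = X' := hX'd.symm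
    rw [e3]
    refine ⟨?_, ?_⟩
    · rw [← c3]; exact c1.1
    · have e4 : X' + 1 + e p l W = sc l z j + 1 := by rw [← e2]; ring
      rw [e4] at c1
      rw [← c1.2, c2]
      ring
  · -- the letter `L`, not tied
    intro hdb heL
    have hdb' := hmul' b d hdb
    have c1 := hall (b * l - 1) (by have := hmul' d (a + b) hd2; rw [hsubm]; omega) (by omega)
      (by omega)
    have e1 : z j - b * l + 1 = z j - ((b * l - 1 : ℕ) : ZMod (p * l)) := by
      rw [Nat.cast_sub (by omega)]; push_cast; ring
    rw [← e1] at c1
    have c2 := v2 j heL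
    have c3 := hrhoL hdb
    refine ⟨?_, ?_⟩
    · rw [← c1.1, c2]; ring
    · rw [← c3, ← c1.2]
      congr 1
      ring
  · -- the letter `L`, tied
    intro hdb heL
    have hdb' := hmul' b d hdb
    have htl : TL l b k z (j + hh p b k) ∧ b + k < d := by
      by_contra h
      apply heL
      refine ⟨by omega, by omega, ?_⟩
      intro h1
      by_contra h2
      exact h ⟨h1, by omega⟩
    obtain ⟨htl1, htl2⟩ := htl
    have hzh : z (j + hh p b k) = z j - b * l := by
      have h1 : z (j + hh p b k - hh p b k) = z (j + hh p b k) + b * l := htl1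
      rw [add_sub_cancel_right] at h1
      rw [h1]
      ring
    have hddh : dd W (j + hh p b k) = d - (b + k) := by
      have h1 := dd_add (b := b) (k := k) W j hbk
      rw [← hd] at h1
      rw [h1, if_pos (by omega)]
    have c1 := hall (b * l - 1) (by have := hmul' d (a + b) hd2; rw [hsubm]; omega) (by omega)
      (by omega)
    have e1 : z j - b * l + 1 = z j - ((b * l - 1 : ℕ) : ZMod (p * l)) := by
      rw [Nat.cast_sub (by omega)]; push_cast; ring
    rw [← e1] at c1
    have c3 := hrhoL hdb
    have c4 : lam (z j - b * l + 1) = lam (z j - b * l) := by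
      apply v3
      · intro x hx hzx
        have hxj : x = j + hh p b k := hinj (hzx.trans hzh.symm)
        obtain ⟨hx1, hx2, hx3⟩ := hx
        rw [hxj] at hx1 hx2 hx3
        have := hx3 htl1
        omega
      · intro y hy hzy
        have hyj : y = j := hinj (sub_left_injective hzy)
        rw [hyj] at hy
        exact heL hy
    refine ⟨htl1, htl2, hddh, hzh, ?_, ?_, ?_⟩
    · have h1 := hboxR (j + hh p b k) (by omega) (by omega)
      rw [hzh] at h1
      exact h1
    · rw [← c4]; exact c1.1
    · rw [← c3, ← c1.2]
      congr 1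
      ring
  · -- the letter `R`, not tied
    intro hda heR
    have c1 := hall 0 (by have : d - a = 0 := by omega
                          rw [this, zero_mul]) (by omega) (by omega)
    rw [Nat.cast_zero, sub_zero] at c1
    have c2 := v1 j heR
    refine ⟨by rw [c2, c1.1], ?_⟩
    have c3 : rho (z j + e p l W + 1) = rho (z j + e p l W) := by
      apply w3
      · intro x hx1 hx2 hx3
        exact hnB hda x hx1 hx2 hx3
      · intro y hy1 hy2 hy3
        obtain ⟨-, h1, h2⟩ := hnT hda y hy1 hy2 hy3
        have := heR.2.2 h1
        omega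
    rw [← c1.2, ← c3]
    congr 1
    ring
  · -- the letter `R`, tied
    intro hda heR
    have htl : TL l b k z j ∧ d + k ≤ a := by
      by_contra h
      apply heR
      refine ⟨by omega, by omega, ?_⟩
      intro h1
      by_contra h2
      exact h ⟨h1, by omega⟩
    obtain ⟨htl1, htl2⟩ := htl
    have hddh : dd W (j - hh p b k) = d + (b + k) := by
      have h1 := dd_sub (b := b) (k := k) W j hbk (by omega)
      rw [← hd] at h1
      exact h1
    have hzh : z (j - hh p b k) = z j + b * l := htl1
    have c1 := hall 0 (by have : d - a = 0 := by omega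
                          rw [this, zero_mul]) (by omega) (by omega)
    rw [Nat.cast_zero, sub_zero] at c1
    have c4 : lam (z j + 1) = lam (z j) := by
      apply v3
      · intro x hx hzx
        have hxj : x = j := hinj hzx
        rw [hxj] at hx
        exact heR hx
      · intro y hy hzy
        have h1 := htie j y hzy.symm
        have hyj : y = j - hh p b k := by rw [h1]; ring
        obtain ⟨hy1, hy2, hy3⟩ := hy
        rw [hyj] at hy1 hy2 hy3
        rw [sub_add_cancel] at hy3
        have := hy3 htl1
        omega
    refine ⟨htl1, htl2, hddh, by rw [c4, c1.1], ?_, ?_⟩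
    · intro hlt
      refine ⟨?_, ?_⟩
      · rw [hBL', hddh]
        have h1 : off (z j + 1) (z (j - hh p b k)) = b * l - 1 := by
          apply off_cast _ _ (by omega)
          rw [hzh, Nat.cast_sub (by omega)]
          push_cast
          ring
        rw [h1, hsubm]
        have h2 := hmul' (d + (b + k)) (a + b) (by omega)
        have h3 := hmul b (d + (b + k)) (by omega)
        refine ⟨by omega, by omega, by omega⟩
      · have c3 : rho (z j + e p l W + 1) = rho (z j + e p l W) := by
          apply w3
          · intro x hx1 hx2 hx3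
            exact hnB hda x hx1 hx2 hx3
          · intro y hy1 hy2 hy3
            obtain ⟨-, h1, h2⟩ := hnT hda y hy1 hy2 hy3
            omega
        rw [← c1.2, ← c3]
        congr 1
        ring
    · intro heq
      have e1 : sc l z (j - hh p b k) + a * l = z j + e p l W := by
        unfold sc
        rw [e_sub, hzh]
        have h2 : e p l (hh p b k) = (((b + k) * l : ℕ) : ZMod (p * l)) := e_natCast p l (b + k)
        rw [h2, ← hrj]
        unfold sc
        have h3 : a = d + k := by omega
        rw [h3]
        push_cast
        ring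
      have c2 := w2 (j - hh p b k) (by omega) (by omega)
      rw [e1] at c2
      rw [← c1.2, ← c2]
      congr 1
      ring
  · -- the letter `T`
    intro hda
    have hda' := hmul' a d hda
    have hLt : (d - a) * l + l ≤ b * l := by
      have := hmul' d (a + b) hd2
      rw [hsubm]
      omega
    have hda1 : (d - a) * l = d * l - a * l := hsubm d a
    have hl1 : l ≤ (d - a) * l := by
      have := hmul' 0 (d - a) (by omega)
      omega
    obtain ⟨X', hX'd⟩ : ∃ X' : ZMod (p * l), X' = z j - (((d - a) * l : ℕ) : ZMod (p * l)) :=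
      ⟨_, rfl⟩
    have c1 := hall ((d - a) * l) le_rfl (by omega) (by omega)
    rw [← hX'd] at c1
    have e2 : X' + e p l W = sc l z j + a * l := by
      have : e p l W = sc l z j + ((d * l : ℕ) : ZMod (p * l)) - z j := by rw [hrj]; ring
      rw [this, hX'd, hda1, Nat.cast_sub (by omega)]
      push_cast
      ring
    have c2 := w2 j (by omega) (by omega)
    have c3 : lam (X' + 1) = lam X' := by
      apply v3
      · intro x hx hzx
        obtain ⟨hx1, hx2, hx3⟩ := hx
        have b1 := hboxR x hx1 hx2
        rw [hzx] at b1
        have b2 := (hpt ((d - a) * l) (by omega)).2 ⟨le_rfl, by omega, by omega⟩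
        rw [← hX'd] at b2
        have hxj := hD x j _ _ b1 b2
        rw [hxj] at hx2
        omega
      · intro y hy hzy
        obtain ⟨hy1, hy2, hy3⟩ := hy
        have b1 := hboxL y X' hy1 hy2 hzy
        have b2 : box l a b z j (X' + 1) (X' + e p l W) := by
          refine box_mk hP (t := (d - a) * l - 1) (s := a * l - 1) (by omega) (by omega) ?_ ?_
          · rw [hX'd, Nat.cast_sub (by omega)]; push_cast; ring
          · rw [e2, Nat.cast_sub (by omega)]; push_cast; ring
        have hyj := hD y j _ _ b1 b2
        rw [hyj, hX'd] at hzy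
        have h5 : ((b * l : ℕ) : ZMod (p * l)) = (((d - a) * l : ℕ) : ZMod (p * l)) := by
          have h7 := sub_right_inj.1 hzy
          rw [← h7]; push_cast; ring
        have := mul_inj hP (by omega) (by omega) h5
        omega
    rw [← hX'd]
    refine ⟨?_, ?_⟩
    · rw [c2, ← e2, c1.2]
    · rw [c3]; exact c1.1

end Helper11.LV
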