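import Pool.Agent.Helper11.LV.Sc

set_option autoImplicit false
set_option linter.unusedSectionVars false

/-!
# ND: no box sits on the top of another box
-/

namespace Helper11.LV

open Helper11.N1
open Helper11.N1.NBaux

namespace NDaux

variable {p l a b k : ℕ} [NeZero p] [NeZero l] {z : ZMod p → ZMod (p * l)}

theorem NN_one (hD : Disj l a b z) {j : ZMod p} {X S : ZMod (p * l)} (h : box l a b z j X S) :
    NN l a b z X S = 1 := by
  classical
  unfold NN
  rw [Finset.sum_eq_single j]
  · rw [if_pos h]
  · intro i _ hi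
    rw [if_neg]
    intro h'
    exact hi (hD i j X S h' h)
  · intro h'
    exact absurd (Finset.mem_univ j) h'

theorem NN_ex {X S : ZMod (p * l)} (h : 1 ≤ NN l a b z X S) : ∃ j, box l a b z j X S := by
  classical
  by_contra hne
  push Not at hne
  unfold NN at h
  rw [Finset.sum_eq_zero (fun j _ => if_neg (hne j))] at h
  omega

/-- constancy along the line inside a box -/
theorem run_const (hR : StRUN) (hT : TC p l a b k z) {W : ZMod p} {lam rho : ZMod (p * l) → ℤ}
    (hL : LD l a b z W lam rho) (j : ZMod p) (lo hi : ℕ)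
    (hline : ∀ t : ℕ, lo ≤ t → t < hi →
      box l a b z j (z j - (t : ZMod (p * l))) (z j - (t : ZMod (p * l)) + e p l W)) :
    ∀ t : ℕ, lo ≤ t → t < hi → lam (z j - (t : ZMod (p * l))) = lam (z j - (lo : ZMod (p * l))) ∧
      rho (z j - (t : ZMod (p * l)) + e p l W) = rho (z j - (lo : ZMod (p * l)) + e p l W) := by
  intro t h1
  induction t, h1 using Nat.le_induction with
  | base => intro _; exact ⟨rfl, rfl⟩
  | succ t h1 ih =>
    intro h2
    obtain ⟨i1, i2⟩ := ih (by omega)
    have e1 : z j - ((t + 1 : ℕ) : ZMod (p * l)) + 1 = z j - (t : ZMod (p * l)) := by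
      push_cast; ring
    have b1 := hline (t + 1) (by omega) h2
    have b2 := hline t h1 (by omega)
    have b3 := hR p l a b k z hT W lam rho hL j (z j - ((t + 1 : ℕ) : ZMod (p * l))) b1
      (by rw [e1]; exact b2)
    rw [e1] at b3
    exact ⟨b3.1.symm.trans i1, b3.2.symm.trans i2⟩

open Classical in
/-- the jump of `rho` where the bottom of `x` meets the top of `y` -/
theorem rho_jump (hT : TC p l a b k z) {W : ZMod p} {lam rho : ZMod (p * l) → ℤ}
    (hL : LD l a b z W lam rho) {x y : ZMod p} (hxy : sc l z x = sc l z y + a * l)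
    (hdx : (W - x).val ≤ b) (hdy : a ≤ (W - y).val) (hdy' : (W - y).val ≤ a + b) :
    rho (sc l z x + 1) - rho (sc l z x) =
      (if aT a b W y then (1 : ℤ) else 0) - (if aB b W x then (1 : ℤ) else 0) := by
  rw [hL.rj (sc l z x)]
  congr 1
  · rw [Finset.sum_eq_single y]
    · by_cases h : aT a b W y
      · rw [if_pos h, if_pos ⟨h, hxy.symm⟩]
      · rw [if_neg h, if_neg (fun h' => h h'.1)]
    · intro j _ hj
      rw [if_neg]
      rintro ⟨h0, h'⟩
      rw [hxy] at h'
      have h2 : sc l z j = sc l z y := add_right_cancel h'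
      rw [aT_iff hT.hP] at h0
      have d1 : dd W j = (W - j).val := rfl
      have d2 : dd W y = (W - y).val := rfl
      rcases le_total (dd W j) (dd W y) with h3 | h3
      · exact hj (sc_uniq hT h2 h3 (by omega))
      · exact hj (sc_uniq hT h2.symm h3 (by omega)).symm
    · intro h'
      exact absurd (Finset.mem_univ y) h'
  · rw [Finset.sum_eq_single x]
    · by_cases h : aB b W x
      · rw [if_pos h, if_pos ⟨h, rfl⟩]
      · rw [if_neg h, if_neg (fun h' => h h'.1)]
    · intro j _ hj
      rw [if_neg]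
      rintro ⟨h0, h'⟩
      rw [aB_iff hT.hP] at h0
      have d1 : dd W j = (W - j).val := rfl
      have d2 : dd W x = (W - x).val := rfl
      rcases le_total (dd W j) (dd W x) with h3 | h3
      · exact hj (sc_uniq hT h' h3 (by omega))
      · exact hj (sc_uniq hT h'.symm h3 (by omega)).symm
    · intro h'
      exact absurd (Finset.mem_univ x) h'

theorem res_eq {x y : ZMod p} (hxy : sc l z x = sc l z y + a * l) :
    res p l (z x) = res p l (z y) := by
  rw [← res_sc p l z x, ← res_sc p l z y, hxy, map_add, res_mul_q, add_zero]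

theorem mult {x y : ZMod p} (h : res p l (z x) = res p l (z y)) :
    ∃ n, off (z x) (z y) = n * l := by
  have h1 : res p l (z y - z x) = 0 := by rw [map_sub, h, sub_self]
  obtain ⟨n, hn⟩ := (res_eq_zero p l _).1 h1
  exact ⟨n, by unfold off; rw [hn, Nat.mul_comm]⟩

/-- numbers -/
theorem nums (hT : TC p l a b k z) (hba : b + k ≤ a) :
    1 ≤ l ∧ l ≤ b * l ∧ b * l + l ≤ a * l ∧ a * l + a * l < p * l ∧ a * l + b * l + l ≤ p * l ∧
      l ≤ k * l ∧ k * l + l ≤ a * l := by
  obtain ⟨hq, haq, hbq, hM⟩ := prods hT.hP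
  have h1 := hT.hk
  have h2 := hT.hk2
  have h3 := hT.ha2
  have h4 : (b + 1) * l ≤ a * l := Nat.mul_le_mul_right l (by omega)
  have h5 : (2 * a + 1) * l ≤ p * l := Nat.mul_le_mul_right l (by omega)
  have h6 : 1 * l ≤ k * l := Nat.mul_le_mul_right l h1
  have h7 : (k + 1) * l ≤ a * l := Nat.mul_le_mul_right l (by omega)
  have e4 : (b + 1) * l = b * l + l := by ring
  have e5 : (2 * a + 1) * l = a * l + a * l + l := by ring
  have e7 : (k + 1) * l = k * l + l := by ring
  refine ⟨hq, by omega, by omega, by omega, hM, by omega, by omega⟩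

/-- `x ≠ y` -/
theorem ne_pos (hT : TC p l a b k z) (hba : b + k ≤ a) {x y : ZMod p}
    (hxy : sc l z x = sc l z y + a * l) : z x ≠ z y := by
  intro h
  have h1 := hT.hinj h
  rw [h1] at hxy
  have h2 : ((a * l : ℕ) : ZMod (p * l)) = ((0 : ℕ) : ZMod (p * l)) := by
    push_cast
    have h3 := sub_eq_zero.2 hxy
    have h4 : sc l z y - (sc l z y + (a : ZMod (p * l)) * l) = -((a : ZMod (p * l)) * l) := by ring
    rw [h4] at h3
    exact neg_eq_zero.1 h3
  obtain ⟨n1, n2, n3, n4, n5, n6, n7⟩ := nums hT hba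
  have h5 := cast_inj (by omega) (by omega) h2
  omega

theorem e_hh : e p l (hh p b k) = (((b + k) * l : ℕ) : ZMod (p * l)) := by
  unfold hh
  exact e_natCast p l (b + k)

/-- the case where `x` is to the right of `y` -/
theorem case1 (hR : StRUN) (hT : TC p l a b k z) (hba : b + k ≤ a) {x y : ZMod p}
    (hxy : sc l z x = sc l z y + a * l) : b * l ≤ off (z y) (z x) := by
  by_contra hlt
  push Not at hlt
  obtain ⟨n, hn⟩ := mult (res_eq hxy).symm
  obtain ⟨n1, n2, n3, n4, n5, n6, n7⟩ := nums hT hba
  obtain ⟨ha, hb, hab, -⟩ := hT.hP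
  have hk2 := hT.hk2
  have hn0 : n ≠ 0 := by
    intro h
    rw [h, zero_mul] at hn
    exact ne_pos hT hba hxy (off_eq_zero.1 hn).symm
  have hnb : n < b := by
    rw [hn] at hlt
    exact lt_of_mul_lt_mul_right hlt (Nat.zero_le l)
  have hnl : n * l + l ≤ b * l := by
    have h1 : (n + 1) * l ≤ b * l := Nat.mul_le_mul_right l (by omega)
    have e1 : (n + 1) * l = n * l + l := by ring
    omega
  have hzx : z x = z y + ((n * l : ℕ) : ZMod (p * l)) := by
    rw [← hn]; exact (off_spec (z y) (z x)).symm
  -- the rows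
  have hrow : x = y + ((a - n : ℕ) : ZMod p) := by
    apply e_inj p l n1
    rw [e_add, e_natCast]
    have h1 : z x + e p l x = z y + e p l y + a * l := hxy
    rw [hzx] at h1
    have h2 : e p l x = e p l y + (a * l - ((n * l : ℕ) : ZMod (p * l))) := by
      have h3 := eq_sub_of_add_eq' h1
      rw [h3]; ring
    rw [h2, Nat.sub_mul, Nat.cast_sub (by omega)]
    push_cast
    ring
  set W : ZMod p := x + (n : ZMod p) with hW
  have hdx : (W - x).val = n := by
    rw [hW, add_sub_cancel_left, ZMod.val_natCast, Nat.mod_eq_of_lt (by omega)]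
  have hdy : (W - y).val = a := by
    have h1 : W - y = ((a : ℕ) : ZMod p) := by
      rw [hW, hrow, Nat.cast_sub (by omega)]; ring
    rw [h1, ZMod.val_natCast, Nat.mod_eq_of_lt (by omega)]
  obtain ⟨lam, rho, hL⟩ := aLDX p l a b hT.hP z W (fun X S => hT.hF X W S)
  have hbl := (bl p l a b hT.hP z W y).1
  have hline : ∀ t : ℕ, 0 ≤ t → t < b * l →
      box l a b z y (z y - (t : ZMod (p * l))) (z y - (t : ZMod (p * l)) + e p l W) := by
    intro t _ ht
    rw [hbl, off_nat' (z y) (by omega), hdy, Nat.sub_self, zero_mul]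
    omega
  have hc := run_const hR hT hL y 0 (b * l) hline
  set α := lam (z y - ((0 : ℕ) : ZMod (p * l))) with hα
  set β := rho (z y - ((0 : ℕ) : ZMod (p * l)) + e p l W) with hβ
  have hsum : α + β = -1 := by
    have h1 := hL.line (z y - ((0 : ℕ) : ZMod (p * l)))
    rw [NN_one hT.hD (hline 0 le_rfl (by omega))] at h1
    omega
  have hS0 : z y - ((0 : ℕ) : ZMod (p * l)) + e p l W = sc l z x := by
    rw [eW W y, hdy, hxy]
    unfold sc
    push_cast
    ring
  have hjump : rho (sc l z x + 1) = β - 1 := by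
    classical
    have h1 := rho_jump hT hL hxy (by omega) (by omega) (by omega)
    have hnT : ¬ aT a b W y := by
      rw [aT_iff hT.hP, hdy]
      omega
    have hB : aB b W x := by
      rw [aB_iff hT.hP, hdx]
      omega
    rw [if_neg hnT, if_pos hB, ← hS0, ← hβ] at h1
    rw [← hS0]
    omega
  set X1 : ZMod (p * l) := z x - b * l with hX1
  have hX1' : X1 = z y - (((b - n) * l : ℕ) : ZMod (p * l)) := by
    rw [hX1, hzx, Nat.sub_mul, Nat.cast_sub (by omega)]
    push_cast
    ring
  have hlam : lam X1 = α := by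
    rw [hX1']
    refine (hc ((b - n) * l) (Nat.zero_le _) ?_).1
    rw [Nat.sub_mul]
    have : 1 * l ≤ n * l := Nat.mul_le_mul_right l (by omega)
    omega
  have hNN : 1 ≤ NN l a b z X1 (sc l z x + 1) := by
    have h1 := hL.lo X1 (sc l z x + 1)
    rw [hlam, hjump] at h1
    omega
  obtain ⟨g, hg1, hg2⟩ := NN_ex hNN
  have hzx1 : z x = X1 + ((b * l : ℕ) : ZMod (p * l)) := by
    rw [hX1]; push_cast; ring
  have hbx : box l a b z x (X1 + 1) (sc l z x + 1) := by
    refine ⟨?_, ?_⟩
    · have : off (X1 + 1) (z x) = b * l - 1 := off_cast _ _ (by omega) (by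
        rw [hzx1, Nat.cast_sub (by omega)]; push_cast; ring)
      omega
    · rw [off_self]
      omega
  have hgz : z g = X1 := by
    by_contra hne
    have h1 : off X1 (z g) ≠ 0 := fun h => hne (off_eq_zero.1 h).symm
    have h2 : z g = X1 + ((off X1 (z g) : ℕ) : ZMod (p * l)) := (off_spec X1 (z g)).symm
    have h3 : off (X1 + 1) (z g) = off X1 (z g) - 1 := off_cast _ _ (by omega) (by
      conv_lhs => rw [h2]
      rw [Nat.cast_sub (by omega)]; push_cast; ring)
    have h4 : box l a b z g (X1 + 1) (sc l z x + 1) := ⟨by omega, hg2⟩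
    have h5 := hT.hD g x _ _ h4 hbx
    rw [h5] at hg1
    have h6 : off X1 (z x) = b * l := by
      conv_lhs => rw [hzx1]
      exact off_nat X1 (by omega)
    omega
  have hgx : g = x + hh p b k := hT.htie g x hgz
  have hsg : sc l z g = sc l z x + ((k * l : ℕ) : ZMod (p * l)) := by
    unfold sc
    rw [hgz, hX1, hgx, e_add, e_hh]
    push_cast
    ring
  have hoff : off (sc l z g + 1) (sc l z x + 1) = p * l - k * l := off_cast _ _ (by omega) (by
    rw [hsg, Nat.cast_sub (by omega), ZMod.natCast_self]; ring)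
  omega

/-- the case where `x` is to the left of `y` -/
theorem case2 (hR : StRUN) (hJ : StJV) (hT : TC p l a b k z) (hba : b + k ≤ a) {x y : ZMod p}
    (hxy : sc l z x = sc l z y + a * l) : b * l ≤ off (z x) (z y) := by
  by_contra hlt
  push Not at hlt
  obtain ⟨n, hn⟩ := mult (res_eq hxy)
  obtain ⟨n1, n2, n3, n4, n5, n6, n7⟩ := nums hT hba
  obtain ⟨ha, hb, hab, -⟩ := hT.hP
  have hk2 := hT.hk2
  have hn0 : n ≠ 0 := by
    intro h
    rw [h, zero_mul] at hn
    exact ne_pos hT hba hxy (off_eq_zero.1 hn)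
  have hnb : n < b := by
    rw [hn] at hlt
    exact lt_of_mul_lt_mul_right hlt (Nat.zero_le l)
  have hnl : n * l + l ≤ b * l := by
    have h1 : (n + 1) * l ≤ b * l := Nat.mul_le_mul_right l (by omega)
    have e1 : (n + 1) * l = n * l + l := by ring
    omega
  have hnl1 : l ≤ n * l := by
    have : 1 * l ≤ n * l := Nat.mul_le_mul_right l (by omega)
    omega
  have hzy : z y = z x + ((n * l : ℕ) : ZMod (p * l)) := by
    rw [← hn]; exact (off_spec (z x) (z y)).symm
  have hrow : x = y + ((a + n : ℕ) : ZMod p) := by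
    apply e_inj p l n1
    rw [e_add, e_natCast]
    have h1 : z x + e p l x = z y + e p l y + a * l := hxy
    rw [hzy] at h1
    have h3 := eq_sub_of_add_eq' h1
    rw [h3]
    push_cast
    ring
  have hdx : (x - x).val = 0 := by rw [sub_self, ZMod.val_zero]
  have hdy : (x - y).val = a + n := by
    have h1 : x - y = ((a + n : ℕ) : ZMod p) := by
      rw [hrow]; ring
    rw [h1, ZMod.val_natCast, Nat.mod_eq_of_lt (by omega)]
  obtain ⟨lam, rho, hL⟩ := aLDX p l a b hT.hP z x (fun X S => hT.hF X x S)
  have hbl := (bl p l a b hT.hP z x y).1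
  have e1 : (a + n - a) * l = n * l := by rw [Nat.add_sub_cancel_left]
  have e2 : (a + n) * l = a * l + n * l := by ring
  have hline : ∀ t : ℕ, n * l ≤ t → t < b * l →
      box l a b z y (z y - (t : ZMod (p * l))) (z y - (t : ZMod (p * l)) + e p l x) := by
    intro t ht1 ht
    rw [hbl, off_nat' (z y) (by omega), hdy, e1, e2]
    omega
  have hc := run_const hR hT hL y (n * l) (b * l) hline
  set α := lam (z y - ((n * l : ℕ) : ZMod (p * l))) with hα
  set β := rho (z y - ((n * l : ℕ) : ZMod (p * l)) + e p l x) with hβ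
  have hsum : α + β = -1 := by
    have h1 := hL.line (z y - ((n * l : ℕ) : ZMod (p * l)))
    rw [NN_one hT.hD (hline (n * l) le_rfl (by omega))] at h1
    omega
  have hS0 : z y - ((n * l : ℕ) : ZMod (p * l)) + e p l x = sc l z x := by
    rw [hzy]
    unfold sc
    ring
  have hjump : rho (sc l z x + 1) = β + 1 := by
    classical
    have h1 := rho_jump hT hL hxy (by omega) (by omega) (by omega)
    have hTy : aT a b x y := by
      rw [aT_iff hT.hP, hdy]
      omega
    have hB : ¬ aB b x x := by
      rw [aB_iff hT.hP, hdx]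
      omega
    rw [if_pos hTy, if_neg hB, ← hS0, ← hβ] at h1
    rw [← hS0]
    omega
  have hbx : box l a b z x (z y - b * l) (sc l z x + 1) := by
    refine ⟨?_, ?_⟩
    · have h1 : off (z y - (b : ZMod (p * l)) * (l : ZMod (p * l))) (z x) = b * l - n * l := off_cast _ _ (by omega) (by
        rw [hzy, Nat.cast_sub (by omega)]; push_cast; ring)
      omega
    · rw [off_self]
      omega
  by_cases htl : TL l b k z (y + hh p b k)
  · unfold TL at htl
    rw [add_sub_cancel_right] at htl
    have hz1 : z (y + hh p b k) = z y - b * l := by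
      rw [htl]; ring
    have hs1 : sc l z (y + hh p b k) = sc l z y + ((k * l : ℕ) : ZMod (p * l)) := by
      unfold sc
      rw [hz1, e_add, e_hh]
      push_cast
      ring
    have hb1 : box l a b z (y + hh p b k) (z y - b * l) (sc l z x + 1) := by
      refine ⟨?_, ?_⟩
      · rw [hz1, off_self]
        omega
      · have h1 : off (sc l z (y + hh p b k) + 1) (sc l z x + 1) = a * l - k * l :=
          off_cast _ _ (by omega) (by
            rw [hs1, hxy, Nat.cast_sub (by omega)]; push_cast; ring)
        omega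
    have h2 := hT.hD _ _ _ _ hb1 hbx
    rw [← h2, hs1] at hxy
    have h3 : ((k * l : ℕ) : ZMod (p * l)) = ((a * l : ℕ) : ZMod (p * l)) := by
      rw [Nat.cast_mul a l]
      exact add_left_cancel hxy
    have h4 := cast_inj (by omega) (by omega) h3
    omega
  · have heL : eL l a b k z x y := by
      refine ⟨?_, ?_, fun h => absurd h htl⟩
      · show b < (x - y).val
        rw [hdy]; omega
      · show (x - y).val ≤ a + b
        rw [hdy]; omega
    have h1 := (hJ p l a b k z hT x lam rho hL).2.1 y heL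
    have h2 : z y - b * l + 1 = z y - ((b * l - 1 : ℕ) : ZMod (p * l)) := by
      rw [Nat.cast_sub (by omega)]; push_cast; ring
    rw [h2, (hc (b * l - 1) (by omega) (by omega)).1] at h1
    have h3 := hL.up (z y - b * l) (sc l z x + 1)
    rw [NN_one hT.hD hbx, hjump] at h3
    omega

end NDaux

open NDaux in
theorem nd : StRUN → StJV → StND := by
  intro hR hJ p l a b k _ _ z hT hba x y hxy
  exact ⟨case1 hR hT hba hxy, case2 hR hJ hT hba hxy⟩

end Helper11.LV
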