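import Pool.Agent.Helper11.LV.StC
import Pool.Agent.Helper11.N1.All

set_option autoImplicit false
set_option linter.unusedSectionVars false

/-!
Project LV, module PB0: the rows with `u = 0` over `Q`-boxes, row `0` between bottom and left side.
-/

namespace Helper11.LV.PB0aux

open Helper11.N1

section off

variable {M : ℕ} [NeZero M]

theorem offAdd {x y : ZMod M} {n : ℕ} (h : off x y + n < M) :
    off x (y + (n : ZMod M)) = off x y + n := by
  apply NBaux.off_cast x _ h
  push_cast
  linear_combination -(off_spec x y)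

theorem offSub {x y : ZMod M} {n : ℕ} (h : n ≤ off x y) :
    off x (y - (n : ZMod M)) = off x y - n := by
  have h1 := off_lt x y
  apply NBaux.off_cast x _ (by omega)
  rw [Nat.cast_sub h]
  linear_combination -(off_spec x y)

theorem valOff (X : ZMod M) : X.val = off 0 X := by
  unfold off
  rw [sub_zero]

end off

end Helper11.LV.PB0aux

namespace Helper11.LV

open Helper11.N1

open PB0aux in
theorem pb0 : StTA → StNB → StJH → StCOV → StQR → StQL → StQC → StPB0 := by
  intro hTA hNB _ hCOV hQR hQL hQC p l a b k _ _ z W i u δ hE hba hu1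
  have hT := hE.tc
  have hAB := hE.ab
  obtain ⟨ta1, -, ta3, -, -, -⟩ := hTA p l a b k z hT hba W i u hAB hu1
  obtain ⟨c1, -, -, -, c5, -, -⟩ := hCOV p l a b k z hT hba W i u hAB
  have nb := hNB p l a b k z hT hba W i (fun S => u S - 2) hAB.ld
  have qr := hQR p l a b k z hT hba W i u hAB hu1
  have ql := hQL p l a b k z hT hba W i u hAB hu1
  have qc := hQC p l a b k z hT hba W i u hAB hu1
  obtain ⟨hl1, hal2, hbl2, hMab⟩ := NBaux.prods hT.hP
  have hM2 : 2 * (a * l) + l ≤ p * l := by
    have h1 : (2 * a + 1) * l ≤ p * l :=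
      Nat.mul_le_mul_right l (by have := hT.ha2; omega)
    calc 2 * (a * l) + l = (2 * a + 1) * l := by ring
      _ ≤ p * l := h1
  have hkl : k * l + l ≤ a * l := by
    have h1 : (k + 1) * l ≤ a * l := Nat.mul_le_mul_right l (by have := hT.hk2; omega)
    calc k * l + l = (k + 1) * l := by ring
      _ ≤ a * l := h1
  have hk1 : 1 ≤ k := hT.hk
  have hkl1 : l ≤ k * l := Nat.le_mul_of_pos_left l (by omega)
  have hd1 := hE.d1
  have hd2 := hE.d2
  have hdl1 : l ≤ W.val * l := Nat.le_mul_of_pos_left l (by omega)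
  have hdl2 : W.val * l ≤ b * l := Nat.mul_le_mul_right l hd2
  have hz0 : z 0 = 0 := hE.z0
  have hsc0 : sc l z 0 = 0 := by
    unfold sc
    rw [hz0, e_zero, add_zero]
  have hdd0 : dd W 0 = W.val := by
    unfold dd
    rw [sub_zero]
  have hv1 : (1 : ZMod (p * l)).val = 1 := by
    rw [valOff]
    exact NBaux.off_cast 0 1 (by omega) (by push_cast; ring)
  have ho10 : off (1 : ZMod (p * l)) 0 = p * l - 1 :=
    NBaux.off_cast _ _ (by omega)
      (by rw [Nat.cast_sub (by omega), ZMod.natCast_self]; push_cast; ring)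
  have hu10 : u 1 = 0 := by
    have hX0 : (0 - ((W.val * l - 1 : ℕ) : ZMod (p * l))) + e p l W = 1 := by
      unfold e
      rw [Nat.cast_sub (by omega)]
      push_cast
      ring
    have hbox : box l a b z 0 (0 - ((W.val * l - 1 : ℕ) : ZMod (p * l)))
        (0 - ((W.val * l - 1 : ℕ) : ZMod (p * l)) + e p l W) := by
      refine ((bl p l a b hT.hP z W 0).1 _).2 ?_
      have h1 : W.val - a = 0 := by omega
      rw [hz0, sub_zero, off_nat' 0 (n := W.val * l - 1) (by omega), h1, zero_mul]
      omega
    have h2 := (ta1 _ 0 hbox (by rw [hdd0]; exact hd2)).2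
    rwa [hX0] at h2
  have hδ : 2 ≤ δ := by
    have h1 := hE.hU 1 hu10
    omega
  have hδM := hE.hδM
  have hi1 : i 1 ≠ 0 := fun h => hE.hL 1 h ⟨by omega, by omega⟩
  have hQ0 : ∀ (j : ZMod p) (X : ZMod (p * l)), box l a b z j X (X + e p l W) → i X = 0 →
      j ≠ 0 := by
    intro j X h1 h2 h3
    rw [h3] at h1
    have h4 := (ta3 X 0 h1 h2).1
    rw [hdd0] at h4
    omega
  -- left sides
  have left : ∀ (j : ZMod p) (X : ZMod (p * l)), box l a b z j X (X + e p l W) → i X = 0 →
      eL l a b k z W j → ¬ (1 ≤ (z j - b * l).val ∧ (z j - b * l).val ≤ δ) →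
      ∀ S, u S = 0 → off (sc l z j + 1) S < a * l := by
    intro j X hb hi heL hI S hS
    obtain ⟨t1, t2, t3, t4⟩ := ta3 X j hb hi
    obtain ⟨-, -, -, n4, -, -, -, -⟩ := nb j X hb
    have hiL : i (z j - b * l) = 1 := by
      rw [(n4 t1 heL).1, hi, zero_add]
    have hoff : off (z j - (b : ZMod (p * l)) * (l : ZMod (p * l)) + 1) (z j) = b * l - 1 :=
      NBaux.off_cast _ _ (by omega) (by rw [Nat.cast_sub (by omega)]; push_cast; ring)
    have hiL1 : i (z j - b * l + 1) = 0 := (t3 _ (by rw [hoff]; omega)).2
    obtain ⟨f, hf⟩ := c1 _ S hiL1 hS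
    by_contra hcon
    have hfj : f ≠ j := by
      intro h
      rw [h] at hf
      exact hcon hf.2
    obtain ⟨q1, n, q2, q3, q4, q5⟩ := ql X S j f hb hi hS hf hfj
    have hf0 : f ≠ 0 := by
      intro h0
      have e1 := q1.1
      have e2 := hf.1
      rw [h0, hz0] at e1 e2
      have e3 := off_spec (z j - (b : ZMod (p * l)) * (l : ZMod (p * l))) 0
      have ht1 : off (z j - (b : ZMod (p * l)) * (l : ZMod (p * l))) 0 ≠ 0 := by
        intro h
        rw [off_eq_zero.1 h, zero_add, ho10] at e2
        omega
      have e4 : off 1 (z j) = b * l - off (z j - (b : ZMod (p * l)) * (l : ZMod (p * l))) 0 - 1 := by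
        refine NBaux.off_cast _ _ (by omega) ?_
        rw [Nat.cast_sub (by omega), Nat.cast_sub (by omega)]
        push_cast
        linear_combination e3
      exact hi1 (t3 1 (by rw [e4]; omega)).2
    have hn : off (sc l z f + 1) (S + (n : ZMod (p * l))) = off (sc l z f + 1) S + n :=
      offAdd (by omega)
    have hbx : box l a b z f (z j - b * l) (S + (n : ZMod (p * l))) :=
      ⟨q1.1, by rw [hn]; exact q3⟩
    obtain ⟨v1, v2⟩ := hE.hU _ (q4 (n - 1) (by omega))
    have hv : (S + (n : ZMod (p * l))).val = (S + ((n - 1 : ℕ) : ZMod (p * l))).val + 1 := by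
      rw [valOff, valOff (S + ((n - 1 : ℕ) : ZMod (p * l)))]
      have h1 : S + (n : ZMod (p * l)) =
          S + ((n - 1 : ℕ) : ZMod (p * l)) + ((1 : ℕ) : ZMod (p * l)) := by
        rw [Nat.cast_sub q2]
        ring
      rw [h1]
      exact offAdd (by rw [← valOff]; omega)
    exact hE.hst _ _ f hI hiL (by omega) (by omega) q5 hf0 hbx
  -- right sides
  have right : ∀ (j f : ZMod p) (X S : ZMod (p * l)), box l a b z j X (X + e p l W) →
      i X = 0 → eR l a b k z W j → u S = 0 → box l a b z f (z j) S → f ≠ j →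
      off (sc l z f + 1) 0 < a * l ∧
      ∀ m : ℕ, m < S.val → u (S - (m : ZMod (p * l))) = 0 := by
    intro j f X S hb hi heR hS hf hfj
    obtain ⟨t1, t2, t3, t4⟩ := ta3 X j hb hi
    obtain ⟨-, -, -, -, -, n6, -, -⟩ := nb j X hb
    have hizj : i (z j) = 0 := (t3 (z j) (by rw [off_self]; omega)).2
    have hj0 := hQ0 j X hb hi
    have hiz1 : i (z j + 1) = 1 := by
      rw [(n6 t2 heR).1, hi, zero_add]
    have hzI := hE.hL (z j) hizj
    have hzj0 : z j ≠ 0 := fun h => hj0 (hT.hinj (h.trans hz0.symm))
    have hzI1 : ¬ (1 ≤ (z j + 1).val ∧ (z j + 1).val ≤ δ) := by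
      rintro ⟨w1, w2⟩
      have w3 : (z j).val = (z j + 1).val - 1 := by
        rw [valOff, valOff (z j + 1)]
        have h1 := offSub (x := 0) (y := z j + 1) (n := 1) (by rw [← valOff]; exact w1)
        rwa [Nat.cast_one, add_sub_cancel_right] at h1
      have w4 : (z j).val ≠ 0 := fun h => hzj0 ((ZMod.val_eq_zero _).1 h)
      exact hzI ⟨by omega, by omega⟩
    obtain ⟨q1, n, q2, q3, q4, q5⟩ := qr X S j f hb hi hS hf hfj
    have hf2 := hf.2
    have hf0 : f ≠ 0 := by
      intro h0
      have e1 := hf.1
      have e2 := q1.1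
      rw [h0, hz0] at e1 e2
      have e3 := off_spec (z j) 0
      have ht1 : off (z j) 0 ≠ 0 := fun h => hzj0 (off_eq_zero.1 h)
      have o1 : off (-((b : ZMod (p * l)) * (l : ZMod (p * l)))) (z j) =
          b * l - off (z j) 0 := by
        refine NBaux.off_cast _ _ (by omega) ?_
        rw [Nat.cast_sub (by omega)]
        push_cast
        linear_combination e3
      have o2 : off (-((b : ZMod (p * l)) * (l : ZMod (p * l))) + 1) (z j) =
          b * l - off (z j) 0 - 1 := by
        refine NBaux.off_cast _ _ (by omega) ?_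
        rw [Nat.cast_sub (by omega), Nat.cast_sub (by omega)]
        push_cast
        linear_combination e3
      have i1 := (t3 _ (by rw [o1]; omega)).2
      obtain ⟨g, hg⟩ := c1 _ 1 i1 hu10
      have hb0 : box l a b z 0 (-((b : ZMod (p * l)) * (l : ZMod (p * l))) + 1) 1 := by
        refine ⟨?_, ?_⟩
        · rw [hz0, NBaux.off_cast _ _ (n := b * l - 1) (by omega)
            (by rw [Nat.cast_sub (by omega)]; push_cast; ring)]
          omega
        · rw [hsc0, zero_add, off_self]
          omega
      rcases c5 _ 1 g 0 hg hb0 with h | ⟨h1, h2, h3, h4⟩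
      · rw [← h] at hg
        have h5 := hg.1
        rw [hz0, NBaux.off_cast _ _ (n := b * l) (by omega) (by push_cast; ring)] at h5
        omega
      · have hgh : g = hh p b k := sub_eq_zero.1 h3.symm
        have hscg : sc l z g = (k : ZMod (p * l)) * (l : ZMod (p * l)) := by
          unfold sc
          rw [h1, hgh]
          unfold hh
          rw [e_natCast]
          push_cast
          ring
        have h5 := hg.2
        rw [hscg, NBaux.off_cast _ _ (n := p * l - k * l) (by omega)
          (by rw [Nat.cast_sub (by omega), ZMod.natCast_self]; push_cast; ring)] at h5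
        omega
    have hn : off (sc l z f + 1) (S - (n : ZMod (p * l))) = off (sc l z f + 1) S - n :=
      offSub q3
    have hbx : box l a b z f (z j + 1) (S - (n : ZMod (p * l))) :=
      ⟨q1.1, by rw [hn]; omega⟩
    obtain ⟨v1, v2⟩ := hE.hU _ (q4 (n - 1) (by omega))
    have hv : (S - (n : ZMod (p * l))).val = (S - ((n - 1 : ℕ) : ZMod (p * l))).val - 1 := by
      rw [valOff, valOff (S - ((n - 1 : ℕ) : ZMod (p * l)))]
      have h1 : S - (n : ZMod (p * l)) =
          S - ((n - 1 : ℕ) : ZMod (p * l)) - ((1 : ℕ) : ZMod (p * l)) := by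
        rw [Nat.cast_sub q2]
        ring
      rw [h1]
      exact offSub (by rw [← valOff]; omega)
    have hzero : (S - (n : ZMod (p * l))).val = 0 := by
      by_contra hne
      exact hE.hst _ _ f hzI1 hiz1 (by omega) (by omega) q5 hf0 hbx
    have hS0 : S - (n : ZMod (p * l)) = 0 := (ZMod.val_eq_zero _).1 hzero
    have hSn : S = (n : ZMod (p * l)) := sub_eq_zero.1 hS0
    have hSv : S.val = n := by
      rw [hSn, ZMod.val_natCast, Nat.mod_eq_of_lt (by omega)]
    refine ⟨?_, ?_⟩
    · rw [hS0] at hn
      rw [hn]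
      omega
    · rw [hSv]
      exact q4
  -- rows over all Q-boxes
  have part4 : ∀ (N : ℕ) (j : ZMod p) (X S : ZMod (p * l)), a - dd W j = N →
      box l a b z j X (X + e p l W) → i X = 0 → u S = 0 →
      (∃ m : ℕ, m < S.val ∧ u (S - (m : ZMod (p * l))) ≠ 0) →
      off (sc l z j + 1) S < a * l := by
    intro N
    induction N using Nat.strong_induction_on with
    | _ N ih =>
      intro j X S hN hb hi hS hm
      obtain ⟨t1, t2, t3, t4⟩ := ta3 X j hb hi
      by_cases heR : eR l a b k z W j
      · have hizj : i (z j) = 0 := (t3 (z j) (by rw [off_self]; omega)).2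
        obtain ⟨f, hf⟩ := c1 (z j) S hizj hS
        by_cases hfj : f = j
        · rw [hfj] at hf
          exact hf.2
        · exfalso
          obtain ⟨m, hm1, hm2⟩ := hm
          exact hm2 ((right j f X S hb hi heR hS hf hfj).2 m hm1)
      · obtain ⟨⟨X', hb', hi'⟩, h2, h3, h4⟩ := (qc j ⟨X, hb, hi⟩).1 heR
        apply h4 S hS
        have t2' := (ta3 X' _ hb' hi').2.1
        exact ih (a - dd W (j - hh p b k)) (by omega) _ X' S rfl hb' hi' hS hm
  -- the dichotomy
  have part5 : ∀ (N : ℕ) (j : ZMod p) (X : ZMod (p * l)), dd W j = N →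
      box l a b z j X (X + e p l W) → i X = 0 →
      (∀ S, u S = 0 → off (sc l z j + 1) S < a * l) ∨
      ∃ (s : ℕ) (X1 : ZMod (p * l)),
        box l a b z (j + (s : ZMod p) * hh p b k) X1 (X1 + e p l W) ∧
        i X1 = 0 ∧ (z (j + (s : ZMod p) * hh p b k) - b * l).val = δ ∧
        dd W j = dd W (j + (s : ZMod p) * hh p b k) + s * (b + k) ∧
        sc l z (j + (s : ZMod p) * hh p b k) = sc l z j + ((s * k * l : ℕ) : ZMod (p * l)) := by
    intro N
    induction N using Nat.strong_induction_on with
    | _ N ih =>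
      intro j X hN hb hi
      obtain ⟨t1, t2, t3, t4⟩ := ta3 X j hb hi
      by_cases heL : eL l a b k z W j
      · by_cases hI : 1 ≤ (z j - b * l).val ∧ (z j - b * l).val ≤ δ
        · right
          have hoff : off (z j - (b : ZMod (p * l)) * (l : ZMod (p * l)) + 1) (z j) = b * l - 1 :=
            NBaux.off_cast _ _ (by omega) (by rw [Nat.cast_sub (by omega)]; push_cast; ring)
          have hiL1 : i (z j - b * l + 1) = 0 := (t3 _ (by rw [hoff]; omega)).2
          have hnI := hE.hL _ hiL1
          refine ⟨0, X, ?_, hi, ?_, ?_, ?_⟩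
          · rw [Nat.cast_zero, zero_mul, add_zero]
            exact hb
          · rw [Nat.cast_zero, zero_mul, add_zero]
            by_contra hne
            have hv : (z j - b * l + 1).val = (z j - b * l).val + 1 := by
              rw [valOff, valOff (z j - (b : ZMod (p * l)) * (l : ZMod (p * l)))]
              have h1 := offAdd (x := 0) (y := z j - (b : ZMod (p * l)) * (l : ZMod (p * l))) (n := 1)
                (by rw [← valOff]; omega)
              rwa [Nat.cast_one] at h1
            exact hnI ⟨by omega, by omega⟩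
          · rw [Nat.cast_zero, zero_mul, zero_mul, add_zero, add_zero]
          · rw [Nat.cast_zero, zero_mul, zero_mul, zero_mul, Nat.cast_zero, add_zero, add_zero]
        · left
          exact left j X hb hi heL hI
      · obtain ⟨⟨X', hb', hi'⟩, h2, h3, h4⟩ := (qc j ⟨X, hb, hi⟩).2 heL
        rcases ih (dd W (j + hh p b k)) (by omega) _ X' rfl hb' hi' with h5 | h5
        · left
          intro S hS
          exact h4 S hS (h5 S hS)
        · right
          obtain ⟨s, X1, r1, r2, r3, r4, r5⟩ := h5
          have hc : j + hh p b k + (s : ZMod p) * hh p b k =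
              j + ((s + 1 : ℕ) : ZMod p) * hh p b k := by
            push_cast
            ring
          rw [hc] at r1 r3 r4 r5
          have hsc : sc l z (j + hh p b k) = sc l z j + ((k * l : ℕ) : ZMod (p * l)) := by
            unfold TL at h2
            rw [add_sub_cancel_right] at h2
            unfold sc
            rw [h2, e_add]
            unfold hh
            rw [e_natCast]
            push_cast
            ring
          refine ⟨s + 1, X1, r1, r2, r3, ?_, ?_⟩
          · rw [h3, r4]
            ring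
          · rw [r5, hsc]
            push_cast
            ring
  refine ⟨?_, ?_, ?_⟩
  · intro j X S h1 h2 h3 h4
    exact part4 _ j X S rfl h1 h2 h3 h4
  · intro j f X S h1 h2 h3 h4 h5 h6
    exact (right j f X S h1 h2 h3 h4 h5 h6).1
  · intro j X h1 h2
    exact part5 _ j X rfl h1 h2

end Helper11.LV
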