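import Pool.Agent.Helper11.LV.StA
import Pool.Agent.Helper11.N1.All

set_option autoImplicit false
set_option linter.unusedSectionVars false

/-!
# Boxes with the same second coordinate

`sc` is not injective in general.  Two different boxes with the same `sc` have rows which differ by
more than `b`.
-/

namespace Helper11.LV

open Helper11.N1
open Helper11.N1.NBaux

variable {p l a b k : ℕ} [NeZero p] [NeZero l] {z : ZMod p → ZMod (p * l)}

theorem sc_uniq (hT : TC p l a b k z) {W x y : ZMod p} (h : sc l z x = sc l z y)
    (h1 : dd W x ≤ dd W y) (h2 : dd W y ≤ dd W x + b) : x = y := by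
  have hP := hT.hP
  have hk1 := hT.hk
  have hk2 := hT.hk2
  have ha2 := hT.ha2
  have hl2 := hT.hl2
  have hab := hP.hab
  have ha := hP.ha
  have hb := hP.hb
  obtain ⟨n, hn⟩ := Nat.exists_eq_add_of_le h1
  have hxy : x - y = (n : ZMod p) := by
    have e1 : ((dd W y : ℕ) : ZMod p) = W - y := ZMod.natCast_zmod_val _
    have e2 : ((dd W x : ℕ) : ZMod p) = W - x := ZMod.natCast_zmod_val _
    rw [hn, Nat.cast_add, e2] at e1
    linear_combination -e1
  have he : e p l x = e p l y + ((n * l : ℕ) : ZMod (p * l)) := by
    rw [← e_natCast, ← hxy, e_sub]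
    ring
  have hz : z y = z x + ((n * l : ℕ) : ZMod (p * l)) := by
    unfold sc at h
    rw [he] at h
    linear_combination -h
  have hbl : b * l < p * l := Nat.mul_lt_mul_of_pos_right (by omega) (by omega)
  rcases Nat.lt_or_ge n b with h3 | h3
  · have h4 : n * l < b * l := Nat.mul_lt_mul_of_pos_right h3 (by omega)
    refine hT.hD x y (z x) (sc l z x + 1) ⟨?_, ?_⟩ ⟨?_, ?_⟩
    · rw [off_self]; omega
    · rw [off_self]
      exact Nat.mul_pos (by omega) (by omega)
    · rw [hz, off_nat _ (by omega)]
      exact h4
    · rw [h, off_self]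
      exact Nat.mul_pos (by omega) (by omega)
  · exfalso
    have h4 : n = b := by omega
    subst h4
    have h5 : x = y + hh p n k := hT.htie x y (by rw [hz]; push_cast; ring)
    have h6 : ((k : ℕ) : ZMod p) = 0 := by
      unfold hh at h5
      rw [h5] at hxy
      push_cast at hxy
      linear_combination hxy
    rw [ZMod.natCast_eq_zero_iff] at h6
    have := Nat.le_of_dvd (by omega) h6
    omega

/-- bottoms at the same place: at most one is active -/
theorem bot_uniq (hT : TC p l a b k z) {W x y : ZMod p} (h : sc l z x = sc l z y)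
    (hx : dd W x ≤ b) (hy : dd W y ≤ b) : x = y := by
  rcases le_total (dd W x) (dd W y) with h3 | h3
  · exact sc_uniq hT h h3 (by omega)
  · exact (sc_uniq hT h.symm h3 (by omega)).symm

/-- tops at the same place: at most one is active -/
theorem top_uniq (hT : TC p l a b k z) {W x y : ZMod p} (h : sc l z x = sc l z y)
    (hx1 : a ≤ dd W x) (hx : dd W x ≤ a + b) (hy1 : a ≤ dd W y) (hy : dd W y ≤ a + b) :
    x = y := by
  rcases le_total (dd W x) (dd W y) with h3 | h3
  · exact sc_uniq hT h h3 (by omega)
  · exact (sc_uniq hT h.symm h3 (by omega)).symm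

end Helper11.LV
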