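import Pool.Agent.Helper11.LV.StC
import Pool.Agent.Helper11.N1.M_BL
import Pool.Agent.Helper11.LV.Sc

set_option autoImplicit false
set_option linter.unusedSectionVars false

/-!
Project LV, module PB1: row `0` between bottom and left side, `u ≤ 1`.
-/

namespace Helper11.LV

open Helper11.N1

namespace PB1aux

theorem card_rows {M : ℕ} [NeZero M] (c : ZMod M) (N : ℕ) :
    (Finset.univ.filter fun S : ZMod M => off c S < N).card ≤ N := by
  classical
  have h : (Finset.univ.filter fun S : ZMod M => off c S < N) ⊆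
      (Finset.range N).image (fun n : ℕ => c + (n : ZMod M)) := by
    intro S hS
    rw [Finset.mem_filter] at hS
    rw [Finset.mem_image]
    exact ⟨off c S, Finset.mem_range.2 hS.2, off_spec c S⟩
  calc (Finset.univ.filter fun S : ZMod M => off c S < N).card
      ≤ ((Finset.range N).image (fun n : ℕ => c + (n : ZMod M))).card := Finset.card_le_card h
    _ ≤ (Finset.range N).card := Finset.card_image_le
    _ = N := Finset.card_range N

section

variable {p l a b k : ℕ} [NeZero p] [NeZero l] {z : ZMod p → ZMod (p * l)} {W : ZMod p}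
  {i u : ZMod (p * l) → ℤ} {δ : ℕ}

/-- a `Q`-box -/
def Qb (l a b : ℕ) (z : ZMod p → ZMod (p * l)) (W : ZMod p) (i : ZMod (p * l) → ℤ)
    (j : ZMod p) : Prop := ∃ X, box l a b z j X (X + e p l W) ∧ i X = 0

/-- a row just above the bottom of an active box different from `0` -/
theorem stepA (hJH : StJH) (hE : EB a b k z W i u δ) (hbk : b + k ≤ a) (hu : ∀ S, u S ≤ 1) :
    ∃ S1 : ZMod (p * l), u S1 = 0 ∧ ∃ m : ℕ, m < S1.val ∧ u (S1 - (m : ZMod (p * l))) ≠ 0 := by
  have hp := hE.tc.hP
  have hb := hp.hb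
  have hab := hp.hab
  have hsc0 : sc l z 0 = 0 := by
    unfold sc
    rw [hE.z0, e_zero, add_zero]
  have hx : ∃ x : ZMod p, x ≠ 0 ∧ 1 ≤ dd W x ∧ dd W x ≤ b := by
    by_cases h1 : W - 1 = 0
    · refine ⟨W - 2, ?_, ?_, ?_⟩
      · intro h2
        have h3 : (((1 : ℕ)) : ZMod p) = 0 := by
          push_cast
          linear_combination h1 - h2
        rw [ZMod.natCast_eq_zero_iff] at h3
        have := Nat.le_of_dvd one_pos h3
        omega
      · unfold dd
        have e1 : W - (W - 2) = ((2 : ℕ) : ZMod p) := by push_cast; ring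
        rw [e1, ZMod.val_natCast_of_lt (by omega)]
        omega
      · unfold dd
        have e1 : W - (W - 2) = ((2 : ℕ) : ZMod p) := by push_cast; ring
        rw [e1, ZMod.val_natCast_of_lt (by omega)]
        exact hb
    · refine ⟨W - 1, h1, ?_, ?_⟩
      · unfold dd
        have e1 : W - (W - 1) = ((1 : ℕ) : ZMod p) := by push_cast; ring
        rw [e1, ZMod.val_natCast_of_lt (by omega)]
      · unfold dd
        have e1 : W - (W - 1) = ((1 : ℕ) : ZMod p) := by push_cast; ring
        rw [e1, ZMod.val_natCast_of_lt (by omega)]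
        omega
  obtain ⟨x, hx0, hx1, hx2⟩ := hx
  have h1 := (hJH p l a b k z hE.tc hbk W i (fun S => u S - 2) hE.ab.ld).1 x hx1 hx2
  have h2 := hE.ab.u0 (sc l z x + 1)
  have h3 := hu (sc l z x)
  have h1' : u (sc l z x + 1) - 2 = u (sc l z x) - 2 - 1 := h1
  have h4 : u (sc l z x + 1) = 0 := by omega
  have h5 : u (sc l z x) ≠ 0 := by omega
  refine ⟨sc l z x + 1, h4, 1, ?_, ?_⟩
  · have h6 := (hE.hU _ h4).1
    rcases Nat.lt_or_eq_of_le h6 with h7 | h7
    · exact h7
    · exfalso
      have h8 : sc l z x + 1 = ((1 : ℕ) : ZMod (p * l)) := by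
        rw [h7, ZMod.natCast_zmod_val]
      have h9 : sc l z x = sc l z 0 := by
        rw [hsc0]
        push_cast at h8
        linear_combination h8
      have hd0 : dd W (0 : ZMod p) ≤ b := by
        unfold dd
        rw [sub_zero]
        exact hE.d2
      exact hx0 (bot_uniq (W := W) hE.tc h9 hx2 hd0)
  · rw [Nat.cast_one, add_sub_cancel_right]
    exact h5

/-- a `Q`-box whose right side is active -/
theorem exR (hTA : StTA) (hQC : StQC) (hE : EB a b k z W i u δ) (hbk : b + k ≤ a)
    (hu : ∀ S, u S ≤ 1) (n : ℕ) : ∀ j : ZMod p, a - dd W j ≤ n → Qb l a b z W i j →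
    ∃ jr, Qb l a b z W i jr ∧ eR l a b k z W jr := by
  have hb := hE.tc.hP.hb
  have hTA3 := (hTA p l a b k z hE.tc hbk W i u hE.ab hu).2.2.1
  have hQ := fun j hj => (hQC p l a b k z hE.tc hbk W i u hE.ab hu j hj).1
  induction n with
  | zero =>
    intro j hn hj
    by_cases hR : eR l a b k z W j
    · exact ⟨j, hj, hR⟩
    · obtain ⟨h1, -, h2, -⟩ := hQ j hj hR
      obtain ⟨X', h3, h4⟩ := h1
      have h5 := (hTA3 X' _ h3 h4).2.1
      omega
  | succ n ih =>
    intro j hn hj
    by_cases hR : eR l a b k z W j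
    · exact ⟨j, hj, hR⟩
    · obtain ⟨h1, -, h2, -⟩ := hQ j hj hR
      exact ih _ (by omega) h1

end

end PB1aux

open PB1aux

theorem pb1 : StTA → StJH → StCN → StCOV → StQC → StQD → StPB0 → StPB1 := by
  classical
  intro hTA hJH hCN hCOV hQC hQD hPB0 p l a b k _ _ z W i u δ hE hbk hu
  have hp := hE.tc.hP
  have ha := hp.ha
  have hb := hp.hb
  have hab := hp.hab
  have hl0 : 0 < l := Nat.pos_of_ne_zero (NeZero.ne l)
  have hal : 0 < a * l := Nat.mul_pos (by omega) hl0
  have halM : a * l < p * l := Nat.mul_lt_mul_of_pos_right (by omega) hl0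
  obtain ⟨P1, P2, P3⟩ := hPB0 p l a b k z W i u δ hE hbk hu
  obtain ⟨C1, -, C3, C4, -, C6, -⟩ := hCOV p l a b k z hE.tc hbk W i u hE.ab
  have TA3 := (hTA p l a b k z hE.tc hbk W i u hE.ab hu).2.2.1
  obtain ⟨S1, hS1, hS1m⟩ := stepA hJH hE hbk hu
  -- (B)
  have hB : ∀ j1 : ZMod p, (∀ S, u S = 0 → off (sc l z j1 + 1) S < a * l) → False := by
    intro j1 hj1
    exact hQD p l a b k z hE.tc hbk W i u hE.ab hu S1 j1 hS1 hj1
      (fun j X h1 h2 => P1 j X S1 h1 h2 hS1 hS1m)
  -- every column with `i = 0` has a `Q`-box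
  have hcol : ∀ X, i X = 0 → ∃ j, box l a b z j X (X + e p l W) := by
    intro X hX
    by_contra hc
    push Not at hc
    have h1 := C4 X hc
    have h2 := hu (X + e p l W)
    omega
  obtain ⟨X0, hX0⟩ := hE.ab.ei
  obtain ⟨j0, hj0⟩ := hcol X0 hX0
  -- (C)
  have hP3 : ∀ (j : ZMod p) (X : ZMod (p * l)), box l a b z j X (X + e p l W) → i X = 0 →
      ∃ (s : ℕ) (X1 : ZMod (p * l)), box l a b z (j + (s : ZMod p) * hh p b k) X1 (X1 + e p l W) ∧
      i X1 = 0 ∧ (z (j + (s : ZMod p) * hh p b k) - b * l).val = δ ∧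
      dd W j = dd W (j + (s : ZMod p) * hh p b k) + s * (b + k) ∧
      sc l z (j + (s : ZMod p) * hh p b k) = sc l z j + ((s * k * l : ℕ) : ZMod (p * l)) := by
    intro j X h1 h2
    rcases P3 j X h1 h2 with h3 | h3
    · exact (hB j h3).elim
    · exact h3
  obtain ⟨s0, X1, hX1, hX1i, hj1v, -, -⟩ := hP3 j0 X0 hj0 hX0
  set j1 : ZMod p := j0 + (s0 : ZMod p) * hh p b k with hj1
  have hd1 : b < dd W j1 := (TA3 X1 j1 hX1 hX1i).1
  -- line points lie in the rows of `j1`
  have hline : ∀ X, i X = 0 → off (sc l z j1 + 1) (X + e p l W) < a * l ∧ u (X + e p l W) = 1 := by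
    intro X hX
    obtain ⟨j, hj⟩ := hcol X hX
    obtain ⟨s, X2, -, -, hv, hd, hs⟩ := hP3 j X hj hX
    have hjj : j + (s : ZMod p) * hh p b k = j1 := by
      apply hE.tc.hinj
      have h1 : z (j + (s : ZMod p) * hh p b k) - b * l = z j1 - b * l := by
        apply ZMod.val_injective (p * l)
        rw [hv, hj1v]
      exact sub_left_injective h1
    rw [hjj] at hd hs
    have hu1 : u (X + e p l W) = 1 := by
      rcases C3 X j hj with h1 | h1
      · exact h1.2
      · omega
    refine ⟨?_, hu1⟩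
    have hbl := (bl p l a b hp z W j).2 (X + e p l W)
    rw [add_sub_cancel_right] at hbl
    obtain ⟨h1, h2, -⟩ := hbl.1 hj
    set σ := off (sc l z j) (X + e p l W) with hσ
    have hspec := off_spec (sc l z j) (X + e p l W)
    rw [← hσ] at hspec
    have hdW : (W - j).val = dd W j := rfl
    rw [hdW, hd] at h1
    have h3 : (s * k + 1) * l ≤ (dd W j1 + s * (b + k) - b) * l := by
      apply Nat.mul_le_mul_right
      have : s * (b + k) = s * b + s * k := Nat.mul_add s b k
      have h0 : 0 ≤ s * b := Nat.zero_le _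
      omega
    have h4 : (s * k + 1) * l = s * k * l + l := by ring
    have h5 : s * k * l + 1 ≤ σ := by omega
    have h6 : X + e p l W = sc l z j1 + 1 + ((σ - s * k * l - 1 : ℕ) : ZMod (p * l)) := by
      rw [hs, Nat.cast_sub (by omega), Nat.cast_sub (by omega), ← hspec]
      push_cast
      ring
    rw [h6, off_nat _ (by omega)]
    omega
  -- the two parts of `{u = 0}`
  set Z : Finset (ZMod (p * l)) := Finset.univ.filter fun S => u S = 0 with hZ
  set I : Finset (ZMod (p * l)) := Finset.univ.filter fun X => i X = 0 with hI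
  set V : Finset (ZMod (p * l)) :=
    Z.filter fun S => ∃ m : ℕ, m < S.val ∧ u (S - (m : ZMod (p * l))) ≠ 0 with hV
  set C0 : Finset (ZMod (p * l)) :=
    Z.filter fun S => ¬ ∃ m : ℕ, m < S.val ∧ u (S - (m : ZMod (p * l))) ≠ 0 with hC0
  have hZc : Z.card = V.card + C0.card := by
    rw [hV, hC0]
    exact (Finset.card_filter_add_card_filter_not _).symm
  have hV1 : V.card + I.card ≤ a * l := by
    have h1 : (I.image fun X => X + e p l W).card = I.card :=
      Finset.card_image_of_injective _ (add_left_injective _)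
    have h2 : Disjoint V (I.image fun X => X + e p l W) := by
      rw [Finset.disjoint_left]
      intro S hS hS'
      rw [Finset.mem_image] at hS'
      obtain ⟨X, hX, rfl⟩ := hS'
      rw [hI, Finset.mem_filter] at hX
      rw [hV, hZ, Finset.mem_filter, Finset.mem_filter] at hS
      have h3 := (hline X hX.2).2
      have h4 := hS.1.2
      omega
    rw [← h1, ← Finset.card_union_of_disjoint h2]
    refine (Finset.card_le_card ?_).trans (card_rows (sc l z j1 + 1) (a * l))
    intro S hS
    rw [Finset.mem_filter]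
    refine ⟨Finset.mem_univ _, ?_⟩
    rw [Finset.mem_union] at hS
    rcases hS with hS | hS
    · rw [hV, hZ, Finset.mem_filter, Finset.mem_filter] at hS
      exact P1 j1 X1 S hX1 hX1i hS.1.2 hS.2
    · rw [Finset.mem_image] at hS
      obtain ⟨X, hX, rfl⟩ := hS
      rw [hI, Finset.mem_filter] at hX
      exact (hline X hX.2).1
  -- (D)
  have hC1 : C0.card ≤ a * l - 1 := by
    rcases C0.eq_empty_or_nonempty with h0 | ⟨S0, hS0⟩
    · rw [h0, Finset.card_empty]
      exact Nat.zero_le _
    have hC0m : ∀ S ∈ C0, u S = 0 ∧ ∀ n : ℕ, 1 ≤ n → n ≤ S.val → u ((n : ℕ) : ZMod (p * l)) = 0 := by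
      intro S hS
      rw [hC0, hZ, Finset.mem_filter, Finset.mem_filter] at hS
      refine ⟨hS.1.2, ?_⟩
      intro n hn1 hn
      by_contra hc
      apply hS.2
      refine ⟨S.val - n, by omega, ?_⟩
      have e1 : S - ((S.val - n : ℕ) : ZMod (p * l)) = ((n : ℕ) : ZMod (p * l)) := by
        rw [Nat.cast_sub hn, ZMod.natCast_zmod_val]
        ring
      rw [e1]
      exact hc
    have hv0 := (hE.hU S0 (hC0m S0 hS0).1).1
    have hu1 : u ((1 : ℕ) : ZMod (p * l)) = 0 := (hC0m S0 hS0).2 1 le_rfl hv0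
    obtain ⟨jr, ⟨Xr, hXr, hXri⟩, hRr⟩ := exR hTA hQC hE hbk hu _ j0 le_rfl ⟨X0, hj0, hX0⟩
    have hzr : i (z jr) = 0 := by
      refine ((TA3 Xr jr hXr hXri).2.2.1 (z jr) ?_).2
      rw [off_self]
      exact Nat.mul_pos (by omega) hl0
    obtain ⟨f, hf⟩ := C1 (z jr) ((1 : ℕ) : ZMod (p * l)) hzr hu1
    have hfall : ∀ S ∈ C0, box l a b z f (z jr) S := by
      intro S hS
      have hvS := (hE.hU S (hC0m S hS).1).1
      have key : ∀ n : ℕ, n + 1 ≤ S.val → box l a b z f (z jr) ((n + 1 : ℕ) : ZMod (p * l)) := by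
        intro n
        induction n with
        | zero =>
          intro _
          rw [zero_add]
          exact hf
        | succ n ih =>
          intro hn
          have h1 := ih (by omega)
          have h2 := (hC0m S hS).2 (n + 1 + 1) (by omega) hn
          have e1 : ((n + 1 + 1 : ℕ) : ZMod (p * l)) = ((n + 1 : ℕ) : ZMod (p * l)) + 1 := by
            push_cast
            ring
          rw [e1] at h2 ⊢
          exact C6 (z jr) _ f hzr h2 h1
      have h3 := key (S.val - 1) (by omega)
      have e2 : S.val - 1 + 1 = S.val := by omega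
      rw [e2, ZMod.natCast_zmod_val] at h3
      exact h3
    by_cases hfj : f = jr
    · exfalso
      apply hB jr
      intro S hS
      by_cases hc : ∃ m : ℕ, m < S.val ∧ u (S - (m : ZMod (p * l))) ≠ 0
      · exact P1 jr Xr S hXr hXri hS hc
      · have hSC : S ∈ C0 := by
          rw [hC0, hZ, Finset.mem_filter, Finset.mem_filter]
          exact ⟨⟨Finset.mem_univ _, hS⟩, hc⟩
        have h1 := (hfall S hSC).2
        rw [hfj] at h1
        exact h1
    · have h0 := P2 jr f Xr _ hXr hXri hRr hu1 hf hfj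
      have hsub : C0 ⊆ (Finset.univ.filter fun S : ZMod (p * l) =>
          off (sc l z f + 1) S < a * l).erase 0 := by
        intro S hS
        rw [Finset.mem_erase, Finset.mem_filter]
        refine ⟨?_, Finset.mem_univ _, (hfall S hS).2⟩
        rintro rfl
        have h1 := (hE.hU 0 (hC0m 0 hS).1).1
        rw [ZMod.val_zero] at h1
        omega
      refine (Finset.card_le_card hsub).trans ?_
      have hm : (0 : ZMod (p * l)) ∈ (Finset.univ.filter fun S : ZMod (p * l) =>
          off (sc l z f + 1) S < a * l) := by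
        rw [Finset.mem_filter]
        exact ⟨Finset.mem_univ _, h0⟩
      rw [Finset.card_erase_of_mem hm]
      have h2 := card_rows (sc l z f + 1) (a * l)
      omega
  -- (E)
  have hcn := (hCN p l a b k z hE.tc W i u hE.ab).1 hu
  have hcn' : a * b * l ≤ I.card + Z.card := hcn
  have h2 : a * l * 2 ≤ a * b * l := by
    calc a * l * 2 ≤ a * l * b := Nat.mul_le_mul_left _ hb
      _ = a * b * l := by ring
  omega

end Helper11.LV
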