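import Pool.Agent.Helper11.LV.StC
import Pool.Agent.Helper11.N1.All

set_option autoImplicit false
set_option linter.unusedSectionVars false

/-!
# PB2: row `0` between bottom and left side, levels with `i ≤ 1`
-/

namespace Helper11.LV

open Helper11.N1

namespace PB2aux

theorem val_cast {M : ℕ} [NeZero M] {n : ℕ} (hn : n < M) : ((n : ℕ) : ZMod M).val = n := by
  rw [ZMod.val_natCast, Nat.mod_eq_of_lt hn]

theorem off_pred {M : ℕ} [NeZero M] {x y : ZMod M} (h : x ≠ y) :
    off (x + 1) y + 1 = off x y := by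
  have h1 : 1 ≤ off x y := by
    rcases Nat.eq_zero_or_pos (off x y) with h2 | h2
    · exact absurd (off_eq_zero.1 h2) h
    · exact h2
  have h3 : off (x + 1) y = off x y - 1 := NBaux.off_cast _ _ (by
    have := off_lt x y
    omega) (by
    rw [Nat.cast_sub h1]
    have h4 : ((off x y : ℕ) : ZMod M) = y - x := by
      unfold off
      rw [ZMod.natCast_zmod_val]
    rw [h4]
    push_cast
    ring)
  omega

/-- not in `I = [1, δ]` and nonzero means above `δ` -/
theorem above {M δ : ℕ} [NeZero M] {x : ZMod M} (h : ¬ (1 ≤ x.val ∧ x.val ≤ δ)) (h0 : x ≠ 0) :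
    δ < x.val := by
  have h1 : x.val ≠ 0 := fun h2 => h0 ((ZMod.val_eq_zero x).1 h2)
  omega

theorem succ_above {M δ : ℕ} [NeZero M] {x : ZMod M} (h : δ < x.val) :
    ¬ (1 ≤ (x + 1).val ∧ (x + 1).val ≤ δ) := by
  have hx := ZMod.val_lt x
  have h1 : x + 1 = ((x.val + 1 : ℕ) : ZMod M) := by
    rw [Nat.cast_add, ZMod.natCast_zmod_val, Nat.cast_one]
  rcases Nat.lt_or_ge (x.val + 1) M with h2 | h2
  · rw [h1, val_cast h2]
    omega
  · have h3 : x.val + 1 = M := by omega
    rw [h1, h3, ZMod.natCast_self, ZMod.val_zero]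
    omega

theorem card_bound {M : ℕ} [NeZero M] (i : ZMod M → ℤ) [DecidablePred fun X => i X = 0]
    (A B δ : ℕ)
    (h : ∀ X, i X = 0 → (∃ n : ℕ, n ≤ A ∧ X = -(n : ZMod M)) ∨
      (∃ n : ℕ, 1 ≤ n ∧ n ≤ B ∧ X = (δ : ZMod M) + (n : ZMod M))) :
    (Finset.univ.filter fun X => i X = 0).card ≤ A + 1 + B := by
  classical
  have h1 : (Finset.univ.filter fun X => i X = 0) ⊆
      ((Finset.range (A + 1)).image fun n : ℕ => -(n : ZMod M)) ∪
      ((Finset.Icc 1 B).image fun n : ℕ => (δ : ZMod M) + (n : ZMod M)) := by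
    intro X hX
    rw [Finset.mem_filter] at hX
    rw [Finset.mem_union, Finset.mem_image, Finset.mem_image]
    rcases h X hX.2 with ⟨n, h2, h3⟩ | ⟨n, h2, h3, h4⟩
    · left
      exact ⟨n, Finset.mem_range.2 (by omega), h3.symm⟩
    · right
      exact ⟨n, Finset.mem_Icc.2 ⟨h2, h3⟩, h4.symm⟩
  calc _ ≤ _ := Finset.card_le_card h1
    _ ≤ _ + _ := Finset.card_union_le _ _
    _ ≤ (Finset.range (A + 1)).card + (Finset.Icc 1 B).card :=
      Nat.add_le_add Finset.card_image_le Finset.card_image_le
    _ = A + 1 + B := by simp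

end PB2aux

open PB2aux

theorem pb2 : StJV → StNB → StCOV → StTB → StTCB → StTR → StTG → StPB2 := by
  intro hJV hNB hCOV hTB hTCB hTR hTG p l a b k _ _ z W i u δ hE hbk hHM hi1 hu2
  have tc := hE.tc
  have hP := tc.hP
  obtain ⟨hl1, haq, hbq, hMl⟩ := NBaux.prods hP
  have hl2 := tc.hl2
  have hk := tc.hk
  have hk2 := tc.hk2
  have hab := hE.ab
  have hld := hab.ld
  have hb2 : 2 ≤ b := hP.hb
  have ha2 : 2 ≤ a := hP.ha
  have habp := hP.hab
  have hδM := hE.hδM
  have hM1 : 1 < p * l := by omega
  have d1 := hE.d1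
  have d2 := hE.d2
  have hdd0 : dd W 0 = W.val := by unfold dd; rw [sub_zero]
  set m := a / (b + k) with hm
  set r := a % (b + k) with hr
  have hmr : (b + k) * m + r = a := Nat.div_add_mod a (b + k)
  have hm1 : 1 ≤ m := (Nat.one_le_div_iff (by omega)).2 hbk
  -- products
  have q1 : m * k ≤ a := by
    calc m * k ≤ (b + k) * m + r := by nlinarith
      _ = a := hmr
  have q2 : a * l = m * b * l + m * k * l + r * l := by rw [← hmr]; ring
  have q3 : (a - m * k) * l = m * b * l + r * l := by
    have : (a - m * k) * l + m * k * l = a * l := by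
      rw [← Nat.add_mul, Nat.sub_add_cancel q1]
    omega
  have q4 : l ≤ m * k * l := by
    calc l = 1 * l := (one_mul l).symm
      _ ≤ m * k * l := Nat.mul_le_mul_right l (Nat.one_le_iff_ne_zero.2 (by
        intro h; rcases Nat.mul_eq_zero.1 h with h | h <;> omega))
  have q5 : b * l ≤ m * b * l := by
    calc b * l = 1 * b * l := by ring
      _ ≤ m * b * l := Nat.mul_le_mul_right l (Nat.mul_le_mul_right b hm1)
  have q6 : W.val * l ≤ b * l := Nat.mul_le_mul_right l d2
  have q7 : l ≤ W.val * l := by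
    calc l = 1 * l := (one_mul l).symm
      _ ≤ W.val * l := Nat.mul_le_mul_right l d1
  have q8 : 2 * (m * k * l) ≤ b * m * k * l := by
    calc 2 * (m * k * l) ≤ b * (m * k * l) := Nat.mul_le_mul_right _ hb2
      _ = b * m * k * l := by ring
  have q9 : b * l + m * k * l ≤ l + b * m * k * l := by
    obtain ⟨b', rfl⟩ : ∃ b', b = b' + 1 := ⟨b - 1, by omega⟩
    have : b' * l ≤ b' * (m * k * l) := Nat.mul_le_mul_left b' q4
    have e1 : (b' + 1) * l = b' * l + l := by ring
    have e2 : (b' + 1) * m * k * l = b' * (m * k * l) + m * k * l := by ring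
    omega
  have q10 : m * (b * l) = m * b * l := by ring
  have q11 : a / (b + k) * b * l + b * (a / (b + k)) * k * l + a % (b + k) * l + 1 =
      m * b * l + b * m * k * l + r * l + 1 := rfl
  -- (1)
  have hsc0 : sc l z 0 = 0 := by
    unfold sc
    rw [hE.z0, e_zero, add_zero]
  have hbox0 : box l a b z 0 (z 0) (z 0 + e p l W) := by
    rw [(bl p l a b hP z W 0).1 (z 0), off_self, sub_zero]
    refine ⟨?_, by omega, by omega⟩
    have : W.val - a = 0 := by omega
    rw [this, zero_mul]
  have heR0 : eR l a b k z W 0 := by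
    refine ⟨by omega, by omega, fun h => absurd h hE.tl⟩
  have hi0 : i (z 0) = 0 ∧ i 1 = 1 := by
    have h1 := (hJV p l a b k z tc W i _ hld).1 0 heR0
    have h2 := hi1 (z 0 + 1)
    have h3 := hab.i0 (z 0)
    rw [hE.z0, zero_add] at *
    constructor <;> omega
  have hcov := hCOV p l a b k z tc hbk W i u hab
  have hu1 : u (z 0 + e p l W) = 1 := by
    rcases hcov.2.2.1 (z 0) 0 hbox0 with h | h
    · exact h.2
    · have := hi0.1
      omega
  have hu0 : u 0 = 2 := by
    have h1 := (hNB p l a b k z tc hbk W i _ hld 0 (z 0) hbox0).2.2.1 (by omega)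
    have h2 := h1.2
    rw [hsc0] at h2
    omega
  -- (2)
  obtain ⟨S0, hS0⟩ := hab.eu
  have htb := hTB p l a b k z tc hbk hHM W i u hab hi1
  obtain ⟨x, hx, -⟩ := htb.1 S0 hS0
  obtain ⟨-, -, hx3, hx4, hx5⟩ := htb.2 x hx
  rw [← hm, q3] at hx3 hx4
  set nC := m * b * l + r * l with hnC
  have hxu : u (sc l z x) = 1 := hx.2.2
  have hsx0 : sc l z x ≠ 0 := by
    intro h
    rw [h, hu0] at hxu
    omega
  set s := (sc l z x).val with hs
  have hs1 : 1 ≤ s := by
    have : s ≠ 0 := fun h => hsx0 ((ZMod.val_eq_zero _).1 h)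
    omega
  have hsM : s < p * l := ZMod.val_lt _
  have hscast : sc l z x = ((s : ℕ) : ZMod (p * l)) := by
    rw [hs, ZMod.natCast_zmod_val]
  have hrow : ∀ n : ℕ, n < nC → s + 1 + n < δ := by
    intro n
    induction n with
    | zero =>
      intro hn
      have h1 := hE.hU _ (hx3 0 hn)
      rw [Nat.cast_zero, add_zero, hscast] at h1
      have h2 : ((s : ℕ) : ZMod (p * l)) + 1 = ((s + 1 : ℕ) : ZMod (p * l)) := by push_cast; ring
      rw [h2] at h1
      rcases Nat.lt_or_ge (s + 1) (p * l) with h3 | h3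
      · rw [val_cast h3] at h1
        omega
      · have h4 : s + 1 = p * l := by omega
        rw [h4, ZMod.natCast_self, ZMod.val_zero] at h1
        omega
    | succ n ih =>
      intro hn
      have h0 := ih (by omega)
      have h1 := hE.hU _ (hx3 (n + 1) hn)
      rw [hscast] at h1
      have h2 : ((s : ℕ) : ZMod (p * l)) + 1 + ((n + 1 : ℕ) : ZMod (p * l)) =
          ((s + 1 + (n + 1) : ℕ) : ZMod (p * l)) := by push_cast; ring
      rw [h2, val_cast (by omega)] at h1
      omega
  have hsn : s + nC < δ := by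
    have := hrow (nC - 1) (by omega)
    omega
  have hrow1 : u (sc l z x + 1 + (nC : ZMod (p * l))) = 1 := hx4
  have hval1 : (sc l z x + 1 + (nC : ZMod (p * l))).val = s + 1 + nC := by
    have h2 : sc l z x + 1 + (nC : ZMod (p * l)) = ((s + 1 + nC : ℕ) : ZMod (p * l)) := by
      rw [hscast]; push_cast; ring
    rw [h2, val_cast (by omega)]
  have htcb := hTCB p l a b k z tc hbk hHM W i u hab hi1 x hx
  obtain ⟨T, hT, hTb⟩ : ∃ T : ℕ, (T = m * b * l ∨ (T = m * b * l + b * l ∧ 3 ≤ k ∧ 1 ≤ r)) ∧
      ∀ (X : ZMod (p * l)) (f : ZMod p) (n : ℕ),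
        (∀ n' : ℕ, n' ≤ n → i (X - (n' : ZMod (p * l))) = 0) →
        box l a b z f X (sc l z x + 1) → off X (z f) + n < T := by
    rcases tc.hsx with h | h
    · refine ⟨m * b * l, Or.inl rfl, fun X f n h1 h2 => ?_⟩
      have h3 := (htcb.2.2 X f n h1 h2).1 h
      rwa [← hm, q10] at h3
    · refine ⟨m * b * l + b * l, Or.inr ⟨rfl, h.1, h.2⟩, fun X f n h1 h2 => ?_⟩
      have h3 := (htcb.2.2 X f n h1 h2).2.1
      have h4 : (m + 1) * (b * l) = m * b * l + b * l := by ring
      rwa [← hm, h4] at h3
  have hTl : m * b * l ≤ T := by rcases hT with h | h <;> omega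
  have hex : ∃ X, i X ≠ 0 := ⟨1, by rw [hi0.2]; omega⟩
  have heW : e p l W = ((W.val * l : ℕ) : ZMod (p * l)) := by
    have := NBaux.eW (p := p) (q := l) W 0
    rw [e_zero, zero_add, sub_zero] at this
    exact this
  -- (3)
  have main : ∀ X, i X = 0 →
      (∃ n : ℕ, n ≤ T + m * k * l + W.val * l - 2 - l ∧ X = -(n : ZMod (p * l))) ∨
      (∃ n : ℕ, 1 ≤ n ∧ n ≤ m * k * l - 1 - W.val * l ∧
        X = (δ : ZMod (p * l)) + (n : ZMod (p * l))) := by
    intro X hX
    obtain ⟨n, j, hn, hzj, heR, hi2, hbj, huj⟩ := hTR p l a b k z tc hbk W i u hab hex X hX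
    have hXz : X = z j - (n : ZMod (p * l)) := by rw [hzj]; ring
    have hizj : i (z j) = 0 := by rw [hzj]; exact hn n le_rfl
    have hback : ∀ n' : ℕ, n' ≤ n → i (z j - (n' : ZMod (p * l))) = 0 := by
      intro n' hn'
      have h1 : z j - (n' : ZMod (p * l)) = X + ((n - n' : ℕ) : ZMod (p * l)) := by
        rw [hzj, Nat.cast_sub hn']; ring
      rw [h1]
      exact hn _ (by omega)
    obtain ⟨f, hf⟩ := htcb.1 (z j) hizj
    have t1 := hTb (z j) f n hback hf
    obtain ⟨t2, t3⟩ := htcb.2.1 (z j) f hizj hf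
    rw [← hm] at t2 t3
    rw [q3] at t2
    rcases eq_or_ne j 0 with hj0 | hj0
    · left
      refine ⟨n, by omega, ?_⟩
      rw [hXz, hj0, hE.z0, zero_sub]
    have hzj0 : z j ≠ 0 := by
      intro h
      apply hj0
      apply tc.hinj
      rw [h, hE.z0]
    have hzδ : δ < (z j).val := above (hE.hL _ hizj) hzj0
    have hz1 := succ_above hzδ
    have hfj : f = 0 ∨ f = j := by
      by_contra hcon
      push Not at hcon
      obtain ⟨hf0, hfj⟩ := hcon
      have hne : z j ≠ z f := fun h => hfj (tc.hinj h).symm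
      have hcol : off (z j + 1) (z f) < b * l := by
        have h1 := off_pred hne
        have h2 := hf.1
        omega
      have h3 := hE.hst (z j + 1) (sc l z x) f hz1 hi2 (by omega) (by omega) hxu hf0
      have h4 := hE.hst (z j + 1) _ f hz1 hi2 (by rw [hval1]; omega) (by rw [hval1]; omega)
        hrow1 hf0
      have h3' : ¬ off (sc l z f + 1) (sc l z x) < a * l := fun h => h3 ⟨hcol, h⟩
      have h4' : ¬ off (sc l z f + 1) (sc l z x + 1 + (nC : ZMod (p * l))) < a * l :=
        fun h => h4 ⟨hcol, h⟩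
      have h5 := hf.2
      by_cases heq : sc l z f = sc l z x
      · apply h4'
        rw [heq, off_nat _ (by omega)]
        omega
      · apply h3'
        have h6 : off (sc l z f) (sc l z x) = off (sc l z f + 1) (sc l z x + 1) :=
          (off_translate _ _ 1).symm
        have h7 := off_pred heq
        omega
    rcases hfj with hf0 | hfj
    · left
      rw [hf0, hE.z0] at t1
      refine ⟨off (z j) 0 + n, by omega, ?_⟩
      have h1 := off_spec' (z j) 0
      rw [hXz, Nat.cast_add]
      linear_combination (-1 : ZMod (p * l)) * h1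
    · subst hfj
      rw [off_self] at t1
      set y := off (sc l z f) (sc l z x) with hy
      have hscf : sc l z f = ((s : ℕ) : ZMod (p * l)) - (y : ZMod (p * l)) := by
        rw [← hscast, hy]
        exact (off_spec' _ _).symm
      have hD : z f + e p l W = sc l z f + ((dd W f * l : ℕ) : ZMod (p * l)) := by
        rw [NBaux.eW W f]
        unfold sc dd
        ring
      have hDl : l ≤ dd W f * l := by
        calc l = 1 * l := (one_mul l).symm
          _ ≤ dd W f * l := Nat.mul_le_mul_right l heR.1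
      have hDa : dd W f * l ≤ a * l := Nat.mul_le_mul_right l heR.2.1
      have hln := hE.hln (z f) f hizj hj0 hbj
      set D := dd W f * l with hDdef
      rcases Nat.lt_or_ge y (s + D) with hv | hv
      · -- v ≥ 1
        right
        have hrowv : z f + e p l W = ((s + D - y : ℕ) : ZMod (p * l)) := by
          rw [hD, hscf, Nat.cast_sub (by omega), Nat.cast_add]
          ring
        have hvδ : δ < s + D - y := by
          by_contra hcon
          apply hln
          rw [hrowv, val_cast (by omega)]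
          omega
        have hzw : z f = ((s + D - y - W.val * l : ℕ) : ZMod (p * l)) := by
          rw [Nat.cast_sub (by omega), ← hrowv, heW]
          ring
        have hwδ : δ < s + D - y - W.val * l := by
          by_contra hcon
          apply hE.hL (z f) hizj
          rw [hzw, val_cast (by omega)]
          omega
        have hwn : δ < s + D - y - W.val * l - n := by
          by_contra hcon
          have h1 := hback (s + D - y - W.val * l - δ) (by omega)
          have h2 : z f - ((s + D - y - W.val * l - δ : ℕ) : ZMod (p * l)) =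
              ((δ : ℕ) : ZMod (p * l)) := by
            rw [hzw, Nat.cast_sub (m := δ) (by omega)]
            ring
          rw [h2] at h1
          apply hE.hL _ h1
          rw [val_cast hδM]
          omega
        refine ⟨s + D - y - W.val * l - n - δ, by omega, by omega, ?_⟩
        rw [hXz, hzw, Nat.cast_sub (m := δ) (by omega), Nat.cast_sub (m := n) (by omega)]
        ring
      · -- v ≤ 0
        left
        refine ⟨W.val * l + n + (y - (s + D)), by omega, ?_⟩
        have h1 : z f = sc l z f + ((D : ℕ) : ZMod (p * l)) - e p l W := by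
          rw [← hD]; ring
        rw [hXz, h1, hscf, heW, Nat.cast_add (W.val * l + n), Nat.cast_sub hv]
        push_cast
        ring
  -- (4)
  have hg := hTG p l a b k z tc hbk hHM W i u hab hi1 hu2 0 (by omega) (by omega)
    (by rw [hsc0]; exact hu0)
  have hc := @card_bound (p * l) _ i (fun X => Classical.propDecidable _) _ _ δ main
  have hc2 := le_trans hg (le_of_eq_of_le (by congr!) hc)
  rw [q11] at hc2
  rcases hT with h | ⟨h, h3, h4⟩
  · omega
  · have f1 : 2 * (m * k * l) + b * l ≤ b * m * k * l + 2 * l := by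
      obtain ⟨b', rfl⟩ : ∃ b', b = b' + 2 := ⟨b - 2, by omega⟩
      have : b' * l ≤ b' * (m * k * l) := Nat.mul_le_mul_left b' q4
      have e1 : (b' + 2) * l = b' * l + 2 * l := by ring
      have e2 : (b' + 2) * m * k * l = b' * (m * k * l) + 2 * (m * k * l) := by ring
      omega
    have f2 : m * k * l + 2 * (b * l) ≤ b * m * k * l + 2 * l := by
      obtain ⟨b', rfl⟩ : ∃ b', b = b' + 1 := ⟨b - 1, by omega⟩
      have h5 : 2 * l ≤ m * k * l := by
        apply Nat.mul_le_mul_right
        calc 2 ≤ 1 * k := by omega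
          _ ≤ m * k := Nat.mul_le_mul_right k hm1
      have : b' * (2 * l) ≤ b' * (m * k * l) := Nat.mul_le_mul_left b' h5
      have e1 : (b' + 1) * l = b' * l + l := by ring
      have e2 : (b' + 1) * m * k * l = b' * (m * k * l) + m * k * l := by ring
      have e3 : b' * (2 * l) = 2 * (b' * l) := by ring
      omega
    have f3 : l ≤ r * l := Nat.le_mul_of_pos_left l h4
    omega

end Helper11.LV
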