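import Pool.Agent.Helper11.LV.StD
import Pool.Agent.Helper11.N1.All

set_option autoImplicit false

/-!
# Project LV, module PIG: pigeonhole
-/

namespace Helper11.LV

open Helper11.N1

namespace PIGaux

/-- the pigeonhole step -/
theorem pigeon (p l b : ℕ) [NeZero p] [NeZero l] (hb : 2 ≤ b) (hp : 5 ≤ p)
    (τ : ZMod (p * l)) : ∃ n1 n2 : ℕ, n1 < n2 ∧ n2 < p ∧
      ((n1 : ZMod (p * l)) * τ).val / (b * l) = ((n2 : ZMod (p * l)) * τ).val / (b * l) := by
  have : NeZero (p * l) := ⟨mul_ne_zero (NeZero.ne p) (NeZero.ne l)⟩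
  have hl : 0 < l := Nat.pos_of_ne_zero (NeZero.ne l)
  have hmap : ∀ n ∈ Finset.range p, ((n : ZMod (p * l)) * τ).val / (b * l) ∈
      Finset.range (p / b + 1) := by
    intro n _
    rw [Finset.mem_range]
    have h1 : ((n : ZMod (p * l)) * τ).val < p * l := ZMod.val_lt _
    have h2 : ((n : ZMod (p * l)) * τ).val / (b * l) ≤ (p * l) / (b * l) :=
      Nat.div_le_div_right h1.le
    rw [Nat.mul_div_mul_right _ _ hl] at h2
    omega
  have hcard : (Finset.range (p / b + 1)).card < (Finset.range p).card := by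
    rw [Finset.card_range, Finset.card_range]
    have h1 : p / b ≤ p / 2 := Nat.div_le_div_left hb (by norm_num)
    omega
  obtain ⟨x, hx, y, hy, hxy, he⟩ := Finset.exists_ne_map_eq_of_card_lt_of_maps_to hcard hmap
  rw [Finset.mem_range] at hx hy
  rcases lt_or_gt_of_ne hxy with h | h
  · exact ⟨x, y, h, hy, he⟩
  · exact ⟨y, x, h, hx, he.symm⟩

/-- same quotient: the difference is smaller than the divisor -/
theorem sub_lt_of_div_eq {u v c : ℕ} (hc : 0 < c) (h : u / c = v / c) : v - u < c := by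
  have h1 := Nat.div_add_mod u c
  have h2 := Nat.div_add_mod v c
  have h3 := Nat.mod_lt v hc
  rw [← h] at h2
  omega

end PIGaux

/-- PIG -/
theorem pig : StCA → StPIG := by
  intro hCA p l a b k _ _ z ρ τ hC h1 h2
  have : NeZero (p * l) := ⟨mul_ne_zero (NeZero.ne p) (NeZero.ne l)⟩
  obtain ⟨-, -, -, -, c5, -⟩ := hCA p l a b k z ρ τ hC
  have hl : 0 < l := Nat.pos_of_ne_zero (NeZero.ne l)
  have hP := hC.hP
  have hlp := hC.hlp
  have ha := hP.ha
  have hb := hP.hb
  have hab := hP.hab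
  obtain ⟨n1, n2, hn, hn2, he⟩ := PIGaux.pigeon p l b hb (by omega) τ
  have hbl : 0 < b * l := Nat.mul_pos (by omega) hl
  have hblp : b * l < p * l := Nat.mul_lt_mul_of_pos_right (by omega) hl
  have hsub : ((n2 - n1 : ℕ) : ZMod (p * l)) * τ =
      (n2 : ZMod (p * l)) * τ - (n1 : ZMod (p * l)) * τ := by
    rw [Nat.cast_sub hn.le, sub_mul]
  have hblval : ((b * l : ℕ) : ZMod (p * l)).val = b * l := ZMod.val_natCast_of_lt hblp
  have hlt' : -((l : ZMod (p * l)) * τ) = ((b * l : ℕ) : ZMod (p * l)) := by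
    rw [hC.hlt, neg_neg, Nat.cast_mul]
  -- the two values are different
  have hne : ((n1 : ZMod (p * l)) * τ).val ≠ ((n2 : ZMod (p * l)) * τ).val := by
    intro hv
    have hv' := ZMod.val_injective (p * l) hv
    have h3 : (((n2 : ℤ) - (n1 : ℤ) : ℤ) : ZMod (p * l)) * τ = 0 := by
      push_cast
      rw [sub_mul, hv', sub_self]
    have h4 := c5 _ h3
    have h5 : ((p * l : ℕ) : ℤ) ≤ (n2 : ℤ) - (n1 : ℤ) := Int.le_of_dvd (by omega) h4
    have h6 : p ≤ p * l := Nat.le_mul_of_pos_right p hl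
    omega
  rcases lt_or_gt_of_ne hne with hv | hv
  · -- `n τ` is small
    have h3 : (((n2 - n1 : ℕ) : ZMod (p * l)) * τ).val =
        ((n2 : ZMod (p * l)) * τ).val - ((n1 : ZMod (p * l)) * τ).val := by
      rw [hsub]
      exact ZMod.val_sub hv.le
    have h4 := PIGaux.sub_lt_of_div_eq hbl he
    refine h1 (n2 - n1) (by omega) (by omega) ?_
    rw [h3]
    constructor <;> omega
  · -- `- n τ` is small
    have h3 : (-(((n2 - n1 : ℕ) : ZMod (p * l)) * τ)).val =
        ((n1 : ZMod (p * l)) * τ).val - ((n2 : ZMod (p * l)) * τ).val := by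
      rw [hsub, neg_sub]
      exact ZMod.val_sub hv.le
    have h4 := PIGaux.sub_lt_of_div_eq hbl he.symm
    have hw1 : 1 ≤ (-(((n2 - n1 : ℕ) : ZMod (p * l)) * τ)).val := by omega
    have hw2 : (-(((n2 - n1 : ℕ) : ZMod (p * l)) * τ)).val < b * l := by omega
    rcases lt_trichotomy (n2 - n1) l with hl1 | hl1 | hl1
    · exact h2 (n2 - n1) (by omega) hl1 ⟨hw1, hw2.le⟩
    · rw [hl1, hlt', hblval] at hw2
      exact lt_irrefl _ hw2
    · have h5 : ((n2 - n1 - l : ℕ) : ZMod (p * l)) * τ =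
          ((b * l : ℕ) : ZMod (p * l)) - -(((n2 - n1 : ℕ) : ZMod (p * l)) * τ) := by
        rw [← hlt', Nat.cast_sub hl1.le, sub_mul]
        ring
      have h6 : (((n2 - n1 - l : ℕ) : ZMod (p * l)) * τ).val =
          b * l - (-(((n2 - n1 : ℕ) : ZMod (p * l)) * τ)).val := by
        rw [h5, ZMod.val_sub (by rw [hblval]; exact hw2.le), hblval]
      refine h1 (n2 - n1 - l) (by omega) (by omega) ?_
      rw [h6]
      constructor <;> omega

end Helper11.LV
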