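import Pool.Agent.Helper11.LV.StC
import Pool.Agent.Helper11.N1.All

set_option autoImplicit false
set_option linter.unusedSectionVars false

/-!
Project LV, module PM.
-/

namespace Helper11.LV

open Helper11.N1

namespace PMaux

section

variable {M : ℕ} [NeZero M]

theorem off_eq_val (x : ZMod M) : off 0 x = x.val := by
  unfold off
  rw [sub_zero]

/-- number of the places at a small distance from `0` -/
theorem cnt_off {c : ℕ} (hc : c ≤ M) :
    (Finset.univ.filter fun X : ZMod M => off X 0 < c).card = c := by
  classical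
  have h1 : (Finset.univ.filter fun X : ZMod M => off X 0 < c).card = (Finset.range c).card := by
    apply Finset.card_bij (fun X _ => off X 0)
    · intro X hX
      rw [Finset.mem_filter] at hX
      exact Finset.mem_range.2 hX.2
    · intro X _ Y _ hXY
      exact off_inj_right hXY
    · intro n hn
      rw [Finset.mem_range] at hn
      have h2 : off (-(n : ZMod M)) 0 = n := by
        apply NBaux.off_cast _ _ (by omega)
        ring
      refine ⟨-(n : ZMod M), ?_, h2⟩
      rw [Finset.mem_filter, h2]
      exact ⟨Finset.mem_univ _, hn⟩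
  rw [h1, Finset.card_range]

/-- offsets along a run of rows of one box -/
theorem off_run {c S : ZMod M} {L N : ℕ} (hL : L < M) (h : ∀ n : ℕ, n < N → off c (S - n) < L) :
    ∀ n : ℕ, n < N → n ≤ off c S ∧ off c (S - n) = off c S - n := by
  intro n
  induction n with
  | zero =>
    intro _
    rw [Nat.cast_zero, sub_zero]
    exact ⟨Nat.zero_le _, rfl⟩
  | succ n ih =>
    intro hn
    obtain ⟨h1, h2⟩ := ih (by omega)
    have h3 := h (n + 1) hn
    have hM1 : (1 : ℕ) < M := by
      by_contra hcon
      have h4 := h n (by omega)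
      have h5 := off_lt c (S - n)
      omega
    have h4 : off (S - ((n + 1 : ℕ) : ZMod M)) (S - n) = 1 := by
      apply NBaux.off_cast _ _ hM1
      push_cast
      ring
    have h5 := off_add c (S - ((n + 1 : ℕ) : ZMod M)) (S - n)
    rw [h4] at h5
    have h6 := off_lt c (S - n)
    have h7 := off_lt c S
    omega

end

section

variable {p l a b k : ℕ} [NeZero p] [NeZero l] {z : ZMod p → ZMod (p * l)} {W : ZMod p}
  {i u : ZMod (p * l) → ℤ}

/-- number of the rows with an active bottom -/
theorem cnt_dd (hb : b < p) (W : ZMod p) :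
    (Finset.univ.filter fun x : ZMod p => 1 ≤ dd W x ∧ dd W x ≤ b).card = b := by
  classical
  have h1 : (Finset.univ.filter fun x : ZMod p => 1 ≤ dd W x ∧ dd W x ≤ b).card =
      (Finset.Icc 1 b).card := by
    apply Finset.card_bij (fun x _ => dd W x)
    · intro x hx
      rw [Finset.mem_filter] at hx
      exact Finset.mem_Icc.2 hx.2
    · intro x _ y _ hxy
      have h2 : W - x = W - y := ZMod.val_injective p hxy
      exact sub_right_injective h2
    · intro n hn
      rw [Finset.mem_Icc] at hn
      have h2 : dd W (W - (n : ZMod p)) = n := by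
        unfold dd
        rw [sub_sub_cancel, ZMod.val_natCast_of_lt (by omega)]
      refine ⟨W - (n : ZMod p), ?_, h2⟩
      rw [Finset.mem_filter, h2]
      exact ⟨Finset.mem_univ _, hn⟩
  rw [h1, Nat.card_Icc, Nat.add_sub_cancel]

/-- where `u` falls from `1` to `0` there is an active bottom -/
theorem fall (hJH : StJH) (tc : TC p l a b k z) (hka : b + k ≤ a) (ab : AB l a b z W i u)
    {S : ZMod (p * l)} (h1 : u S ≠ 0) (h2 : u (S + 1) = 0) :
    ∃ x, 1 ≤ dd W x ∧ dd W x ≤ b ∧ sc l z x = S := by
  obtain ⟨j1, j2, j3⟩ := hJH p l a b k z tc hka W i _ ab.ld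
  have hu := ab.u0 S
  by_contra hcon
  by_cases h3 : ∃ y, a < dd W y ∧ dd W y ≤ a + b ∧ sc l z y + a * l = S
  · obtain ⟨y, hy1, hy2, hy3⟩ := h3
    have h4 := j2 y hy1 hy2
    rw [hy3] at h4
    omega
  · have h4 := j3 S (fun x hx1 hx2 hx3 => hcon ⟨x, hx1, hx2, hx3⟩)
      (fun y hy1 hy2 hy3 => h3 ⟨y, hy1, hy2, hy3⟩)
    omega

/-- a long run of rows with `u = 0` -/
theorem long_run (hJH : StJH) (tc : TC p l a b k z) (hka : b + k ≤ a) (ab : AB l a b z W i u)
    {N : ℕ} (hN : 1 ≤ N) (hc : open Classical in
      b * N ≤ (Finset.univ.filter fun S => u S = 0).card) :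
    ∃ S : ZMod (p * l), ∀ n : ℕ, n < N → u (S - n) = 0 := by
  classical
  by_contra hcon
  push Not at hcon
  have hb0 : 0 < b := by have := tc.hP.hb; omega
  have hbp : b < p := by have := tc.hb2; omega
  have hsub : (Finset.univ.filter fun S : ZMod (p * l) => u S = 0) ⊆
      (Finset.univ.filter fun x : ZMod p => 1 ≤ dd W x ∧ dd W x ≤ b).biUnion
        (fun x => (Finset.Ico 1 N).image (fun n : ℕ => sc l z x + (n : ZMod (p * l)))) := by
    intro S hS
    rw [Finset.mem_filter] at hS
    have hex : ∃ n : ℕ, u (S - n) ≠ 0 := by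
      obtain ⟨n, _, hn⟩ := hcon S
      exact ⟨n, hn⟩
    obtain ⟨n0, hn0, hn0'⟩ := hcon S
    have h1 := Nat.find_spec hex
    have h2 : Nat.find hex ≤ n0 := Nat.find_min' hex hn0'
    have h3 : Nat.find hex ≠ 0 := by
      intro h4
      rw [h4, Nat.cast_zero, sub_zero] at h1
      exact h1 hS.2
    have h4 : u (S - ((Nat.find hex - 1 : ℕ) : ZMod (p * l))) = 0 := by
      by_contra h5
      exact Nat.find_min hex (by omega) h5
    have h5 : S - ((Nat.find hex - 1 : ℕ) : ZMod (p * l)) =
        S - ((Nat.find hex : ℕ) : ZMod (p * l)) + 1 := by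
      rw [Nat.cast_sub (by omega)]
      push_cast
      ring
    rw [h5] at h4
    obtain ⟨x, hx1, hx2, hx3⟩ := fall hJH tc hka ab h1 h4
    rw [Finset.mem_biUnion]
    refine ⟨x, ?_, ?_⟩
    · rw [Finset.mem_filter]
      exact ⟨Finset.mem_univ _, hx1, hx2⟩
    · rw [Finset.mem_image]
      refine ⟨Nat.find hex, ?_, ?_⟩
      · rw [Finset.mem_Ico]
        omega
      · rw [hx3]
        ring
  have h1 := Finset.card_le_card hsub
  have h2 : ((Finset.univ.filter fun x : ZMod p => 1 ≤ dd W x ∧ dd W x ≤ b).biUnion
        (fun x => (Finset.Ico 1 N).image (fun n : ℕ => sc l z x + (n : ZMod (p * l))))).card ≤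
      b * (N - 1) := by
    refine le_trans (Finset.card_biUnion_le_card_mul _ _ (N - 1) ?_) ?_
    · intro x _
      refine le_trans Finset.card_image_le ?_
      rw [Nat.card_Ico]
    · rw [cnt_dd hbp W]
  have h3 : b * (N - 1) < b * N := Nat.mul_lt_mul_of_pos_left (by omega) hb0
  omega

/-- a box over a run of rows with `u = 0` -/
theorem run_box (hCOV : StCOV) (tc : TC p l a b k z) (hka : b + k ≤ a) (ab : AB l a b z W i u)
    {X S : ZMod (p * l)} {f : ZMod p} {N : ℕ} (hX : i X = 0)
    (hS : ∀ n : ℕ, n < N → u (S - n) = 0) (hf : box l a b z f X S) :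
    ∀ n : ℕ, n < N → box l a b z f X (S - n) := by
  obtain ⟨-, -, -, -, -, -, c7⟩ := hCOV p l a b k z tc hka W i u ab
  intro n
  induction n with
  | zero =>
    intro _
    rw [Nat.cast_zero, sub_zero]
    exact hf
  | succ n ih =>
    intro hn
    have h1 := ih (by omega)
    have h2 := hS (n + 1) hn
    have h3 : S - (n : ZMod (p * l)) = S - ((n + 1 : ℕ) : ZMod (p * l)) + 1 := by
      push_cast
      ring
    rw [h3] at h1
    exact c7 X _ f hX h2 h1

end

end PMaux

open PMaux in
theorem pm : StNB → StJH → StCN → StCOV → StPM := by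
  intro hNB hJH hCN hCOV p l a b k _ _ z W i u hE hka
  classical
  obtain ⟨tc, ab, z0, d1, d2, hL, hu⟩ := hE
  obtain ⟨hl, hal, hbl, hM⟩ := NBaux.prods tc.hP
  have hb2 : 2 ≤ b := tc.hP.hb
  have hl2 := tc.hl2
  have hk1 := tc.hk
  have hk2 := tc.hk2
  set d := W.val with hd
  have hdd : dd W 0 = d := by
    unfold dd
    rw [sub_zero]
  have hs0 : sc l z 0 = 0 := by
    unfold sc
    rw [z0, e_zero, add_zero]
  have hbd : b * l + l ≤ d * l := by
    calc b * l + l = (b + 1) * l := by ring
      _ ≤ d * l := Nat.mul_le_mul_right l d1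
  have hda : d * l ≤ a * l := Nat.mul_le_mul_right l d2
  -- the line points of the box `0`
  have hcol : ∀ X : ZMod (p * l), off X 0 < b * l → box l a b z 0 X (X + e p l W) := by
    intro X hX
    rw [(bl p l a b tc.hP z W 0).1 X]
    rw [z0, sub_zero, ← hd]
    refine ⟨?_, hX, by omega⟩
    rw [Nat.sub_eq_zero_of_le d2, Nat.zero_mul]
    exact Nat.zero_le _
  obtain ⟨c1, c2, c3, c4, c5, c6, c7⟩ := hCOV p l a b k z tc hka W i u ab
  obtain ⟨X0, hX0⟩ := ab.ei
  have hX0b := hL X0 hX0
  have hNB2 := (hNB p l a b k z tc hka W i _ ab.ld 0 X0 (hcol X0 hX0b)).2.1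
  have hu0 : u (X0 + e p l W) = 1 := by
    rcases c3 X0 0 (hcol X0 hX0b) with h | h
    · exact h.2
    · rw [hX0] at h
      exact absurd h.1 (by norm_num)
  have hi0 : ∀ X : ZMod (p * l), off X 0 < b * l → i X = 0 := by
    intro X hX
    rw [(hNB2 X (hcol X hX)).1, hX0]
  have hu1 : ∀ X : ZMod (p * l), off X 0 < b * l → u (X + e p l W) = 1 := by
    intro X hX
    have h := (hNB2 X (hcol X hX)).2
    rw [hu0] at h
    linarith
  have hcard : (Finset.univ.filter fun X : ZMod (p * l) => i X = 0).card = b * l := by
    rw [← cnt_off (M := p * l) (c := b * l) (by omega)]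
    congr 1
    apply Finset.filter_congr
    intro X _
    exact ⟨hL X, hi0 X⟩
  have hcn := (hCN p l a b k z tc W i u ab).1 hu
  rw [hcard] at hcn
  have ha1 : (a - 1) * l + l = a * l := by
    have h1 : a - 1 + 1 = a := by have := tc.hP.ha; omega
    calc (a - 1) * l + l = (a - 1 + 1) * l := by ring
      _ = a * l := by rw [h1]
  have hN1 : 1 ≤ (a - 1) * l := by omega
  have hbN : b * ((a - 1) * l) + b * l = a * b * l := by
    calc b * ((a - 1) * l) + b * l = b * ((a - 1) * l + l) := by ring
      _ = a * b * l := by rw [ha1]; ring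
  obtain ⟨S, hS⟩ := long_run hJH tc hka ab hN1 (by omega)
  have hS0 : u S = 0 := by
    have h := hS 0 (by omega)
    rwa [Nat.cast_zero, sub_zero] at h
  have h00 : off (0 : ZMod (p * l)) 0 < b * l := by
    rw [off_self]
    omega
  obtain ⟨f, hf⟩ := c1 0 S (hi0 0 h00) hS0
  have hfr := run_box hCOV tc hka ab (hi0 0 h00) hS hf
  have heW : e p l W = ((d * l : ℕ) : ZMod (p * l)) := by
    have h := NBaux.eW (q := l) W (0 : ZMod p)
    rw [e_zero, zero_add, sub_zero] at h
    exact h
  by_cases hf0 : f = 0
  · -- the box `0`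
    rw [hf0] at hfr
    have hrow : ∀ n : ℕ, n < (a - 1) * l → off (1 : ZMod (p * l)) (S - n) < a * l := by
      intro n hn
      have h := (hfr n hn).2
      rwa [hs0, zero_add] at h
    have hrun := off_run (by omega) hrow
    have hv0 : off (1 : ZMod (p * l)) S < a * l := by
      have h := hrow 0 (by omega)
      rwa [Nat.cast_zero, sub_zero] at h
    have hlow := (hrun ((a - 1) * l - 1) (by omega)).1
    set v := off (1 : ZMod (p * l)) S with hv
    have hSv : S = 1 + (v : ZMod (p * l)) := (off_spec 1 S).symm
    -- the forbidden rows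
    have hforb : ∀ r : ℕ, d * l < r + b * l → r ≤ d * l → u (r : ZMod (p * l)) = 1 := by
      intro r hr1 hr2
      have h := hu1 ((r : ZMod (p * l)) - ((d * l : ℕ) : ZMod (p * l))) (by
        rw [NBaux.off_cast (n := d * l - r) _ _ (by omega)
          (by rw [Nat.cast_sub hr2]; ring)]
        omega)
      rwa [heW, sub_add_cancel] at h
    rcases Nat.lt_or_ge (d * l) (v + 1) with hvd | hvd
    · -- above
      rcases Nat.lt_or_ge (v + 1 - d * l) ((a - 1) * l) with hn | hn
      · have h1 := hS (v + 1 - d * l) hn
        have h2 : S - ((v + 1 - d * l : ℕ) : ZMod (p * l)) = ((d * l : ℕ) : ZMod (p * l)) := by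
          rw [hSv, Nat.cast_sub (by omega)]
          push_cast
          ring
        rw [h2, hforb (d * l) (by omega) le_rfl] at h1
        exact absurd h1 (by norm_num)
      · omega
    · rcases Nat.lt_or_ge (d * l) (v + 1 + b * l) with hn | hn
      · have h1 := hforb (v + 1) (by omega) hvd
        have h2 : ((v + 1 : ℕ) : ZMod (p * l)) = S := by
          rw [hSv]
          push_cast
          ring
        rw [h2, hS0] at h1
        exact absurd h1 (by norm_num)
      · omega
  · -- another box
    have hzf : z f ≠ 0 := by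
      intro h
      exact hf0 (tc.hinj (h.trans z0.symm))
    have hvb : (z f).val < b * l := by
      have h := hf.1
      rwa [off_eq_val] at h
    have hv1 : 1 ≤ (z f).val := by
      rw [Nat.one_le_iff_ne_zero, ne_eq, ZMod.val_eq_zero]
      exact hzf
    have hX1 : off (z f - b * l : ZMod (p * l)) 0 = b * l - (z f).val := by
      apply NBaux.off_cast _ _ (by omega)
      rw [Nat.cast_sub hvb.le, ZMod.natCast_zmod_val]
      push_cast
      ring
    have hiX1 : i (z f - b * l) = 0 := hi0 _ (by omega)
    obtain ⟨g, hg⟩ := c1 _ S hiX1 hS0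
    have hgr := run_box hCOV tc hka ab hiX1 hS hg
    have hM1 : 1 < p * l := by omega
    have hfb : box l a b z f (z f - b * l + 1) S := by
      refine ⟨?_, hf.2⟩
      rw [NBaux.off_cast (n := b * l - 1) _ _ (by omega)
        (by rw [Nat.cast_sub (by omega)]; push_cast; ring)]
      omega
    have hofb : off (z f - b * l : ZMod (p * l)) (z f) = b * l := by
      apply NBaux.off_cast _ _ (by omega)
      push_cast
      ring
    rcases c5 _ S g f hg hfb with h | ⟨h1, h2, h3, h4⟩
    · -- `f = g`
      rw [← h] at hg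
      have := hg.1
      omega
    · have hsf : sc l z f = sc l z g - ((k * l : ℕ) : ZMod (p * l)) := by
        unfold sc
        rw [h1, h3, e_sub]
        unfold hh
        rw [e_natCast]
        push_cast
        ring
      have hkl : k * l + l ≤ a * l := by
        calc k * l + l = (k + 1) * l := by ring
          _ ≤ a * l := Nat.mul_le_mul_right l hk2
      have ha2 : 2 * (a * l) < p * l := by
        calc 2 * (a * l) = 2 * a * l := by ring
          _ < p * l := Nat.mul_lt_mul_of_pos_right tc.ha2 (by omega)
      have hrow : ∀ n : ℕ, n < (a - 1) * l → off (sc l z g + 1) (S - (n : ZMod (p * l))) < a * l := by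
        intro n hn
        exact (hgr n hn).2
      have hrow2 : ∀ n : ℕ, n < (a - 1) * l → off (sc l z g + 1) (S - (n : ZMod (p * l))) + k * l < a * l := by
        intro n hn
        have h5 := hrow n hn
        have h6 := (hfr n hn).2
        have h7 : off (sc l z f + 1) (S - (n : ZMod (p * l))) = off (sc l z g + 1) (S - (n : ZMod (p * l))) + k * l := by
          apply NBaux.off_cast _ _ (by omega)
          have h8 := off_spec (sc l z g + 1) (S - (n : ZMod (p * l)))
          rw [hsf, Nat.cast_add]
          linear_combination -h8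
        omega
      have hrun := off_run (by omega) hrow
      have hv0 := hrow2 0 (by omega)
      rw [Nat.cast_zero, sub_zero] at hv0
      obtain ⟨hlow, hlow2⟩ := hrun ((a - 1) * l - 1) (by omega)
      have hkone : k = 1 := by
        by_contra hk
        have h5 : 2 * l ≤ k * l := Nat.mul_le_mul_right l (by omega)
        omega
      have h5 : off (sc l z g + 1) (S - (((a - 1) * l - 1 : ℕ) : ZMod (p * l))) = 0 := by
        rw [hkone, one_mul] at hv0
        omega
      have h6 : u (sc l z g + 1) = 0 := by
        rw [off_eq_zero.1 h5]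
        exact hS _ (by omega)
      have hbg : box l a b z g (z f - b * l) (sc l z g + 1) := by
        refine ⟨hg.1, ?_⟩
        rw [off_self]
        omega
      have h7 : u (sc l z g) ≠ 0 := by
        intro h8
        have h9 := (c7 _ _ g hiX1 h8 hbg).2
        rw [NBaux.off_cast (n := p * l - 1) _ _ (by omega)
          (by rw [Nat.cast_sub (by omega), ZMod.natCast_self]; push_cast; ring)] at h9
        omega
      obtain ⟨x, hx1, hx2, hx3⟩ := fall hJH tc hka ab h7 h6
      have hxg : x = g := by
        rcases tc.hsx with h8 | h8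
        · exact h8 hx3
        · omega
      rw [hxg] at hx1 hx2
      have hd1 : 1 * l ≤ dd W g * l := Nat.mul_le_mul_right l hx1
      have hline : box l a b z g (z g) (z g + e p l W) := by
        rw [(bl p l a b tc.hP z W g).1 (z g), off_self]
        refine ⟨?_, by omega, ?_⟩
        · have h8 : (W - g).val - a = 0 := by
            unfold dd at hx2
            omega
          rw [h8, Nat.zero_mul]
        · have h8 : dd W g = (W - g).val := rfl
          rw [← h8]
          omega
      have hline0 : box l a b z 0 (z g) (z g + e p l W) := by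
        apply hcol
        rw [h1]
        omega
      have hg0 := tc.hD g 0 _ _ hline hline0
      rw [hg0, hdd] at hx2
      omega

end Helper11.LV
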