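import Pool.Agent.Helper11.LV.StC
import Pool.Agent.Helper11.N1.All

set_option autoImplicit false
set_option linter.unusedSectionVars false

/-!
Project LV, module PT1: row `0` between left side and top, levels with `u ≤ 1`.
-/

namespace Helper11.LV.PT1aux

open Helper11.N1

section off

variable {M : ℕ} [NeZero M]

theorem offAdd {x y : ZMod M} {n : ℕ} (h : off x y + n < M) :
    off x (y + (n : ZMod M)) = off x y + n := by
  apply NBaux.off_cast x _ h
  push_cast
  linear_combination -(off_spec x y)

theorem offSub {x y : ZMod M} {n : ℕ} (h : n ≤ off x y) :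
    off x (y - (n : ZMod M)) = off x y - n := by
  have h1 := off_lt x y
  apply NBaux.off_cast x _ (by omega)
  rw [Nat.cast_sub h]
  linear_combination -(off_spec x y)

theorem valOff (X : ZMod M) : X.val = off 0 X := by
  unfold off
  rw [sub_zero]

theorem valAdd {X : ZMod M} (h : X.val + 1 < M) : (X + 1).val = X.val + 1 := by
  rw [valOff, valOff X]
  have h1 := offAdd (x := 0) (y := X) (n := 1) (by rw [← valOff]; exact h)
  rwa [Nat.cast_one] at h1

end off

end Helper11.LV.PT1aux

namespace Helper11.LV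

open Helper11.N1

open PT1aux in
theorem pt1 : StTA → StNB → StCOV → StQR → StQC → StQD → StPT1 := by
  intro hTA hNB hCOV hQR hQC hQD p l a b k _ _ z W i u δ hE hba hu1
  have hT := hE.tc
  have hAB := hE.ab
  obtain ⟨-, -, ta3, -, -, -⟩ := hTA p l a b k z hT hba W i u hAB hu1
  obtain ⟨c1, -, -, c4, -, -, -⟩ := hCOV p l a b k z hT hba W i u hAB
  have nb := hNB p l a b k z hT hba W i (fun S => u S - 2) hAB.ld
  have qr := hQR p l a b k z hT hba W i u hAB hu1
  have qc := hQC p l a b k z hT hba W i u hAB hu1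
  have qd := hQD p l a b k z hT hba W i u hAB hu1
  obtain ⟨hl1, hal2, hbl2, hMab⟩ := NBaux.prods hT.hP
  have hk1 : 1 ≤ k := hT.hk
  have hz0 : z 0 = 0 := hE.z0
  have hδM := hE.hδM
  have hv1 : (1 : ZMod (p * l)).val = 1 := by
    rw [valOff]
    exact NBaux.off_cast 0 1 (by omega) (by push_cast; ring)
  have ho10 : off (1 : ZMod (p * l)) 0 = p * l - 1 :=
    NBaux.off_cast _ _ (by omega)
      (by rw [Nat.cast_sub (by omega), ZMod.natCast_self]; push_cast; ring)
  -- boxes with an active right side
  have right : ∀ (j : ZMod p) (X S : ZMod (p * l)), box l a b z j X (X + e p l W) →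
      i X = 0 → eR l a b k z W j → u S = 0 → off (sc l z j + 1) S < a * l := by
    intro j X S hb hi heR hS
    obtain ⟨t1, t2, t3, t4⟩ := ta3 X j hb hi
    obtain ⟨-, -, -, -, -, n6, -, -⟩ := nb j X hb
    have hizj : i (z j) = 0 := (t3 (z j) (by rw [off_self]; omega)).2
    obtain ⟨f, hf⟩ := c1 (z j) S hizj hS
    by_contra hcon
    have hfj : f ≠ j := by
      intro h
      rw [h] at hf
      exact hcon hf.2
    have hiz1 : i (z j + 1) = 1 := by
      rw [(n6 t2 heR).1, hi, zero_add]
    obtain ⟨v1, v2⟩ := hE.hL (z j) hizj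
    have hv : (z j + 1 + (b : ZMod (p * l)) * (l : ZMod (p * l))).val =
        (z j + (b : ZMod (p * l)) * (l : ZMod (p * l))).val + 1 := by
      rw [← valAdd (by omega)]
      congr 1
      ring
    obtain ⟨q1, n, q2, q3, q4, q5⟩ := qr X S j f hb hi hS hf hfj
    have hf0 : f ≠ 0 := by
      intro h0
      have e1 := hf.1
      have e2 := q1.1
      rw [h0, hz0] at e1 e2
      have e3 := off_spec (z j) 0
      have ht1 : off (z j) 0 ≠ 0 := by
        intro h
        rw [off_eq_zero.1 h, zero_add, ho10] at e2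
        omega
      have o2 : off (-((b : ZMod (p * l)) * (l : ZMod (p * l))) + 1) (z j) =
          b * l - off (z j) 0 - 1 := by
        refine NBaux.off_cast _ _ (by omega) ?_
        rw [Nat.cast_sub (by omega), Nat.cast_sub (by omega)]
        push_cast
        linear_combination e3
      have i1 := (t3 _ (by rw [o2]; omega)).2
      have h5 := (hE.hL _ i1).1
      have h6 : (-((b : ZMod (p * l)) * (l : ZMod (p * l))) + 1 +
          (b : ZMod (p * l)) * (l : ZMod (p * l))) = 1 := by ring
      rw [h6, hv1] at h5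
      omega
    have hn : off (sc l z f + 1) (S - (n : ZMod (p * l))) = off (sc l z f + 1) S - n :=
      offSub q3
    have hf2 := hf.2
    have hbx : box l a b z f (z j + 1) (S - (n : ZMod (p * l))) :=
      ⟨q1.1, by rw [hn]; omega⟩
    have hSn : S - ((n - 1 : ℕ) : ZMod (p * l)) = S - (n : ZMod (p * l)) + 1 := by
      rw [Nat.cast_sub q2]
      push_cast
      ring
    have hu0 : u (S - (n : ZMod (p * l)) + 1) = 0 := by
      rw [← hSn]
      exact q4 (n - 1) (by omega)
    have hE' : ¬ (1 ≤ (S - (n : ZMod (p * l)) - (a : ZMod (p * l)) * (l : ZMod (p * l))).val ∧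
        (S - (n : ZMod (p * l)) - (a : ZMod (p * l)) * (l : ZMod (p * l))).val ≤ δ) := by
      rintro ⟨w1, w2⟩
      by_cases w3 : (S - (n : ZMod (p * l)) - (a : ZMod (p * l)) * (l : ZMod (p * l))).val = δ
      · exact hE.hB _ w3 hu0
      · have w4 : (S - (n : ZMod (p * l)) + 1 -
            (a : ZMod (p * l)) * (l : ZMod (p * l))).val =
            (S - (n : ZMod (p * l)) - (a : ZMod (p * l)) * (l : ZMod (p * l))).val + 1 := by
          rw [← valAdd (by omega)]
          congr 1
          ring
        exact hE.hU _ hu0 ⟨by omega, by omega⟩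
    exact hE.hst (z j + 1) (S - (n : ZMod (p * l))) f (by omega) (by omega) hiz1 hE' q5 hf0 hbx
  -- all Q-boxes
  have all : ∀ (N : ℕ) (j : ZMod p) (X S : ZMod (p * l)), a - dd W j = N →
      box l a b z j X (X + e p l W) → i X = 0 → u S = 0 → off (sc l z j + 1) S < a * l := by
    intro N
    induction N using Nat.strong_induction_on with
    | _ N ih =>
      intro j X S hN hb hi hS
      by_cases heR : eR l a b k z W j
      · exact right j X S hb hi heR hS
      · obtain ⟨⟨X', hb', hi'⟩, h2, h3, h4⟩ := (qc j ⟨X, hb, hi⟩).1 heR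
        apply h4 S hS
        have t2' := (ta3 X' _ hb' hi').2.1
        exact ih (a - dd W (j - hh p b k)) (by omega) _ X' S rfl hb' hi' hS
  obtain ⟨X, hX⟩ := hAB.ei
  obtain ⟨S1, hS1⟩ := hAB.eu
  have hj1 : ∃ j1, box l a b z j1 X (X + e p l W) := by
    by_contra hne
    push Not at hne
    have h1 := c4 X hne
    have h2 := hu1 (X + e p l W)
    omega
  obtain ⟨j1, hj1⟩ := hj1
  exact qd S1 j1 hS1 (fun S hS => all _ j1 X S rfl hj1 hX hS)
    (fun j X' hb hi => all _ j X' S1 rfl hb hi hS1)

end Helper11.LV
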