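import Pool.Agent.Helper11.LV.StC
import Pool.Agent.Helper11.LV.M_COV
import Pool.Agent.Helper11.LV.Sc

set_option autoImplicit false
set_option linter.unusedSectionVars false

/-!
Project LV, module PT2: row `0` between its left side and its top, levels with `i ≤ 1`.
-/

namespace Helper11.LV.PT2aux

open Helper11.N1 Helper11.LV.COVaux

section

variable {p l a b k : ℕ} [NeZero p] [NeZero l] {z : ZMod p → ZMod (p * l)}

/-- the place of a right side is a line point -/
theorem box_R (hP : Par p l a b) {W j : ZMod p} (h1 : 1 ≤ dd W j) (h2 : dd W j ≤ a) :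
    box l a b z j (z j) (z j + e p l W) := by
  obtain ⟨hq, haq, hbq, hM⟩ := NBaux.prods hP
  have h3 : dd W j * l ≤ a * l := Nat.mul_le_mul_right l h2
  have h4 : l ≤ dd W j * l := by
    calc l = 1 * l := (one_mul l).symm
      _ ≤ _ := Nat.mul_le_mul_right l h1
  refine ⟨by rw [off_self]; omega, ?_⟩
  have h5 : z j + e p l W = sc l z j + 1 + ((dd W j * l - 1 : ℕ) : ZMod (p * l)) := by
    rw [Nat.cast_sub (by omega), Nat.cast_one, NBaux.eW W j]
    unfold sc dd
    ring
  rw [h5, off_nat _ (by omega)]
  omega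

/-- a chain of ties -/
theorem chain (x : ZMod p) (m : ℕ) (h : ∀ s < m, TL l b k z (x - (s : ZMod p) * hh p b k)) :
    z (x - (m : ZMod p) * hh p b k) = z x + ((m * (b * l) : ℕ) : ZMod (p * l)) := by
  induction m with
  | zero => simp
  | succ n ih =>
    have h1 := h n (by omega)
    unfold TL at h1
    have h2 := ih (fun s hs => h s (by omega))
    have h3 : x - ((n + 1 : ℕ) : ZMod p) * hh p b k =
        x - (n : ZMod p) * hh p b k - hh p b k := by
      push_cast
      ring
    rw [h3, h1, h2]
    push_cast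
    ring

theorem mh (m : ℕ) : (m : ZMod p) * hh p b k = ((m * (b + k) : ℕ) : ZMod p) := by
  unfold hh
  push_cast
  ring

theorem sc_chain (x : ZMod p) (m : ℕ)
    (h : ∀ s < m, TL l b k z (x - (s : ZMod p) * hh p b k)) :
    sc l z (x - (m : ZMod p) * hh p b k) = sc l z x - ((m * k * l : ℕ) : ZMod (p * l)) := by
  unfold sc
  rw [chain x m h, e_sub, mh, e_natCast]
  push_cast
  ring

/-- a bottom at which `u` is `2` -/
theorem exists_g (hJH : StJH) (tc : TC p l a b k z) (hba : b + k ≤ a) {W : ZMod p}
    {i u : ZMod (p * l) → ℤ} (ab : AB l a b z W i u) (hu2 : ∀ S, u S ≤ 2)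
    (h2 : ∃ S, u S = 2) : ∃ g, 1 ≤ dd W g ∧ dd W g ≤ b ∧ u (sc l z g) = 2 := by
  by_contra hno
  push Not at hno
  obtain ⟨j1, j2, j3⟩ := hJH p l a b k z tc hba W i (fun S => u S - 2) ab.ld
  have hstep : ∀ S, u S = 2 → u (S + 1) = 2 := by
    intro S hS
    by_cases hB : ∃ x, 1 ≤ dd W x ∧ dd W x ≤ b ∧ sc l z x = S
    · obtain ⟨x, h3, h4, h5⟩ := hB
      have h6 := hno x h3 h4
      rw [h5] at h6
      exact absurd hS h6
    by_cases hT : ∃ y, a < dd W y ∧ dd W y ≤ a + b ∧ sc l z y + a * l = S
    · obtain ⟨y, h3, h4, h5⟩ := hT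
      have h6 : u (sc l z y + a * l + 1) - 2 = u (sc l z y + a * l) - 2 + 1 := j2 y h3 h4
      rw [h5, hS] at h6
      have h7 := hu2 (S + 1)
      omega
    have h6 : u (S + 1) - 2 = u S - 2 :=
      j3 S (fun x h3 h4 h5 => hB ⟨x, h3, h4, h5⟩) (fun y h3 h4 h5 => hT ⟨y, h3, h4, h5⟩)
    omega
  obtain ⟨S, hS⟩ := h2
  have hall : ∀ n : ℕ, u (S + (n : ZMod (p * l))) = 2 := by
    intro n
    induction n with
    | zero => simpa using hS
    | succ n ih =>
      have h3 := hstep _ ih
      have h4 : S + ((n + 1 : ℕ) : ZMod (p * l)) = S + (n : ZMod (p * l)) + 1 := by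
        push_cast
        ring
      rw [h4]
      exact h3
  obtain ⟨S0, hS0⟩ := ab.eu
  have h3 := hall (off S S0)
  rw [off_spec, hS0] at h3
  omega

/-- the set of the columns with `i = 0` is small -/
theorem card_le {M : ℕ} [NeZero M] (s : Finset (ZMod M)) (c0 c1 : ZMod M) (Q1 Q2 : ℕ)
    (h : ∀ X ∈ s, (∃ q : ℕ, 1 ≤ q ∧ q ≤ Q1 ∧ X = c0 + (q : ZMod M)) ∨
      (∃ n : ℕ, n < Q2 ∧ X = c1 + (n : ZMod M))) : s.card ≤ Q1 + Q2 := by
  classical
  have h1 : s ⊆ (Finset.Icc 1 Q1).image (fun q : ℕ => c0 + (q : ZMod M)) ∪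
      (Finset.range Q2).image (fun n : ℕ => c1 + (n : ZMod M)) := by
    intro X hX
    rw [Finset.mem_union, Finset.mem_image, Finset.mem_image]
    rcases h X hX with ⟨q, h2, h3, h4⟩ | ⟨n, h2, h3⟩
    · exact Or.inl ⟨q, Finset.mem_Icc.2 ⟨h2, h3⟩, h4.symm⟩
    · exact Or.inr ⟨n, Finset.mem_range.2 h2, h3.symm⟩
  refine (Finset.card_le_card h1).trans ((Finset.card_union_le _ _).trans ?_)
  refine Nat.add_le_add ((Finset.card_image_le).trans ?_) ((Finset.card_image_le).trans ?_)
  · rw [Nat.card_Icc]
    omega
  · rw [Finset.card_range]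

/-- the last arithmetic step -/
theorem arith {l b k m w' K : ℕ} (hl : 2 ≤ l) (hb : 2 ≤ b) (hk : 1 ≤ k) (hm : 1 ≤ m)
    (hw : w' ≤ b * l) (hK : K = m * k * l) :
    max (w' - 1) K + (K + m * b * l - l) < m * b * l + b * m * k * l + 1 := by
  have h1 : 1 ≤ m * k := Nat.mul_pos hm hk
  have h2 : b * l ≤ m * b * l := by
    calc b * l = 1 * b * l := by ring
      _ ≤ m * b * l := Nat.mul_le_mul_right l (Nat.mul_le_mul_right b hm)
  have h3 : 2 * l ≤ b * l := Nat.mul_le_mul_right l hb
  have h4 : b * m * k * l = b * K := by rw [hK]; ring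
  have h5 : 2 * K ≤ b * K := Nat.mul_le_mul_right K hb
  have h6 : b * l + K ≤ b * K + l := by
    obtain ⟨b', rfl⟩ := Nat.exists_eq_add_of_le hb
    obtain ⟨c, hc⟩ := Nat.exists_eq_add_of_le h1
    have h7 : K = (1 + c) * l := by rw [hK, hc]
    rw [h7]
    nlinarith [Nat.zero_le (b' * c * l), Nat.zero_le (c * l)]
  rw [h4]
  rcases max_cases (w' - 1) K with h7 | h7 <;> omega

/-- the last arithmetic step, long chains -/
theorem arith2 {l b k m r w' K : ℕ} (hb : 2 ≤ b) (hk : 3 ≤ k) (hm : 1 ≤ m)
    (hr : 1 ≤ r) (hw : w' ≤ b * l) (hK : K = m * k * l) :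
    max (w' - 1) K + (K + (m * b * l + b * l) - l) < m * b * l + b * m * k * l + r * l + 1 := by
  have h1 : 2 * l ≤ K := by
    rw [hK]
    apply Nat.mul_le_mul_right
    calc 2 ≤ 1 * k := by omega
      _ ≤ m * k := Nat.mul_le_mul_right k hm
  have h4 : b * m * k * l = b * K := by rw [hK]; ring
  obtain ⟨b', rfl⟩ := Nat.exists_eq_add_of_le hb
  have f1 : b' * l ≤ b' * K := Nat.mul_le_mul_left b' (by omega)
  have f2 : (b' + 1) * (2 * l) ≤ (b' + 1) * K := Nat.mul_le_mul_left _ h1
  have e1 : (2 + b') * l = b' * l + 2 * l := by ring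
  have e2 : (2 + b') * K = b' * K + 2 * K := by ring
  have e3 : (b' + 1) * (2 * l) = 2 * (b' * l) + 2 * l := by ring
  have e4 : (b' + 1) * K = b' * K + K := by ring
  have f3 : l ≤ r * l := Nat.le_mul_of_pos_left l hr
  rw [h4, e2]
  rw [e1] at hw ⊢
  rcases max_cases (w' - 1) K with h7 | h7 <;> omega

end

end Helper11.LV.PT2aux

namespace Helper11.LV

open Helper11.N1

open COVaux PT2aux in
theorem pt2 : StJH → StNB → StCOV → StTB → StTCB → StTR → StTG → StPT2 := by
  intro hJH hNB hCOV hTB hTCB hTR hTG p l a b k _ _ z W i u δ hET hba hHM hi1 hu2 hex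
  have tc := hET.tc
  have ab := hET.ab
  have hP := tc.hP
  obtain ⟨-, -, c3, c4, -, -, -⟩ := hCOV p l a b k z tc hba W i u ab
  obtain ⟨t1, t2⟩ := hTB p l a b k z tc hba hHM W i u ab hi1
  have q0 := hTCB p l a b k z tc hba hHM W i u ab hi1
  have hTR' := hTR p l a b k z tc hba W i u ab
  obtain ⟨g, g1, g2, g3⟩ := exists_g hJH tc hba ab hu2 hex
  have hTG' := hTG p l a b k z tc hba hHM W i u ab hi1 hu2 g g1 g2 g3
  have ha := hP.ha
  have hb := hP.hb
  have hab := hP.hab
  have hl := tc.hl2
  have hk := tc.hk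
  have ha2 := tc.ha2
  have hw1 := hET.d1
  have hw2 := hET.d2
  have hδM := hET.hδM
  have hm1 : 1 ≤ a / (b + k) := Nat.div_pos hba (by omega)
  have hmh : a / (b + k) * (b + k) ≤ a := Nat.div_mul_le_self _ _
  have hmr : (b + k) * (a / (b + k)) + a % (b + k) = a := Nat.div_add_mod _ _
  generalize a / (b + k) = m at *
  generalize hr : a % (b + k) = r at *
  -- numbers
  have n1 : m * k * l + m * (b * l) ≤ a * l := by
    calc m * k * l + m * (b * l) = m * (b + k) * l := by ring
      _ ≤ a * l := Nat.mul_le_mul_right l hmh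
  have n2 : b * l ≤ m * (b * l) := by
    calc b * l = 1 * (b * l) := by ring
      _ ≤ m * (b * l) := Nat.mul_le_mul_right _ hm1
  have n3 : l ≤ m * k * l := by
    calc l = 1 * 1 * l := by ring
      _ ≤ m * k * l := Nat.mul_le_mul_right l (Nat.mul_le_mul hm1 hk)
  have n4 : 2 * (a * l) + l ≤ p * l := by
    calc 2 * (a * l) + l = (2 * a + 1) * l := by ring
      _ ≤ p * l := Nat.mul_le_mul_right l ha2
  have n5 : a * l + l ≤ W.val * l := by
    calc a * l + l = (a + 1) * l := by ring
      _ ≤ W.val * l := Nat.mul_le_mul_right l hw1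
  have n6 : W.val * l ≤ a * l + b * l := by
    calc W.val * l ≤ (a + b) * l := Nat.mul_le_mul_right l hw2
      _ = a * l + b * l := by ring
  have n7 : 2 * l ≤ b * l := Nat.mul_le_mul_right l hb
  have n8 : (a - m * k) * l = a * l - m * k * l := Nat.sub_mul _ _ _
  have n9 : (W.val - a) * l = W.val * l - a * l := Nat.sub_mul _ _ _
  have heW : e p l W = ((W.val * l : ℕ) : ZMod (p * l)) := by
    unfold e
    rw [Nat.mul_comm l W.val]
  have z0 := hET.z0
  have sc0 : sc l z 0 = 0 := by
    unfold sc
    rw [z0, e_zero, add_zero]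
  have hH : z (hh p b k) = -((b : ZMod (p * l)) * l) := by
    have h1 := hET.tl
    unfold TL at h1
    rw [sub_self, z0] at h1
    linear_combination -h1
  obtain ⟨X0, hX0⟩ := ab.ei
  have hδ3 : 3 ≤ δ := by
    have := hET.hL X0 hX0
    omega
  -- (1)
  have hdh : dd W (hh p b k) = W.val - (b + k) := by
    unfold dd hh
    rw [NBaux.val_sub_nat W (b + k) (by omega), if_pos (by omega)]
  have hboxh := box_R hP (z := z) (j := hh p b k) (W := W) (by omega) (by omega)
  have hih : i (z (hh p b k)) = 1 := by
    rw [hH]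
    exact hET.hz
  have huh : u (z (hh p b k) + e p l W) = 0 := by
    rcases c3 _ _ hboxh with h | h
    · rw [h.1] at hih
      omega
    · exact h.2
  have hual : u ((a : ZMod (p * l)) * l) = 0 := by
    by_cases hwab : W.val = a + b
    · have h1 : z (hh p b k) + e p l W = (a : ZMod (p * l)) * l := by
        rw [hH, heW, hwab]
        push_cast
        ring
      rw [h1] at huh
      exact huh
    · have hnb := hNB p l a b k z tc hba W i (fun S => u S - 2) ab.ld (hh p b k) _ hboxh
      obtain ⟨-, -, -, -, -, -, h7, -⟩ := hnb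
      have hnotR : ¬ eR l a b k z W (hh p b k) := by
        rintro ⟨-, -, h3⟩
        have := h3 hET.tl
        omega
      obtain ⟨-, -, -, -, h8, -⟩ := h7 (by omega) hnotR
      obtain ⟨h9, h10⟩ := h8 (by omega)
      rw [sub_self] at h9
      have n10 : W.val * l + l ≤ a * l + b * l := by
        calc W.val * l + l = (W.val + 1) * l := by ring
          _ ≤ (a + b) * l := Nat.mul_le_mul_right l (by omega)
          _ = a * l + b * l := by ring
      have hrow : (0 : ZMod (p * l)) - (((W.val - a) * l : ℕ) : ZMod (p * l)) + e p l W =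
          (a : ZMod (p * l)) * l := by
        rw [heW, n9, Nat.cast_sub (by omega)]
        push_cast
        ring
      have hX' : box l a b z 0 ((0 : ZMod (p * l)) - (((W.val - a) * l : ℕ) : ZMod (p * l)))
          ((0 : ZMod (p * l)) - (((W.val - a) * l : ℕ) : ZMod (p * l)) + e p l W) := by
        refine ⟨?_, ?_⟩
        · rw [z0, off_nat' _ (by omega)]
          omega
        · have h11 : (a : ZMod (p * l)) * l = 0 + 1 + ((a * l - 1 : ℕ) : ZMod (p * l)) := by
            rw [Nat.cast_sub (by omega)]
            push_cast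
            ring
          rw [hrow, sc0, h11, off_nat _ (by omega)]
          omega
      have h12 := ((hNB p l a b k z tc hba W i (fun S => u S - 2) ab.ld 0 _ h9).2.1 _ hX').2
      rw [hrow] at h12
      have h13 : u ((a : ZMod (p * l)) * l) - 2 = u (z (hh p b k) + 1 + e p l W) - 2 := h12
      have h14 : u (z (hh p b k) + 1 + e p l W) - 2 = u (z (hh p b k) + e p l W) - 2 := h10
      omega
  -- (2)
  obtain ⟨x, hgx, hxr⟩ := t1 _ hual
  obtain ⟨x1, x2, x3, x4, x5⟩ := t2 x hgx
  obtain ⟨q1, q2, q3⟩ := q0 x hgx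
  have hspec := off_spec (sc l z x + 1) ((a : ZMod (p * l)) * (l : ZMod (p * l)))
  have hn : off (sc l z x + 1) ((a : ZMod (p * l)) * (l : ZMod (p * l))) + 1 = (a - m * k) * l := by
    by_contra hne
    have h1 := x3 (off (sc l z x + 1) ((a : ZMod (p * l)) * (l : ZMod (p * l))) + 1) (by omega)
    have h2 : sc l z x + 1 + ((off (sc l z x + 1) ((a : ZMod (p * l)) * (l : ZMod (p * l))) + 1 : ℕ) :
        ZMod (p * l)) = (a : ZMod (p * l)) * l + 1 := by
      push_cast
      rw [← add_assoc, hspec]
    rw [h2] at h1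
    apply hET.hU _ h1
    have h3 : (a : ZMod (p * l)) * l + 1 - a * l = ((1 : ℕ) : ZMod (p * l)) := by
      push_cast
      ring
    rw [h3, ZMod.val_natCast_of_lt (by omega)]
    omega
  have hscx : sc l z x = ((m * k * l : ℕ) : ZMod (p * l)) := by
    have h2 : ((off (sc l z x + 1) ((a : ZMod (p * l)) * (l : ZMod (p * l))) + 1 : ℕ) : ZMod (p * l)) =
        ((a * l - m * k * l : ℕ) : ZMod (p * l)) := by rw [hn, n8]
    rw [Nat.cast_sub (by omega)] at h2
    push_cast at h2 ⊢
    linear_combination hspec - h2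
  have hu0 : ∀ v : ℕ, m * k * l < v → v ≤ a * l → u (v : ZMod (p * l)) = 0 := by
    intro v h1 h2
    have h3 := x3 (v - (m * k * l + 1)) (by rw [n8]; omega)
    have h4 : sc l z x + 1 + ((v - (m * k * l + 1) : ℕ) : ZMod (p * l)) = v := by
      rw [hscx, Nat.cast_sub (by omega)]
      push_cast
      ring
    rwa [h4] at h3
  have hux : u (sc l z x) = 1 := hgx.2.2
  have hxm : x = (m : ZMod p) * hh p b k := by
    have h1 := sc_chain x m x2
    rw [hscx, sub_self, ← sc0] at h1
    have h2 : dd W (x - (m : ZMod p) * hh p b k) = dd W x + m * (b + k) := by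
      have e1 : W - (x - (m : ZMod p) * hh p b k) = ((dd W x + m * (b + k) : ℕ) : ZMod p) := by
        rw [Nat.cast_add, mh]
        unfold dd
        rw [ZMod.natCast_zmod_val]
        ring
      unfold dd
      rw [e1, ZMod.val_natCast_of_lt (by
        have := hgx.2.1
        omega)]
      rfl
    have h3 : dd W (0 : ZMod p) = W.val := by
      unfold dd
      rw [sub_zero]
    have h4 := hgx.2.1
    have h5 : (b + k) * m = m * (b + k) := by ring
    exact sub_eq_zero.1 (top_uniq (W := W) tc h1 (by omega) (by omega) (by omega) (by omega))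
  have hzx : z x = -((m * (b * l) : ℕ) : ZMod (p * l)) := by
    have h1 := chain x m x2
    have h2 : x - (m : ZMod p) * hh p b k = 0 := sub_eq_zero.2 hxm
    rw [h2, z0] at h1
    linear_combination -h1
  have hdx : dd W x = W.val - m * (b + k) := by
    unfold dd
    rw [hxm, mh, NBaux.val_sub_nat W (m * (b + k)) (by omega), if_pos (by omega)]
  have hdx1 : 1 ≤ dd W x := hgx.1
  have hdx2 : dd W x ≤ b := hgx.2.1
  have n11 : dd W x * l + m * (b * l) + m * k * l = W.val * l := by
    calc dd W x * l + m * (b * l) + m * k * l = (dd W x + m * (b + k)) * l := by ring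
      _ = W.val * l := by rw [hdx, Nat.sub_add_cancel (by omega)]
  have n12 : dd W x * l ≤ b * l := Nat.mul_le_mul_right l hdx2
  have n13 : l ≤ dd W x * l := by
    calc l = 1 * l := (one_mul l).symm
      _ ≤ _ := Nat.mul_le_mul_right l hdx1
  -- (3)
  have hE : ¬ (1 ≤ (sc l z x - a * l).val ∧ (sc l z x - a * l).val ≤ δ) := by
    rintro ⟨h1, h2⟩
    have h3 : u (sc l z x + 1) = 0 := by
      have h4 := x3 0 (by rw [n8]; omega)
      simpa using h4
    rcases h2.lt_or_eq with h4 | h4
    · have h5 : (sc l z x + 1 - a * l).val = (sc l z x - a * l).val + 1 := by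
        have h6 : sc l z x + 1 - a * l =
            (((sc l z x - a * l).val + 1 : ℕ) : ZMod (p * l)) := by
          rw [Nat.cast_add, ZMod.natCast_zmod_val]
          push_cast
          ring
        conv_lhs => rw [h6]
        rw [ZMod.val_natCast_of_lt (by omega)]
      exact hET.hU _ h3 (by rw [h5]; omega)
    · exact hET.hB _ h4 h3
  -- the column of the row `a l`
  have hi0 : i ((a : ZMod (p * l)) * l - ((W.val * l : ℕ) : ZMod (p * l))) ≠ 0 := by
    intro h0
    have h1 : (a : ZMod (p * l)) * l - ((W.val * l : ℕ) : ZMod (p * l)) + e p l W =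
        (a : ZMod (p * l)) * l := by
      rw [heW]
      ring
    by_cases hbx : ∃ f, box l a b z f ((a : ZMod (p * l)) * l - ((W.val * l : ℕ) : ZMod (p * l)))
        ((a : ZMod (p * l)) * l - ((W.val * l : ℕ) : ZMod (p * l)) + e p l W)
    · obtain ⟨f, hf⟩ := hbx
      rcases c3 _ _ hf with h2 | h2
      · rw [h1, hual] at h2
        omega
      · rw [h0] at h2
        omega
    · have h2 := c4 _ (fun f hf => hbx ⟨f, hf⟩)
      rw [h1, hual, h0] at h2
      omega
  -- the bound of TCB (3)
  obtain ⟨T, hT, hTb⟩ : ∃ T : ℕ, ((T = m * (b * l) ∧ Function.Injective (sc l z)) ∨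
      (T = m * (b * l) + b * l ∧ 3 ≤ k ∧ 1 ≤ r)) ∧
      ∀ (X : ZMod (p * l)) (f : ZMod p) (n : ℕ),
        (∀ n' : ℕ, n' ≤ n → i (X - (n' : ZMod (p * l))) = 0) →
        box l a b z f X (sc l z x + 1) → off X (z f) + n < T := by
    rcases tc.hsx with h | h
    · exact ⟨m * (b * l), Or.inl ⟨rfl, h⟩, fun X f n h1 h2 => (q3 X f n h1 h2).1 h⟩
    · refine ⟨m * (b * l) + b * l, Or.inr ⟨rfl, h.1, by rw [← hr]; exact h.2⟩,
        fun X f n h1 h2 => ?_⟩
      have h3 := (q3 X f n h1 h2).2.1
      have h4 : (m + 1) * (b * l) = m * (b * l) + b * l := by ring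
      rwa [h4] at h3
  have hTl : m * (b * l) ≤ T := by rcases hT with h | h <;> omega
  have hsM : m * k * l < p * l := by omega
  -- the values of `(X + b l).val`
  have hδx : δ + a * l < p * l + m * k * l := by
    have h1 : (sc l z x - (a : ZMod (p * l)) * l).val = p * l - (a * l - m * k * l) := by
      have h2 : sc l z x - (a : ZMod (p * l)) * l =
          ((p * l - (a * l - m * k * l) : ℕ) : ZMod (p * l)) := by
        rw [hscx, Nat.cast_sub (by omega), Nat.cast_sub (by omega), ZMod.natCast_self]
        push_cast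
        ring
      rw [h2, ZMod.val_natCast_of_lt (by omega)]
    rw [h1] at hE
    by_contra h2
    exact hE ⟨by omega, by omega⟩
  have n14 : W.val * l - b * l + b * l = W.val * l := by omega
  -- the last column of `A`
  have hYi : ∀ Y : ZMod (p * l), (Y + b * l).val = δ → i Y = 1 := by
    intro Y hY
    have h1 := hi1 Y
    have h2 := ab.i0 Y
    by_contra h3
    have h4 := (hET.hL Y (by omega)).2
    omega
  -- boxes over the row `sc x` avoid the columns of `A` with `i = 1`
  have hst' : ∀ (Y : ZMod (p * l)) (y : ZMod p), 1 ≤ (Y + b * l).val → (Y + b * l).val ≤ δ →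
      y ≠ 0 → box l a b z y Y (sc l z x) → i Y = 0 := by
    intro Y y h1 h2 h3 h4
    have h5 := hi1 Y
    have h6 := ab.i0 Y
    by_contra h7
    exact hET.hst Y (sc l z x) y h1 h2 (by omega) hE hux h3 h4
  -- chains
  have hchain : ∀ f, sc l z f = sc l z x → ∀ s < m, TL l b k z (f - (s : ZMod p) * hh p b k) :=
    fun f hf => hET.hcp m f hmh (by rw [hf, hscx])
  have hcz : ∀ f, sc l z f = sc l z x → ∀ s ≤ m,
      z (f - (s : ZMod p) * hh p b k) = z f + ((s * (b * l) : ℕ) : ZMod (p * l)) :=
    fun f hf s hs => chain f s (fun s' hs' => hchain f hf s' (by omega))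
  have hcs : ∀ f, sc l z f = sc l z x → ∀ s ≤ m,
      sc l z (f - (s : ZMod p) * hh p b k) = ((m * k * l - s * k * l : ℕ) : ZMod (p * l)) := by
    intro f hf s hs
    have h1 : s * k * l ≤ m * k * l := Nat.mul_le_mul_right l (Nat.mul_le_mul_right k hs)
    rw [sc_chain f s (fun s' hs' => hchain f hf s' (by omega)), hf, hscx, Nat.cast_sub h1]
  have hcb : ∀ f, sc l z f = sc l z x → ∀ s, 1 ≤ s → s ≤ m →
      off (sc l z (f - (s : ZMod p) * hh p b k) + 1) (sc l z x) < a * l := by
    intro f hf s hs1 hs
    have h1 : s * k * l ≤ m * k * l := Nat.mul_le_mul_right l (Nat.mul_le_mul_right k hs)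
    have h2 : l ≤ s * k * l := by
      calc l = 1 * 1 * l := by ring
        _ ≤ s * k * l := Nat.mul_le_mul_right l (Nat.mul_le_mul hs1 hk)
    have h3 : sc l z x = sc l z (f - (s : ZMod p) * hh p b k) + 1 +
        ((s * k * l - 1 : ℕ) : ZMod (p * l)) := by
      rw [hcs f hf s hs, hscx, Nat.cast_sub h1, Nat.cast_sub (by omega)]
      push_cast
      ring
    conv_lhs => rw [h3]
    rw [off_nat _ (by omega)]
    omega
  have hc0 : ∀ f, sc l z f = sc l z x → ∀ s, s ≤ m → (f ≠ x ∨ s < m) →
      f - (s : ZMod p) * hh p b k ≠ 0 := by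
    intro f hf s hs h1 h2
    have h3 := hcs f hf s hs
    rw [h2, sc0] at h3
    have h4 : m * k * l - s * k * l = 0 := by
      have h5 : ((m * k * l - s * k * l : ℕ) : ZMod (p * l)) = ((0 : ℕ) : ZMod (p * l)) := by
        rw [← h3, Nat.cast_zero]
      rw [ZMod.natCast_eq_natCast_iff] at h5
      exact Nat.ModEq.eq_of_lt_of_lt h5 (by omega) (by omega)
    have h5 : s = m := by
      by_contra h6
      have h7 : (s + 1) * k * l ≤ m * k * l :=
        Nat.mul_le_mul_right l (Nat.mul_le_mul_right k (by omega))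
      have h8 : (s + 1) * k * l = s * k * l + k * l := by ring
      have h9 : 1 * l ≤ k * l := Nat.mul_le_mul_right l hk
      omega
    rw [h5] at h2
    rcases h1 with h1 | h1
    · exact h1 ((sub_eq_zero.1 h2).trans hxm.symm)
    · omega
  -- the boundary of `A` lies in the columns of the box
  set Ys : ZMod (p * l) := ((δ : ℕ) : ZMod (p * l)) - (b : ZMod (p * l)) * l with hYs
  have hYv : (Ys + b * l).val = δ := by
    rw [hYs, sub_add_cancel, ZMod.val_natCast_of_lt (by omega)]
  have straddle : ∀ (f : ZMod p) (Y : ZMod (p * l)) (K' t : ℕ), sc l z f = sc l z x → K' ≤ m →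
      (f ≠ x ∨ K' < m) → z f = Y + (t : ZMod (p * l)) → t < b * l → 1 ≤ (Y + b * l).val →
      (Y + b * l).val < δ →
      ¬ (1 ≤ (z f + ((K' * (b * l) : ℕ) : ZMod (p * l)) + b * l).val ∧
        (z f + ((K' * (b * l) : ℕ) : ZMod (p * l)) + b * l).val ≤ δ) →
      (Y + b * l).val + t + K' * (b * l) ≤ p * l ∧
      δ ≤ (Y + b * l).val + t ∧ off Ys (z f) < b * l := by
    intro f Y K' t hf hK hfx hzf ht hY1 hY2 hout
    set α := (Y + b * l).val with hα
    have hYα : Y + b * l = ((α : ℕ) : ZMod (p * l)) := by
      rw [hα, ZMod.natCast_zmod_val]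
    have hKm : K' * (b * l) ≤ m * (b * l) := Nat.mul_le_mul_right _ hK
    have h1 : z f + ((K' * (b * l) : ℕ) : ZMod (p * l)) + b * l =
        ((α + t + K' * (b * l) : ℕ) : ZMod (p * l)) := by
      rw [hzf]
      push_cast at hYα ⊢
      linear_combination hYα
    rw [h1] at hout
    have h2 : α + t + K' * (b * l) ≤ p * l := by
      by_contra h3
      apply hout
      have h4 : ((α + t + K' * (b * l) : ℕ) : ZMod (p * l)) =
          ((α + t + K' * (b * l) - p * l : ℕ) : ZMod (p * l)) := by
        rw [Nat.cast_sub (m := p * l) (by omega), ZMod.natCast_self, sub_zero]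
      rw [h4, ZMod.val_natCast_of_lt (by omega)]
      omega
    have h3 : δ < α + t + K' * (b * l) := by
      by_contra h4
      apply hout
      rw [ZMod.val_natCast_of_lt (by omega)]
      omega
    have hYsα : Ys = Y + ((δ - α : ℕ) : ZMod (p * l)) := by
      rw [hYs, Nat.cast_sub (by omega)]
      linear_combination -hYα
    have h4 : δ ≤ α + t := by
      by_contra h5
      -- the boundary lies in a box of the chain
      obtain ⟨c, hc⟩ : ∃ c, c = δ - α - t := ⟨_, rfl⟩
      have hc1 : 1 ≤ c := by omega
      set s := (c - 1) / (b * l) + 1 with hs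
      have hdm := Nat.div_add_mod (c - 1) (b * l)
      have hml := Nat.mod_lt (c - 1) (show 0 < b * l by omega)
      have hs1 : s * (b * l) = b * l * ((c - 1) / (b * l)) + b * l := by
        rw [hs]; ring
      have hs2 : s ≤ K' := by
        have h6 : (c - 1) / (b * l) < K' := by
          rw [Nat.div_lt_iff_lt_mul (by omega)]
          omega
        omega
      have hsp : 1 ≤ s := Nat.succ_le_succ (Nat.zero_le _)
      have h7 := hcz f hf s (by omega)
      have h8 : i Ys = 0 := by
        refine hst' Ys (f - (s : ZMod p) * hh p b k) (by omega) (by omega)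
          (hc0 f hf s (by omega) (by
            rcases hfx with h9 | h9
            · exact Or.inl h9
            · exact Or.inr (by omega))) ⟨?_, hcb f hf s hsp (by omega)⟩
        have hcs' : c ≤ s * (b * l) := by
          rw [hs1]
          omega
        have e1 : ((δ - α : ℕ) : ZMod (p * l)) = (t : ZMod (p * l)) + (c : ZMod (p * l)) := by
          rw [← Nat.cast_add]
          congr 1
          omega
        have h9 : z (f - (s : ZMod p) * hh p b k) = Ys + ((s * (b * l) - c : ℕ) : ZMod (p * l)) := by
          rw [h7, hYsα, hzf, e1, Nat.cast_sub hcs']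
          ring
        rw [h9, off_nat _ (by
          have : s * (b * l) ≤ m * (b * l) := Nat.mul_le_mul_right _ (by omega)
          omega)]
        omega
      have h9 := hYi Ys hYv
      omega
    refine ⟨h2, h4, ?_⟩
    have h5 : z f = Ys + ((α + t - δ : ℕ) : ZMod (p * l)) := by
      rw [hzf, hYsα, Nat.cast_sub h4, Nat.cast_sub (by omega)]
      push_cast
      ring
    rw [h5, off_nat _ (by omega)]
    omega
  -- the coordinate of the last box of the chain
  have hz0 : ∀ f, sc l z f = sc l z x →
      z f + ((m * (b * l) : ℕ) : ZMod (p * l)) + ((W.val * l : ℕ) : ZMod (p * l)) =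
        ((dd W (f - (m : ZMod p) * hh p b k) * l : ℕ) : ZMod (p * l)) := by
    intro f hf
    have h1 := hcz f hf m le_rfl
    have h2 := hcs f hf m le_rfl
    rw [Nat.sub_self, Nat.cast_zero] at h2
    have h3 : e p l W = e p l (f - (m : ZMod p) * hh p b k) +
        ((dd W (f - (m : ZMod p) * hh p b k) * l : ℕ) : ZMod (p * l)) := NBaux.eW W _
    unfold sc at h2
    rw [heW] at h3
    linear_combination h3 - h1 + h2
  -- the last box of the chain in a column of `A`
  have caseOne : ∀ f, sc l z f = sc l z x → f ≠ x →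
      1 ≤ (z f + ((m * (b * l) : ℕ) : ZMod (p * l)) + b * l).val →
      (z f + ((m * (b * l) : ℕ) : ZMod (p * l)) + b * l).val ≤ δ →
      1 ≤ dd W (f - (m : ZMod p) * hh p b k) ∧
        dd W (f - (m : ZMod p) * hh p b k) * l ≤ m * k * l := by
    intro f hf hfx hA1 hA2
    have hz := hcz f hf m le_rfl
    have hs := hcs f hf m le_rfl
    have h0 := hc0 f hf m le_rfl (Or.inl hfx)
    have hb0 := hcb f hf m hm1 le_rfl
    have hzz := hz0 f hf
    rw [← hz] at hA1 hA2 hzz
    rw [Nat.sub_self, Nat.cast_zero] at hs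
    generalize f - (m : ZMod p) * hh p b k = y at *
    have h1 : i (z y) = 0 := hst' (z y) y hA1 hA2 h0 ⟨by rw [off_self]; omega, hb0⟩
    have h2 : box l a b z y (z y) (sc l z x + 1) := by
      refine ⟨by rw [off_self]; omega, ?_⟩
      rw [hs, hscx]
      have h3 : ((m * k * l : ℕ) : ZMod (p * l)) + 1 = 0 + 1 + ((m * k * l : ℕ) : ZMod (p * l)) := by
        ring
      rw [h3, off_nat _ (by omega)]
      omega
    obtain ⟨n, j, r1, r2, r3, r4, r5, r6⟩ := hTR' ⟨_, by rw [hih]; norm_num⟩ (z y) h1
    have hn0 : n = 0 := by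
      by_contra hn
      have h3 : i (z y + 1) = 0 := by
        have := r1 1 (by omega)
        rwa [Nat.cast_one] at this
      obtain ⟨g', hg'⟩ := q1 (z y + 1) h3
      obtain ⟨-, -, -, -, c5, -, -⟩ := hCOV p l a b k z tc hba W i u ab
      rcases c5 (z y) (sc l z x + 1) y g' h2 hg' with h4 | ⟨-, -, h4, h5⟩
      · rw [h4] at hg'
        have h5 := hg'.1
        have h6 : off (z y + 1) (z y) = p * l - 1 := by
          have h7 : z y = z y + 1 + ((p * l - 1 : ℕ) : ZMod (p * l)) := by
            rw [Nat.cast_sub (by omega), ZMod.natCast_self]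
            ring
          conv_lhs =>
            arg 2
            rw [h7]
          rw [off_nat _ (by omega)]
        omega
      · have h6 := (q2 (z y + 1) g' h3 hg').2
        have h7 : sc l z g' = sc l z y - ((k * l : ℕ) : ZMod (p * l)) := by
          unfold TL at h5
          unfold sc
          rw [h4, h5, e_sub]
          unfold hh
          rw [e_natCast]
          push_cast
          ring
        have hkl : k * l ≤ a * l := Nat.mul_le_mul_right l (by omega)
        have h8 : sc l z x = sc l z g' + ((m * k * l + k * l : ℕ) : ZMod (p * l)) := by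
          rw [h7, hs, hscx]
          push_cast
          ring
        rw [h8, off_nat _ (by omega)] at h6
        have h9 : 1 * l ≤ k * l := Nat.mul_le_mul_right l hk
        omega
    rw [hn0, Nat.cast_zero, add_zero] at r2
    have hjy : j = y := tc.hinj r2
    subst hjy
    refine ⟨r3.1, ?_⟩
    rw [heW, hzz] at r6
    have h3 : dd W j * l ≤ a * l := Nat.mul_le_mul_right l r3.2.1
    by_contra h4
    rw [hu0 _ (by omega) h3] at r6
    omega
  -- (4)
  have core : ∀ X, i X = 0 → ∃ (n : ℕ) (j : ZMod p), X = z j - (n : ZMod (p * l)) ∧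
      2 ≤ (z j + b * l).val ∧ (z j + b * l).val < δ ∧
      ((∃ q : ℕ, 1 ≤ q ∧ q ≤ max ((W.val - a) * l - 1) (m * k * l) ∧
        X = (a : ZMod (p * l)) * l - ((W.val * l : ℕ) : ZMod (p * l)) + (q : ZMod (p * l))) ∨
      (∃ v : ℕ, l ≤ v ∧ v ≤ m * k * l ∧ n < T ∧
        z j = (v : ZMod (p * l)) - ((W.val * l : ℕ) : ZMod (p * l))) ∨
      (∃ (f : ZMod p) (t : ℕ), sc l z f = sc l z x ∧ z f = z j + (t : ZMod (p * l)) ∧ t + n < b * l ∧
        (f = x → dd W x * l ≤ t))) := by
    intro X hX
    obtain ⟨n, j, r1, r2, r3, r4, r5, r6⟩ := hTR' ⟨_, by rw [hih]; norm_num⟩ X hX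
    have hizj : i (z j) = 0 := by
      rw [r2]
      exact r1 n le_rfl
    have hj0 : j ≠ 0 := by
      rintro rfl
      have h1 := r3.2.1
      unfold dd at h1
      rw [sub_zero] at h1
      omega
    have hA := hET.hL _ hizj
    have hA1 : (z j + 1 + b * l).val = (z j + b * l).val + 1 := by
      have h6 : z j + 1 + b * l = (((z j + b * l).val + 1 : ℕ) : ZMod (p * l)) := by
        rw [Nat.cast_add, ZMod.natCast_zmod_val]
        push_cast
        ring
      conv_lhs => rw [h6]
      rw [ZMod.val_natCast_of_lt (by omega)]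
    refine ⟨n, j, by rw [r2]; ring, hA.1, hA.2, ?_⟩
    obtain ⟨f, hf⟩ := q1 (z j) hizj
    obtain ⟨-, hoff⟩ := q2 (z j) f hizj hf
    have hback : ∀ n' : ℕ, n' ≤ n → i (z j - (n' : ZMod (p * l))) = 0 := by
      intro n' hn'
      have h1 := r1 (n - n') (by omega)
      have h2 : X + ((n - n' : ℕ) : ZMod (p * l)) = z j - (n' : ZMod (p * l)) := by
        rw [r2, Nat.cast_sub hn']
        ring
      rwa [h2] at h1
    obtain ⟨-, -, hq4, -⟩ := q3 (z j) f n hback hf
    have hq3 := hTb (z j) f n hback hf
    have hfc : f = j ∨ f = 0 ∨ (sc l z f = sc l z x) := by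
      by_cases hfj : f = j
      · exact Or.inl hfj
      by_cases hf0 : f = 0
      · exact Or.inr (Or.inl hf0)
      right; right
      have h1 : off (z j + 1) (z f) < b * l := by
        by_contra h2
        exact hfj (tc.hinj (L2 hf.1 h2))
      have h2 := hET.hst (z j + 1) (sc l z x) f (by omega) (by omega) r4 hE hux hf0
      have h3 : ¬ off (sc l z f + 1) (sc l z x) < a * l := fun h4 => h2 ⟨h1, h4⟩
      have h4 := hf.2
      rw [off_translate] at h4
      exact (L2 h4 h3).symm
    have caseA : ∀ q : ℕ, 1 ≤ q → q ≤ max ((W.val - a) * l - 1) (m * k * l) →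
        z j = (a : ZMod (p * l)) * l - ((W.val * l : ℕ) : ZMod (p * l)) + (q : ZMod (p * l)) →
        (∃ q : ℕ, 1 ≤ q ∧ q ≤ max ((W.val - a) * l - 1) (m * k * l) ∧
          X = (a : ZMod (p * l)) * l - ((W.val * l : ℕ) : ZMod (p * l)) +
            (q : ZMod (p * l))) := by
      intro q h1 h2 h3
      have h4 : n < q := by
        by_contra h5
        apply hi0
        have h6 := r1 (n - q) (by omega)
        have h7 : X + ((n - q : ℕ) : ZMod (p * l)) =
            (a : ZMod (p * l)) * l - ((W.val * l : ℕ) : ZMod (p * l)) := by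
          rw [Nat.cast_sub (by omega)]
          linear_combination h3 - r2
        rwa [h7] at h6
      refine ⟨q - n, by omega, by omega, ?_⟩
      rw [Nat.cast_sub (by omega)]
      linear_combination h3 - r2
    rcases hfc with rfl | rfl | hfx
    · -- `f = j`
      have s1 := off_spec' (sc l z f) (sc l z x)
      rw [hscx] at s1 hoff
      rw [off_self] at hq3
      have h0 : dd W f * l ≤ a * l := Nat.mul_le_mul_right l r3.2.1
      have h0' : l ≤ dd W f * l := by
        calc l = 1 * l := (one_mul l).symm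
          _ ≤ _ := Nat.mul_le_mul_right l r3.1
      generalize off (sc l z f) ((m * k * l : ℕ) : ZMod (p * l)) = t0 at s1 hoff
      have h1 : z f + e p l W = ((m * k * l - t0 + dd W f * l : ℕ) : ZMod (p * l)) := by
        have h2 : e p l W = e p l f + ((dd W f * l : ℕ) : ZMod (p * l)) := NBaux.eW W f
        unfold sc at s1
        rw [h2, Nat.cast_add, Nat.cast_sub hoff]
        linear_combination -s1
      have h2 : z f = ((m * k * l - t0 + dd W f * l : ℕ) : ZMod (p * l)) -
          ((W.val * l : ℕ) : ZMod (p * l)) := by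
        rw [← h1, heW]
        ring
      rw [h1] at r6
      by_cases h3 : m * k * l - t0 + dd W f * l ≤ m * k * l
      · right; left
        exact ⟨m * k * l - t0 + dd W f * l, by omega, h3, by omega, h2⟩
      · left
        have h4 : a * l < m * k * l - t0 + dd W f * l := by
          by_contra h5
          rw [hu0 _ (by omega) (by omega)] at r6
          omega
        apply caseA (m * k * l - t0 + dd W f * l - a * l) (by omega)
          (le_max_of_le_right (by omega))
        rw [Nat.cast_sub h4.le, h2]
        push_cast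
        ring
    · -- `f = 0`
      have h1 := hf.1
      have s1 := off_spec' (z j) (z 0)
      have h0 : off (z j) (z 0) ≠ 0 := fun h2 => hj0 (tc.hinj (off_eq_zero.1 h2))
      generalize off (z j) (z 0) = t at *
      rw [z0] at s1
      have h2 : z j + e p l W = ((W.val * l - t : ℕ) : ZMod (p * l)) := by
        rw [heW, Nat.cast_sub (by omega), ← s1]
        ring
      rw [h2] at r6
      have h4 : a * l < W.val * l - t := by
        by_contra h5
        rw [hu0 _ (by omega) (by omega)] at r6
        omega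
      left
      apply caseA (W.val * l - t - a * l) (by omega) (le_max_of_le_left (by omega))
      rw [Nat.cast_sub (by omega), Nat.cast_sub (by omega), ← s1]
      push_cast
      ring
    · -- `sc f = sc x`
      have h1 := hf.1
      have s1 := off_spec (z j) (z f)
      rw [hfx, off_self] at hq4
      obtain ⟨t, ht⟩ : ∃ t, t = off (z j) (z f) := ⟨_, rfl⟩
      rw [← ht] at h1 s1 hq4 hq3
      have h2 : t + n < b * l := by
        by_contra h3
        have h4 : 1 ≤ (t + n) / (b * l) := Nat.div_pos (by omega) (by omega)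
        have h5 : 1 * (1 * l) ≤ (t + n) / (b * l) * (k * l) :=
          Nat.mul_le_mul h4 (Nat.mul_le_mul_right l hk)
        omega
      right; right
      refine ⟨f, t, hfx, s1.symm, h2, ?_⟩
      rintro rfl
      by_contra h4
      have h3 : z j + e p l W = ((dd W f * l + m * k * l - t : ℕ) : ZMod (p * l)) := by
        rw [heW, ← n11, Nat.cast_sub (by omega)]
        push_cast
        push_cast at hzx
        linear_combination s1 + hzx
      rw [h3, hu0 _ (by omega) (by omega)] at r6
      omega
  -- the count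
  have hcount : ∃ (c1 : ZMod (p * l)) (Q : ℕ), Q ≤ m * k * l + T - l ∧ ∀ X, i X = 0 →
      (∃ q : ℕ, 1 ≤ q ∧ q ≤ max ((W.val - a) * l - 1) (m * k * l) ∧
        X = (a : ZMod (p * l)) * l - ((W.val * l : ℕ) : ZMod (p * l)) + (q : ZMod (p * l))) ∨
      (∃ n : ℕ, n < Q ∧ X = c1 + (n : ZMod (p * l))) := by
    by_cases hbad : ∃ f1, f1 ≠ x ∧ sc l z f1 = sc l z x ∧ off Ys (z f1) < b * l ∧
        δ + (W.val * l - b * l) ≤ p * l
    · -- one more box only
      obtain ⟨f1, hf1x, hf1s, hf1Y, hbd⟩ := hbad
      have huniq : ∀ f, sc l z f = sc l z x → off Ys (z f) < b * l → f = f1 := by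
        intro f hf hfY
        refine tc.hD f f1 Ys (sc l z x + 1) ⟨hfY, ?_⟩ ⟨hf1Y, ?_⟩
        · rw [hf, off_self]; omega
        · rw [hf1s, off_self]; omega
      have hTbl : b * l ≤ T := by omega
      refine ⟨z f1 - ((b * l - 1 : ℕ) : ZMod (p * l)), b * l, by omega, fun X hX => ?_⟩
      obtain ⟨n, j, hXj, hj1, hj2, h1 | ⟨v, h1, h2, -, h3⟩ | ⟨f, t, h1, h2, h3, h4⟩⟩ := core X hX
      · exact Or.inl h1
      · exfalso
        have h4 : (z j + b * l).val = p * l + v - (W.val * l - b * l) := by
          have h5 : z j + b * l = ((p * l + v - (W.val * l - b * l) : ℕ) : ZMod (p * l)) := by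
            rw [h3, Nat.cast_sub (by omega), Nat.cast_add, Nat.cast_sub (by omega),
              ZMod.natCast_self]
            push_cast
            ring
          rw [h5, ZMod.val_natCast_of_lt (by omega)]
        omega
      · have hK : ∀ K' : ℕ, K' ≤ m → (f ≠ x ∨ K' < m) →
            ¬ (1 ≤ (z f + ((K' * (b * l) : ℕ) : ZMod (p * l)) + b * l).val ∧
              (z f + ((K' * (b * l) : ℕ) : ZMod (p * l)) + b * l).val ≤ δ) → f = f1 :=
          fun K' hK1 hK2 hK3 => huniq f h1
            (straddle f (z j) K' t h1 hK1 hK2 h2 (by omega) (by omega) hj2 hK3).2.2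
        by_cases hfx : f = x
        · exfalso
          apply hf1x
          rw [← hfx]
          symm
          apply hK (m - 1) (by omega) (Or.inr (by omega))
          have h5 : z f + (((m - 1) * (b * l) : ℕ) : ZMod (p * l)) + b * l = 0 := by
            rw [hfx, hzx]
            have h6 : m * (b * l) = (m - 1) * (b * l) + b * l := by
              obtain ⟨m', rfl⟩ := Nat.exists_eq_add_of_le hm1
              rw [Nat.add_sub_cancel_left]
              ring
            rw [h6]
            push_cast
            ring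
          rw [h5, ZMod.val_zero]
          omega
        · right
          have h5 : f = f1 := by
            by_contra hne
            have h6 : ¬ ¬ (1 ≤ (z f + ((m * (b * l) : ℕ) : ZMod (p * l)) + b * l).val ∧
              (z f + ((m * (b * l) : ℕ) : ZMod (p * l)) + b * l).val ≤ δ) :=
              fun h => hne (hK m le_rfl (Or.inl hfx) h)
            push Not at h6
            obtain ⟨d1, d2⟩ := caseOne f h1 hfx h6.1 h6.2
            have hzz := hz0 f h1
            generalize dd W (f - (m : ZMod p) * hh p b k) = D at *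
            have hDl : 1 * l ≤ D * l := Nat.mul_le_mul_right l d1
            have h7 : (z f + ((m * (b * l) : ℕ) : ZMod (p * l)) + b * l).val =
                p * l + D * l - (W.val * l - b * l) := by
              have h8 : z f + ((m * (b * l) : ℕ) : ZMod (p * l)) + b * l =
                  ((p * l + D * l - (W.val * l - b * l) : ℕ) : ZMod (p * l)) := by
                rw [Nat.cast_sub (by omega), Nat.cast_add, Nat.cast_sub (by omega),
                  ZMod.natCast_self]
                push_cast at hzz ⊢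
                linear_combination hzz
              rw [h8, ZMod.val_natCast_of_lt (by omega)]
            omega
          refine ⟨b * l - 1 - (t + n), by omega, ?_⟩
          have e1 : ((b * l - 1 - (t + n) : ℕ) : ZMod (p * l)) =
              ((b * l - 1 : ℕ) : ZMod (p * l)) - (t : ZMod (p * l)) - (n : ZMod (p * l)) := by
            rw [Nat.cast_sub (by omega)]
            push_cast
            ring
          rw [hXj, ← h5, h2, e1]
          ring
    · refine ⟨-((W.val * l : ℕ) : ZMod (p * l)) + l - ((T : ℕ) : ZMod (p * l)) + 1,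
        m * k * l + T - l, le_rfl, fun X hX => ?_⟩
      obtain ⟨n, j, hXj, hj1, hj2, hc⟩ := core X hX
      have caseB : ∀ v : ℤ, z j = (v : ZMod (p * l)) - ((W.val * l : ℕ) : ZMod (p * l)) →
          v ≤ (m * k * l : ℕ) → (l : ℤ) - (T : ℕ) + 1 ≤ v - n →
          (∃ n : ℕ, n < m * k * l + T - l ∧
            X = (-((W.val * l : ℕ) : ZMod (p * l)) + l - ((T : ℕ) : ZMod (p * l)) + 1) +
              (n : ZMod (p * l))) := by
        intro v h1 h2 h3
        refine ⟨(v - n - ((l : ℤ) - (T : ℕ) + 1)).toNat, by omega, ?_⟩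
        have h4 : ((((v - n - ((l : ℤ) - (T : ℕ) + 1)).toNat : ℕ) : ℤ) :
            ZMod (p * l)) = ((v - n - ((l : ℤ) - (T : ℕ) + 1) : ℤ) : ZMod (p * l)) := by
          rw [Int.toNat_of_nonneg (by omega)]
        rw [Int.cast_natCast] at h4
        rw [h4]
        push_cast at h1 ⊢
        linear_combination h1 + hXj
      rcases hc with h1 | ⟨v, h1, h2, h3, h4⟩ | ⟨f, t, h1, h2, h3, h4⟩
      · exact Or.inl h1
      · right
        apply caseB (v : ℤ)
        · rw [h4, Int.cast_natCast]
        · exact_mod_cast h2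
        · omega
      · right
        by_cases hfx : f = x
        · have h5 := h4 hfx
          apply caseB (((dd W x * l + m * k * l : ℕ) : ℤ) - (t : ℤ))
          · rw [← n11]
            have h6 : z j = z f - (t : ZMod (p * l)) := by rw [h2]; ring
            rw [h6, hfx, hzx]
            push_cast
            ring
          · omega
          · omega
        · -- a new box
          have hTT : T = m * (b * l) + b * l := by
            rcases hT with ⟨-, h5⟩ | ⟨h5, -⟩
            · exact absurd (h5 h1) hfx
            · exact h5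
          have hzz := hz0 f h1
          have hD : 1 ≤ dd W (f - (m : ZMod p) * hh p b k) ∧
              dd W (f - (m : ZMod p) * hh p b k) * l ≤ m * k * l + m * (b * l) + t := by
            by_cases hA : 1 ≤ (z f + ((m * (b * l) : ℕ) : ZMod (p * l)) + b * l).val ∧
              (z f + ((m * (b * l) : ℕ) : ZMod (p * l)) + b * l).val ≤ δ
            · obtain ⟨d1, d2⟩ := caseOne f h1 hfx hA.1 hA.2
              exact ⟨d1, by omega⟩
            · obtain ⟨s1, s2, s3⟩ := straddle f (z j) m t h1 le_rfl (Or.inl hfx) h2 (by omega)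
                (by omega) hj2 hA
              have s4 : ¬ (δ + (W.val * l - b * l) ≤ p * l) := fun h => hbad ⟨f, hfx, h1, s3, h⟩
              set α := (z j + b * l).val with hα
              have hYα : z j + b * l = ((α : ℕ) : ZMod (p * l)) := by
                rw [hα, ZMod.natCast_zmod_val]
              have hDp : dd W (f - (m : ZMod p) * hh p b k) < p := ZMod.val_lt _
              generalize dd W (f - (m : ZMod p) * hh p b k) = D at *
              have hDl : D * l < p * l := Nat.mul_lt_mul_of_pos_right hDp (by omega)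
              have h5 : ((D * l : ℕ) : ZMod (p * l)) =
                  ((α + t + m * (b * l) + (W.val * l - b * l) - p * l : ℕ) : ZMod (p * l)) := by
                rw [← hzz, h2, Nat.cast_sub (m := p * l) (by omega), ZMod.natCast_self, sub_zero,
                  Nat.cast_add _ (W.val * l - b * l), Nat.cast_sub (by omega)]
                push_cast at hYα ⊢
                linear_combination hYα
              rw [ZMod.natCast_eq_natCast_iff] at h5
              have h6 := Nat.ModEq.eq_of_lt_of_lt h5 hDl (by omega)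
              refine ⟨?_, by omega⟩
              by_contra h7
              have h8 : D = 0 := by omega
              rw [h8, zero_mul] at h6
              omega
          obtain ⟨d1, d2⟩ := hD
          generalize dd W (f - (m : ZMod p) * hh p b k) = D at *
          have hDl : 1 * l ≤ D * l := Nat.mul_le_mul_right l d1
          apply caseB (((D * l : ℕ) : ℤ) - ((m * (b * l) : ℕ) : ℤ) - (t : ℤ))
          · push_cast at hzz ⊢
            linear_combination hzz - h2
          · omega
          · omega
  obtain ⟨c1', Q, hQ, hcov⟩ := hcount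
  -- (10)
  have hcard : ∀ s : Finset (ZMod (p * l)), (∀ X ∈ s, i X = 0) →
      s.card ≤ max ((W.val - a) * l - 1) (m * k * l) + (m * k * l + T - l) := by
    intro s hs
    have h1 := card_le s _ _ _ _ (fun X hX => hcov X (hs X hX))
    omega
  have h1 := hTG'.trans (hcard _ (fun X hX => (Finset.mem_filter.1 hX).2))
  have hmb : m * b * l = m * (b * l) := by ring
  rcases hT with ⟨h2, -⟩ | ⟨h2, h3, h4⟩
  · have h5 := arith hl hb hk hm1 (w' := (W.val - a) * l) (K := m * k * l)
      (Nat.mul_le_mul_right l (by omega)) rfl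
    omega
  · have h5 := arith2 (l := l) hb h3 hm1 h4 (w' := (W.val - a) * l) (K := m * k * l)
      (Nat.mul_le_mul_right l (by omega)) rfl
    omega

end Helper11.LV
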