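import Pool.Agent.Helper11.LV.StC
import Pool.Agent.Helper11.N1.All

/-!
# Project LV, module QC: chains of Q-boxes
-/

set_option autoImplicit false
set_option linter.unusedSectionVars false

namespace Helper11.LV

open Helper11.N1

namespace QCaux

theorem offe {M : ℕ} [NeZero M] {x y : ZMod M} {n : ℕ} (hn : n < M) (h : y = x + (n : ZMod M)) :
    off x y = n := by
  rw [h, off_nat x hn]

end QCaux

open QCaux in
theorem qc : StTA → StNB → StCOV → StQC := by
  intro hTA hNB hCOV p l a b k _ _ z hT hbka W i u hAB hu1 j hQ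
  obtain ⟨X, hX, hi⟩ := hQ
  have hP := hT.hP
  have hl2 := hT.hl2
  have hb2 := hP.hb
  have hab := hP.hab
  have hbl0 : 0 < b * l := Nat.mul_pos (by omega) (by omega)
  have hblp : b * l < p * l := Nat.mul_lt_mul_of_pos_right (by omega) (by omega)
  haveI : NeZero (p * l) := ⟨by
    have : 0 < p * l := by omega
    omega⟩
  obtain ⟨-, -, hTA3, -, -, -⟩ := hTA p l a b k z hT hbka W i u hAB hu1
  obtain ⟨hd1, hd2, hcols, -⟩ := hTA3 X j hX hi
  obtain ⟨hC1, -, -, -, hC5, -, -⟩ := hCOV p l a b k z hT hbka W i u hAB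
  obtain ⟨-, -, -, -, hN5, -, hN7, -⟩ :=
    hNB p l a b k z hT hbka W i (fun S => u S - 2) hAB.ld j X hX
  obtain ⟨-, -, hTA3', -, -, -⟩ := hTA p l a b k z hT hbka W i u hAB hu1
  have hc : ((b * l : ℕ) : ZMod (p * l)) = (b : ZMod (p * l)) * (l : ZMod (p * l)) := by
    push_cast; ring
  have hc1 : ((b * l - 1 : ℕ) : ZMod (p * l)) = (b : ZMod (p * l)) * (l : ZMod (p * l)) - 1 := by
    rw [Nat.cast_sub (by omega), hc, Nat.cast_one]
  constructor
  · intro hR
    have hd3 := ((hTA3' X j hX hi).2.2.2 hR).2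
    obtain ⟨hTL, -, hdd, hi1, hbx, -⟩ := hN7 hd2 hR
    obtain ⟨hbox, -⟩ := hbx hd3
    refine ⟨⟨z j + 1, hbox, by rw [hi1]; exact hi⟩, hTL, hdd, ?_⟩
    intro S hS hrow
    have hij : i (z j) = 0 := (hcols (z j) (by rw [off_self]; exact hbl0)).2
    obtain ⟨g, hg⟩ := hC1 (z j) S hij hS
    have hbox2 : box l a b z (j - hh p b k) (z j + 1) S := ⟨hbox.1, hrow⟩
    rcases hC5 (z j) S g (j - hh p b k) hg hbox2 with h1 | ⟨h1, -, -, -⟩
    · exfalso
      have h2 := hg.1
      rw [← h1] at h2
      have h3 : off (z j) (z (j - hh p b k)) = b * l := by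
        refine offe hblp ?_
        rw [hc]; exact hTL
      omega
    · have h2 := hT.hinj h1
      rw [h2] at hg
      exact hg.2
  · intro hL
    obtain ⟨hTL, hd3, hdd, hz, hbox, hi1, -⟩ := hN5 hd1 hL
    refine ⟨⟨z j - b * l, hbox, by rw [hi1]; exact hi⟩, hTL, by omega, ?_⟩
    intro S hS hrow
    have hij : i (z j - b * l + 1) = 0 := by
      refine (hcols _ ?_).2
      have h3 : off (z j - (b : ZMod (p * l)) * (l : ZMod (p * l)) + 1) (z j) = b * l - 1 := by
        refine offe (by omega) ?_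
        rw [hc1]; ring
      rw [h3]; omega
    obtain ⟨g, hg⟩ := hC1 _ S hij hS
    have hbox2 : box l a b z (j + hh p b k) (z j - b * l) S := ⟨hbox.1, hrow⟩
    rcases hC5 _ S (j + hh p b k) g hbox2 hg with h1 | ⟨-, h1, -, -⟩
    · exfalso
      have h2 := hg.1
      rw [h1, hz] at h2
      have h3 : off (z j - (b : ZMod (p * l)) * (l : ZMod (p * l)) + 1)
          (z j - (b : ZMod (p * l)) * (l : ZMod (p * l))) = p * l - 1 := by
        refine offe (by omega) ?_
        rw [Nat.cast_sub (by omega), ZMod.natCast_self, Nat.cast_one]; ring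
      rw [h3] at h2
      have h4 : b * l + 2 ≤ p * l := by
        have h5 : (b + 1) * l ≤ p * l := Nat.mul_le_mul_right l (by omega)
        have h6 : (b + 1) * l = b * l + l := by ring
        omega
      omega
    · have h2 := hT.hinj (sub_left_injective h1)
      rw [h2] at hg
      exact hg.2

end Helper11.LV
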