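import Pool.Agent.Helper11.LV.StC
import Pool.Agent.Helper11.N1.All

set_option autoImplicit false
set_option linter.unusedSectionVars false

/-!
Project LV, module QD: a count of the rows with `u = 0` and of the columns with `i = 0`.
-/

namespace Helper11.LV.QDaux

open Helper11.N1

section

variable {M : ℕ} [NeZero M]

/-- two points within distance less than `c` above a common point -/
theorem near {Y v w : ZMod M} {c : ℕ} (h1 : off Y v < c) (h2 : off Y w < c) :
    off v w < c ∨ off w v < c := by
  have h3 := off_spec Y v
  have h4 := off_spec Y w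
  have h5 := off_lt Y v
  have h6 := off_lt Y w
  rcases le_total (off Y v) (off Y w) with h7 | h7
  · left
    have h8 : w = v + ((off Y w - off Y v : ℕ) : ZMod M) := by
      rw [Nat.cast_sub h7]
      linear_combination h3 - h4
    have h9 := off_nat v (n := off Y w - off Y v) (by omega)
    rw [← h8] at h9
    omega
  · right
    have h8 : v = w + ((off Y v - off Y w : ℕ) : ZMod M) := by
      rw [Nat.cast_sub h7]
      linear_combination h4 - h3
    have h9 := off_nat w (n := off Y v - off Y w) (by omega)
    rw [← h8] at h9
    omega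

open Classical in
/-- the number of points at distance less than `c` on either side -/
theorem card_near (S1 : ZMod M) (c : ℕ) (hc : 1 ≤ c) :
    (Finset.univ.filter fun S : ZMod M => off S S1 < c ∨ off S1 S < c).card ≤ 2 * c - 1 := by
  have hsub : (Finset.univ.filter fun S : ZMod M => off S S1 < c ∨ off S1 S < c) ⊆
      (Finset.range (2 * c - 1)).image
        (fun n : ℕ => S1 + (n : ZMod M) - ((c - 1 : ℕ) : ZMod M)) := by
    intro S hS
    rw [Finset.mem_filter] at hS
    rw [Finset.mem_image]
    rcases hS.2 with h | h
    · refine ⟨c - 1 - off S S1, ?_, ?_⟩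
      · rw [Finset.mem_range]
        omega
      · rw [Nat.cast_sub (by omega)]
        have h1 := off_spec S S1
        linear_combination -h1
    · refine ⟨c - 1 + off S1 S, ?_, ?_⟩
      · rw [Finset.mem_range]
        omega
      · rw [Nat.cast_add]
        have h1 := off_spec S1 S
        linear_combination h1
  calc _ ≤ ((Finset.range (2 * c - 1)).image
        (fun n : ℕ => S1 + (n : ZMod M) - ((c - 1 : ℕ) : ZMod M))).card := Finset.card_le_card hsub
    _ ≤ (Finset.range (2 * c - 1)).card := Finset.card_image_le
    _ = 2 * c - 1 := Finset.card_range _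

end

end Helper11.LV.QDaux

namespace Helper11.LV

open Helper11.N1

open Classical QDaux in
theorem qd : StTA → StCN → StCOV → StQD := by
  intro _ hCN hCOV p l a b k _ _ z hT hba W i u hAB hu S1 j1 hS1 hrow hcol
  obtain ⟨-, -, c3, c4, -, -, -⟩ := hCOV p l a b k z hT hba W i u hAB
  have h1 := (hCN p l a b k z hT W i u hAB).1 hu
  obtain ⟨hl, h2a, h2b, hM⟩ := NBaux.prods hT.hP
  have hb2 := hT.hP.hb
  -- the rows with `u = 0`
  have hA : (Finset.univ.filter fun S : ZMod (p * l) => u S = 0) ⊆
      (Finset.univ.filter fun S : ZMod (p * l) => off S S1 < a * l ∨ off S1 S < a * l) := by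
    intro S hS
    rw [Finset.mem_filter] at hS ⊢
    exact ⟨hS.1, near (hrow S hS.2) (hrow S1 hS1)⟩
  -- the columns with `i = 0`
  have hbox : ∀ X : ZMod (p * l), i X = 0 → ∃ j, box l a b z j X (X + e p l W) := by
    intro X hX
    by_contra h2
    push Not at h2
    have h3 := c4 X h2
    have h4 := hu (X + e p l W)
    omega
  have hB : ((Finset.univ.filter fun X : ZMod (p * l) => i X = 0).image
      (fun X => X + e p l W)) ⊆
      (Finset.univ.filter fun S : ZMod (p * l) => off S S1 < a * l ∨ off S1 S < a * l) := by
    intro S hS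
    rw [Finset.mem_image] at hS
    obtain ⟨X, hX, rfl⟩ := hS
    rw [Finset.mem_filter] at hX
    obtain ⟨j, hj⟩ := hbox X hX.2
    rw [Finset.mem_filter]
    exact ⟨Finset.mem_univ _, near hj.2 (hcol j X hj hX.2)⟩
  have hdis : Disjoint (Finset.univ.filter fun S : ZMod (p * l) => u S = 0)
      ((Finset.univ.filter fun X : ZMod (p * l) => i X = 0).image (fun X => X + e p l W)) := by
    rw [Finset.disjoint_left]
    intro S hS hS2
    rw [Finset.mem_image] at hS2
    obtain ⟨X, hX, rfl⟩ := hS2
    rw [Finset.mem_filter] at hX hS
    obtain ⟨j, hj⟩ := hbox X hX.2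
    rcases c3 X j hj with h2 | h2
    · rw [h2.2] at hS
      exact absurd hS.2 (by norm_num)
    · have h3 := hX.2
      rw [h2.1] at h3
      exact absurd h3 (by norm_num)
  have hcard : ((Finset.univ.filter fun X : ZMod (p * l) => i X = 0).image
      (fun X => X + e p l W)).card = (Finset.univ.filter fun X : ZMod (p * l) => i X = 0).card :=
    Finset.card_image_of_injective _ (add_left_injective _)
  have h5 := Finset.card_union_of_disjoint hdis
  have h6 := Finset.card_le_card (Finset.union_subset hA hB)
  have h7 := card_near S1 (a * l) (by omega)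
  have h8 : 2 * (a * l) ≤ a * b * l := by
    calc 2 * (a * l) = a * 2 * l := by ring
      _ ≤ a * b * l := Nat.mul_le_mul_right l (Nat.mul_le_mul_left a hb2)
  rw [hcard] at h5
  omega

end Helper11.LV
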