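import Pool.Agent.Helper11.LV.StC
import Pool.Agent.Helper11.N1.All

set_option autoImplicit false
set_option linter.unusedSectionVars false

/-!
Project LV, module QL: a foreign box over the first column of a `Q`-box.
-/

namespace Helper11.LV

open Helper11.N1

namespace QLaux

theorem succ_left {M : ℕ} [NeZero M] {x v : ZMod M} (h : x ≠ v) :
    off x v = off (x + 1) v + 1 := by
  have h0 : off x v ≠ 0 := fun h1 => h (off_eq_zero.1 h1)
  have h2 := off_spec x v
  have h3 := off_lt x v
  have h4 : v = x + 1 + ((off x v - 1 : ℕ) : ZMod M) := by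
    rw [Nat.cast_sub (by omega), Nat.cast_one]
    linear_combination -h2
  have h5 : off (x + 1) v = off x v - 1 := by
    have h6 := off_nat (x + 1) (n := off x v - 1) (by omega)
    rwa [← h4] at h6
  omega

theorem off_succ_self {M : ℕ} [NeZero M] (hM : 1 < M) (v : ZMod M) : off (v + 1) v = M - 1 := by
  have h1 : off v (v + 1) = 1 := by
    have h2 := off_nat v (n := 1) hM
    rwa [Nat.cast_one] at h2
  have h3 : v ≠ v + 1 := by
    intro h4
    rw [← h4, off_self] at h1
    omega
  have h5 := off_symm h3
  omega

theorem sc_tie {p l b k : ℕ} [NeZero p] {z : ZMod p → ZMod (p * l)} {g : ZMod p}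
    (hT : TL l b k z g) : sc l z g = sc l z (g - hh p b k) + ((k * l : ℕ) : ZMod (p * l)) := by
  unfold TL at hT
  unfold sc
  rw [hT, e_sub]
  unfold hh
  rw [e_natCast]
  push_cast
  ring

end QLaux

open QLaux in
theorem ql : StTA → StCOV → StWLK → StQL := by
  intro hTA hCOV hWLK p l a b k _ _ z h hka W i u hab hu X S j f hjX hiX huS hf hne
  have hl0 : 0 < l := by have := h.hl2; omega
  have hP := h.hP
  have ha := hP.ha
  have hb := hP.hb
  have habp := hP.hab
  have hk := h.hk
  have hk2 := h.hk2
  have ha2 := h.ha2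
  have hbl0 : 0 < b * l := Nat.mul_pos (by omega) hl0
  have hbl : b * l + l ≤ p * l := by
    have h1 : (b + 1) * l ≤ p * l := Nat.mul_le_mul_right l (by omega)
    calc b * l + l = (b + 1) * l := by ring
      _ ≤ p * l := h1
  have hl2 := h.hl2
  have hkl : (a + k) * l < p * l := Nat.mul_lt_mul_of_pos_right (by omega) hl0
  have hkl' : a * l + k * l < p * l := by rw [← Nat.add_mul]; exact hkl
  have hkl0 : 0 < k * l := Nat.mul_pos (by omega) hl0
  have hM1 : 1 < p * l := by omega
  obtain ⟨-, -, hTA3, -⟩ := hTA p l a b k z h hka W i u hab hu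
  obtain ⟨-, -, hQ, -⟩ := hTA3 X j hjX hiX
  obtain ⟨c1, -, -, -, c5, c6, -⟩ := hCOV p l a b k z h hka W i u hab
  obtain ⟨hf1, hf2⟩ := hf
  set XL : ZMod (p * l) := z j - b * l with hXL
  have hoff : off XL (z j) = b * l := by
    have h3 := off_nat' (z j) (n := b * l) (by omega)
    push_cast at h3
    exact h3
  have hXLf : XL ≠ z f := by
    intro h1
    rw [← h1, off_succ_self hM1] at hf1
    omega
  have hs := succ_left hXLf
  have hs0 : off XL (z f) < b * l := by
    by_contra h1
    have h2 : off XL (z f) = b * l := by omega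
    exact hne (h.hinj (off_inj_left (h2.trans hoff.symm)))
  refine ⟨⟨hs0, hf2⟩, ?_⟩
  have hXLj : XL ≠ z j := by
    intro h1
    rw [h1, off_self] at hoff
    omega
  have hsj := succ_left hXLj
  have hiL : i (XL + 1) = 0 := (hQ (XL + 1) (by omega)).2
  rcases (hWLK p l a b k z h hka W i u hab (XL + 1) S f hiL huS ⟨hf1, hf2⟩).1 with
    ⟨n, hn1, hn2, hn3, hn4⟩ | ⟨hall, -⟩
  · refine ⟨n, hn1, hn2, hn3, ?_⟩
    have h1 := hu (S + (n : ZMod (p * l)))
    have h2 := hab.u0 (S + (n : ZMod (p * l)))
    omega
  · exfalso
    have ho : off XL (z f) + off (z f) (z j) = b * l := by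
      have h1 := off_lt (z f) (z j)
      rcases off_add XL (z f) (z j) with h2 | h2
      · omega
      · exfalso
        omega
    have hfj : z f ≠ z j := fun h1 => hne (h.hinj h1)
    have hsf := succ_left hfj
    have hi1 : i (z f + 1) = 0 := (hQ (z f + 1) (by omega)).2
    obtain ⟨g, hg⟩ := c1 (z f + 1) S hi1 huS
    have hff : box l a b z f (z f) S := ⟨by rw [off_self]; exact hbl0, hf2⟩
    rcases c5 (z f) S f g hff hg with h1 | ⟨h1, h2, h3, h4⟩
    · rw [h1] at hg
      have h2 := hg.1
      rw [off_succ_self hM1] at h2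
      omega
    · have hsc := sc_tie h4
      rw [← h3] at hsc
      -- going up
      have hup : ∀ n : ℕ, off (sc l z f + 1) S + n < a * l →
          box l a b z g (z f + 1) (S + (n : ZMod (p * l))) := by
        intro n
        induction n with
        | zero => intro _; simpa using hg
        | succ n ih =>
          intro hn
          have h5 : S + ((n + 1 : ℕ) : ZMod (p * l)) = S + (n : ZMod (p * l)) + 1 := by
            push_cast
            ring
          have h6 := hall (n + 1) hn
          rw [h5] at h6 ⊢
          exact c6 (z f + 1) _ g hi1 h6 (ih (by omega))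
      have h5 := hup (a * l - 1 - off (sc l z f + 1) S) (by omega)
      have h6 : S + ((a * l - 1 - off (sc l z f + 1) S : ℕ) : ZMod (p * l)) =
          sc l z g + 1 + ((a * l + k * l - 1 : ℕ) : ZMod (p * l)) := by
        have h7 := off_spec (sc l z f + 1) S
        rw [Nat.cast_sub (by omega), Nat.cast_sub (by omega), Nat.cast_sub (by omega)]
        rw [hsc] at h7
        rw [hsc]
        push_cast at h7 ⊢
        linear_combination -h7
      rw [h6] at h5
      have h7 := h5.2
      rw [off_nat _ (by omega)] at h7
      omega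

end Helper11.LV
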