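import Pool.Agent.Helper11.LV.StC
import Pool.Agent.Helper11.N1.All

set_option autoImplicit false
set_option linter.unusedSectionVars false

/-!
Project LV, module QR: a foreign box over the last column of a `Q`-box.
-/

namespace Helper11.LV

open Helper11.N1

namespace QRaux

theorem succ_left {M : ℕ} [NeZero M] {x v : ZMod M} (h : x ≠ v) :
    off x v = off (x + 1) v + 1 := by
  have h0 : off x v ≠ 0 := fun h1 => h (off_eq_zero.1 h1)
  have h2 := off_spec x v
  have h3 := off_lt x v
  have h4 : v = x + 1 + ((off x v - 1 : ℕ) : ZMod M) := by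
    rw [Nat.cast_sub (by omega), Nat.cast_one]
    linear_combination -h2
  have h5 : off (x + 1) v = off x v - 1 := by
    have h6 := off_nat (x + 1) (n := off x v - 1) (by omega)
    rwa [← h4] at h6
  omega

theorem sc_tie {p l b k : ℕ} [NeZero p] {z : ZMod p → ZMod (p * l)} {g : ZMod p}
    (hT : TL l b k z g) : sc l z g = sc l z (g - hh p b k) + ((k * l : ℕ) : ZMod (p * l)) := by
  unfold TL at hT
  unfold sc
  rw [hT, e_sub]
  unfold hh
  rw [e_natCast]
  push_cast
  ring

end QRaux

open QRaux in
theorem qr : StTA → StCOV → StWLK → StQR := by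
  intro hTA hCOV hWLK p l a b k _ _ z h hka W i u hab hu X S j f hjX hiX huS hf hne
  have hl0 : 0 < l := by have := h.hl2; omega
  have hP := h.hP
  have ha := hP.ha
  have hb := hP.hb
  have habp := hP.hab
  have hk := h.hk
  have hk2 := h.hk2
  have ha2 := h.ha2
  have hbl0 : 0 < b * l := Nat.mul_pos (by omega) hl0
  have hbl : b * l < p * l := Nat.mul_lt_mul_of_pos_right (by omega) hl0
  have hkl : (a + k) * l < p * l := Nat.mul_lt_mul_of_pos_right (by omega) hl0
  have hkl' : a * l + k * l < p * l := by rw [← Nat.add_mul]; exact hkl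
  have hkl0 : 0 < k * l := Nat.mul_pos (by omega) hl0
  obtain ⟨-, -, hTA3, -⟩ := hTA p l a b k z h hka W i u hab hu
  obtain ⟨-, -, hQ, -⟩ := hTA3 X j hjX hiX
  obtain ⟨c1, -, -, -, c5, -, c7⟩ := hCOV p l a b k z h hka W i u hab
  have hzne : z j ≠ z f := fun h1 => hne (h.hinj h1).symm
  obtain ⟨hf1, hf2⟩ := hf
  have hs := succ_left hzne
  refine ⟨⟨by omega, hf2⟩, ?_⟩
  have hij : i (z j) = 0 := (hQ (z j) (by rw [off_self]; exact hbl0)).2
  rcases (hWLK p l a b k z h hka W i u hab (z j) S f hij huS ⟨hf1, hf2⟩).2 with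
    ⟨n, hn1, hn2, hn3, hn4⟩ | ⟨hall, -⟩
  · refine ⟨n, hn1, hn2, hn3, ?_⟩
    have h1 := hu (S - (n : ZMod (p * l)))
    have h2 := hab.u0 (S - (n : ZMod (p * l)))
    omega
  · exfalso
    set X1 : ZMod (p * l) := z f - b * l with hX1
    have hoff : off X1 (z f) = b * l := by
      have h3 := off_nat' (z f) hbl
      push_cast at h3
      exact h3
    have ho : off X1 (z j) + off (z j) (z f) = b * l := by
      have h1 := off_lt X1 (z j)
      rcases off_add X1 (z j) (z f) with h2 | h2
      · omega
      · exfalso
        omega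
    have hiX1 : i X1 = 0 := (hQ X1 (by omega)).2
    obtain ⟨g, hg⟩ := c1 X1 S hiX1 huS
    have hX1f : X1 ≠ z f := by
      intro h1
      rw [h1, off_self] at hoff
      omega
    have hs1 := succ_left hX1f
    have hfX : box l a b z f (X1 + 1) S := ⟨by omega, hf2⟩
    rcases c5 X1 S g f hg hfX with h1 | ⟨h1, h2, h3, h4⟩
    · rw [← h1] at hg
      have := hg.1
      omega
    · have hsc := sc_tie h4
      rw [← h3] at hsc
      -- going down
      have hdown : ∀ n : ℕ, n ≤ off (sc l z f + 1) S →
          box l a b z g X1 (S - (n : ZMod (p * l))) := by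
        intro n
        induction n with
        | zero => intro _; simpa using hg
        | succ n ih =>
          intro hn
          refine c7 X1 _ g hiX1 (hall (n + 1) hn) ?_
          have h5 : S - ((n + 1 : ℕ) : ZMod (p * l)) + 1 = S - (n : ZMod (p * l)) := by
            push_cast
            ring
          rw [h5]
          exact ih (by omega)
      have h5 := hdown _ le_rfl
      rw [off_spec'] at h5
      have h6 := h5.2
      rw [hsc] at h6
      have h7 : sc l z f + ((k * l : ℕ) : ZMod (p * l)) + 1 =
          (sc l z f + 1) + ((k * l : ℕ) : ZMod (p * l)) := by ring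
      rw [h7] at h6
      have h8 : off (sc l z f + 1) (sc l z f + 1 + ((k * l : ℕ) : ZMod (p * l))) = k * l :=
        off_nat _ (by omega)
      have h9 : (sc l z f + 1) ≠ (sc l z f + 1 + ((k * l : ℕ) : ZMod (p * l))) := by
        intro h10
        rw [← h10, off_self] at h8
        omega
      have h10 := off_symm h9
      omega

end Helper11.LV
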