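import Pool.Agent.Helper11.LV.StB
import Pool.Agent.Helper11.N1.All

set_option autoImplicit false

/-!
Project LV, module TA: levels with `u ≤ 1`.
-/

namespace Helper11.LV

open Helper11.N1

namespace TAaux

/-- a column with `i = 2` does not meet any box -/
theorem four {p l a b k : ℕ} [NeZero p] [NeZero l] {z : ZMod p → ZMod (p * l)}
    (hT : TC p l a b k z) (hba : b + k ≤ a) {W : ZMod p} {i u : ZMod (p * l) → ℤ}
    (hA : AB l a b z W i u) (hCOV : StCOV) (hu : ∀ S, u S ≤ 1)
    (t3 : ∀ X f, box l a b z f X (X + e p l W) → i X = 0 → ∀ X', off X' (z f) < b * l → i X' = 0)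
    (X : ZMod (p * l)) (f : ZMod p) (hX : i X = 2) : ¬ off X (z f) < b * l := by
  intro h
  obtain ⟨c1, c2, c3, c4, c5, c6, -⟩ := hCOV p l a b k z hT hba W i u hA
  obtain ⟨hq, haq, hbq, hM⟩ := NBaux.prods hT.hP
  have hM2 : 2 * (a * l) < p * l := by
    have h1 : (2 * a) * l < p * l := Nat.mul_lt_mul_of_pos_right hT.ha2 hq
    calc 2 * (a * l) = (2 * a) * l := by ring
      _ < p * l := h1
  have hal : 1 ≤ a * l := by omega
  have hbl : b * l < a * l := Nat.mul_lt_mul_of_pos_right (by have := hT.hk; omega) hq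
  -- all rows of `f` have `u = 0`
  have hz : ∀ n : ℕ, n < a * l → u (sc l z f + 1 + n) = 0 := by
    intro n hn
    have h1 : box l a b z f X (sc l z f + 1 + n) := by
      refine ⟨h, ?_⟩
      rw [off_nat _ (by omega)]
      exact hn
    by_contra h2
    have h3 := hA.u0 (sc l z f + 1 + n)
    have h4 : 3 ≤ i X + u (sc l z f + 1 + n) := by omega
    exact c2 _ _ h4 f h1
  have hz0 : u (sc l z f + 1) = 0 := by
    have h1 := hz 0 (by omega)
    rwa [Nat.cast_zero, add_zero] at h1
  -- a box over a column with `i = 0` has the same rows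
  have key : ∀ X1, i X1 = 0 → ∃ g, box l a b z g X1 (sc l z f + 1) ∧ sc l z g = sc l z f := by
    intro X1 hX1
    obtain ⟨g, hg⟩ := c1 X1 (sc l z f + 1) hX1 hz0
    have hbox : ∀ n : ℕ, n < a * l → box l a b z g X1 (sc l z f + 1 + n) := by
      intro n
      induction n with
      | zero =>
        intro _
        rw [Nat.cast_zero, add_zero]
        exact hg
      | succ n ih =>
        intro hn
        have h1 := ih (by omega)
        have h2 := hz (n + 1) hn
        rw [Nat.cast_add, Nat.cast_one, ← add_assoc] at h2 ⊢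
        exact c6 _ _ g hX1 h2 h1
    refine ⟨g, hg, ?_⟩
    have h1 := (hbox (a * l - 1) (by omega)).2
    have h2 := off_add (sc l z g + 1) (sc l z f + 1) (sc l z f + 1 + ((a * l - 1 : ℕ) : ZMod (p * l)))
    have h3 := hg.2
    rw [off_nat _ (show a * l - 1 < p * l by omega)] at h2
    have h4 := off_lt (sc l z g + 1) (sc l z f + 1 + ((a * l - 1 : ℕ) : ZMod (p * l)))
    have h5 : off (sc l z g + 1) (sc l z f + 1) = 0 := by
      rcases h2 with h2 | h2 <;> omega
    rw [off_eq_zero] at h5
    exact add_right_cancel h5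
  -- the box on the line
  obtain ⟨X0, hX0⟩ := hA.ei
  obtain ⟨j, hj⟩ : ∃ j, box l a b z j X0 (X0 + e p l W) := by
    by_contra hcon
    push Not at hcon
    have h1 := c4 X0 hcon
    have h2 := hu (X0 + e p l W)
    omega
  have hu1 : u (X0 + e p l W) = 1 := by
    rcases c3 X0 j hj with h1 | h1
    · exact h1.2
    · omega
  have hcol : ∀ t : ℕ, t < b * l → i (z j - (t : ZMod (p * l))) = 0 := by
    intro t ht
    apply t3 X0 j hj hX0
    rw [off_nat' _ (by omega)]
    exact ht
  obtain ⟨g, hg, hgs⟩ := key (z j) (by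
    have h1 := hcol 0 (by omega)
    rwa [Nat.cast_zero, sub_zero] at h1)
  have hall : ∀ t : ℕ, t < b * l → box l a b z g (z j - (t : ZMod (p * l))) (sc l z f + 1) := by
    intro t
    induction t with
    | zero =>
      intro _
      rw [Nat.cast_zero, sub_zero]
      exact hg
    | succ t ih =>
      intro ht
      have h1 := ih (by omega)
      obtain ⟨g', hg', hgs'⟩ := key _ (hcol (t + 1) ht)
      have e1 : z j - ((t + 1 : ℕ) : ZMod (p * l)) + 1 = z j - (t : ZMod (p * l)) := by
        push_cast; ring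
      rcases c5 (z j - ((t + 1 : ℕ) : ZMod (p * l))) (sc l z f + 1) g' g hg' (by rwa [e1]) with
        h2 | ⟨-, -, h2, h3⟩
      · rw [h2]
        exact hg'
      · exfalso
        have h4 : sc l z g = sc l z g' - ((k * l : ℕ) : ZMod (p * l)) := by
          unfold TL at h3
          unfold sc
          rw [h2, h3, e_sub]
          unfold hh
          rw [e_natCast]
          push_cast
          ring
        rw [hgs, hgs'] at h4
        have h5 : ((k * l : ℕ) : ZMod (p * l)) = 0 := by linear_combination h4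
        rw [ZMod.natCast_eq_zero_iff] at h5
        have h6 := Nat.le_of_dvd (Nat.mul_pos hT.hk hq) h5
        have h7 : k * l < p * l := Nat.mul_lt_mul_of_pos_right (by
          have := hT.hk2
          have := hT.ha2
          omega) hq
        omega
  have hz1 := (hall 0 (by omega)).1
  have hz2 := (hall (b * l - 1) (by omega)).1
  rw [Nat.cast_zero, sub_zero] at hz1
  have h6 := off_add (z j - ((b * l - 1 : ℕ) : ZMod (p * l))) (z j) (z g)
  rw [off_nat' _ (show b * l - 1 < p * l by omega)] at h6
  have h7 : off (z j) (z g) = 0 := by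
    rcases h6 with h6 | h6 <;> omega
  have hjg : j = g := hT.hinj (off_eq_zero.1 h7)
  obtain ⟨h8, h9⟩ := hj
  have h10 := off_spec (sc l z j + 1) (X0 + e p l W)
  have h11 := hz (off (sc l z j + 1) (X0 + e p l W)) h9
  rw [← hgs, ← hjg, h10] at h11
  omega

end TAaux

/-- TA: levels with `u ≤ 1` -/
theorem ta : StCOV → StNB → StTA := by
  intro hCOV hNB p l a b k _ _ z hT hba W i u hA hu
  obtain ⟨c1, c2, c3, c4, c5, c6, c7⟩ := hCOV p l a b k z hT hba W i u hA
  have nb := hNB p l a b k z hT hba W i (fun S => u S - 2) hA.ld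
  have t1 : ∀ X f, box l a b z f X (X + e p l W) → dd W f ≤ b →
      i X = 1 ∧ u (X + e p l W) = 0 := by
    intro X f hb hd
    obtain ⟨-, -, n3, -⟩ := nb f X hb
    have h1 : u (sc l z f) - 2 = u (X + e p l W) - 2 + 1 := (n3 hd).2
    have h2 := hu (sc l z f)
    have h3 := hA.u0 (X + e p l W)
    rcases c3 X f hb with ⟨h4, h5⟩ | h4
    · omega
    · exact h4
  have t2 : ∀ X f, box l a b z f X (X + e p l W) → a < dd W f →
      i X = 1 ∧ u (X + e p l W) = 0 := by
    intro X f hb hd
    obtain ⟨-, -, -, -, -, -, -, n8⟩ := nb f X hb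
    have h1 : u (sc l z f + a * l + 1) - 2 = u (X + e p l W) - 2 + 1 := (n8 hd).1
    have h2 := hu (sc l z f + a * l + 1)
    have h3 := hA.u0 (X + e p l W)
    rcases c3 X f hb with ⟨h4, h5⟩ | h4
    · omega
    · exact h4
  have t3 : ∀ X f, box l a b z f X (X + e p l W) → i X = 0 → b < dd W f ∧ dd W f ≤ a ∧
      (∀ X', off X' (z f) < b * l → box l a b z f X' (X' + e p l W) ∧ i X' = 0) ∧
      (¬ eR l a b k z W f → TL l b k z f ∧ dd W f + k < a) := by
    intro X f hb hi
    have hu1 : u (X + e p l W) = 1 := by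
      rcases c3 X f hb with h4 | h4
      · exact h4.2
      · omega
    have h1 : b < dd W f := by
      by_contra h
      have h2 := (t1 X f hb (by omega)).1
      omega
    have h2 : dd W f ≤ a := by
      by_contra h
      have h2 := (t2 X f hb (by omega)).1
      omega
    obtain ⟨-, n2, -, -, -, -, n7, -⟩ := nb f X hb
    refine ⟨h1, h2, ?_, ?_⟩
    · intro X' hX'
      have h3 : box l a b z f X' (X' + e p l W) := by
        rw [(bl p l a b hT.hP z W f).1 X']
        have h4 : (W - f).val - a = 0 := by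
          unfold dd at h2
          omega
        have h5 : b * l ≤ (W - f).val * l := by
          unfold dd at h1
          exact Nat.mul_le_mul_right l (by omega)
        rw [h4, Nat.zero_mul]
        exact ⟨Nat.zero_le _, hX', by omega⟩
      refine ⟨h3, ?_⟩
      rw [(n2 X' h3).1, hi]
    · intro hE
      obtain ⟨m1, m2, m3, m4, m5, m6⟩ := n7 h2 hE
      refine ⟨m1, ?_⟩
      by_contra h3
      have h4 : u (z f + 1 + e p l W) - 2 = u (X + e p l W) - 2 + 1 := m6 (by omega)
      have h5 := hu (z f + 1 + e p l W)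
      omega
  have t4 : ∀ X f, i X = 2 → ¬ off X (z f) < b * l := fun X f hX =>
    TAaux.four hT hba hA hCOV hu (fun X f hb hi X' hX' => ((t3 X f hb hi).2.2.1 X' hX').2) X f hX
  refine ⟨t1, t2, t3, t4, ?_, ?_⟩
  · intro X f hb hi hd hE g
    obtain ⟨-, -, -, -, -, n6, -, -⟩ := nb f X hb
    have h1 := (n6 hd hE).1
    exact t4 _ g (by omega)
  · intro X f hb hi hd hE g
    obtain ⟨-, -, -, n4, -, -, -, -⟩ := nb f X hb
    have h1 := (n4 hd hE).1
    exact t4 _ g (by omega)

end Helper11.LV
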