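import Pool.Agent.Helper11.LV.StB
import Pool.Agent.Helper11.N1.All

set_option autoImplicit false
set_option linter.unusedSectionVars false

/-!
# Project LV, module TB: levels with `i ≤ 1`, chains of ties over the rows with `u = 0`
-/

namespace Helper11.LV

open Helper11.N1

namespace TBaux

section

variable {p l a b k : ℕ} [NeZero p] [NeZero l] {z : ZMod p → ZMod (p * l)}

/-- the state `i = 1`, `u = 0` at a line point of the box `j` -/
def On (a b : ℕ) (z : ZMod p → ZMod (p * l)) (W : ZMod p) (i u : ZMod (p * l) → ℤ)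
    (j : ZMod p) : Prop :=
  ∃ X, box l a b z j X (X + e p l W) ∧ i X = 1 ∧ u (X + e p l W) = 0

private theorem on_facts (hNB : StNB) (hT : TC p l a b k z) (hbk : b + k ≤ a) (W : ZMod p)
    (i u : ZMod (p * l) → ℤ) (hAB : AB l a b z W i u) (hi : ∀ X, i X ≤ 1) (j : ZMod p)
    (hj : On a b z W i u j) :
    1 ≤ dd W j ∧ dd W j < a + b ∧
    (∀ X', box l a b z j X' (X' + e p l W) → i X' = 1 ∧ u (X' + e p l W) = 0) ∧
    (dd W j ≤ b → u (sc l z j) = 1) ∧
    (b < dd W j → TL l b k z (j + hh p b k) ∧ b + k < dd W j ∧
      dd W (j + hh p b k) = dd W j - (b + k) ∧ On a b z W i u (j + hh p b k)) ∧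
    (dd W j ≤ a → TL l b k z j ∧ dd W j + k ≤ a ∧ dd W (j - hh p b k) = dd W j + (b + k) ∧
      (dd W j + k < a → On a b z W i u (j - hh p b k)) ∧
      (dd W j + k = a → u (z j + 1 + e p l W) = 1)) ∧
    (a < dd W j → u (sc l z j + a * l + 1) = 1) := by
  obtain ⟨X, hX, hX1, hX0⟩ := hj
  obtain ⟨n1, n2, n3, n4, n5, n6, n7, n8⟩ :=
    hNB p l a b k z hT hbk W i (fun S => u S - 2) hAB.ld j X hX
  refine ⟨n1.1, n1.2, ?_, ?_, ?_, ?_, ?_⟩
  · intro X' hX'
    obtain ⟨h1, h2⟩ := n2 X' hX'
    exact ⟨by rw [h1, hX1], by
      have h3 : u (X' + e p l W) - 2 = u (X + e p l W) - 2 := h2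
      omega⟩
  · intro h
    obtain ⟨-, h2⟩ := n3 h
    have h3 : u (sc l z j) - 2 = u (X + e p l W) - 2 + 1 := h2
    omega
  · intro h
    have hne : ¬ eL l a b k z W j := by
      intro hL
      obtain ⟨h1, -⟩ := n4 h hL
      have h2 := hi (z j - b * l)
      omega
    obtain ⟨h1, h2, h3, -, h5, h6, h7⟩ := n5 h hne
    refine ⟨h1, h2, h3, z j - b * l, h5, by rw [h6, hX1], ?_⟩
    have h8 : u (z j - b * l + e p l W) - 2 = u (X + e p l W) - 2 := h7
    omega
  · intro h
    have hne : ¬ eR l a b k z W j := by
      intro hR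
      obtain ⟨h1, -⟩ := n6 h hR
      have h2 := hi (z j + 1)
      omega
    obtain ⟨h1, h2, h3, h4, h5, h6⟩ := n7 h hne
    refine ⟨h1, h2, h3, ?_, ?_⟩
    · intro hlt
      obtain ⟨h7, h8⟩ := h5 hlt
      refine ⟨z j + 1, h7, by rw [h4, hX1], ?_⟩
      have h9 : u (z j + 1 + e p l W) - 2 = u (X + e p l W) - 2 := h8
      omega
    · intro heq
      have h9 : u (z j + 1 + e p l W) - 2 = u (X + e p l W) - 2 + 1 := h6 heq
      omega
  · intro h
    have h9 : u (sc l z j + a * l + 1) - 2 = u (X + e p l W) - 2 + 1 := (n8 h).1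
    omega

private theorem left (hNB : StNB) (hT : TC p l a b k z) (hbk : b + k ≤ a) (W : ZMod p)
    (i u : ZMod (p * l) → ℤ) (hAB : AB l a b z W i u) (hi : ∀ X, i X ≤ 1) :
    ∀ (n : ℕ) (f : ZMod p), dd W f ≤ n → On a b z W i u f →
      ∃ n1 : ℕ, On a b z W i u (f + (n1 : ZMod p) * hh p b k) ∧
        dd W (f + (n1 : ZMod p) * hh p b k) + n1 * (b + k) = dd W f ∧
        dd W (f + (n1 : ZMod p) * hh p b k) ≤ b ∧
        ∀ s < n1, TL l b k z (f + (n1 : ZMod p) * hh p b k - (s : ZMod p) * hh p b k) := by
  intro n
  induction n with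
  | zero =>
    intro f hf hOn
    obtain ⟨h1, -⟩ := on_facts hNB hT hbk W i u hAB hi f hOn
    omega
  | succ n ih =>
    intro f hf hOn
    obtain ⟨h1, h2, -, -, h5, -, -⟩ := on_facts hNB hT hbk W i u hAB hi f hOn
    rcases le_or_gt (dd W f) b with hb | hb
    · refine ⟨0, ?_, ?_, ?_, fun s hs => absurd hs (Nat.not_lt_zero s)⟩
      · rw [Nat.cast_zero, zero_mul, add_zero]; exact hOn
      · rw [Nat.cast_zero, zero_mul, add_zero]; omega
      · rw [Nat.cast_zero, zero_mul, add_zero]; exact hb
    · obtain ⟨g1, g2, g3, g4⟩ := h5 hb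
      have hb0 := hT.hP.hb
      obtain ⟨n1, q1, q2, q3, q4⟩ := ih (f + hh p b k) (by omega) g4
      have he : f + ((n1 + 1 : ℕ) : ZMod p) * hh p b k =
          f + hh p b k + (n1 : ZMod p) * hh p b k := by
        push_cast
        ring
      refine ⟨n1 + 1, ?_, ?_, ?_, ?_⟩
      · rw [he]; exact q1
      · rw [he]
        have : (n1 + 1) * (b + k) = n1 * (b + k) + (b + k) := by ring
        omega
      · rw [he]; exact q3
      · intro s hs
        rw [he]
        rcases Nat.lt_succ_iff_lt_or_eq.1 hs with h | h
        · exact q4 s h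
        · subst h
          have : f + hh p b k + (s : ZMod p) * hh p b k - (s : ZMod p) * hh p b k =
              f + hh p b k := by ring
          rw [this]
          exact g1

private theorem right (hNB : StNB) (hT : TC p l a b k z) (hbk : b + k ≤ a) (W : ZMod p)
    (i u : ZMod (p * l) → ℤ) (hAB : AB l a b z W i u) (hi : ∀ X, i X ≤ 1) :
    ∀ (n : ℕ) (f : ZMod p), a + b - dd W f ≤ n → On a b z W i u f →
      ∃ n2 : ℕ, (∀ s < n2, TL l b k z (f - (s : ZMod p) * hh p b k) ∧
          On a b z W i u (f - (s : ZMod p) * hh p b k) ∧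
          dd W (f - (s : ZMod p) * hh p b k) = dd W f + s * (b + k)) ∧
        a < dd W f + n2 * (b + k) ∧ dd W f + n2 * (b + k) ≤ a + b ∧
        ((On a b z W i u (f - (n2 : ZMod p) * hh p b k) ∧
            dd W (f - (n2 : ZMod p) * hh p b k) = dd W f + n2 * (b + k)) ∨
          (∃ m : ℕ, n2 = m + 1 ∧ dd W f + n2 * (b + k) = a + b ∧
            u (z (f - (m : ZMod p) * hh p b k) + 1 + e p l W) = 1)) := by
  intro n
  induction n with
  | zero =>
    intro f hf hOn
    obtain ⟨h1, h2, -⟩ := on_facts hNB hT hbk W i u hAB hi f hOn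
    omega
  | succ n ih =>
    intro f hf hOn
    obtain ⟨h1, h2, -, -, -, h6, -⟩ := on_facts hNB hT hbk W i u hAB hi f hOn
    rcases lt_or_ge a (dd W f) with ha | ha
    · refine ⟨0, fun s hs => absurd hs (Nat.not_lt_zero s), by omega, by omega, Or.inl ?_⟩
      rw [Nat.cast_zero, zero_mul, sub_zero]
      exact ⟨hOn, by omega⟩
    · obtain ⟨g1, g2, g3, g4, g5⟩ := h6 ha
      have hf0 : f - ((0 : ℕ) : ZMod p) * hh p b k = f := by
        rw [Nat.cast_zero, zero_mul, sub_zero]
      have hb0 := hT.hP.hb
      rcases Nat.lt_or_ge (dd W f + k) a with hk | hk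
      · obtain ⟨n2, q1, q2, q3, q4⟩ := ih (f - hh p b k) (by omega) (g4 hk)
        have he : ∀ s : ℕ, f - ((s + 1 : ℕ) : ZMod p) * hh p b k =
            f - hh p b k - (s : ZMod p) * hh p b k := by
          intro s
          push_cast
          ring
        have hmul : ∀ s : ℕ, (s + 1) * (b + k) = s * (b + k) + (b + k) := fun s => by ring
        refine ⟨n2 + 1, ?_, ?_, ?_, ?_⟩
        · intro s hs
          rcases s with _ | s
          · rw [hf0]
            exact ⟨g1, hOn, by omega⟩
          · obtain ⟨r1, r2, r3⟩ := q1 s (by omega)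
            rw [he s, hmul s]
            exact ⟨r1, r2, by omega⟩
        · rw [hmul n2]; omega
        · rw [hmul n2]; omega
        · rcases q4 with ⟨r1, r2⟩ | ⟨m, r1, r2, r3⟩
          · left
            rw [he n2, hmul n2]
            exact ⟨r1, by omega⟩
          · right
            refine ⟨m + 1, by omega, by rw [hmul n2]; omega, ?_⟩
            rw [he m]
            exact r3
      · have hk' : dd W f + k = a := by omega
        refine ⟨1, ?_, by omega, by omega, Or.inr ⟨0, rfl, by omega, ?_⟩⟩
        · intro s hs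
          have hs0 : s = 0 := by omega
          subst hs0
          rw [hf0]
          exact ⟨g1, hOn, by omega⟩
        · rw [hf0]
          exact g5 hk'

private theorem sc_tie (x : ZMod p) (h : TL l b k z x) :
    sc l z (x - hh p b k) = sc l z x - ((k * l : ℕ) : ZMod (p * l)) := by
  unfold TL at h
  unfold sc
  rw [h, e_sub]
  have h1 : e p l (hh p b k) = (((b + k) * l : ℕ) : ZMod (p * l)) := by
    unfold hh
    exact e_natCast p l (b + k)
  rw [h1]
  push_cast
  ring

private theorem sc_chain (x : ZMod p) (n : ℕ)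
    (h : ∀ s < n, TL l b k z (x - (s : ZMod p) * hh p b k)) :
    ∀ s ≤ n, sc l z (x - (s : ZMod p) * hh p b k) =
      sc l z x - ((s * (k * l) : ℕ) : ZMod (p * l)) := by
  intro s
  induction s with
  | zero =>
    intro _
    rw [Nat.cast_zero, zero_mul, sub_zero, zero_mul, Nat.cast_zero, sub_zero]
  | succ s ih =>
    intro hs
    have he : x - ((s + 1 : ℕ) : ZMod p) * hh p b k =
        x - (s : ZMod p) * hh p b k - hh p b k := by
      push_cast
      ring
    rw [he, sc_tie _ (h s (by omega)), ih (by omega)]
    push_cast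
    ring

private theorem on_row (hNB : StNB) (hT : TC p l a b k z) (hbk : b + k ≤ a) (W : ZMod p)
    (i u : ZMod (p * l) → ℤ) (hAB : AB l a b z W i u) (hi : ∀ X, i X ≤ 1) (j : ZMod p)
    (hj : On a b z W i u j) (σ : ℕ) (h1 : (dd W j - b) * l < σ) (h2 : σ ≤ a * l)
    (h3 : σ ≤ dd W j * l) : u (sc l z j + (σ : ZMod (p * l))) = 0 := by
  obtain ⟨-, -, hbox, -⟩ := on_facts hNB hT hbk W i u hAB hi j hj
  obtain ⟨hq, haq, hbq, hM⟩ := NBaux.prods hT.hP
  have hoff : off (sc l z j) (sc l z j + (σ : ZMod (p * l))) = σ := off_nat _ (by omega)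
  have h4 : box l a b z j (sc l z j + (σ : ZMod (p * l)) - e p l W)
      (sc l z j + (σ : ZMod (p * l))) := by
    rw [(bl p l a b hT.hP z W j).2, hoff]
    exact ⟨h1, h2, h3⟩
  have h5 := (hbox (sc l z j + (σ : ZMod (p * l)) - e p l W) (by
    rw [sub_add_cancel]; exact h4)).2
  rwa [sub_add_cancel] at h5

end

end TBaux

open TBaux in
theorem tb : StCOV → StNB → StTB := by
  intro hCOV hNB p l a b k _ _ z hT hbk hHM W i u hAB hi
  obtain ⟨-, -, c3, c4, -, -, -⟩ := hCOV p l a b k z hT hbk W i u hAB
  obtain ⟨hq, haq, hbq, hM⟩ := NBaux.prods hT.hP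
  have hb2 := hT.hP.hb
  have hbl := bl p l a b hT.hP z W
  have hbk0 : 0 < b + k := by omega
  obtain ⟨m, hm⟩ : ∃ m, m = a / (b + k) := ⟨_, rfl⟩
  have hdm : (b + k) * m + a % (b + k) = a := by
    rw [hm]; exact Nat.div_add_mod a (b + k)
  have hr : a % (b + k) < b + k := Nat.mod_lt _ hbk0
  have hmk : m * k + m * b + a % (b + k) = a := by
    calc m * k + m * b + a % (b + k) = (b + k) * m + a % (b + k) := by ring
      _ = a := hdm
  have hmkl : (a - m * k) * l = a * l - m * k * l := Nat.sub_mul _ _ _
  have hdl : ∀ c : ℕ, ∀ x : ZMod p, (dd W x - c) * l = dd W x * l - c * l :=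
    fun c x => Nat.sub_mul _ _ _
  -- the number of ties of a chain which starts in a low box
  have hcount : ∀ x : ZMod p, On a b z W i u x → dd W x ≤ b →
      (∀ s < m, TL l b k z (x - (s : ZMod p) * hh p b k) ∧
          On a b z W i u (x - (s : ZMod p) * hh p b k) ∧
          dd W (x - (s : ZMod p) * hh p b k) = dd W x + s * (b + k)) ∧
        a < dd W x + m * (b + k) ∧ dd W x + m * (b + k) ≤ a + b ∧
        ((On a b z W i u (x - (m : ZMod p) * hh p b k) ∧
            dd W (x - (m : ZMod p) * hh p b k) = dd W x + m * (b + k)) ∨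
          (∃ m' : ℕ, m = m' + 1 ∧ dd W x + m * (b + k) = a + b ∧
            u (z (x - (m' : ZMod p) * hh p b k) + 1 + e p l W) = 1)) := by
    intro x hx hxb
    obtain ⟨h1, -⟩ := on_facts hNB hT hbk W i u hAB hi x hx
    obtain ⟨n, q1, q2, q3, q4⟩ := right hNB hT hbk W i u hAB hi _ x le_rfl hx
    have hn : n = m := by
      rw [hm]
      exact hHM W x n h1 hxb (fun s hs => (q1 s hs).1) q2 q3
    subst hn
    exact ⟨q1, q2, q3, q4⟩
  rw [← hm]
  constructor
  · -- part (1)
    intro S hS
    have hSX : S - e p l W + e p l W = S := sub_add_cancel S _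
    have hex : ∃ f, box l a b z f (S - e p l W) (S - e p l W + e p l W) := by
      by_contra hcon
      push Not at hcon
      have h1 := c4 (S - e p l W) hcon
      rw [hSX, hS] at h1
      have h2 := hi (S - e p l W)
      omega
    obtain ⟨f, hf⟩ := hex
    have hOn : On a b z W i u f := by
      refine ⟨S - e p l W, hf, ?_, ?_⟩
      · rcases c3 _ f hf with ⟨-, h1⟩ | ⟨h1, -⟩
        · rw [hSX, hS] at h1
          exact absurd h1 (by norm_num)
        · exact h1
      · rw [hSX]; exact hS
    obtain ⟨hf1, hf2, -⟩ := on_facts hNB hT hbk W i u hAB hi f hOn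
    obtain ⟨n1, q1, q2, q3, q4⟩ := left hNB hT hbk W i u hAB hi _ f le_rfl hOn
    obtain ⟨x, hx⟩ : ∃ x, x = f + (n1 : ZMod p) * hh p b k := ⟨_, rfl⟩
    rw [← hx] at q1 q2 q3 q4
    obtain ⟨hx1, -, -, hx4, -⟩ := on_facts hNB hT hbk W i u hAB hi x q1
    obtain ⟨r1, r2, r3, -⟩ := hcount x q1 q3
    have hn1 : n1 ≤ m := by
      by_contra hcon
      have h1 : (m + 1) * (b + k) ≤ n1 * (b + k) := Nat.mul_le_mul_right _ (by omega)
      have h2 : (m + 1) * (b + k) = m * (b + k) + (b + k) := by ring
      omega
    have hfx : f = x - (n1 : ZMod p) * hh p b k := by rw [hx]; ring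
    have hscf : sc l z f = sc l z x - ((n1 * (k * l) : ℕ) : ZMod (p * l)) := by
      rw [hfx]
      exact sc_chain x n1 q4 n1 le_rfl
    refine ⟨x, ⟨hx1, q3, hx4 q3⟩, ?_⟩
    -- the row of S
    obtain ⟨σ, hσ⟩ : ∃ σ, σ = off (sc l z f) S := ⟨_, rfl⟩
    rw [hSX] at hf
    rw [(hbl f).2 S, ← hσ] at hf
    obtain ⟨g1, g2, g3⟩ := hf
    have hS' : S = sc l z f + (σ : ZMod (p * l)) := by rw [hσ]; exact (off_spec _ _).symm
    have hfd : ((W - f).val - b) * l = dd W f * l - b * l := Nat.sub_mul _ _ _
    have hfd2 : (W - f).val * l = dd W f * l := rfl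
    rw [hfd] at g1
    rw [hfd2] at g3
    have hddl : dd W f * l = dd W x * l + n1 * (b * l) + n1 * (k * l) := by
      rw [← q2]; ring
    have hkey : n1 * (k * l) < σ ∧ σ - n1 * (k * l) ≤ (a - m * k) * l := by
      rcases Nat.eq_zero_or_pos n1 with h0 | h0
      · subst h0
        constructor
        · omega
        · rw [hmkl]
          rcases Nat.eq_zero_or_pos m with h0 | h0
          · rw [h0]; omega
          · have h1 : dd W x * l ≤ b * l := Nat.mul_le_mul_right l q3
            have h2 : b * l ≤ m * (b * l) := Nat.le_mul_of_pos_left _ h0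
            have h3 : m * k * l + m * (b * l) ≤ a * l := by
              calc m * k * l + m * (b * l) = (m * k + m * b) * l := by ring
                _ ≤ a * l := Nat.mul_le_mul_right l (by omega)
            omega
      · obtain ⟨n', rfl⟩ : ∃ n', n1 = n' + 1 := ⟨n1 - 1, by omega⟩
        have h1 : (n' + 1) * (b * l) = n' * (b * l) + b * l := by ring
        have h5 : l ≤ dd W x * l := Nat.le_mul_of_pos_left _ hx1
        constructor
        · rw [h1] at hddl
          omega
        · rw [hmkl]
          rcases Nat.lt_or_ge (n' + 1) m with h2 | h2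
          · have h3 : dd W x * l ≤ b * l := Nat.mul_le_mul_right l q3
            have h4 : (n' + 1 + 1) * (b * l) ≤ m * (b * l) := Nat.mul_le_mul_right _ (by omega)
            have h4' : (n' + 1 + 1) * (b * l) = (n' + 1) * (b * l) + b * l := by ring
            have h6 : m * k * l + m * (b * l) ≤ a * l := by
              calc m * k * l + m * (b * l) = (m * k + m * b) * l := by ring
                _ ≤ a * l := Nat.mul_le_mul_right l (by omega)
            omega
          · have h3 : n' + 1 = m := by omega
            rw [h3]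
            have h4 : m * (k * l) = m * k * l := by ring
            omega
    obtain ⟨k1, k2⟩ := hkey
    have hS2 : off (sc l z x + 1) S = σ - n1 * (k * l) - 1 := by
      apply NBaux.off_cast _ _ (by omega)
      rw [hS', hscf, Nat.cast_sub (by omega), Nat.cast_sub (by omega), Nat.cast_one]
      ring
    rw [hS2]
    omega
  · -- part (2)
    intro x hx
    obtain ⟨hx1, hxb, hxu⟩ := hx
    have hxl : l ≤ dd W x * l := Nat.le_mul_of_pos_left _ hx1
    have hxbl : dd W x * l ≤ b * l := Nat.mul_le_mul_right l hxb
    have hbal : b * l ≤ a * l := Nat.mul_le_mul_right l (by omega)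
    have hdb0 : (dd W x - b) * l = 0 := by
      have : dd W x - b = 0 := by omega
      rw [this, zero_mul]
    have hda0 : (dd W x - a) * l = 0 := by
      have : dd W x - a = 0 := by omega
      rw [this, zero_mul]
    have hOn : On a b z W i u x := by
      have hoff : off (sc l z x) (sc l z x + ((1 : ℕ) : ZMod (p * l))) = 1 :=
        off_nat _ (by omega)
      have h4 : box l a b z x (sc l z x + ((1 : ℕ) : ZMod (p * l)) - e p l W)
          (sc l z x + ((1 : ℕ) : ZMod (p * l))) := by
        rw [(hbl x).2, hoff]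
        refine ⟨?_, by omega, ?_⟩
        · show (dd W x - b) * l < 1
          omega
        · show 1 ≤ dd W x * l
          omega
      have h5 : box l a b z x (sc l z x + ((1 : ℕ) : ZMod (p * l)) - e p l W)
          (sc l z x + ((1 : ℕ) : ZMod (p * l)) - e p l W + e p l W) := by
        rw [sub_add_cancel]; exact h4
      have h6 := ((hNB p l a b k z hT hbk W i (fun S => u S - 2) hAB.ld x _ h5).2.2.1 hxb).2
      have h7 : u (sc l z x) - 2 =
          u (sc l z x + ((1 : ℕ) : ZMod (p * l)) - e p l W + e p l W) - 2 + 1 := h6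
      refine ⟨_, h5, ?_, by omega⟩
      rcases c3 _ x h5 with ⟨-, h8⟩ | ⟨h8, -⟩
      · exfalso
        omega
      · exact h8
    obtain ⟨-, -, hline, -⟩ := on_facts hNB hT hbk W i u hAB hi x hOn
    obtain ⟨r1, r2, r3, r4⟩ := hcount x hOn hxb
    have hr2 : m * (b + k) = m * k + m * b := by ring
    have hsc := sc_chain x m (fun s hs => (r1 s hs).1)
    have hmkal : m * k * l ≤ a * l := Nat.mul_le_mul_right l (by omega)
    refine ⟨by omega, fun s hs => (r1 s hs).1, ?_, ?_, ?_⟩
    · -- rows with u = 0
      intro n hn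
      rw [hmkl] at hn
      have hgoal : sc l z x + 1 + (n : ZMod (p * l)) =
          sc l z x + ((n + 1 : ℕ) : ZMod (p * l)) := by
        push_cast
        ring
      rw [hgoal]
      rcases Nat.lt_or_ge n (dd W x * l) with h1 | h1
      · exact on_row hNB hT hbk W i u hAB hi x hOn (n + 1) (by omega) (by omega) (by omega)
      · obtain ⟨s', hs'⟩ : ∃ s', s' = (n - dd W x * l) / (b * l) := ⟨_, rfl⟩
        have hbl0 : 0 < b * l := by omega
        have hlo : b * l * s' ≤ n - dd W x * l := by
          rw [hs']; exact Nat.mul_div_le _ _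
        have hhi : n - dd W x * l < b * l * s' + b * l := by
          rw [hs']
          have := Nat.lt_mul_div_succ (n - dd W x * l) hbl0
          rw [Nat.mul_add, Nat.mul_one] at this
          exact this
        have hamb : a * l < dd W x * l + m * k * l + m * (b * l) := by
          calc a * l < (dd W x + m * (b + k)) * l := Nat.mul_lt_mul_of_pos_right r2 (by omega)
            _ = dd W x * l + m * k * l + m * (b * l) := by ring
        have hsm : s' + 1 ≤ m := by
          by_contra hcon
          have h2 : m * (b * l) ≤ s' * (b * l) := Nat.mul_le_mul_right _ (by omega)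
          have h3 : b * l * s' = s' * (b * l) := Nat.mul_comm _ _
          omega
        -- the box `x - (s' + 1) h` is on the line
        have hOn' : On a b z W i u (x - ((s' + 1 : ℕ) : ZMod p) * hh p b k) ∧
            dd W (x - ((s' + 1 : ℕ) : ZMod p) * hh p b k) = dd W x + (s' + 1) * (b + k) := by
          rcases Nat.lt_or_ge (s' + 1) m with h2 | h2
          · exact ⟨(r1 _ h2).2.1, (r1 _ h2).2.2⟩
          · have h3 : s' + 1 = m := by omega
            rcases r4 with ⟨h4, h5⟩ | ⟨m', h4, h5, -⟩
            · rw [h3]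
              exact ⟨h4, h5⟩
            · exfalso
              have h6 : m' = s' := by omega
              subst h6
              have h7 : dd W x * l + m * k * l + m * (b * l) = a * l + b * l := by
                calc dd W x * l + m * k * l + m * (b * l) = (dd W x + m * (b + k)) * l := by ring
                  _ = (a + b) * l := by rw [h5]
                  _ = a * l + b * l := by ring
              have h8 : m * (b * l) = m' * (b * l) + b * l := by rw [h4]; ring
              have h9 : b * l * m' = m' * (b * l) := Nat.mul_comm _ _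
              omega
        obtain ⟨o1, o2⟩ := hOn'
        have hscs := hsc (s' + 1) hsm
        have hddl : dd W (x - ((s' + 1 : ℕ) : ZMod p) * hh p b k) * l =
            dd W x * l + (s' + 1) * (k * l) + s' * (b * l) + b * l := by
          rw [o2]; ring
        have hkl : (s' + 1) * (k * l) ≤ m * k * l := by
          calc (s' + 1) * (k * l) ≤ m * (k * l) := Nat.mul_le_mul_right _ hsm
            _ = m * k * l := by ring
        have hcomm : b * l * s' = s' * (b * l) := Nat.mul_comm _ _
        have hrow := on_row hNB hT hbk W i u hAB hi _ o1 (n + 1 + (s' + 1) * (k * l))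
          (by rw [hdl]; omega) (by omega) (by omega)
        have hfin : sc l z (x - ((s' + 1 : ℕ) : ZMod p) * hh p b k) +
            ((n + 1 + (s' + 1) * (k * l) : ℕ) : ZMod (p * l)) =
            sc l z x + ((n + 1 : ℕ) : ZMod (p * l)) := by
          rw [hscs]
          push_cast
          ring
        rw [hfin] at hrow
        exact hrow
    · -- the end of the rows
      rw [hmkl, Nat.cast_sub (by omega)]
      have hscm := hsc m le_rfl
      rcases r4 with ⟨h4, h5⟩ | ⟨m', h4, h5, h6⟩
      · obtain ⟨-, -, -, -, -, -, h8⟩ := on_facts hNB hT hbk W i u hAB hi _ h4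
        have h9 := h8 (by omega)
        have h10 : sc l z (x - (m : ZMod p) * hh p b k) + a * l + 1 =
            sc l z x + 1 + (((a * l : ℕ) : ZMod (p * l)) - ((m * k * l : ℕ) : ZMod (p * l))) := by
          rw [hscm]
          push_cast
          ring
        rw [h10] at h9
        exact h9
      · have h7 := (r1 m' (by omega)).2.2
        have h8 := hsc m' (by omega)
        have h9 : z (x - (m' : ZMod p) * hh p b k) + 1 + e p l W =
            sc l z x + 1 + (((a * l : ℕ) : ZMod (p * l)) - ((m * k * l : ℕ) : ZMod (p * l))) := by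
          have e1 : z (x - (m' : ZMod p) * hh p b k) =
              sc l z (x - (m' : ZMod p) * hh p b k) - e p l (x - (m' : ZMod p) * hh p b k) := by
            unfold sc; ring
          have e2 := NBaux.eW (q := l) W (x - (m' : ZMod p) * hh p b k)
          have e3 : (W - (x - (m' : ZMod p) * hh p b k)).val * l =
              dd W x * l + m' * (b + k) * l := by
            have : (W - (x - (m' : ZMod p) * hh p b k)).val =
                dd W x + m' * (b + k) := h7
            rw [this]; ring
          have e4 : dd W x * l + m' * (b + k) * l + m * k * l = a * l + m' * (k * l) := by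
            have h10 : dd W x + m' * (b + k) + m * k = a + m' * k := by
              have h11 : m * (b + k) = m' * (b + k) + (b + k) := by rw [h4]; ring
              have h12 : m * k = m' * k + k := by rw [h4]; ring
              omega
            calc dd W x * l + m' * (b + k) * l + m * k * l
                = (dd W x + m' * (b + k) + m * k) * l := by ring
              _ = (a + m' * k) * l := by rw [h10]
              _ = a * l + m' * (k * l) := by ring
          have e5 : ((dd W x * l + m' * (b + k) * l : ℕ) : ZMod (p * l)) +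
              ((m * k * l : ℕ) : ZMod (p * l)) =
              ((a * l : ℕ) : ZMod (p * l)) + ((m' * (k * l) : ℕ) : ZMod (p * l)) := by
            rw [← Nat.cast_add, e4, Nat.cast_add]
          rw [e1, e2, h8, e3]
          linear_combination e5
        rw [h9] at h6
        exact h6
    · -- the column of `z x`
      have h1 : box l a b z x (z x) (z x + e p l W) := by
        rw [(hbl x).1, off_self]
        refine ⟨?_, by omega, ?_⟩
        · show (dd W x - a) * l ≤ 0
          omega
        · show 0 < dd W x * l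
          omega
      exact (hline (z x) h1).1

end Helper11.LV
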