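import Pool.Agent.Helper11.LV.StB
import Pool.Agent.Helper11.N1.All

set_option autoImplicit false
set_option linter.unusedSectionVars false

/-!
# TCB: chains over a column with `i = 0`
-/

namespace Helper11.LV

open Helper11.N1

namespace TCBaux

variable {p l a b k : ℕ} [NeZero p] [NeZero l] {z : ZMod p → ZMod (p * l)}

theorem hh_mul (q : ℕ) : ((q : ZMod p)) * hh p b k = ((q * (b + k) : ℕ) : ZMod p) := by
  unfold hh
  push_cast
  ring

theorem sc_shift {f : ZMod p} {q : ℕ}
    (hz : z (f + (q : ZMod p) * hh p b k) = z f - ((q * (b * l) : ℕ) : ZMod (p * l))) :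
    sc l z (f + (q : ZMod p) * hh p b k) = sc l z f + ((q * (k * l) : ℕ) : ZMod (p * l)) := by
  unfold sc
  rw [hz, hh_mul, e_add, e_natCast]
  push_cast
  ring

theorem off_succ {M : ℕ} [NeZero M] (x y : ZMod M) (h : off x y + 1 < M) :
    off x (y + 1) = off x y + 1 := by
  have h1 : y + 1 = x + ((off x y + 1 : ℕ) : ZMod M) := by
    push_cast
    rw [← add_assoc, off_spec]
  rw [h1, off_nat x h]

theorem off_pred {M : ℕ} [NeZero M] (x y : ZMod M) (h : off x y + 1 < M) :
    off (x - 1) y = off x y + 1 := by
  have h1 : y = (x - 1) + ((off x y + 1 : ℕ) : ZMod M) := by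
    push_cast
    have := off_spec x y
    linear_combination -this
  conv_lhs => rw [h1]
  rw [off_nat _ h]

end TCBaux

theorem tcb : StTB → StCOV → StTCB := by
  intro hTB hCOV p l a b k _ _ z hT hba hHM W i u hAB hi x hx
  have hP := hT.hP
  have ha2 := hT.ha2
  have hl2 := hT.hl2
  have hb := hP.hb
  have hk := hT.hk
  obtain ⟨c1, _, _, _, c5, c6, _⟩ := hCOV p l a b k z hT hba W i u hAB
  obtain ⟨_, t2⟩ := hTB p l a b k z hT hba hHM W i u hAB hi
  obtain ⟨_, _, tu, _, tz⟩ := t2 x hx
  set m := a / (b + k) with hm
  have hm1 : 1 ≤ m := (Nat.one_le_div_iff (by omega)).2 hba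
  have hmh : m * (b + k) ≤ a := Nat.div_mul_le_self a (b + k)
  have hmk : m * k + m * b ≤ a := by
    have : m * (b + k) = m * k + m * b := by ring
    omega
  have hmb : 2 ≤ m * b := by
    calc 2 = 1 * 2 := by norm_num
      _ ≤ m * b := Nat.mul_le_mul hm1 hb
  set nC := (a - m * k) * l with hnC
  have hnC0 : 1 ≤ nC := Nat.mul_pos (by omega) (by omega)
  have hsum : nC + m * k * l = a * l := by
    rw [hnC, ← add_mul]
    congr 1
    omega
  have hal : 2 * (a * l) < p * l := by
    have : 2 * a * l < p * l := Nat.mul_lt_mul_of_pos_right ha2 (by omega)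
    rwa [mul_assoc] at this
  have hbl : b * l ≤ a * l := Nat.mul_le_mul_right l (by omega)
  have hbl0 : 1 ≤ b * l := Nat.mul_pos (by omega) (by omega)
  -- part (1)
  have p1 : ∀ X, i X = 0 → ∃ f, box l a b z f X (sc l z x + 1) := by
    intro X hX
    apply c1 X _ hX
    have := tu 0 (by omega)
    rwa [Nat.cast_zero, add_zero] at this
  -- part (2)
  have p2 : ∀ (X : ZMod (p * l)) (f : ZMod p), i X = 0 → box l a b z f X (sc l z x + 1) →
      (∀ n : ℕ, n < nC → box l a b z f X (sc l z x + 1 + (n : ZMod (p * l)))) ∧
      off (sc l z f) (sc l z x) ≤ m * k * l := by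
    intro X f hX hf
    have h1 : ∀ n : ℕ, n < nC → box l a b z f X (sc l z x + 1 + (n : ZMod (p * l))) ∧
        off (sc l z f + 1) (sc l z x + 1 + (n : ZMod (p * l))) =
          off (sc l z f + 1) (sc l z x + 1) + n := by
      intro n
      induction n with
      | zero =>
        intro _
        rw [Nat.cast_zero, add_zero, add_zero]
        exact ⟨hf, rfl⟩
      | succ n ih =>
        intro hn
        obtain ⟨h2, h3⟩ := ih (by omega)
        have e1 : sc l z x + 1 + ((n + 1 : ℕ) : ZMod (p * l)) =
            sc l z x + 1 + (n : ZMod (p * l)) + 1 := by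
          push_cast
          ring
        have h4 := c6 X (sc l z x + 1 + (n : ZMod (p * l))) f hX (by
          have := tu (n + 1) hn
          rwa [e1] at this) h2
        rw [e1]
        refine ⟨h4, ?_⟩
        have h5 := h2.2
        rw [TCBaux.off_succ _ _ (by omega), h3]
        ring
    refine ⟨fun n hn => (h1 n hn).1, ?_⟩
    obtain ⟨h2, h3⟩ := h1 (nC - 1) (by omega)
    have h4 := h2.2
    rw [h3, off_translate] at h4
    omega
  refine ⟨p1, p2, ?_⟩
  intro X f n hn hf
  -- part (3)
  set t := off X (z f) with ht
  have ht1 : t < b * l := hf.1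
  have hspec : z f = X + (t : ZMod (p * l)) := (off_spec X (z f)).symm
  have p2f := (p2 X f (by
    have := hn 0 (by omega)
    rwa [Nat.cast_zero, sub_zero] at this) hf).2
  have key : ∀ n' : ℕ, n' ≤ n → (t + n') / (b * l) ≤ m ∧
      box l a b z (f + (((t + n') / (b * l) : ℕ) : ZMod p) * hh p b k) (X - n') (sc l z x + 1) ∧
      z (f + (((t + n') / (b * l) : ℕ) : ZMod p) * hh p b k) =
        z f - (((t + n') / (b * l) * (b * l) : ℕ) : ZMod (p * l)) ∧
      (∀ s : ℕ, 1 ≤ s → s ≤ (t + n') / (b * l) → TL l b k z (f + (s : ZMod p) * hh p b k)) := by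
    intro n'
    induction n' with
    | zero =>
      intro _
      have e1 : (t + 0) / (b * l) = 0 := Nat.div_eq_of_lt (by omega)
      rw [e1]
      push_cast
      rw [zero_mul, add_zero, sub_zero, zero_mul, sub_zero]
      exact ⟨by omega, hf, rfl, fun s hs1 hs2 => by omega⟩
    | succ n' ih =>
      intro hn'
      obtain ⟨h1, h2, h3, hch⟩ := ih (by omega)
      set q := (t + n') / (b * l) with hq
      set g' := f + ((q : ℕ) : ZMod p) * hh p b k with hg'
      have hdm : b * l * q + (t + n') % (b * l) = t + n' := by
        rw [hq]
        exact Nat.div_add_mod (t + n') (b * l)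
      have hmod : (t + n') % (b * l) < b * l := Nat.mod_lt _ (by omega)
      set r := (t + n') % (b * l) with hr
      -- offset of the column
      have h4 : off (X - (n' : ZMod (p * l))) (z g') = r := by
        have e1 : z g' = X - (n' : ZMod (p * l)) + (r : ZMod (p * l)) := by
          rw [h3, hspec]
          have e2 : ((b * l * q + r : ℕ) : ZMod (p * l)) = ((t + n' : ℕ) : ZMod (p * l)) := by
            rw [hdm]
          push_cast at e2 ⊢
          linear_combination -e2
        rw [e1, off_nat _ (by omega)]
      have e5 : X - ((n' + 1 : ℕ) : ZMod (p * l)) = X - (n' : ZMod (p * l)) - 1 := by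
        push_cast
        ring
      have h5 : off (X - ((n' + 1 : ℕ) : ZMod (p * l))) (z g') = r + 1 := by
        rw [e5, TCBaux.off_pred _ _ (by omega), h4]
      obtain ⟨g, hg⟩ := p1 (X - ((n' + 1 : ℕ) : ZMod (p * l))) (hn (n' + 1) hn')
      have e6 : X - ((n' + 1 : ℕ) : ZMod (p * l)) + 1 = X - (n' : ZMod (p * l)) := by
        push_cast
        ring
      have h6 := c5 (X - ((n' + 1 : ℕ) : ZMod (p * l))) (sc l z x + 1) g g' hg (by rw [e6]; exact h2)
      -- the new quotient
      have h7 : ((t + (n' + 1)) / (b * l) = q ∧ g = g') ∨
          ((t + (n' + 1)) / (b * l) = q + 1 ∧ g = g' + hh p b k ∧ z g = z g' - b * l) := by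
        rcases h6 with h6 | ⟨h6, h8, h9, _⟩
        · left
          refine ⟨?_, h6.symm⟩
          have h10 : r + 1 < b * l := by
            have := hg.1
            rw [← h6, h5] at this
            exact this
          refine Nat.div_eq_of_lt_le ?_ ?_
          · have : q * (b * l) = b * l * q := mul_comm _ _
            omega
          · have : (q + 1) * (b * l) = b * l * q + b * l := by ring
            omega
        · right
          have h10 : r + 1 = b * l := by
            rw [← h8] at h5
            have h12 : off (z g' - (b : ZMod (p * l)) * (l : ZMod (p * l))) (z g') = b * l := by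
              have h13 := off_nat' (z g') (n := b * l) (by omega)
              rw [Nat.cast_mul] at h13
              exact h13
            omega
          refine ⟨?_, by rw [h9]; ring, by rw [h6, h8]⟩
          refine Nat.div_eq_of_lt_le ?_ ?_
          · have : (q + 1) * (b * l) = b * l * q + b * l := by ring
            omega
          · have : (q + 1 + 1) * (b * l) = b * l * q + b * l + b * l := by ring
            omega
      -- in both cases the description of the new box
      rcases h7 with ⟨h7, h9⟩ | ⟨h7, h9, h10⟩
      · rw [h7]
        rw [h9] at hg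
        exact ⟨h1, hg, h3, hch⟩
      · -- the chain is not too long
        have hqm : q < m := by
          by_contra hcon
          have h13 : q = m := by omega
          have h16 : sc l z g' = sc l z f + ((q * (k * l) : ℕ) : ZMod (p * l)) :=
            TCBaux.sc_shift h3
          have h17 : q * (k * l) = m * k * l := by rw [h13]; ring
          have h14 := (p2 _ _ (hn n' (by omega)) h2).2
          have h18 : off (sc l z f) (sc l z g') = m * k * l := by
            rw [h16, h17, off_nat _ (by omega)]
          have h19 := off_add_of_lt (x := sc l z f) (y := sc l z g') (w := sc l z x) (by omega)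
          have h20 : off (sc l z g') (sc l z x) = 0 := by omega
          have h21 : sc l z g' = sc l z x := off_eq_zero.1 h20
          have h22 : sc l z g = sc l z x + ((k * l : ℕ) : ZMod (p * l)) := by
            rw [← h21]
            unfold sc
            rw [h10, h9, e_add]
            unfold hh
            rw [e_natCast]
            push_cast
            ring
          have hkl : k * l ≤ a * l := Nat.mul_le_mul_right l (by omega)
          have hkl0 : 1 ≤ k * l := Nat.mul_pos hk (by omega)
          have h23 : off (sc l z g + 1) (sc l z x + 1) = p * l - k * l := by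
            have e7 : sc l z x + 1 = (sc l z g + 1) + ((p * l - k * l : ℕ) : ZMod (p * l)) := by
              rw [h22, Nat.cast_sub (by omega), ZMod.natCast_self]
              ring
            conv_lhs => rw [e7]
            exact off_nat _ (by omega)
          have h24 := hg.2
          omega
        rw [h7]
        have h11 : g = f + ((q + 1 : ℕ) : ZMod p) * hh p b k := by
          rw [h9, hg']
          push_cast
          ring
        rw [← h11]
        refine ⟨hqm, hg, ?_, ?_⟩
        · rw [h10, h3]
          push_cast
          ring
        · intro s hs1 hs2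
          rcases Nat.lt_or_ge q s with h12 | h12
          · have h13 : s = q + 1 := by omega
            rw [h13, ← h11]
            unfold TL
            rw [h9, add_sub_cancel_right, ← h9, h10]
            ring
          · exact hch s hs1 h12
  obtain ⟨h1, h2, h3, hch⟩ := key n le_rfl
  have h14 := (p2 _ _ (hn n le_rfl) h2).2
  have h16 := TCBaux.sc_shift (k := k) h3
  set q := (t + n) / (b * l) with hq
  set g := f + (q : ZMod p) * hh p b k with hg
  have h17 : q * (k * l) ≤ m * k * l := by
    rw [mul_assoc]
    exact Nat.mul_le_mul_right _ h1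
  have h18 : off (sc l z f) (sc l z g) = q * (k * l) := by
    rw [h16, off_nat _ (by omega)]
  have h19 := off_add_of_lt (x := sc l z f) (y := sc l z g) (w := sc l z x) (by omega)
  refine ⟨?_, ?_, by omega, hch⟩
  · intro hinj
    rw [← Nat.div_lt_iff_lt_mul (by omega)]
    by_contra hcon
    have h13 : q = m := by omega
    have h13' : q * (k * l) = m * k * l := by rw [h13]; ring
    have h20 : off (sc l z g) (sc l z x) = 0 := by omega
    have h21 : g = x := hinj (off_eq_zero.1 h20)
    -- the column `z x`
    have h22 : m * (b * l) ≤ t + n := by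
      rw [← h13, hq]
      exact Nat.div_mul_le_self _ _
    have h23 : b * l ≤ m * (b * l) := Nat.le_mul_of_pos_left _ hm1
    have h24 : z x = X - ((m * (b * l) - t : ℕ) : ZMod (p * l)) := by
      rw [← h21, h3, h13, hspec, Nat.cast_sub (by omega)]
      push_cast
      ring
    have h25 := hn (m * (b * l) - t) (by omega)
    rw [← h24] at h25
    omega
  · rw [← Nat.div_lt_iff_lt_mul (by omega)]
    omega

end Helper11.LV
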