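import Pool.Agent.Helper11.LV.StB
import Pool.Agent.Helper11.N1.All

set_option autoImplicit false
set_option linter.unusedSectionVars false

/-!
Project LV, module TR: right end of a run of columns with `i = 0`.
-/

namespace Helper11.LV

open Helper11.N1

theorem tr : StJV → StNB → StCOV → StTR := by
  intro hJV _ hCOV p l a b k _ _ z hT hba W i u hAB hex X hX
  classical
  obtain ⟨jR, jL, jC⟩ := hJV p l a b k z hT W i (fun S => u S - 2) hAB.ld
  obtain ⟨-, -, c3, -⟩ := hCOV p l a b k z hT hba W i u hAB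
  have hex' : ∃ m : ℕ, i (X + (m : ZMod (p * l))) ≠ 0 := by
    obtain ⟨Y, hY⟩ := hex
    refine ⟨off X Y, ?_⟩
    rw [off_spec]
    exact hY
  have hm := Nat.find_spec hex'
  have hmin : ∀ m' : ℕ, m' < Nat.find hex' → i (X + (m' : ZMod (p * l))) = 0 := by
    intro m' h
    exact not_not.1 (Nat.find_min hex' h)
  have hm0 : Nat.find hex' ≠ 0 := by
    intro h
    rw [h, Nat.cast_zero, add_zero] at hm
    exact hm hX
  obtain ⟨n, hn⟩ := Nat.exists_eq_succ_of_ne_zero hm0
  rw [hn] at hm hmin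
  have hn0 : i (X + (n : ZMod (p * l))) = 0 := hmin n (Nat.lt_succ_self n)
  have e1 : X + ((n.succ : ℕ) : ZMod (p * l)) = X + (n : ZMod (p * l)) + 1 := by
    push_cast
    ring
  rw [e1] at hm
  have hj : ∃ j, eR l a b k z W j ∧ z j = X + (n : ZMod (p * l)) := by
    by_contra hno
    push Not at hno
    by_cases hL : ∃ y, eL l a b k z W y ∧ z y - b * l = X + (n : ZMod (p * l))
    · obtain ⟨y, hy, hyX⟩ := hL
      have h1 := jL y hy
      rw [hyX, hn0] at h1
      have h2 := hAB.i0 (X + (n : ZMod (p * l)) + 1)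
      omega
    · push Not at hL
      exact hm ((jC (X + (n : ZMod (p * l))) hno hL).trans hn0)
  obtain ⟨j, hjR, hjz⟩ := hj
  have hd := hjR
  obtain ⟨hd1, hd2, -⟩ := hd
  have hb2 := hT.hP.hb
  have hl := hT.hP.hq
  have hbox : box l a b z j (z j) (z j + e p l W) := by
    rw [(N1.bl p l a b hT.hP z W j).1 (z j), off_self]
    unfold dd at hd1 hd2
    refine ⟨?_, Nat.mul_pos (by omega) (by omega), Nat.mul_pos (by omega) (by omega)⟩
    rw [Nat.sub_eq_zero_of_le hd2, zero_mul]
  have hz0 : i (z j) = 0 := by rw [hjz]; exact hn0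
  refine ⟨n, j, fun n' h => hmin n' (Nat.lt_succ_of_le h), hjz, hjR, ?_, hbox, ?_⟩
  · rw [jR j hjR, hz0, zero_add]
  · rcases c3 (z j) j hbox with h | h
    · exact h.2
    · rw [hz0] at h
      exact absurd h.1 (by norm_num)

end Helper11.LV
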