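import Pool.Agent.Helper11.LV.StB
import Pool.Agent.Helper11.N1.All

set_option autoImplicit false
set_option linter.unusedSectionVars false

/-!
# TYP: the types of the levels which are not in normal form
-/

namespace Helper11.LV

open Helper11.N1

namespace TYPaux

variable {p l a b : ℕ} [NeZero p] [NeZero l] {z : ZMod p → ZMod (p * l)}

/-- the data of a level may be shifted by a constant -/
theorem ld_shift {W : ZMod p} {lam rho : ZMod (p * l) → ℤ} (h : LD l a b z W lam rho) (c : ℤ) :
    LD l a b z W (fun X => lam X - c) (fun S => rho S + c) where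
  lj := fun X => by
    have := h.lj X
    linarith
  rj := fun S => by
    have := h.rj S
    linarith
  line := fun X => by
    have := h.line X
    linarith
  up := fun X S => by
    have := h.up X S
    linarith
  lo := fun X S => by
    have := h.lo X S
    linarith

end TYPaux

theorem typ : StTYP := by
  intro p l a b k _ _ z hT W lam rho hld
  have hP := hT.hP
  have hD := hT.hD
  have hN : ∀ X S, 0 ≤ NN l a b z X S ∧ NN l a b z X S ≤ 1 := by
    intro X S
    rcases LEVaux.NN_cases hD X S with h | ⟨h, _⟩ <;> rw [h] <;> norm_num
  obtain ⟨X0, hX0⟩ := Finite.exists_min lam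
  obtain ⟨X1, hX1⟩ := Finite.exists_max lam
  obtain ⟨S0, hS0⟩ := Finite.exists_min rho
  obtain ⟨S1, hS1⟩ := Finite.exists_max rho
  have h1 : lam X1 + rho S1 ≤ 1 := by
    have h2 := hld.up X1 S1
    have h3 := (hN X1 S1).1
    linarith
  have h2 : -2 ≤ lam X0 + rho S0 := by
    have h3 := hld.lo X0 S0
    have h4 := (hN X0 S0).2
    linarith
  -- a line point in a box
  obtain ⟨X2, hX2⟩ : ∃ X, NN l a b z X (X + e p l W) = 1 := by
    by_contra hcon
    push Not at hcon
    have h3 : ∀ X, NN l a b z X (X + e p l W) = 0 := by
      intro X
      rcases LEVaux.NN_cases hD X (X + e p l W) with h | ⟨h, _⟩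
      · exact h
      · exact absurd h (hcon X)
    have h4 := cnt N1.bl p l a b hP z W
    rw [Finset.sum_congr rfl (fun X _ => h3 X), Finset.sum_const_zero] at h4
    have ha := hP.ha
    have hb := hP.hb
    have hl := hT.hl2
    have h5 : 0 < a * b * l := Nat.mul_pos (Nat.mul_pos (by omega) (by omega)) (by omega)
    have h6 : (0 : ℤ) < ((a * b * l : ℕ) : ℤ) := by exact_mod_cast h5
    omega
  have h3 := hld.line X2
  rw [hX2] at h3
  have h4 : lam X0 + rho S0 ≤ -1 := by
    have h5 := hX0 X2
    have h6 := hS0 (X2 + e p l W)
    linarith
  rcases (by omega : lam X0 + rho S0 = -1 ∨ lam X0 + rho S0 = -2) with h5 | h5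
  · -- normal
    left
    have h6 : lam X1 ≤ lam X0 + 1 := by
      by_contra hcon
      have h7 := hld.line X1
      have h8 := (hN X1 (X1 + e p l W)).1
      have h9 := hS0 (X1 + e p l W)
      have h10 := hS1 S0
      omega
    have h7 : rho S1 ≤ rho S0 + 1 := by
      by_contra hcon
      have h7 := hld.line (S1 - e p l W)
      rw [sub_add_cancel] at h7
      have h8 := (hN (S1 - e p l W) S1).1
      have h9 := hX0 (S1 - e p l W)
      have h10 := hX1 X0
      omega
    refine ⟨lam X0 + 1, fun X => ?_, fun S => ?_⟩
    · have h8 := hX0 X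
      have h9 := hX1 X
      omega
    · have h8 := hS0 S
      have h9 := hS1 S
      omega
  · right
    have h6 : (lam X1 - lam X0) + (rho S1 - rho S0) ≤ 3 := by omega
    have h7 : lam X0 < lam X1 := by
      by_contra hcon
      have h8 : ∀ X, lam X = lam X0 := fun X => by
        have := hX0 X
        have := hX1 X
        omega
      have h9 := hld.line (S0 - e p l W)
      rw [sub_add_cancel, h8] at h9
      have h10 := (hN (S0 - e p l W) S0).2
      omega
    have h8 : rho S0 < rho S1 := by
      by_contra hcon
      have h8 : ∀ S, rho S = rho S0 := fun S => by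
        have := hS0 S
        have := hS1 S
        omega
      have h9 := hld.line X0
      rw [h8] at h9
      have h10 := (hN X0 (X0 + e p l W)).2
      omega
    have hAB : AB l a b z W (fun X => lam X - lam X0) (fun S => rho S - rho S0) := by
      refine ⟨?_, fun X => ?_, fun S => ?_, ⟨X0, sub_self _⟩, ⟨S0, sub_self _⟩⟩
      · have h9 := TYPaux.ld_shift hld (lam X0)
        have h10 : (fun S => rho S + lam X0) = (fun S => rho S - rho S0 - 2) := by
          funext S
          linarith
        rw [h10] at h9
        exact h9
      · have := hX0 X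
        omega
      · have := hS0 S
        omega
    refine ⟨_, _, lam X0, hAB, fun X => by ring, fun S => by linarith, fun X => ?_, fun S => ?_,
      ?_, ⟨X1, ?_⟩, ⟨S1, ?_⟩⟩
    · have := hX1 X
      omega
    · have := hS1 S
      omega
    · rcases (by omega : rho S1 ≤ rho S0 + 1 ∨ lam X1 ≤ lam X0 + 1) with h9 | h9
      · left
        intro S
        have := hS1 S
        omega
      · right
        intro X
        have := hX1 X
        omega
    · omega
    · omega

end Helper11.LV
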