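import Pool.Agent.Helper11.LV.StD
import Pool.Agent.Helper11.N1.All

set_option autoImplicit false
set_option linter.unusedSectionVars false

/-!
Project LV, module V0: `a < b + k` is impossible.
-/

namespace Helper11.LV

open Helper11.N1

namespace V0aux

open Helper11.N1.NBaux

section

variable {p l a b k : ℕ} [NeZero p] [NeZero l] {z : ZMod p → ZMod (p * l)}

theorem NN_one (hD : Disj l a b z) {X S : ZMod (p * l)} {f : ZMod p} (h : box l a b z f X S) :
    NN l a b z X S = 1 := by
  classical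
  unfold NN
  rw [Finset.sum_eq_single f, if_pos h]
  · intro g _ hg
    rw [if_neg]
    intro h1
    exact hg (hD g f X S h1 h)
  · intro h1
    exact absurd (Finset.mem_univ f) h1

/-- the claim (1) -/
theorem claim (hRUN : StRUN) (hJV : StJV) (hT : TC p l a b k z) (habk : a < b + k)
    (x0 : ZMod p) (hTL : TL l b k z x0) :
    ∃ x, sc l z x = sc l z (x0 - hh p b k) + a * l := by
  classical
  by_contra hno
  push Not at hno
  have hP := hT.hP
  have hD := hT.hD
  obtain ⟨hq, haq, hbq, hM⟩ := prods hP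
  have hk1 := hT.hk
  have hka := hT.hk2
  have h2a := hT.ha2
  have habp := hP.hab
  have hb2 := hP.hb
  set y : ZMod p := x0 - hh p b k with hy
  have hdy : dd x0 y = b + k := by
    unfold dd
    rw [hy, sub_sub_cancel]
    unfold hh
    rw [ZMod.val_natCast, Nat.mod_eq_of_lt (by omega)]
  obtain ⟨lam, rho, hL⟩ := aLDX p l a b hP z x0 (fun X S => hT.hF X x0 S)
  obtain ⟨v1, v2, v3⟩ := hJV p l a b k z hT x0 lam rho hL
  have hstep := hRUN p l a b k z hT x0 lam rho hL y
  have hbl := (bl p l a b hP z x0 y).1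
  have hd : (x0 - y).val = b + k := hdy
  rw [hd] at hbl
  have hs1 : (b + k - a) * l = (b + k) * l - a * l := Nat.sub_mul _ _ _
  have hs2 : (b + k) * l = b * l + k * l := Nat.add_mul _ _ _
  have hs3 : k * l + l ≤ a * l := by
    calc k * l + l = (k + 1) * l := by ring
      _ ≤ a * l := Nat.mul_le_mul_right l hka
  have hs4 : a * l + l ≤ b * l + k * l := by
    calc a * l + l = (a + 1) * l := by ring
      _ ≤ (b + k) * l := Nat.mul_le_mul_right l habk
      _ = b * l + k * l := hs2
  have hs5 : l ≤ k * l := by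
    calc l = 1 * l := (one_mul l).symm
      _ ≤ k * l := Nat.mul_le_mul_right l hk1
  have hpt : ∀ t : ℕ, t < p * l →
      (box l a b z y (z y - (t : ZMod (p * l))) (z y - (t : ZMod (p * l)) + e p l x0) ↔
        (b + k - a) * l ≤ t ∧ t < b * l ∧ t < (b + k) * l) := by
    intro t ht
    rw [hbl, off_nat' (z y) ht]
  have hconst : ∀ t n : ℕ, (b + k - a) * l ≤ t → t + n < b * l →
      lam (z y - ((t + n : ℕ) : ZMod (p * l))) = lam (z y - (t : ZMod (p * l))) := by
    intro t n h1 h2
    induction n with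
    | zero => rfl
    | succ n ih =>
      have ih' := ih (by omega)
      have e1 : z y - ((t + (n + 1) : ℕ) : ZMod (p * l)) + 1 =
          z y - ((t + n : ℕ) : ZMod (p * l)) := by push_cast; ring
      have b1 := (hpt (t + (n + 1)) (by omega)).2 ⟨by omega, by omega, by omega⟩
      have b2 := (hpt (t + n) (by omega)).2 ⟨by omega, by omega, by omega⟩
      have b3 := hstep (z y - ((t + (n + 1) : ℕ) : ZMod (p * l))) b1 (by rw [e1]; exact b2)
      rw [e1] at b3
      exact b3.1.symm.trans ih'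
  set t0 : ℕ := (b + k - a) * l with ht0
  have hbox0 := (hpt t0 (by omega)).2 ⟨le_rfl, by omega, by omega⟩
  set X0 : ZMod (p * l) := z y - (t0 : ZMod (p * l)) with hX0
  have hline := hL.line X0
  rw [NN_one hD hbox0] at hline
  -- the left side of `y`
  have heL : eL l a b k z x0 y := by
    refine ⟨by omega, by omega, fun _ => by omega⟩
  have hl1 : lam (z y - b * l + 1) = lam X0 := by
    have h1 := hconst t0 (b * l - 1 - t0) le_rfl (by omega)
    have h2 : t0 + (b * l - 1 - t0) = b * l - 1 := by omega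
    rw [h2] at h1
    rw [← h1]
    congr 1
    rw [Nat.cast_sub (by omega)]
    push_cast
    ring
  have hl2 := v2 y heL
  have hzx : z y - b * l = z x0 := by
    have h1 : z y = z x0 + b * l := hTL
    rw [h1]
    ring
  rw [hl1, hzx] at hl2
  -- the row of `X0`
  have hS1 : X0 + e p l x0 = sc l z y + a * l := by
    have h1 : e p l x0 = e p l y + (((b + k) * l : ℕ) : ZMod (p * l)) := by
      have h2 := eW (q := l) x0 y
      rw [hd] at h2
      exact h2
    have h2 : (b + k) * l = t0 + a * l := by omega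
    rw [h1, h2, hX0]
    unfold sc
    push_cast
    ring
  have hrj := hL.rj (sc l z y + a * l)
  have hB : (∑ j : ZMod p, if aB b x0 j ∧ sc l z j = sc l z y + a * l then (1 : ℤ) else 0) = 0 := by
    apply Finset.sum_eq_zero
    intro j _
    rw [if_neg]
    intro h
    exact hno j h.2
  have hTy : (1 : ℤ) ≤ ∑ j : ZMod p, if aT a b x0 j ∧ sc l z j + a * l = sc l z y + a * l
      then (1 : ℤ) else 0 := by
    have h1 : aT a b x0 y := (aT_iff hP x0 y).2 (by rw [hd]; omega)
    have h2 := Finset.single_le_sum (s := Finset.univ) (f := fun j : ZMod p =>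
      if aT a b x0 j ∧ sc l z j + a * l = sc l z y + a * l then (1 : ℤ) else 0)
      (fun j _ => by
        by_cases h3 : aT a b x0 j ∧ sc l z j + a * l = sc l z y + a * l
        · simp only [if_pos h3]; norm_num
        · simp only [if_neg h3]; norm_num) (Finset.mem_univ y)
    simp only [h1, true_and, if_true] at h2
    exact h2
  -- the box of `x0`
  have hbx : box l a b z x0 (z x0) (sc l z y + a * l + 1) := by
    refine ⟨by rw [off_self]; omega, ?_⟩
    have h1 : sc l z y = sc l z x0 - ((k * l : ℕ) : ZMod (p * l)) := by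
      have h3 : z y = z x0 + b * l := hTL
      unfold sc
      rw [h3, hy, e_sub]
      unfold hh
      rw [e_natCast]
      push_cast
      ring
    have h2 : sc l z y + a * l + 1 = sc l z x0 + 1 + ((a * l - k * l : ℕ) : ZMod (p * l)) := by
      rw [h1, Nat.cast_sub (by omega)]
      push_cast
      ring
    rw [h2, off_nat _ (by omega)]
    omega
  have hup := hL.up (z x0) (sc l z y + a * l + 1)
  rw [NN_one hD hbx] at hup
  rw [hS1] at hline
  rw [hB] at hrj
  have h9 : rho (sc l z y + a * l + 1) - rho (sc l z y + a * l) ≥ 1 := by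
    rw [hrj]
    have := hTy
    linarith
  linarith

end

end V0aux

theorem v0 : StCA → StRUN → StJV → StV0 := by
  intro hCA hRUN hJV p l a b k _ _ z ρ τ hC hcop habk
  obtain ⟨⟨hz0, hs0⟩, c2, c3, c4, c5, c6, c7, -, -, -, -, -⟩ := hCA p l a b k z ρ τ hC
  have hT := hC.toTC
  have hlp := hC.hlp
  have hl2 := hT.hl2
  have hka := hT.hk2
  have hk1 := hT.hk
  have h2a := hT.ha2
  have hp5 := hT.hP.hab
  have ha2 := hT.hP.ha
  have hb2 := hT.hP.hb
  -- the rows
  have hrow : ∀ n : ℕ, l ≤ n → n < p → ∃ v : ℕ, v < p ∧ ∃ c1 : ℤ, (v : ℤ) - ((n : ℤ) - l) = l * c1 ∧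
      (p : ℤ) ∣ c1 * k - a := by
    intro n h1 h2
    have hTL := (c7 n h2).2 h1
    obtain ⟨x, hx⟩ := V0aux.claim hRUN hJV hT habk _ hTL
    obtain ⟨v, hv, rfl⟩ := c2 x
    refine ⟨v, hv, ?_⟩
    have h3 : (n : ZMod p) * ρ - hh p b k = ((n - l : ℕ) : ZMod p) * ρ := by
      rw [← hC.hlr, Nat.cast_sub h1]
      ring
    rw [h3, c3 v hv, c3 (n - l) (by omega)] at hx
    have h4 : (((v : ℤ) - ((n : ℤ) - l) : ℤ) : ZMod (p * l)) * (τ + e p l ρ) =
        ((a : ℤ) : ZMod (p * l)) * l := by
      rw [Nat.cast_sub h1] at hx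
      push_cast
      linear_combination hx
    exact c6 _ _ h4
  obtain ⟨u, hu, u1, hu1, hu2⟩ := hrow l le_rfl hlp
  obtain ⟨v, hv, v1, hv1, hv2⟩ := hrow (p - 1) (by omega) (by omega)
  have hp0 : (0 : ℤ) < p := by omega
  have hl0 : (0 : ℤ) < l := by omega
  have hkp : IsCoprime (p : ℤ) (k : ℤ) := by
    rw [Int.isCoprime_iff_gcd_eq_one]
    have h1 : Nat.gcd p k ∣ a := by
      have h2 : ((Nat.gcd p k : ℕ) : ℤ) ∣ (a : ℤ) := by
        have h3 : ((Nat.gcd p k : ℕ) : ℤ) ∣ u1 * k - a :=
          (Int.natCast_dvd_natCast.2 (Nat.gcd_dvd_left p k)).trans hu2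
        have h4 : ((Nat.gcd p k : ℕ) : ℤ) ∣ u1 * k :=
          (Int.natCast_dvd_natCast.2 (Nat.gcd_dvd_right p k)).mul_left u1
        have h5 := dvd_sub h4 h3
        rwa [sub_sub_cancel] at h5
      exact Int.natCast_dvd_natCast.1 h2
    have h3 : Nat.gcd p k ∣ Nat.gcd a p := Nat.dvd_gcd h1 (Nat.gcd_dvd_left p k)
    rw [hcop] at h3
    have h4 := Nat.dvd_one.1 h3
    rw [Int.gcd_natCast_natCast]
    exact h4
  have hdv : (p : ℤ) ∣ u1 - v1 := by
    have h1 := dvd_sub hu2 hv2
    have h2 : u1 * k - a - (v1 * k - a) = (u1 - v1) * k := by ring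
    rw [h2] at h1
    exact hkp.dvd_of_dvd_mul_right h1
  have hcast : ((p - 1 : ℕ) : ℤ) = (p : ℤ) - 1 := by
    rw [Nat.cast_sub (by omega)]
    norm_num
  rw [hcast] at hv1
  have hdiff : (u1 - v1) * l = u - v + (p - 1 - l) := by
    linear_combination -hu1 + hv1
  have hge : -1 ≤ u1 - v1 := by
    by_contra h
    push Not at h
    have h1 : (u1 - v1) * l ≤ -2 * l := by
      apply mul_le_mul_of_nonneg_right _ hl0.le
      omega
    omega
  have hlt : u1 - v1 < p := by
    by_contra h
    push Not at h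
    have h1 : (p : ℤ) * l ≤ (u1 - v1) * l := mul_le_mul_of_nonneg_right h hl0.le
    have h2 : (p : ℤ) * 2 ≤ p * l := by
      apply mul_le_mul_of_nonneg_left _ hp0.le
      omega
    omega
  obtain ⟨c, hc⟩ := hdv
  have hc0 : c = 0 := by
    by_contra h
    rcases lt_or_gt_of_ne h with h1 | h1
    · have h2 : (p : ℤ) * c ≤ p * (-1) := mul_le_mul_of_nonneg_left (by omega) hp0.le
      omega
    · have h2 : (p : ℤ) * 1 ≤ p * c := mul_le_mul_of_nonneg_left (by omega) hp0.le
      omega
  have heq : u1 = v1 := by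
    rw [hc0, mul_zero] at hc
    omega
  have hu0 : 0 ≤ u1 := by
    by_contra h
    have h1 : (l : ℤ) * u1 ≤ l * (-1) := mul_le_mul_of_nonneg_left (by omega) hl0.le
    omega
  have hv1' : v1 ≤ 1 := by
    by_contra h
    have h1 : (l : ℤ) * 2 ≤ l * v1 := mul_le_mul_of_nonneg_left (by omega) hl0.le
    omega
  have hcase : u1 = 0 ∨ u1 = 1 := by omega
  rcases hcase with h | h
  · rw [h, zero_mul, zero_sub] at hu2
    have h1 := Int.le_of_dvd (by omega) ((dvd_neg).1 hu2)
    omega
  · rw [h, one_mul] at hu2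
    have h1 : (p : ℤ) ∣ (a : ℤ) - k := by
      have := (dvd_neg).2 hu2
      rwa [neg_sub] at this
    have h2 := Int.le_of_dvd (by omega) h1
    omega

end Helper11.LV
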