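import Pool.Agent.Helper11.LV.StD
import Pool.Agent.Helper11.N1.All

set_option autoImplicit false
set_option linter.unusedSectionVars false

/-!
Project LV, module V1: immediate violation of flatness.
-/

namespace Helper11.LV

open Helper11.N1

namespace V1aux

section

variable {p l a b k : ℕ} [NeZero p] [NeZero l] {z : ZMod p → ZMod (p * l)}

theorem NN_one (hD : Disj l a b z) {X S : ZMod (p * l)} {f : ZMod p} (h : box l a b z f X S) :
    NN l a b z X S = 1 := by
  unfold NN
  rw [Finset.sum_eq_single f, if_pos h]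
  · intro g _ hg
    rw [if_neg (fun h1 => hg (hD g f X S h1 h))]
  · intro h1
    exact absurd (Finset.mem_univ f) h1

/-- the place of a right side is a line point -/
theorem box_R (hP : Par p l a b) {W j : ZMod p} (h1 : 1 ≤ dd W j) (h2 : dd W j ≤ a) :
    box l a b z j (z j) (z j + e p l W) := by
  obtain ⟨hq, haq, hbq, hM⟩ := NBaux.prods hP
  have h3 : dd W j * l ≤ a * l := Nat.mul_le_mul_right l h2
  have h4 : l ≤ dd W j * l := by
    calc l = 1 * l := (one_mul l).symm
      _ ≤ _ := Nat.mul_le_mul_right l h1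
  refine ⟨by rw [off_self]; omega, ?_⟩
  have h5 : z j + e p l W = sc l z j + 1 + ((dd W j * l - 1 : ℕ) : ZMod (p * l)) := by
    rw [Nat.cast_sub (by omega), Nat.cast_one, NBaux.eW W j]
    unfold sc dd
    ring
  rw [h5, off_nat _ (by omega)]
  omega

/-- a chain of ties -/
theorem chain (x : ZMod p) (m : ℕ) (h : ∀ s < m, TL l b k z (x - (s : ZMod p) * hh p b k)) :
    z (x - (m : ZMod p) * hh p b k) = z x + ((m * (b * l) : ℕ) : ZMod (p * l)) := by
  induction m with
  | zero => simp
  | succ n ih =>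
    have h1 := h n (by omega)
    unfold TL at h1
    have h2 := ih (fun s hs => h s (by omega))
    have h3 : x - ((n + 1 : ℕ) : ZMod p) * hh p b k =
        x - (n : ZMod p) * hh p b k - hh p b k := by
      push_cast
      ring
    rw [h3, h1, h2]
    push_cast
    ring

theorem mh (m : ℕ) : (m : ZMod p) * hh p b k = ((m * (b + k) : ℕ) : ZMod p) := by
  unfold hh
  push_cast
  ring

theorem sc_chain (x : ZMod p) (m : ℕ)
    (h : ∀ s < m, TL l b k z (x - (s : ZMod p) * hh p b k)) :
    sc l z (x - (m : ZMod p) * hh p b k) = sc l z x - ((m * k * l : ℕ) : ZMod (p * l)) := by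
  unfold sc
  rw [chain x m h, e_sub, mh, e_natCast]
  push_cast
  ring

end

end V1aux

open V1aux in
theorem v1 : StCA → StNB → StV1 := by
  intro hCA hNB p l a b k _ _ z ρ τ hC hba j hj1 hj2 hj3 hj4
  have hT := hC.toTC
  have hP := hT.hP
  have hk := hT.hk
  have hka := hT.hk2
  obtain ⟨hq, haq, hbq, hM⟩ := NBaux.prods hP
  obtain ⟨ha2, hb2, hab, -⟩ := hT.hP
  obtain ⟨-, -, -, -, -, -, c7, -⟩ := hCA p l a b k z ρ τ hC
  have hj : 2 ≤ j := by
    by_contra h
    have h1 : j * (b + k) ≤ 1 * (b + k) := Nat.mul_le_mul_right _ (by omega)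
    omega
  obtain ⟨x0, hx0⟩ : ∃ x0 : ZMod p, x0 = ((j * l : ℕ) : ZMod p) * ρ := ⟨_, rfl⟩
  have hy : ∀ s : ℕ, s ≤ j →
      x0 - (s : ZMod p) * hh p b k = (((j - s) * l : ℕ) : ZMod p) * ρ := by
    intro s hs
    rw [hx0, ← hC.hlr, Nat.cast_mul, Nat.cast_mul, Nat.cast_sub hs]
    ring
  have hTL : ∀ s < j, TL l b k z (x0 - (s : ZMod p) * hh p b k) := by
    intro s hs
    have h1 : (j - s) * l ≤ j * l := Nat.mul_le_mul_right l (by omega)
    rw [hy s hs.le, c7 ((j - s) * l) (by omega)]
    exact Nat.le_mul_of_pos_left l (by omega)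
  have hsh : ∀ s : ℕ, s ≤ j → s * (b + k) ≤ j * (b + k) := fun s hs => Nat.mul_le_mul_right _ hs
  have hdd : ∀ s : ℕ, s ≤ j → dd x0 (x0 - (s : ZMod p) * hh p b k) = s * (b + k) := by
    intro s hs
    have h1 := hsh s hs
    unfold dd
    rw [sub_sub_cancel, mh, ZMod.val_natCast, Nat.mod_eq_of_lt (by omega)]
  have hsucc : ∀ s : ℕ, x0 - (s : ZMod p) * hh p b k - hh p b k =
      x0 - ((s + 1 : ℕ) : ZMod p) * hh p b k := by
    intro s
    push_cast
    ring
  obtain ⟨lam, rho, hL⟩ := N1.ldx (N1.lj N1.bl) N1.dec p l a b hP z x0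
    (fun X S => hT.hF X x0 S)
  have hnb := hNB p l a b k z hT hba x0 lam rho hL
  -- the box `y_1`
  have hd1 := hdd 1 (by omega)
  rw [one_mul] at hd1
  have hb1 : box l a b z (x0 - ((1 : ℕ) : ZMod p) * hh p b k)
      (z (x0 - ((1 : ℕ) : ZMod p) * hh p b k))
      (z (x0 - ((1 : ℕ) : ZMod p) * hh p b k) + e p l x0) :=
    box_R hP (by rw [hd1]; omega) (by rw [hd1]; omega)
  obtain ⟨α, hα⟩ : ∃ α, lam (z (x0 - ((1 : ℕ) : ZMod p) * hh p b k)) = α := ⟨_, rfl⟩
  obtain ⟨β, hβ⟩ : ∃ β, rho (z (x0 - ((1 : ℕ) : ZMod p) * hh p b k) + e p l x0) = β := ⟨_, rfl⟩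
  have hαβ : α + β = -1 := by
    have h1 := hL.line (z (x0 - ((1 : ℕ) : ZMod p) * hh p b k))
    rw [NN_one hT.hD hb1, hα, hβ] at h1
    omega
  have hz0 : z (x0 - ((1 : ℕ) : ZMod p) * hh p b k) = z x0 + b * l := by
    have h1 := chain x0 1 (fun s hs => hTL s (by omega))
    rw [h1]
    push_cast
    ring
  have hlam0 : lam (z x0) = α + 1 := by
    obtain ⟨-, -, -, n4, -⟩ := hnb _ _ hb1
    have h1 := (n4 (by rw [hd1]; omega) ⟨by rw [hd1]; omega, by rw [hd1]; omega,
      fun _ => by rw [hd1]⟩).1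
    rw [hα] at h1
    rw [← h1, hz0]
    congr 1
    ring
  -- going right
  have hright : ∀ s : ℕ, 1 ≤ s → s + 1 ≤ j → ∃ X : ZMod (p * l),
      box l a b z (x0 - (s : ZMod p) * hh p b k) X (X + e p l x0) ∧ lam X = α ∧
        rho (X + e p l x0) = β := by
    intro s hs
    induction s, hs using Nat.le_induction with
    | base =>
      intro _
      exact ⟨_, hb1, hα, hβ⟩
    | succ s hs ih =>
      intro hsj
      obtain ⟨X, hX, h1, h2⟩ := ih (by omega)
      have h3 := hdd s (by omega)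
      have h4 : (s + 1 + 1) * (b + k) ≤ j * (b + k) := hsh (s + 1 + 1) hsj
      have h5 : (s + 1 + 1) * (b + k) = s * (b + k) + (b + k) + (b + k) := by ring
      have h6 : ¬ eR l a b k z x0 (x0 - (s : ZMod p) * hh p b k) := by
        rintro ⟨-, -, h⟩
        have := h (hTL s (by omega))
        rw [h3] at this
        omega
      obtain ⟨-, -, -, -, -, -, n7, -⟩ := hnb _ _ hX
      obtain ⟨-, -, -, g1, g2, -⟩ := n7 (by rw [h3]; omega) h6
      obtain ⟨g3, g4⟩ := g2 (by rw [h3]; omega)
      rw [hsucc] at g3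
      exact ⟨_, g3, g1.trans h1, g4.trans h2⟩
  -- the top of `y_j`
  have htop : rho (sc l z (x0 - (j : ZMod p) * hh p b k) + a * l + 1) = β + 1 := by
    obtain ⟨s, hs⟩ : ∃ s, j = s + 1 := ⟨j - 1, by omega⟩
    obtain ⟨X, hX, h1, h2⟩ := hright s (by omega) (by omega)
    have h3 := hdd s (by omega)
    have h4 : j * (b + k) = s * (b + k) + (b + k) := by rw [hs]; ring
    have h6 : ¬ eR l a b k z x0 (x0 - (s : ZMod p) * hh p b k) := by
      rintro ⟨-, -, h⟩
      have := h (hTL s (by omega))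
      rw [h3] at this
      omega
    obtain ⟨-, -, -, -, -, -, n7, -⟩ := hnb _ _ hX
    obtain ⟨-, -, -, g1, g2, g5⟩ := n7 (by rw [h3]; omega) h6
    rw [h3] at g2 g5
    rw [hsucc, ← hs] at g2
    by_cases hlt : s * (b + k) + k < a
    · obtain ⟨g3, g4⟩ := g2 hlt
      obtain ⟨-, -, -, -, -, -, -, n8⟩ := hnb _ _ g3
      have g6 := (n8 (by rw [hdd j le_rfl]; omega)).1
      rw [g6, g4, h2]
    · have g6 := g5 (by omega)
      rw [h2] at g6
      rw [← g6]
      congr 1
      have e1 : sc l z (x0 - (j : ZMod p) * hh p b k) =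
          sc l z (x0 - (s : ZMod p) * hh p b k) - ((k * l : ℕ) : ZMod (p * l)) := by
        have e2 := sc_chain x0 j (fun s hs => hTL s hs)
        have e3 := sc_chain x0 s (fun s hs => hTL s (by omega))
        rw [e2, e3, hs]
        push_cast
        ring
      have e4 : z (x0 - (s : ZMod p) * hh p b k) + e p l x0 =
          sc l z (x0 - (s : ZMod p) * hh p b k) + ((s * (b + k) * l : ℕ) : ZMod (p * l)) := by
        have e5 := NBaux.eW (q := l) x0 (x0 - (s : ZMod p) * hh p b k)
        unfold dd at h3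
        rw [h3] at e5
        unfold sc
        rw [e5]
        ring
      have e6 : ((a * l : ℕ) : ZMod (p * l)) = ((s * (b + k) * l : ℕ) : ZMod (p * l)) +
          ((k * l : ℕ) : ZMod (p * l)) := by
        rw [← Nat.cast_add]
        congr 1
        have : a = s * (b + k) + k := by omega
        calc a * l = (s * (b + k) + k) * l := by rw [← this]
          _ = _ := by ring
      have e7 : z (x0 - (s : ZMod p) * hh p b k) + 1 + e p l x0 =
          z (x0 - (s : ZMod p) * hh p b k) + e p l x0 + 1 := by ring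
      rw [e7, e4, e1]
      rw [Nat.cast_mul] at e6
      rw [e6]
      ring
  -- the box `x0`
  have hjk : k ≤ j * k := Nat.le_mul_of_pos_left k (by omega)
  have hbx : box l a b z x0 (z x0) (sc l z (x0 - (j : ZMod p) * hh p b k) + a * l + 1) := by
    refine ⟨by rw [off_self]; omega, ?_⟩
    have h1 : (a - j * k) * l + l ≤ a * l := by
      calc (a - j * k) * l + l = (a - j * k + 1) * l := by ring
        _ ≤ _ := Nat.mul_le_mul_right l (by omega)
    have h2 : sc l z (x0 - (j : ZMod p) * hh p b k) + a * l + 1 =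
        sc l z x0 + 1 + (((a - j * k) * l : ℕ) : ZMod (p * l)) := by
      rw [sc_chain x0 j (fun s hs => hTL s hs), Nat.cast_mul (a - j * k), Nat.cast_sub hj4]
      push_cast
      ring
    rw [h2, off_nat _ (by omega)]
    omega
  have hup := hL.up (z x0) (sc l z (x0 - (j : ZMod p) * hh p b k) + a * l + 1)
  rw [NN_one hT.hD hbx, hlam0, htop] at hup
  omega

end Helper11.LV
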