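import Pool.Agent.Helper11.LV.StB

set_option autoImplicit false
set_option linter.unusedSectionVars false

/-!
# Project LV: module WLK (walking up and down)
-/

namespace Helper11.LV

open Helper11.N1

namespace WLKaux

section

variable {p l a b k : ℕ} [NeZero p] [NeZero l] {z : ZMod p → ZMod (p * l)}

theorem al_lt (h : TC p l a b k z) : a * l < p * l := by
  have h1 := h.hP.hab
  have h2 := h.hl2
  exact Nat.mul_lt_mul_of_pos_right (by omega) (by omega)

theorem al_pos (h : TC p l a b k z) : 0 < a * l := by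
  have h1 := h.hP.ha
  have h2 := h.hl2
  exact Nat.mul_pos (by omega) (by omega)

theorem up (hC : StCOV) (hJ : StJH) (h : TC p l a b k z) (hbk : b + k ≤ a) {W : ZMod p}
    {i u : ZMod (p * l) → ℤ} (hA : AB l a b z W i u) {X S : ZMod (p * l)} {f : ZMod p}
    (hi : i X = 0) (hb : box l a b z f X S)
    (hall : ∀ n : ℕ, off (sc l z f + 1) S + n < a * l → u (S + n) = 0) :
    ∃ y : ZMod p, sc l z y = sc l z f ∧ a < dd W y ∧ dd W y ≤ a + b := by
  obtain ⟨-, -, -, -, -, c6, -⟩ := hC p l a b k z h hbk W i u hA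
  obtain ⟨j1, j2, j3⟩ := hJ p l a b k z h hbk W i (fun S => u S - 2) hA.ld
  have hM := al_lt h
  have h0 := al_pos h
  obtain ⟨hb1, hb2⟩ := hb
  have hSt : S + ((a * l - 1 - off (sc l z f + 1) S : ℕ) : ZMod (p * l)) =
      sc l z f + ((a * l : ℕ) : ZMod (p * l)) := by
    have e1 := off_spec (sc l z f + 1) S
    obtain ⟨o, ho⟩ : ∃ o, o = off (sc l z f + 1) S := ⟨_, rfl⟩
    rw [← ho] at e1 hb2 ⊢
    have e2 : ((a * l : ℕ) : ZMod (p * l)) = ((o + (a * l - 1 - o) + 1 : ℕ) : ZMod (p * l)) := by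
      congr 1
      omega
    rw [e2, ← e1]
    push_cast
    ring
  have hu := hall (a * l - 1 - off (sc l z f + 1) S) (by omega)
  rw [hSt] at hu
  have ho : off (sc l z f + 1) (sc l z f + ((a * l : ℕ) : ZMod (p * l))) = a * l - 1 := by
    have e2 : sc l z f + ((a * l : ℕ) : ZMod (p * l)) =
        (sc l z f + 1) + ((a * l - 1 : ℕ) : ZMod (p * l)) := by
      have e3 : ((a * l : ℕ) : ZMod (p * l)) = ((1 + (a * l - 1) : ℕ) : ZMod (p * l)) := by
        congr 1
        omega
      rw [e3]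
      push_cast
      ring
    rw [e2, off_nat _ (by omega)]
  have ho1 : off (sc l z f + 1) (sc l z f + ((a * l : ℕ) : ZMod (p * l)) + 1) = a * l := by
    have e2 : sc l z f + ((a * l : ℕ) : ZMod (p * l)) + 1 =
        (sc l z f + 1) + ((a * l : ℕ) : ZMod (p * l)) := by ring
    rw [e2, off_nat _ hM]
  have hne : u (sc l z f + ((a * l : ℕ) : ZMod (p * l)) + 1) ≠ 0 := by
    intro h1
    have h2 := c6 X (sc l z f + ((a * l : ℕ) : ZMod (p * l))) f hi h1
      ⟨hb1, by rw [ho]; omega⟩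
    have h3 := h2.2
    rw [ho1] at h3
    omega
  have hcast : ∀ y : ZMod p, sc l z y + a * l = sc l z y + ((a * l : ℕ) : ZMod (p * l)) := by
    intro y
    push_cast
    ring
  by_cases hB : ∃ x, 1 ≤ dd W x ∧ dd W x ≤ b ∧ sc l z x = sc l z f + ((a * l : ℕ) : ZMod (p * l))
  · exfalso
    obtain ⟨x, hx1, hx2, hx3⟩ := hB
    have h1 := j1 x hx1 hx2
    rw [hx3, hu] at h1
    have h2 := hA.u0 (sc l z f + ((a * l : ℕ) : ZMod (p * l)) + 1)
    omega
  by_cases hT : ∃ y, a < dd W y ∧ dd W y ≤ a + b ∧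
      sc l z y + a * l = sc l z f + ((a * l : ℕ) : ZMod (p * l))
  · obtain ⟨y, hy1, hy2, hy3⟩ := hT
    rw [hcast y] at hy3
    exact ⟨y, add_right_cancel hy3, hy1, hy2⟩
  · exfalso
    have h1 := j3 (sc l z f + ((a * l : ℕ) : ZMod (p * l)))
      (fun x hx1 hx2 hx3 => hB ⟨x, hx1, hx2, hx3⟩) (fun y hy1 hy2 hy3 => hT ⟨y, hy1, hy2, hy3⟩)
    rw [hu] at h1
    exact hne (by linarith)

theorem down (hC : StCOV) (hJ : StJH) (h : TC p l a b k z) (hbk : b + k ≤ a) {W : ZMod p}
    {i u : ZMod (p * l) → ℤ} (hA : AB l a b z W i u) {X S : ZMod (p * l)} {f : ZMod p}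
    (hi : i X = 0) (hb : box l a b z f X S)
    (hall : ∀ n : ℕ, n ≤ off (sc l z f + 1) S → u (S - (n : ZMod (p * l))) = 0) :
    ∃ x : ZMod p, sc l z x = sc l z f ∧ 1 ≤ dd W x ∧ dd W x ≤ b := by
  obtain ⟨-, -, -, -, -, -, c7⟩ := hC p l a b k z h hbk W i u hA
  obtain ⟨j1, j2, j3⟩ := hJ p l a b k z h hbk W i (fun S => u S - 2) hA.ld
  have hM := al_lt h
  have h0 := al_pos h
  obtain ⟨hb1, hb2⟩ := hb
  have hu := hall (off (sc l z f + 1) S) le_rfl
  rw [off_spec'] at hu
  have hne : u (sc l z f) ≠ 0 := by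
    intro h1
    have h2 := c7 X (sc l z f) f hi h1 ⟨hb1, by rw [off_self]; exact h0⟩
    have h3 := h2.2
    have h4 : sc l z f + 1 ≠ sc l z f := by
      intro h5
      have h6 : off (sc l z f) (sc l z f + ((1 : ℕ) : ZMod (p * l))) = 1 := off_nat _ (by omega)
      rw [Nat.cast_one, h5, off_self] at h6
      omega
    have h5 := off_symm h4
    have h6 : off (sc l z f) (sc l z f + 1) = 1 := by
      have h7 : off (sc l z f) (sc l z f + ((1 : ℕ) : ZMod (p * l))) = 1 := off_nat _ (by omega)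
      rwa [Nat.cast_one] at h7
    omega
  by_cases hT : ∃ y, a < dd W y ∧ dd W y ≤ a + b ∧ sc l z y + a * l = sc l z f
  · exfalso
    obtain ⟨y, hy1, hy2, hy3⟩ := hT
    have h1 := j2 y hy1 hy2
    rw [hy3, hu] at h1
    have h2 := hA.u0 (sc l z f)
    omega
  by_cases hB : ∃ x, 1 ≤ dd W x ∧ dd W x ≤ b ∧ sc l z x = sc l z f
  · obtain ⟨x, hx1, hx2, hx3⟩ := hB
    exact ⟨x, hx3, hx1, hx2⟩
  · exfalso
    have h1 := j3 (sc l z f)
      (fun x hx1 hx2 hx3 => hB ⟨x, hx1, hx2, hx3⟩) (fun y hy1 hy2 hy3 => hT ⟨y, hy1, hy2, hy3⟩)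
    rw [hu] at h1
    exact hne (by linarith)

end

end WLKaux

open WLKaux

theorem wlk : StCOV → StJH → StWLK := by
  intro hC hJ p l a b k _ _ z h hbk W i u hA X S f hi hu hb
  classical
  constructor
  · by_cases hex : ∃ n : ℕ, off (sc l z f + 1) S + n < a * l ∧ u (S + n) ≠ 0
    · left
      refine ⟨Nat.find hex, ?_, (Nat.find_spec hex).1, ?_, (Nat.find_spec hex).2⟩
      · rcases Nat.eq_zero_or_pos (Nat.find hex) with h1 | h1
        · exfalso
          have h2 := (Nat.find_spec hex).2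
          rw [h1, Nat.cast_zero, add_zero] at h2
          exact h2 hu
        · exact h1
      · intro m hm
        have h1 := Nat.find_min hex hm
        have h2 := (Nat.find_spec hex).1
        by_contra h3
        exact h1 ⟨by omega, h3⟩
    · right
      have hall : ∀ n : ℕ, off (sc l z f + 1) S + n < a * l → u (S + n) = 0 := by
        intro n hn
        by_contra h1
        exact hex ⟨n, hn, h1⟩
      exact ⟨hall, up hC hJ h hbk hA hi hb hall⟩
  · by_cases hex : ∃ n : ℕ, n ≤ off (sc l z f + 1) S ∧ u (S - (n : ZMod (p * l))) ≠ 0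
    · left
      refine ⟨Nat.find hex, ?_, (Nat.find_spec hex).1, ?_, (Nat.find_spec hex).2⟩
      · rcases Nat.eq_zero_or_pos (Nat.find hex) with h1 | h1
        · exfalso
          have h2 := (Nat.find_spec hex).2
          rw [h1, Nat.cast_zero, sub_zero] at h2
          exact h2 hu
        · exact h1
      · intro m hm
        have h1 := Nat.find_min hex hm
        have h2 := (Nat.find_spec hex).1
        by_contra h3
        exact h1 ⟨by omega, h3⟩
    · right
      have hall : ∀ n : ℕ, n ≤ off (sc l z f + 1) S → u (S - (n : ZMod (p * l))) = 0 := by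
        intro n hn
        by_contra h1
        exact hex ⟨n, hn, h1⟩
      exact ⟨hall, down hC hJ h hbk hA hi hb hall⟩

end Helper11.LV
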