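import Pool.Agent.Helper11.LV.M_RUN
import Pool.Agent.Helper11.LV.M_JV
import Pool.Agent.Helper11.LV.M_ND
import Pool.Agent.Helper11.LV.M_JH
import Pool.Agent.Helper11.LV.M_NB
import Pool.Agent.Helper11.LV.M_TYP
import Pool.Agent.Helper11.LV.M_CN
import Pool.Agent.Helper11.LV.M_COV
import Pool.Agent.Helper11.LV.M_WLK
import Pool.Agent.Helper11.LV.M_TA
import Pool.Agent.Helper11.LV.M_TB
import Pool.Agent.Helper11.LV.M_TCB
import Pool.Agent.Helper11.LV.M_TR
import Pool.Agent.Helper11.LV.M_TG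
import Pool.Agent.Helper11.LV.M_PM
import Pool.Agent.Helper11.LV.M_QR
import Pool.Agent.Helper11.LV.M_QL
import Pool.Agent.Helper11.LV.M_QC
import Pool.Agent.Helper11.LV.M_QD
import Pool.Agent.Helper11.LV.M_PT1
import Pool.Agent.Helper11.LV.M_PB0
import Pool.Agent.Helper11.LV.M_PB1
import Pool.Agent.Helper11.LV.M_PB2
import Pool.Agent.Helper11.LV.M_PT2
import Pool.Agent.Helper11.LV.M_CA
import Pool.Agent.Helper11.LV.M_CH
import Pool.Agent.Helper11.LV.M_DIF
import Pool.Agent.Helper11.LV.M_EXS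
import Pool.Agent.Helper11.LV.M_PIG
import Pool.Agent.Helper11.LV.M_E1
import Pool.Agent.Helper11.LV.M_E2
import Pool.Agent.Helper11.LV.M_E3
import Pool.Agent.Helper11.LV.M_V0
import Pool.Agent.Helper11.LV.M_V1
import Pool.Agent.Helper11.LV.M_LC
import Pool.Agent.Helper11.LV.M_LX

set_option autoImplicit false

/-!
# Project LV: assembly
-/

namespace Helper11.LV

theorem nd_h : StND := nd run jv
theorem jh_h : StJH := jh nd_h
theorem nb_h : StNB := nb run jv jh_h nd_h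
theorem cov_h : StCOV := cov nd_h
theorem wlk_h : StWLK := wlk cov_h jh_h
theorem ta_h : StTA := ta cov_h nb_h
theorem tb_h : StTB := tb cov_h nb_h
theorem tcb_h : StTCB := tcb tb_h cov_h
theorem tr_h : StTR := tr jv nb_h cov_h
theorem tg_h : StTG := tg tb_h cn
theorem pm_h : StPM := pm nb_h jh_h cn cov_h
theorem qr_h : StQR := qr ta_h cov_h wlk_h
theorem ql_h : StQL := ql ta_h cov_h wlk_h
theorem qc_h : StQC := qc ta_h nb_h cov_h
theorem qd_h : StQD := qd ta_h cn cov_h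
theorem pt1_h : StPT1 := pt1 ta_h nb_h cov_h qr_h qc_h qd_h
theorem pb0_h : StPB0 := pb0 ta_h nb_h jh_h cov_h qr_h ql_h qc_h
theorem pb1_h : StPB1 := pb1 ta_h jh_h cn cov_h qc_h qd_h pb0_h
theorem pb2_h : StPB2 := pb2 jv nb_h cov_h tb_h tcb_h tr_h tg_h
theorem pt2_h : StPT2 := pt2 jh_h nb_h cov_h tb_h tcb_h tr_h tg_h
theorem ch_h : StCH := ch ca
theorem exs_h : StEXS := exs ca jv jh_h dif
theorem pig_h : StPIG := pig ca
theorem e1_h : StE1 := e1 ca typ ta_h tb_h pig_h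
theorem e2_h : StE2 := e2 ca typ jv nb_h cov_h ta_h tb_h tcb_h pig_h
theorem e3_h : StE3 := e3 ca typ nb_h cov_h ta_h tb_h tcb_h tr_h
theorem v0_h : StV0 := v0 ca run jv
theorem v1_h : StV1 := v1 ca nb_h
theorem lc_h : StLC := lc ca ch_h typ dif exs_h pm_h pb1_h pb2_h pt1_h pt2_h e1_h e2_h e3_h v1_h

/-- the exact tie model with disjoint boxes and `k ≥ 1`: all levels are in normal form -/
theorem lx_h : StLX := lx lc_h v0_h

end Helper11.LV
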