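import Pool.Agent.Helper11.N1.M_NB

set_option autoImplicit false
set_option linter.unusedSectionVars false

/-!
# Levels of tie configurations: definitions

Positions are elements of `ZMod (p * l)`, one row step is `l` units.  `h = b + k` is the row step
of a tie: the box `x - h` lies `b l` to the right of the box `x` and `k l` lower, so the right side
of `x` and the left side of `x - h` are at the same place.
-/

namespace Helper11.LV

open Helper11.N1

/-- the row step of a tie -/
def hh (p b k : ℕ) : ZMod p := ((b + k : ℕ) : ZMod p)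

/-- the distance of the level `W` from the row `x` -/
def dd {p : ℕ} (W x : ZMod p) : ℕ := (W - x).val

/-- a flat configuration with disjoint boxes whose only coincidences are ties -/
structure TC (p l a b k : ℕ) [NeZero p] [NeZero l] (z : ZMod p → ZMod (p * l)) : Prop where
  hP : Par p l a b
  ha2 : 2 * a < p
  hb2 : 2 * b < p
  hl2 : 2 ≤ l
  hk : 1 ≤ k
  hk2 : k < a
  hD : Disj l a b z
  hinj : Function.Injective z
  hsx : Function.Injective (sc l z) ∨ (3 ≤ k ∧ 1 ≤ a % (b + k))
  htie : ∀ x y : ZMod p, z x = z y - b * l → x = y + hh p b k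
  hF : ∀ X W S, |FF l a b z X W S| ≤ 1

section

variable {p : ℕ} (l a b k : ℕ) (z : ZMod p → ZMod (p * l))

/-- `x` is the left box of a tie (the right box is `x - h`) -/
def TL (x : ZMod p) : Prop := z (x - hh p b k) = z x + b * l

/-- the right side of `x` is active and does not cancel against the left side of `x - h` -/
def eR (W x : ZMod p) : Prop :=
  1 ≤ dd W x ∧ dd W x ≤ a ∧ (TL l b k z x → a < dd W x + k)

/-- the left side of `y` is active and does not cancel against the right side of `y + h` -/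
def eL (W y : ZMod p) : Prop :=
  b < dd W y ∧ dd W y ≤ a + b ∧ (TL l b k z (y + hh p b k) → dd W y ≤ b + k)

/-- the data of a level which is not in normal form: `F = N + i + u - 2` -/
structure AB [NeZero p] (W : ZMod p) (i u : ZMod (p * l) → ℤ) : Prop where
  ld : LD l a b z W i (fun S => u S - 2)
  i0 : ∀ X, 0 ≤ i X
  u0 : ∀ S, 0 ≤ u S
  ei : ∃ X, i X = 0
  eu : ∃ S, u S = 0

/-- a level in normal form -/
def Nrm [NeZero p] (W : ZMod p) : Prop := ∃ (lam rho : ZMod (p * l) → ℤ) (c : ℤ),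
  LD l a b z W lam rho ∧ (∀ X, lam X = c ∨ lam X = c - 1) ∧ (∀ S, rho S = -c ∨ rho S = -c + 1)

/-- the rows below a box where `rho` goes from `1` to `0` (in state `u`) -/
def good (W : ZMod p) (u : ZMod (p * l) → ℤ) (x : ZMod p) : Prop :=
  1 ≤ dd W x ∧ dd W x ≤ b ∧ u (sc l z x) = 1

/-- chains of ties from a bottom to a top have exactly `a / (b + k)` ties -/
def HM : Prop := ∀ (W x : ZMod p) (n : ℕ), 1 ≤ dd W x → dd W x ≤ b →
  (∀ i < n, TL l b k z (x - (i : ZMod p) * hh p b k)) → a < dd W x + n * (b + k) →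
  dd W x + n * (b + k) ≤ a + b → n = a / (b + k)

end

/-- an arithmetic progression with ties of index `l` which starts at `0` in the row `0` -/
structure CC (p l a b k : ℕ) [NeZero p] [NeZero l] (z : ZMod p → ZMod (p * l)) (ρ : ZMod p)
    (τ : ZMod (p * l)) : Prop extends TC p l a b k z where
  hlp : l < p
  hρ : IsUnit ρ
  hu : IsUnit τ
  hz : ∀ n : ℕ, n < p → z ((n : ZMod p) * ρ) = (n : ZMod (p * l)) * τ
  hlt : (l : ZMod (p * l)) * τ = -((b : ZMod (p * l)) * (l : ZMod (p * l)))
  hlr : (l : ZMod p) * ρ = hh p b k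

/-- the next window: the row `0` is moved to `p τ` -/
def z1 {p l : ℕ} (z : ZMod p → ZMod (p * l)) (τ : ZMod (p * l)) (x : ZMod p) : ZMod (p * l) :=
  open Classical in if x = 0 then (p : ZMod (p * l)) * τ else z x

/-- what a normal level of the next window says, row `0` between its bottom and its left side -/
structure EB {p l : ℕ} (a b k : ℕ) [NeZero p] [NeZero l] (z : ZMod p → ZMod (p * l)) (W : ZMod p)
    (i u : ZMod (p * l) → ℤ) (δ : ℕ) : Prop where
  tc : TC p l a b k z
  ab : AB l a b z W i u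
  hδM : δ < p * l
  z0 : z 0 = 0
  tl : ¬ TL l b k z 0
  d1 : 1 ≤ W.val
  d2 : W.val ≤ b
  hL : ∀ X : ZMod (p * l), i X = 0 → ¬ (1 ≤ X.val ∧ X.val ≤ δ)
  hU : ∀ S : ZMod (p * l), u S = 0 → 1 ≤ S.val ∧ S.val < δ
  hst : ∀ (X S : ZMod (p * l)) (x : ZMod p), ¬ (1 ≤ X.val ∧ X.val ≤ δ) → i X = 1 →
    1 ≤ S.val → S.val ≤ δ → u S = 1 → x ≠ 0 → ¬ box l a b z x X S
  hln : ∀ (X : ZMod (p * l)) (x : ZMod p), i X = 0 → x ≠ 0 → box l a b z x X (X + e p l W) →
    ¬ (1 ≤ (X + e p l W).val ∧ (X + e p l W).val ≤ δ)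

/-- what a normal level of the next window says, row `0` between its left side and its top -/
structure ET {p l : ℕ} (a b k : ℕ) [NeZero p] [NeZero l] (z : ZMod p → ZMod (p * l)) (W : ZMod p)
    (i u : ZMod (p * l) → ℤ) (δ : ℕ) : Prop where
  tc : TC p l a b k z
  ab : AB l a b z W i u
  hδM : δ < p * l
  z0 : z 0 = 0
  tl : TL l b k z (hh p b k)
  d1 : a < W.val
  d2 : W.val ≤ a + b
  hL : ∀ X : ZMod (p * l), i X = 0 → 2 ≤ (X + b * l).val ∧ (X + b * l).val < δ
  hz : i (-(b * l : ZMod (p * l))) = 1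
  hU : ∀ S : ZMod (p * l), u S = 0 → ¬ (1 ≤ (S - a * l).val ∧ (S - a * l).val ≤ δ)
  hB : ∀ S : ZMod (p * l), (S - a * l).val = δ → u (S + 1) ≠ 0
  hst : ∀ (X S : ZMod (p * l)) (x : ZMod p), 1 ≤ (X + b * l).val → (X + b * l).val ≤ δ →
    i X = 1 → ¬ (1 ≤ (S - a * l).val ∧ (S - a * l).val ≤ δ) → u S = 1 → x ≠ 0 →
    ¬ box l a b z x X S
  hln : ∀ (X : ZMod (p * l)) (x : ZMod p), i X = 0 → x ≠ 0 → box l a b z x X (X + e p l W) →
    1 ≤ (X + e p l W - a * l).val ∧ (X + e p l W - a * l).val ≤ δ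
  hcp : ∀ (n : ℕ) (f : ZMod p), n * (b + k) ≤ a → sc l z f = ((n * k * l : ℕ) : ZMod (p * l)) →
    ∀ i < n, TL l b k z (f - (i : ZMod p) * hh p b k)

/-- what a normal level of the next window says, row `0` between its left side and its right side -/
structure EM {p l : ℕ} (a b k : ℕ) [NeZero p] [NeZero l] (z : ZMod p → ZMod (p * l)) (W : ZMod p)
    (i u : ZMod (p * l) → ℤ) : Prop where
  tc : TC p l a b k z
  ab : AB l a b z W i u
  z0 : z 0 = 0
  d1 : b < W.val
  d2 : W.val ≤ a
  hL : ∀ X : ZMod (p * l), i X = 0 → off X 0 < b * l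
  hu : ∀ S : ZMod (p * l), u S ≤ 1

end Helper11.LV
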