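import Pool.Agent.Helper11.LV.StD
import Pool.Agent.Helper11.N1.All

set_option autoImplicit false
set_option linter.unusedSectionVars false

/-!
# Module EXS (Project LV): the structures `EB`, `EM`, `ET`
-/

namespace Helper11.LV

open Helper11.N1

namespace EXSaux

section

variable {p l a b k : ℕ} [NeZero p] [NeZero l] {z : ZMod p → ZMod (p * l)}

theorem NN_one (hD : Disj l a b z) {X S : ZMod (p * l)} {f : ZMod p} (h : box l a b z f X S) :
    NN l a b z X S = 1 := by
  unfold NN
  rw [Finset.sum_eq_single f, if_pos h]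
  · intro g _ hg
    rw [if_neg (fun h1 => hg (hD g f X S h1 h))]
  · intro h1
    exact absurd (Finset.mem_univ f) h1

theorem z1_zero (τ : ZMod (p * l)) : z1 z τ 0 = (p : ZMod (p * l)) * τ := by
  unfold z1
  rw [if_pos rfl]

theorem z1_ne (τ : ZMod (p * l)) {x : ZMod p} (hx : x ≠ 0) : z1 z τ x = z x := by
  unfold z1
  rw [if_neg hx]

theorem sc1_zero (τ : ZMod (p * l)) : sc l (z1 z τ) 0 = (p : ZMod (p * l)) * τ := by
  unfold sc
  rw [z1_zero, e_zero, add_zero]

theorem sc1_ne (τ : ZMod (p * l)) {x : ZMod p} (hx : x ≠ 0) : sc l (z1 z τ) x = sc l z x := by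
  unfold sc
  rw [z1_ne τ hx]

theorem box1 (τ : ZMod (p * l)) {x : ZMod p} (hx : x ≠ 0) {X S : ZMod (p * l)}
    (h : box l a b z x X S) : box l a b (z1 z τ) x X S := by
  unfold box at h ⊢
  rw [sc1_ne τ hx, z1_ne τ hx]
  exact h

theorem dd_zero (W : ZMod p) : dd W 0 = W.val := by
  unfold dd
  rw [sub_zero]

theorem val_inj' {M : ℕ} [NeZero M] {x y : ZMod M} (h : x.val = y.val) : x = y :=
  ZMod.val_injective M h

end

section

variable {p l a b k : ℕ} [NeZero p] [NeZero l] {z : ZMod p → ZMod (p * l)} {ρ : ZMod p}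
  {τ : ZMod (p * l)} {W : ZMod p} {i u : ZMod (p * l) → ℤ}

/-- the level between the bottom and the left side of the row `0` -/
theorem eb (hCA : StCA) (hJH : StJH) (hDIF : StDIF) (H : CC p l a b k z ρ τ) (hle : b + k ≤ a)
    (hN : Nrm l a b (z1 z τ) W) (hAB : AB l a b z W i u) (h1 : 1 ≤ W.val) (h2 : W.val ≤ b) :
    EB a b k z W i u ((p : ZMod (p * l)) * τ).val := by
  obtain ⟨⟨hz0, hs0⟩, -, -, -, -, -, hTL, -, hT1, -, -, hδ⟩ := hCA p l a b k z ρ τ H
  obtain ⟨lam, rho, hLD, hlam, hrho, hi, hu⟩ := (hDIF p l a b k z ρ τ H hle W hN).1 i u hAB h1 h2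
  have hp : 0 < p := Nat.pos_of_ne_zero (NeZero.ne p)
  have hl : 0 < l := Nat.pos_of_ne_zero (NeZero.ne l)
  have tc := H.toTC
  refine ⟨tc, hAB, ZMod.val_lt _, hz0, ?_, h1, h2, ?_, ?_, ?_, ?_⟩
  · have h := hTL 0 hp
    rw [Nat.cast_zero, zero_mul] at h
    rw [h]
    omega
  · intro X hX hI
    have h3 := hi X
    rw [if_pos hI] at h3
    rcases hlam X with h4 | h4 <;> omega
  · intro S hS
    have h3 := hu S
    have h4 : 1 ≤ S.val ∧ S.val ≤ ((p : ZMod (p * l)) * τ).val := by
      by_contra hcon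
      rw [if_neg hcon] at h3
      rcases hrho S with h5 | h5 <;> omega
    rw [if_pos h4] at h3
    refine ⟨h4.1, lt_of_le_of_ne h4.2 ?_⟩
    intro h5
    have h6 : S = (p : ZMod (p * l)) * τ := val_inj' h5
    have h7 := (hJH p l a b k (z1 z τ) hT1 hle W lam rho hLD).1 0 (by rw [dd_zero]; exact h1)
      (by rw [dd_zero]; exact h2)
    rw [sc1_zero, ← h6] at h7
    rcases hrho S with h8 | h8 <;> rcases hrho (S + 1) with h9 | h9 <;> omega
  · intro X S x hX hiX hS1 hS2 huS hx hb
    have h3 := hi X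
    rw [if_neg hX] at h3
    have h4 := hu S
    rw [if_pos ⟨hS1, hS2⟩] at h4
    have h5 := hLD.up X S
    rw [NN_one hT1.hD (box1 τ hx hb)] at h5
    omega
  · intro X x hiX hx hb hI
    have h3 := hi X
    have h4 := hu (X + e p l W)
    rw [if_pos hI] at h4
    have h5 := hLD.line X
    rw [NN_one hT1.hD (box1 τ hx hb)] at h5
    have h6 := hAB.ld.line X
    rw [NN_one tc.hD hb] at h6
    have h7 : lam X = 0 := by
      split_ifs at h3 <;> rcases hlam X with h8 | h8 <;> omega
    omega

/-- the level between the left side and the right side of the row `0` -/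
theorem em (hCA : StCA) (hDIF : StDIF) (H : CC p l a b k z ρ τ) (hle : b + k ≤ a)
    (hN : Nrm l a b (z1 z τ) W) (hAB : AB l a b z W i u) (h1 : b < W.val) (h2 : W.val ≤ a) :
    EM a b k z W i u := by
  obtain ⟨⟨hz0, hs0⟩, -, -, -, -, -, -, -, -, -, -, -⟩ := hCA p l a b k z ρ τ H
  obtain ⟨lam, rho, hLD, hlam, hrho, hi, hu⟩ := (hDIF p l a b k z ρ τ H hle W hN).2.1 i u hAB h1 h2
  have tc := H.toTC
  obtain ⟨q1, q2, q3, q4⟩ := NBaux.prods tc.hP
  refine ⟨tc, hAB, hz0, h1, h2, ?_, ?_⟩
  · intro X hX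
    have h3 := hi X
    rw [hX] at h3
    have hA : 1 ≤ (X + b * l).val ∧ (X + b * l).val ≤ ((p : ZMod (p * l)) * τ).val := by
      by_contra hcon
      rw [if_neg hcon] at h3
      split_ifs at h3 <;> rcases hlam X with h8 | h8 <;> omega
    rw [if_pos hA] at h3
    have hI : ¬ (1 ≤ X.val ∧ X.val ≤ ((p : ZMod (p * l)) * τ).val) := by
      intro hcon
      rw [if_pos hcon] at h3
      rcases hlam X with h8 | h8 <;> omega
    obtain ⟨s, hs⟩ : ∃ s : ℕ, s = (X + b * l).val := ⟨_, rfl⟩
    rw [← hs] at hA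
    have hsM : s < p * l := by rw [hs]; exact ZMod.val_lt _
    have hsX : X + b * l = ((s : ℕ) : ZMod (p * l)) := by rw [hs, ZMod.natCast_zmod_val]
    rcases lt_or_ge (b * l) s with h4 | h4
    · exfalso
      apply hI
      have h5 : X = ((s - b * l : ℕ) : ZMod (p * l)) := by
        rw [Nat.cast_sub h4.le, ← hsX]
        push_cast
        ring
      have h6 : X.val = s - b * l := by
        rw [h5, ZMod.val_natCast, Nat.mod_eq_of_lt (by omega)]
      omega
    · have h5 : (0 : ZMod (p * l)) - X = ((b * l - s : ℕ) : ZMod (p * l)) := by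
        rw [Nat.cast_sub h4, ← hsX]
        push_cast
        ring
      rw [NBaux.off_cast X 0 (by omega) h5]
      omega
  · intro S
    have h3 := hu S
    rcases hrho S with h4 | h4 <;> omega

/-- the level between the left side and the top of the row `0` -/
theorem et (hCA : StCA) (hJV : StJV) (hJH : StJH) (hDIF : StDIF) (H : CC p l a b k z ρ τ)
    (hle : b + k ≤ a) (hN : Nrm l a b (z1 z τ) W) (hAB : AB l a b z W i u) (h1 : a < W.val)
    (h2 : W.val ≤ a + b) : ET a b k z W i u ((p : ZMod (p * l)) * τ).val := by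
  obtain ⟨⟨hz0, hs0⟩, hrow, hscn, hlσ, hc0, hcσ, hTL, -, hT1, -, hne, hδ⟩ :=
    hCA p l a b k z ρ τ H
  obtain ⟨lam, rho, hLD, hlam, hrho, hi, hu⟩ := (hDIF p l a b k z ρ τ H hle W hN).2.2.1 i u hAB h1 h2
  have hp : 0 < p := Nat.pos_of_ne_zero (NeZero.ne p)
  have hl : 0 < l := Nat.pos_of_ne_zero (NeZero.ne l)
  have tc := H.toTC
  obtain ⟨q1, q2, q3, q4⟩ := NBaux.prods tc.hP
  have hW := ZMod.val_lt W
  have hb2 := tc.hP.hb
  have hk1 := tc.hk
  have hjv := hJV p l a b k z tc W i (fun S => u S - 2) hAB.ld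
  have hjh := hJH p l a b k z tc hle W i (fun S => u S - 2) hAB.ld
  have hjh1 := hJH p l a b k (z1 z τ) hT1 hle W lam rho hLD
  have hM1 : 1 < p * l := by omega
  have htl : TL l b k z (hh p b k) := by
    have h := hTL l H.hlp
    rw [H.hlr] at h
    exact h.2 le_rfl
  have hzh : z (hh p b k) = -(b * l : ZMod (p * l)) := by
    have h := htl
    unfold TL at h
    rw [sub_self, hz0] at h
    linear_combination -h
  have hddh : dd W (hh p b k) = W.val - (b + k) := by
    unfold dd hh
    rw [NBaux.val_sub_nat W (b + k) (by omega), if_pos (by omega)]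
  -- the value at `-b l`
  have hA0 : ¬ (1 ≤ (-(b * l : ZMod (p * l)) + b * l).val ∧
      (-(b * l : ZMod (p * l)) + b * l).val ≤ ((p : ZMod (p * l)) * τ).val) := by
    rw [neg_add_cancel, ZMod.val_zero]
    omega
  have hval1 : ((1 : ZMod (p * l))).val = 1 := by
    have h := ZMod.val_natCast (p * l) 1
    rw [Nat.cast_one, Nat.mod_eq_of_lt hM1] at h
    exact h
  have hA1 : 1 ≤ (-(b * l : ZMod (p * l)) + 1 + b * l).val ∧
      (-(b * l : ZMod (p * l)) + 1 + b * l).val ≤ ((p : ZMod (p * l)) * τ).val := by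
    have e1 : -(b * l : ZMod (p * l)) + 1 + b * l = 1 := by ring
    rw [e1, hval1]
    exact ⟨le_rfl, hδ⟩
  have hflat : i (-(b * l : ZMod (p * l)) + 1) = i (-(b * l : ZMod (p * l))) := by
    refine hjv.2.2 _ ?_ ?_
    · intro x hx hzx
      have hxh : x = hh p b k := tc.hinj (by rw [hzx, hzh])
      rw [hxh] at hx
      obtain ⟨r1, r2, r3⟩ := hx
      have r4 := r3 htl
      rw [hddh] at r4
      omega
    · intro y hy hzy
      have hzy0 : z y = z 0 := by
        rw [hz0]
        linear_combination hzy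
      have hy0 : y = 0 := tc.hinj hzy0
      rw [hy0] at hy
      obtain ⟨r1, r2, r3⟩ := hy
      rw [zero_add] at r3
      have r4 := r3 htl
      rw [dd_zero] at r4
      omega
  have hz1 : i (-(b * l : ZMod (p * l))) = 1 := by
    have h3 := hi (-(b * l : ZMod (p * l)))
    rw [if_neg hA0] at h3
    have h4 := hi (-(b * l : ZMod (p * l)) + 1)
    rw [if_pos hA1, hflat] at h4
    rcases hlam (-(b * l : ZMod (p * l))) with h5 | h5 <;>
      rcases hlam (-(b * l : ZMod (p * l)) + 1) with h6 | h6 <;> omega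
  refine ⟨tc, hAB, ZMod.val_lt _, hz0, htl, h1, h2, ?_, hz1, ?_, ?_, ?_, ?_, ?_⟩
  · -- hL
    intro X hX
    have h3 := hi X
    rw [hX] at h3
    have hA : 1 ≤ (X + b * l).val ∧ (X + b * l).val ≤ ((p : ZMod (p * l)) * τ).val := by
      by_contra hcon
      rw [if_neg hcon] at h3
      rcases hlam X with h8 | h8 <;> omega
    have hne1 : (X + b * l).val ≠ 1 := by
      intro h4
      have h5 : X + b * l = 1 := val_inj' (by rw [h4, hval1])
      have h6 : X = -(b * l : ZMod (p * l)) + 1 := by linear_combination h5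
      rw [h6, hflat, hz1] at hX
      omega
    have hneD : (X + b * l).val ≠ ((p : ZMod (p * l)) * τ).val := by
      intro h4
      have h5 : X + b * l = (p : ZMod (p * l)) * τ := val_inj' h4
      have h6 : X = (p : ZMod (p * l)) * τ - b * l := by linear_combination h5
      have h7 : ¬ (1 ≤ (X + 1 + b * l).val ∧
          (X + 1 + b * l).val ≤ ((p : ZMod (p * l)) * τ).val) := by
        obtain ⟨s, hs⟩ : ∃ s : ℕ, s = (X + b * l).val := ⟨_, rfl⟩
        have e1 : X + 1 + b * l = ((s + 1 : ℕ) : ZMod (p * l)) := by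
          rw [Nat.cast_add, hs, ZMod.natCast_zmod_val, Nat.cast_one]
          ring
        rw [e1, ZMod.val_natCast]
        have h8 : s < p * l := by rw [hs]; exact ZMod.val_lt _
        rw [← hs] at h4
        rcases Nat.lt_or_ge (s + 1) (p * l) with h9 | h9
        · rw [Nat.mod_eq_of_lt h9]
          omega
        · have h10 : s + 1 = p * l := by omega
          rw [h10, Nat.mod_self]
          omega
      have h8 := hi (X + 1)
      rw [if_neg h7] at h8
      have h9 : 1 ≤ i (X + 1) := by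
        rcases hlam (X + 1) with h10 | h10 <;> omega
      by_cases hy : ∃ y, eL l a b k z W y ∧ z y - b * l = X
      · obtain ⟨y, hy1, hy2⟩ := hy
        have h10 := hjv.2.1 y hy1
        rw [hy2] at h10
        omega
      · push Not at hy
        have h10 := hjv.2.2 X (fun x _ hx => hne x (by rw [hx, h6])) (fun y hy1 => hy y hy1)
        omega
    omega
  · -- hU
    intro S hS hE
    have h3 := hu S
    rw [if_pos hE] at h3
    rcases hrho S with h4 | h4 <;> omega
  · -- hB
    intro S hS huS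
    have hSD : S - a * l = (p : ZMod (p * l)) * τ := val_inj' hS
    have h3 := hu S
    rw [if_pos ⟨by omega, by omega⟩] at h3
    have h4 : 1 ≤ u S := by
      rcases hrho S with h5 | h5 <;> omega
    by_cases hx : ∃ x, 1 ≤ dd W x ∧ dd W x ≤ b ∧ sc l z x = S
    · obtain ⟨x, hx1, hx2, hx3⟩ := hx
      have hx0 : x ≠ 0 := by
        rintro rfl
        rw [dd_zero] at hx2
        omega
      have h5 := hjh1.1 x hx1 hx2
      rw [sc1_ne τ hx0, hx3] at h5
      have h6 := hjh1.2.1 0 (by rw [dd_zero]; exact h1) (by rw [dd_zero]; exact h2)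
      have h7 : sc l (z1 z τ) 0 + a * l = S := by
        rw [sc1_zero, ← hSD]
        ring
      rw [h7] at h6
      omega
    · push Not at hx
      by_cases hy : ∃ y, a < dd W y ∧ dd W y ≤ a + b ∧ sc l z y + a * l = S
      · obtain ⟨y, hy1, hy2, hy3⟩ := hy
        have h5 := hjh.2.1 y hy1 hy2
        rw [hy3] at h5
        omega
      · push Not at hy
        have h5 := hjh.2.2 S hx hy
        omega
  · -- hst
    intro X S x hX1 hX2 hiX hS huS hx hb
    have h3 := hi X
    rw [if_pos ⟨hX1, hX2⟩] at h3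
    have h4 := hu S
    rw [if_neg hS] at h4
    have h5 := hLD.up X S
    rw [NN_one hT1.hD (box1 τ hx hb)] at h5
    omega
  · -- hln
    intro X x hiX hx hb
    by_contra hI
    have h3 := hi X
    have h4 := hu (X + e p l W)
    rw [if_neg hI] at h4
    have h5 := hLD.line X
    rw [NN_one hT1.hD (box1 τ hx hb)] at h5
    have h6 := hAB.ld.line X
    rw [NN_one tc.hD hb] at h6
    have h7 : lam X = 1 := by
      split_ifs at h3 <;> rcases hlam X with h8 | h8 <;> omega
    omega
  · -- hcp
    intro n f hn hf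
    obtain ⟨v, hv, rfl⟩ := hrow f
    have h3 := hscn v hv
    rw [h3] at hf
    have h4 : (((v : ℤ) - (n : ℤ) * (l : ℤ) : ℤ) : ZMod (p * l)) * (τ + e p l ρ) =
        ((0 : ℤ) : ZMod (p * l)) * l := by
      push_cast
      have h5 : ((n * k * l : ℕ) : ZMod (p * l)) = (n : ZMod (p * l)) * ((k * l : ℕ) : ZMod (p * l)) := by
        push_cast
        ring
      rw [h5, ← hlσ] at hf
      linear_combination hf
    obtain ⟨c1, hc1, hc2⟩ := hcσ _ _ h4
    have hkpos : (0 : ℤ) < k := by exact_mod_cast hk1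
    have hlZ : (0 : ℤ) < l := by exact_mod_cast hl
    have hc1n : 0 ≤ c1 := by
      by_contra hneg
      push Not at hneg
      have h6 : (v : ℤ) = l * (c1 + n) := by linear_combination hc1
      have h7 : 0 ≤ c1 + n := by
        by_contra h8
        push Not at h8
        have h9 : (l : ℤ) * (c1 + n) < 0 := mul_neg_of_pos_of_neg hlZ h8
        have h10 : (0 : ℤ) ≤ v := Int.natCast_nonneg v
        omega
      have h8 : 0 < -c1 * k := mul_pos (by omega) hkpos
      have h9 : -c1 * k ≤ n * k := mul_le_mul_of_nonneg_right (by omega) hkpos.le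
      have h10 : (n : ℤ) * k < p := by
        have h11 : n * k ≤ n * (b + k) := Nat.mul_le_mul_left n (by omega)
        have h12 : n * k < p := by
          have := tc.ha2
          omega
        exact_mod_cast h12
      have h11 : (p : ℤ) ∣ -c1 * k := by
        rw [neg_mul, dvd_neg]
        simpa using hc2
      have h12 := Int.le_of_dvd h8 h11
      omega
    have hvn : n * l ≤ v := by
      have h6 : (v : ℤ) = l * c1 + n * l := by linear_combination hc1
      have h7 : 0 ≤ (l : ℤ) * c1 := mul_nonneg hlZ.le hc1n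
      have h8 : ((n * l : ℕ) : ℤ) ≤ (v : ℤ) := by
        push_cast
        linarith
      exact_mod_cast h8
    intro j hj
    have h6 : (j + 1) * l ≤ n * l := Nat.mul_le_mul_right l (by omega)
    have h7 : (j + 1) * l = j * l + l := by ring
    have h8 : (v : ZMod p) * ρ - (j : ZMod p) * hh p b k = ((v - j * l : ℕ) : ZMod p) * ρ := by
      rw [Nat.cast_sub (by omega), ← H.hlr]
      push_cast
      ring
    rw [h8, hTL (v - j * l) (by omega)]
    omega

end

end EXSaux

open EXSaux in
theorem exs : StCA → StJV → StJH → StDIF → StEXS := by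
  intro hCA hJV hJH hDIF p l a b k _ _ z ρ τ H hle W hN i u hAB
  exact ⟨fun h1 h2 => eb hCA hJH hDIF H hle hN hAB h1 h2, fun h1 h2 => em hCA hDIF H hle hN hAB h1 h2,
    fun h1 h2 => et hCA hJV hJH hDIF H hle hN hAB h1 h2⟩

end Helper11.LV
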