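import Pool.Agent.Helper11.LV.StA
import Pool.Agent.Helper11.N1.All

set_option autoImplicit false
set_option linter.unusedSectionVars false

/-!
# RUN: no change inside a box (levels of tie configurations)
-/

namespace Helper11.LV

open Helper11.N1

namespace RUNaux

open Helper11.N1.NBaux

variable {p q a b : ℕ} [NeZero p] [NeZero q]

/-- one step inside a box -/
theorem step (hP : Par p q a b) (z : ZMod p → ZMod (p * q))
    (hD : Disj q a b z) (W : ZMod p) (lam rho : ZMod (p * q) → ℤ)
    (hL : LD q a b z W lam rho) (j : ZMod p) (X : ZMod (p * q))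
    (h1 : box q a b z j X (X + e p q W)) (h2 : box q a b z j (X + 1) (X + 1 + e p q W)) :
    lam (X + 1) = lam X ∧ rho (X + 1 + e p q W) = rho (X + e p q W) := by
  obtain ⟨hq, haq, hbq, hM⟩ := prods hP
  have hM1 : 1 < p * q := by omega
  have hdM : ∀ i : ZMod p, (W - i).val * q + q ≤ p * q := by
    intro i
    have h3 : (W - i).val + 1 ≤ p := ZMod.val_lt (W - i)
    have h4 := Nat.mul_le_mul_right q h3
    calc (W - i).val * q + q = ((W - i).val + 1) * q := by ring
      _ ≤ p * q := h4
  have hone : ∀ i : ZMod p, 1 ≤ (W - i).val → q ≤ (W - i).val * q := by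
    intro i hi
    calc q = 1 * q := (one_mul q).symm
      _ ≤ (W - i).val * q := Nat.mul_le_mul_right q hi
  have hsub : ∀ (i : ZMod p) (c : ℕ), ((W - i).val - c) * q = (W - i).val * q - c * q :=
    fun i c => Nat.sub_mul _ _ _
  have hle : ∀ (i : ZMod p) (c : ℕ), (W - i).val ≤ c → (W - i).val * q ≤ c * q :=
    fun i c h => Nat.mul_le_mul_right q h
  have hlt : ∀ (i : ZMod p) (c : ℕ), c + 1 ≤ (W - i).val → c * q + q ≤ (W - i).val * q := by
    intro i c h
    calc c * q + q = (c + 1) * q := by ring
      _ ≤ _ := Nat.mul_le_mul_right q h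
  have hab : (a + b) * q = a * q + b * q := by ring
  have nL : ∀ i, aL a b W i → z i - b * q ≠ X := by
    intro i hi hX
    rw [aL_iff hP] at hi
    have a1 := hlt i b hi.1
    have a2 := hle i (a + b) hi.2
    rw [hab] at a2
    have hz : z i = X + ((b * q : ℕ) : ZMod (p * q)) := by
      rw [← hX]; push_cast; ring
    have b1 : box q a b z i (X + 1) (X + e p q W) := by
      refine ⟨?_, ?_⟩
      · have : off (X + 1) (z i) = b * q - 1 := off_cast _ _ (by omega) (by
          rw [hz, Nat.cast_sub (by omega)]; push_cast; ring)
        omega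
      · have : off (sc q z i + 1) (X + e p q W) = (W - i).val * q - b * q - 1 :=
          off_cast _ _ (by have := hdM i; omega) (by
            unfold sc
            rw [hz, eW W i, Nat.cast_sub (by omega), Nat.cast_sub (by omega)]
            push_cast
            ring)
        omega
    have b2 : box q a b z j (X + 1) (X + e p q W) := ⟨h2.1, h1.2⟩
    have b3 := hD i j _ _ b1 b2
    subst b3
    have b4 : off X (z i) = b * q := by
      rw [hz]; exact off_nat X (by omega)
    have := h1.1
    omega
  have nR : ∀ i, aR a W i → z i ≠ X := by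
    intro i hi hX
    rw [aR_iff hP] at hi
    have a1 := hone i hi.1
    have a2 := hle i a hi.2
    have b0 : off X (z i) = 0 := by rw [hX]; exact off_self X
    have b1 : box q a b z i X (X + e p q W) := by
      rw [(bl p q a b hP z W i).1 X, b0, hsub]
      omega
    have b3 := hD i j _ _ b1 h1
    subst b3
    have b4 : off (X + 1) (z i) = p * q - 1 := off_cast _ _ (by omega) (by
      rw [hX, Nat.cast_sub (by omega), ZMod.natCast_self]; push_cast; ring)
    have := h2.1
    omega
  have nB : ∀ i, aB b W i → sc q z i ≠ X + e p q W := by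
    intro i hi hX
    rw [aB_iff hP] at hi
    have a1 := hone i hi.1
    have a2 := hle i b hi.2
    have hz : z i = X + (((W - i).val * q : ℕ) : ZMod (p * q)) := by
      have h3 : z i = sc q z i - e p q i := by unfold sc; ring
      rw [h3, hX, eW W i]; ring
    have b0 : off (X + 1) (z i) = (W - i).val * q - 1 := off_cast _ _ (by
      have := hdM i
      omega) (by
      rw [hz, Nat.cast_sub (by omega)]; push_cast; ring)
    have b1 : box q a b z i (X + 1) (X + 1 + e p q W) := by
      rw [(bl p q a b hP z W i).1 (X + 1), b0, hsub]
      omega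
    have b3 := hD i j _ _ b1 h2
    subst b3
    have b4 : off (sc q z i + 1) (X + e p q W) = p * q - 1 := off_cast _ _ (by omega) (by
      rw [hX, Nat.cast_sub (by omega), ZMod.natCast_self]; push_cast; ring)
    have := h1.2
    omega
  have nT : ∀ i, aT a b W i → sc q z i + a * q ≠ X + e p q W := by
    intro i hi hX
    rw [aT_iff hP] at hi
    have a1 := hlt i a hi.1
    have a2 := hle i (a + b) hi.2
    rw [hab] at a2
    have hz : z i = X + (((W - i).val * q - a * q : ℕ) : ZMod (p * q)) := by
      have h3 : z i = (sc q z i + a * q) - e p q i - a * q := by unfold sc; ring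
      rw [h3, hX, eW W i, Nat.cast_sub (by omega)]
      push_cast
      ring
    have hs : sc q z i = X + e p q W - ((a * q : ℕ) : ZMod (p * q)) := by
      rw [← hX]; push_cast; ring
    have b1 : box q a b z i (X + 1) (X + e p q W) := by
      refine ⟨?_, ?_⟩
      · have : off (X + 1) (z i) = (W - i).val * q - a * q - 1 := off_cast _ _ (by
          have := hdM i
          omega) (by
          rw [hz, Nat.cast_sub (by omega), Nat.cast_sub (by omega)]
          push_cast
          rw [Nat.cast_sub (by omega)]
          push_cast
          ring)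
        omega
      · have : off (sc q z i + 1) (X + e p q W) = a * q - 1 := off_cast _ _ (by omega) (by
          rw [hs, Nat.cast_sub (by omega)]
          push_cast
          ring)
        omega
    have b2 : box q a b z j (X + 1) (X + e p q W) := ⟨h2.1, h1.2⟩
    have b3 := hD i j _ _ b1 b2
    subst b3
    have b4 : off (sc q z i + 1) (X + 1 + e p q W) = a * q := off_cast _ _ (by omega) (by
      rw [hs]; ring)
    have := h2.2
    omega
  constructor
  · have h := hL.lj X
    rw [UNIaux.sum_zero (fun i => aR a W i ∧ z i = X) (fun i hi => nR i hi.1 hi.2),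
      UNIaux.sum_zero (fun i => aL a b W i ∧ z i - b * q = X) (fun i hi => nL i hi.1 hi.2)] at h
    omega
  · have h3 : X + 1 + e p q W = X + e p q W + 1 := by ring
    rw [h3]
    have h := hL.rj (X + e p q W)
    rw [UNIaux.sum_zero (fun i => aT a b W i ∧ sc q z i + a * q = X + e p q W)
        (fun i hi => nT i hi.1 hi.2),
      UNIaux.sum_zero (fun i => aB b W i ∧ sc q z i = X + e p q W)
        (fun i hi => nB i hi.1 hi.2)] at h
    omega

end RUNaux

theorem run : StRUN := by
  intro p l a b k _ _ z hT W lam rho hL j X h1 h2
  exact RUNaux.step hT.hP z hT.hD W lam rho hL j X h1 h2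

end Helper11.LV
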