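import Pool.Agent.Helper11.LV.StB
import Pool.Agent.Helper11.N1.All

set_option autoImplicit false
set_option linter.unusedSectionVars false

/-!
# Project LV: module TG (lower bound for the number of columns with `i = 0`)
-/

namespace Helper11.LV

open Helper11.N1

namespace TGaux

theorem dd_inj {p : ℕ} [NeZero p] {W x y : ZMod p} (h : dd W x = dd W y) : x = y := by
  unfold dd at h
  have h1 := ZMod.val_injective p h
  exact sub_right_injective h1

/-- few good rows -/
theorem card_good {p : ℕ} [NeZero p] (W g : ZMod p) {b : ℕ} (hg1 : 1 ≤ dd W g) (hg2 : dd W g ≤ b)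
    (G : Finset (ZMod p)) (hG : ∀ x ∈ G, 1 ≤ dd W x ∧ dd W x ≤ b ∧ x ≠ g) : G.card ≤ b - 1 := by
  classical
  have h1 : G.card ≤ ((Finset.Icc 1 b).erase (dd W g)).card := by
    refine Finset.card_le_card_of_injOn (fun x => dd W x) ?_ ?_
    · intro x hx
      obtain ⟨h2, h3, h4⟩ := hG x (Finset.mem_coe.1 hx)
      refine Finset.mem_coe.2 (Finset.mem_erase.2 ⟨fun h5 => h4 (dd_inj h5), ?_⟩)
      exact Finset.mem_Icc.2 ⟨h2, h3⟩
    · intro x _ y _ hxy
      exact dd_inj hxy
  rw [Finset.card_erase_of_mem (Finset.mem_Icc.2 ⟨hg1, hg2⟩), Nat.card_Icc] at h1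
  omega

/-- the rows with `u = 0` are covered by intervals -/
theorem card_cover {p M : ℕ} [NeZero p] [NeZero M] (Z : Finset (ZMod M)) (G : Finset (ZMod p))
    (s : ZMod p → ZMod M) (N : ℕ) (h : ∀ S ∈ Z, ∃ x ∈ G, off (s x) S < N) :
    Z.card ≤ G.card * N := by
  classical
  have h1 : Z ⊆ G.biUnion fun x => (Finset.range N).image fun n : ℕ => s x + (n : ZMod M) := by
    intro S hS
    obtain ⟨x, hx, h2⟩ := h S hS
    refine Finset.mem_biUnion.2 ⟨x, hx, Finset.mem_image.2 ⟨off (s x) S, Finset.mem_range.2 h2, ?_⟩⟩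
    exact off_spec (s x) S
  refine le_trans (Finset.card_le_card h1) (le_trans Finset.card_biUnion_le ?_)
  refine le_trans (Finset.sum_le_sum fun x _ => Finset.card_image_le) ?_
  rw [Finset.sum_const, Finset.card_range, smul_eq_mul]

end TGaux

open TGaux in
theorem tg : StTB → StCN → StTG := by
  classical
  intro hTB hCN p l a b k _ _ z h hbk hHM W i u hAB hi1 hu2 g hg1 hg2 hg3
  obtain ⟨hT1, -⟩ := hTB p l a b k z h hbk hHM W i u hAB hi1
  have hc := (hCN p l a b k z h W i u hAB).2 hi1 hu2
  have hc2 : 1 ≤ (Finset.univ.filter fun S => u S = 2).card :=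
    Finset.card_pos.2 ⟨sc l z g, Finset.mem_filter.2 ⟨Finset.mem_univ _, hg3⟩⟩
  have hc0 : (Finset.univ.filter fun S => u S = 0).card ≤
      (b - 1) * ((a - a / (b + k) * k) * l) := by
    have h1 := card_cover (Finset.univ.filter fun S => u S = 0)
      (Finset.univ.filter fun x => good l b z W u x) (fun x => sc l z x + 1)
      ((a - a / (b + k) * k) * l) (by
        intro S hS
        obtain ⟨x, hx, h2⟩ := hT1 S (Finset.mem_filter.1 hS).2
        exact ⟨x, Finset.mem_filter.2 ⟨Finset.mem_univ _, hx⟩, h2⟩)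
    refine le_trans h1 (Nat.mul_le_mul_right _ ?_)
    refine card_good W g hg1 hg2 _ ?_
    intro x hx
    obtain ⟨h2, h3, h4⟩ := (Finset.mem_filter.1 hx).2
    refine ⟨h2, h3, ?_⟩
    rintro rfl
    rw [hg3] at h4
    exact absurd h4 (by norm_num)
  have hdm := Nat.div_add_mod' a (b + k)
  generalize a / (b + k) = m at *
  generalize a % (b + k) = r at *
  have hmk : m * k ≤ a := by nlinarith [Nat.zero_le (m * b)]
  obtain ⟨A, hA⟩ := Nat.exists_eq_add_of_le hmk
  have hb2 := h.hP.hb
  obtain ⟨c, hc'⟩ := Nat.exists_eq_add_of_le (show 1 ≤ b by omega)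
  have e1 : a - m * k = A := by omega
  have e2 : b - 1 = c := by omega
  rw [e1, e2] at hc0
  have e3 : A = m * b + r := by
    have : m * (b + k) = m * b + m * k := by ring
    omega
  have key : m * b * l + b * m * k * l + r * l + c * (A * l) = a * b * l := by
    have hbc : b = 1 + c := hc'
    have haa : a = m * k + A := hA
    rw [haa, e3, hbc]
    ring
  omega

end Helper11.LV
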