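import Pool.Agent.Helper11.LV.Defs

set_option autoImplicit false

/-!
Project LV (MP_0a4b47_nt, merges with `kappa < 0` and disjoint boxes: all levels are in normal
form).  Statements of part A (one level), with complete proofs in the docstrings.  Definitions in
`Defs.lean`.  A module proves `theorem x : StX` or `theorem x : StY → StZ → StX` as said in its
docstring; file `M_X.lean`, namespace `Helper11.LV`.

Conventions: `M = p l`, `h = b + k`, `d = dd W x = (W - x).val`.  `R x` is active iff `1 ≤ d ≤ a`,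
`L x` iff `b < d ≤ a + b`, `B x` iff `1 ≤ d ≤ b`, `T x` iff `a < d ≤ a + b` (`NBaux.aR_iff` etc. in
`N1/M_NB.lean`; that file also has `NBaux.val_sub_nat`, `NBaux.off_cast`, `NBaux.cast_inj`,
`NBaux.prods`, `NBaux.eW`).  For `TL x` (`x` left, `x - h` right box of a tie):
`z (x-h) = z x + b l`, `sc (x-h) = sc x - k l`, `dd W (x-h) = d + h` (mod `p`).
Line points of a box `j` at level `W` (`N1.bl`, first part): `X = z j - t` with
`(d - a) l ≤ t < b l`, `t < d l`.  Use `N1.bl : StBL`, `N1.cnt N1.bl : StCnt`,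
`N1.ldx (N1.lj N1.bl) N1.dec : StLDX` directly (import `Pool.Agent.Helper11.N1.All`).
-/

namespace Helper11.LV

open Helper11.N1

/-- RUN (no dependence).  On the line, `lam` and `rho` do not change inside a box.

PROOF.  As `NBaux.step` in `N1/M_NB.lean`: at `X` there is no active side at all (there the four
facts `nR, nL, nB, nT` are proved, they use only `Disj` and `BL`), so all terms of the sums in
`LD.lj`, `LD.rj` vanish. -/
def StRUN : Prop := ∀ (p l a b k : ℕ) [NeZero p] [NeZero l] (z : ZMod p → ZMod (p * l)),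
  TC p l a b k z → ∀ (W : ZMod p) (lam rho : ZMod (p * l) → ℤ), LD l a b z W lam rho →
  ∀ (j : ZMod p) (X : ZMod (p * l)), box l a b z j X (X + e p l W) →
  box l a b z j (X + 1) (X + 1 + e p l W) →
  lam (X + 1) = lam X ∧ rho (X + 1 + e p l W) = rho (X + e p l W)

/-- JV (no dependence).  The jumps of `lam`.

PROOF.  In the first sum of `LD.lj` at `X` only the `x` with `z x = X` contributes (`hinj`), in the
second only the `y` with `z y - b l = X`.  If both exist, `x = y + h` (`htie`), so `y = x - h` and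
`TL x`; if `z x = X` and `TL x` then `y = x - h`; if `z y - b l = X` and `TL (y + h)` then
`x = y + h`.  For `TL x`, `d = dd W x`, `d' = dd W (x - h)` is `d + h` or `d + h - p`:
`R x` active iff `1 ≤ d ≤ a`; `L (x-h)` active iff `b < d' ≤ a + b`.  Since `k < a`, `2 a < p`:
`1 ≤ d ≤ a - k`: both active (they cancel; not `eR x`, not `eL (x - h)`);
`a - k < d ≤ a`: only `R` (`d + h - p ≤ b` if `d + h ≥ p`); `d = 0` or `d > p - k`: only `L`, and
`d' ≤ h`; otherwise none.  So `eR x` iff only `R` is active or `R` is active and there is no tie, and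
so on; compute the two sums in each case. -/
def StJV : Prop := ∀ (p l a b k : ℕ) [NeZero p] [NeZero l] (z : ZMod p → ZMod (p * l)),
  TC p l a b k z → ∀ (W : ZMod p) (lam rho : ZMod (p * l) → ℤ), LD l a b z W lam rho →
  (∀ x, eR l a b k z W x → lam (z x + 1) = lam (z x) + 1) ∧
  (∀ y, eL l a b k z W y → lam (z y - b * l + 1) = lam (z y - b * l) - 1) ∧
  (∀ X, (∀ x, eR l a b k z W x → z x ≠ X) → (∀ y, eL l a b k z W y → z y - b * l ≠ X) →
    lam (X + 1) = lam X)

/-- ND (to prove: `theorem nd : StRUN → StJV → StND`).  No box sits on the top of another box.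

PROOF.  Let `S0 = sc x = sc y + a l`.  `res` of both sides gives `l | (z x - z y).val`.
`x ≠ y` (`a l` is not `0` modulo `M`), so `z x ≠ z y`.  LD exists for all levels (`StLDX`, `hF`).
At `S0` the only letters are `B x` and `T y` (`hsinj`).
CASE 1: `off (z y) (z x) = n l` with `0 < n < b`.  Rows: from `sc x = sc y + a l`,
`e (x - y) = (a - n) l`, so `x - y = a - n`.  Let `W = x + n`: `dd W x = n`, `dd W y = a`.  The box
`y` has the line points `z y - t`, `0 ≤ t < b l` (as `a > b`); let `α`, `β` be the values of `lam`,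
`rho` there (RUN; move along `t` by induction), `α + β = -1` (`line`, `NN = 1` by `Disj`).
`S0 = z y + e W` is the last line point (`t = 0`).  `rho (S0 + 1) = β - 1`: in `LD.rj` the term `B x`
is active (`1 ≤ n ≤ b`), `T y` is not (`dd W y = a`), other terms vanish.  Let `X1 = z x - b l =
z y - (b - n) l`, a line point of `y`, so `lam X1 = α`.  `lo` at `(X1, S0 + 1)`:
`NN X1 (S0 + 1) ≥ 1`, so a box `g` contains `(X1, S0 + 1)`.  The box `x` contains
`(X1 + 1, S0 + 1)`, not `X1`, so `g ≠ x`, so `g` does not contain `(X1 + 1, S0 + 1)`, so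
`z g = X1 = z x - b l`, `g = x + h` (`htie`), `sc g = sc x + k l = S0 + k l` and
`off (sc g + 1) (S0 + 1) = M - k l ≥ a l`, contradiction.
CASE 2: `off (z x) (z y) = n l` with `0 < n < b`, so `x - y = a + n`.  Let `W = x`: `dd W x = 0`,
`dd W y = a + n`: `L y`, `T y` are active, `B x` is not.  `y` has the line points `z y - t`,
`n l ≤ t < b l`; values `α`, `β`, `α + β = -1`.  `rho (S0 + 1) = rho S0 + 1`; `S0` is the line point
`X = z y - n l = z x` (`S0 - e W = z x`), so `rho (S0 + 1) = β + 1`.  The point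
`(z y - b l, S0 + 1)` lies in the box `x` (`z y - b l = z x - (b - n) l`).  If `TL (y + h)`: it also
lies in the box `y + h` (`z (y + h) = z y - b l`, `sc (y + h) = sc y + k l`,
`S0 + 1 = sc (y+h) + (a - k) l + 1`), so `x = y + h`, `sc x = sc y + k l`, contradiction to
`sc x = sc y + a l` (`k < a`).  Otherwise `eL y`, so `lam (z y - b l) = α + 1`, and
`up` at `(z y - b l, S0 + 1)`: `1 + α + 1 + β + 1 ≤ 1`, contradiction. -/
def StND : Prop := ∀ (p l a b k : ℕ) [NeZero p] [NeZero l] (z : ZMod p → ZMod (p * l)),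
  TC p l a b k z → b + k ≤ a → ∀ x y : ZMod p, sc l z x = sc l z y + a * l →
  b * l ≤ off (z y) (z x) ∧ b * l ≤ off (z x) (z y)

/-- JH (to prove: `theorem jh : StND → StJH`).  The jumps of `rho`.

PROOF.  In the sums of `LD.rj` at `S` only the `y` with `sc y + a l = S` and the `x` with
`sc x = S` contribute (`hsinj`).  If both exist and `B x` and `T y` are active: `1 ≤ dd W x ≤ b`,
`a < dd W y ≤ a + b`, `x - y = (W - y) - (W - x)` is `dd W y - dd W x = c` with
`a - b < c < a + b`, `z x - z y = sc x - sc y - e (x - y) = a l - c l`, of absolute value `< b l`,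
contradiction to ND. -/
def StJH : Prop := ∀ (p l a b k : ℕ) [NeZero p] [NeZero l] (z : ZMod p → ZMod (p * l)),
  TC p l a b k z → b + k ≤ a → ∀ (W : ZMod p) (lam rho : ZMod (p * l) → ℤ),
  LD l a b z W lam rho →
  (∀ x, 1 ≤ dd W x → dd W x ≤ b → rho (sc l z x + 1) = rho (sc l z x) - 1) ∧
  (∀ y, a < dd W y → dd W y ≤ a + b →
    rho (sc l z y + a * l + 1) = rho (sc l z y + a * l) + 1) ∧
  (∀ S, (∀ x, 1 ≤ dd W x → dd W x ≤ b → sc l z x ≠ S) →
    (∀ y, a < dd W y → dd W y ≤ a + b → sc l z y + a * l ≠ S) → rho (S + 1) = rho S)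

/-- NB (to prove: `theorem nb : StRUN → StJV → StJH → StNB`).  Transitions along the line.

PROOF.  By `BL` the line points of `j` are `X = z j - t` with `lo ≤ t < hi`, `lo = (d - a) l`,
`hi = min b d * l`, so `1 ≤ d < a + b`.  (1): RUN and induction on `t`.
(2) `d ≤ b`: `X' = z j - d l`, `X' + e W = sc j`, `X' + 1` is a line point, `rho` drops (JH).
`lam (X'+1) = lam X'` by JV: suppose `eR x`, `z x = X'`.  `(X', sc j)` is a line point of `x`.  If
`d < b`: `(X', sc j + 1)` lies in `j` (`off X' (z j) = d l`), so not in `x` (`x ≠ j` as `d ≥ 1`), so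
`sc j = sc x + a l` with `z j - z x = d l < b l`, contradiction to ND.  If `d = b`: `x = j + h`
(`htie`), `dd W x = b - h` modulo `p`, i.e. `p - k > a`, not active.  Suppose `eL y`,
`z y - b l = X'`: `(X' + 1, sc j)` lies in `y` (`off (sc y + 1) (X' + e W) = (dd W y - b) l - 1`); if
`(X' + 1, sc j + 1)` also lies in `y` then `y = j` (it lies in `j`), so `d = b`, not `eL j`; otherwise
`sc j = sc y + a l`, `z y - z j = (b - d) l`, contradiction to ND.
(3), (4) `b < d`: `X' = z j - b l`, `X' + 1` is a line point.  `rho` does not change at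
`S' = X' + e W = sc j + (d - b) l` (JH): a letter `B x` at `S'`: `(X'+1, X'+1+e W)` lies in `x`
(`z x = X' + dd W x l`) and in `j`, so `x = j`, but `B j` is not active.  A letter `T y` at `S'`:
`(X'+1, S')` lies in `y` (`off (X'+1) (z y) = (dd W y - a) l - 1`) and in `j`, so `y = j`, `d = a + b`,
contradiction.  If `eL j`: `lam X' = lam (X'+1) + 1` (JV).  If not `eL j`: `TL (j + h)` and `d > h`,
`dd W (j + h) = d - h ≤ a - k`, `z (j + h) = X'`, and `X'` is a line point of `j + h` (BL, `t = 0`);
`lam` does not change at `X'` (JV: `z x = X'` gives `x = j + h`, not `eR`; `z y - b l = X'` gives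
`y = j`, not `eL`).
(5), (6), (7) `d ≤ a`: `X' = z j` is the last line point.  First what happens to `rho` at
`X' + e W = sc j + d l`.
A letter `B x` there: `sc x = sc j + d l` and `z x = z j + d' l`, `1 ≤ d' = dd W x ≤ b`.  If `d < a` and `d' < b`: the point
`(z j, sc x + 1)` lies in both boxes, contradiction.  If `d' = b`: then `z x - b l = z j`, so
`j = x + h` (`htie`), `x - j = -h = d - b` modulo `p`, `d + k = p`, contradiction to `d ≤ a`,
`k < a`.  If `d = a`, `d' < b`: contradiction to ND.  So there is no `B`.  A letter `T y` there (`y ≠ j` as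
`d ≤ a`): the point `(z j, X' + e W)` lies in `y` and `j` unless `dd W y = a + b`; if
`dd W y = a + b` then `z y - b l = z j`, so `j = y + h`, `TL j`, `d + h = a + b`, so `d + k = a`.
So in (5) (`eR j`, if `TL j` then `d + k > a`) nothing happens to `rho`; in (6), (7) `TL j`,
`d + k ≤ a` and `lam` does not change at `z j` (JV).  (6) `d + k < a`: no `T` at `X' + e W`, `rho`
does not change, and `z j + 1` is a line point of `j - h` (BL: `dd W (j - h) = d + h < a + b`,
`t = b l - 1`).  (7) `d + k = a`: `T (j - h)` is active (`dd W (j-h) = a + b`) and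
`sc (j - h) + a l = sc j + (a - k) l = z j + e W`, so `rho` rises by one.
(8) `a < d`: `X' = z j - (d - a) l`, `X' + e W = sc j + a l`, `T j` active, `rho` rises.
`lam (X' + 1) = lam X'`: by JV a letter `eR x` with `z x = X'`: the line point `X'` is in `x` and
in `j`, `x = j`, `d = a`, contradiction; `eL y` with `z y - b l = X'`: `(X'+1, X'+e W)` lies in `y`
(`off (sc y + 1) (X'+e W) = (dd W y - b) l - 1`) and in `j` (`off (X' + 1) (z j) = (d - a) l - 1`),
so `y = j`, `d = a + b`, contradiction. -/
def StNB : Prop := ∀ (p l a b k : ℕ) [NeZero p] [NeZero l] (z : ZMod p → ZMod (p * l)),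
  TC p l a b k z → b + k ≤ a → ∀ (W : ZMod p) (lam rho : ZMod (p * l) → ℤ),
  LD l a b z W lam rho → ∀ (j : ZMod p) (X : ZMod (p * l)), box l a b z j X (X + e p l W) →
  (1 ≤ dd W j ∧ dd W j < a + b) ∧
  (∀ X', box l a b z j X' (X' + e p l W) → lam X' = lam X ∧
    rho (X' + e p l W) = rho (X + e p l W)) ∧
  (dd W j ≤ b → lam (z j - ((dd W j * l : ℕ) : ZMod (p * l))) = lam X ∧
    rho (sc l z j) = rho (X + e p l W) + 1) ∧
  (b < dd W j → eL l a b k z W j → lam (z j - b * l) = lam X + 1 ∧
    rho (z j - b * l + e p l W) = rho (X + e p l W)) ∧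
  (b < dd W j → ¬ eL l a b k z W j → TL l b k z (j + hh p b k) ∧ b + k < dd W j ∧
    dd W (j + hh p b k) = dd W j - (b + k) ∧ z (j + hh p b k) = z j - b * l ∧
    box l a b z (j + hh p b k) (z j - b * l) (z j - b * l + e p l W) ∧
    lam (z j - b * l) = lam X ∧ rho (z j - b * l + e p l W) = rho (X + e p l W)) ∧
  (dd W j ≤ a → eR l a b k z W j → lam (z j + 1) = lam X + 1 ∧
    rho (z j + 1 + e p l W) = rho (X + e p l W)) ∧
  (dd W j ≤ a → ¬ eR l a b k z W j → TL l b k z j ∧ dd W j + k ≤ a ∧
    dd W (j - hh p b k) = dd W j + (b + k) ∧ lam (z j + 1) = lam X ∧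
    (dd W j + k < a → box l a b z (j - hh p b k) (z j + 1) (z j + 1 + e p l W) ∧
      rho (z j + 1 + e p l W) = rho (X + e p l W)) ∧
    (dd W j + k = a → rho (z j + 1 + e p l W) = rho (X + e p l W) + 1)) ∧
  (a < dd W j → rho (sc l z j + a * l + 1) = rho (X + e p l W) + 1 ∧
    lam (z j - (((dd W j - a) * l : ℕ) : ZMod (p * l)) + 1) = lam X)

end Helper11.LV
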