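import Pool.Agent.Helper11.LV.StA

set_option autoImplicit false

/-!
Project LV, statements of part B (levels which are not in normal form), with complete proofs in the
docstrings.  Conventions as in `StA.lean`.  `AB W i u`: `F = N + i + u - 2`, `i, u ≥ 0`, both attain
`0`; on the line `N = 2 - i - u`; everywhere `1 ≤ N + i + u ≤ 3`.  `rows f` is the set of the `S` with
`off (sc f + 1) S < a l`, `cols f` the set of the `X` with `off X (z f) < b l`.
-/

namespace Helper11.LV

open Helper11.N1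

/-- TYP (to prove: `theorem typ : StTYP`, uses `N1.cnt N1.bl`).  The types of the levels which are
not in normal form.

PROOF.  `N = NN` is `0` or `1` (disjoint boxes).  Let `l0 ≤ l1` be the minimum and maximum of `lam`,
`r0 ≤ r1` those of `rho` (finite type).  `up`, `lo` at places where they are attained:
`l1 + r1 ≤ 1`, `l0 + r0 ≥ -2` (as `0 ≤ N ≤ 1`).  By StCnt some line point has `N = 1`, there
`lam + rho = -1`, so `l0 + r0 ≤ -1`.
If `l0 + r0 = -1`: `(l1 - l0) + (r1 - r0) ≤ 2`.  If `l1 = l0 + 2` then `r1 = r0` and at the line point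
where `lam = l1`: `N = - l1 - r0 = -1`, impossible; in the same way `r1 = r0 + 2` is impossible.  So
`lam ∈ {l0, l0 + 1}`, `rho ∈ {r0, r0 + 1}`; `c = l0 + 1`, `Nrm` with the given `lam`, `rho`.
If `l0 + r0 = -2`: `i = lam - l0`, `u = rho - r0`; `lam = i + l0`, `rho = (u - 2) - l0`, so LD for
`i`, `u - 2` (the equations of LD do not change under `lam + c`, `rho - c`).
`(l1 - l0) + (r1 - r0) ≤ 3`; if `i = 0` everywhere, then on the line `N = 2 - u ≤ 1`, so `u ≥ 1`
everywhere, but `u` attains `0`; so `l1 > l0`, in the same way `r1 > r0`. -/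
def StTYP : Prop := ∀ (p l a b k : ℕ) [NeZero p] [NeZero l] (z : ZMod p → ZMod (p * l)),
  TC p l a b k z → ∀ (W : ZMod p) (lam rho : ZMod (p * l) → ℤ), LD l a b z W lam rho →
  ((∃ c : ℤ, (∀ X, lam X = c ∨ lam X = c - 1) ∧ (∀ S, rho S = -c ∨ rho S = -c + 1)) ∨
  ∃ (i u : ZMod (p * l) → ℤ) (c : ℤ), AB l a b z W i u ∧ (∀ X, lam X = i X + c) ∧
    (∀ S, rho S = u S - 2 - c) ∧ (∀ X, i X ≤ 2) ∧ (∀ S, u S ≤ 2) ∧
    ((∀ S, u S ≤ 1) ∨ (∀ X, i X ≤ 1)) ∧ (∃ X, i X ≠ 0) ∧ (∃ S, u S ≠ 0))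

/-- CN (to prove: `theorem cn : StCN`, uses `N1.cnt N1.bl`).  Counting the line points in boxes.

PROOF.  Sum `NN X (X + e W) = 2 - i X - u (X + e W)` over `X`: `a b l = 2 M - Σ i - Σ u`
(the map `X ↦ X + e W` is a bijection).  If `u ≤ 1`: `Σ u = M - #{u = 0}`, and
`Σ i ≥ M - #{i = 0}`.  If `i ≤ 1`, `u ≤ 2`: `Σ i = M - #{i = 0}`, `Σ u = M - #{u = 0} + #{u = 2}`. -/
def StCN : Prop := ∀ (p l a b k : ℕ) [NeZero p] [NeZero l] (z : ZMod p → ZMod (p * l)),
  TC p l a b k z → ∀ (W : ZMod p) (i u : ZMod (p * l) → ℤ), AB l a b z W i u →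
  open Classical in
  ((∀ S, u S ≤ 1) → a * b * l ≤ (Finset.univ.filter fun X => i X = 0).card +
    (Finset.univ.filter fun S => u S = 0).card) ∧
  ((∀ X, i X ≤ 1) → (∀ S, u S ≤ 2) → a * b * l + (Finset.univ.filter fun S => u S = 2).card =
    (Finset.univ.filter fun X => i X = 0).card + (Finset.univ.filter fun S => u S = 0).card)

/-- COV (to prove: `theorem cov : StND → StCOV`).  Boxes over the columns with `i = 0`.

PROOF.  `NN` is `1` if some box contains the point and `0` otherwise (disjoint boxes).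
(1) `lo`: `N ≥ 1`.  (2) `up`: `N ≤ 0`.  (3), (4) on the line `N + i + u = 2`.
(5) `g ≠ f`: `(X, S)` is not in `g`, so `off X (z g) ≥ b l` while `off (X+1) (z g) < b l`, so
`off X (z g) = b l`, `z g = X + b l`; `(X + 1, S)` is not in `f`, so `off X (z f) = 0`, `z f = X`.  So
`z f = z g - b l`, `f = g + h` (`htie`), `g = f - h`, `TL f`.
(6) By (1) a box `g` contains `(X, S + 1)`.  If `g ≠ f`: `S + 1` is not in `rows f`, so
`S = sc f + a l`, and `S` is not in `rows g`, so `S = sc g`.  So `sc g = sc f + a l`; both boxes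
contain the column `X`, so `z g`, `z f` differ by less than `b l`, contradiction to ND.
(7) the same going down. -/
def StCOV : Prop := ∀ (p l a b k : ℕ) [NeZero p] [NeZero l] (z : ZMod p → ZMod (p * l)),
  TC p l a b k z → b + k ≤ a → ∀ (W : ZMod p) (i u : ZMod (p * l) → ℤ), AB l a b z W i u →
  (∀ X S, i X = 0 → u S = 0 → ∃ f, box l a b z f X S) ∧
  (∀ X S, 3 ≤ i X + u S → ∀ f, ¬ box l a b z f X S) ∧
  (∀ X f, box l a b z f X (X + e p l W) →
    (i X = 0 ∧ u (X + e p l W) = 1) ∨ (i X = 1 ∧ u (X + e p l W) = 0)) ∧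
  (∀ X, (∀ f, ¬ box l a b z f X (X + e p l W)) → i X + u (X + e p l W) = 2) ∧
  (∀ (X S : ZMod (p * l)) (f g : ZMod p), box l a b z f X S → box l a b z g (X + 1) S →
    g = f ∨ (z f = X ∧ z g - b * l = X ∧ g = f - hh p b k ∧ TL l b k z f)) ∧
  (∀ (X S : ZMod (p * l)) (f : ZMod p), i X = 0 → u (S + 1) = 0 → box l a b z f X S → box l a b z f X (S + 1)) ∧
  (∀ (X S : ZMod (p * l)) (f : ZMod p), i X = 0 → u S = 0 → box l a b z f X (S + 1) → box l a b z f X S)

/-- WLK (to prove: `theorem wlk : StCOV → StJH → StWLK`).  Walking up and down inside a box over a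
column with `i = 0`.

PROOF.  Up: let `n` run over the numbers with `off (sc f + 1) S + n < a l` (then `S + n` is in
`rows f`).  If some `u (S + n) ≠ 0` take the least such `n`.  Otherwise `u = 0` up to the top
`St = sc f + a l`, and `u (St + 1) ≠ 0`, since otherwise COV (6) gives `box f X (St + 1)`.  By JH
(`rho = u - 2`) `u` changes at `St` only by an active `B x`, `sc x = St` (then
`u (St + 1) = -1 < 0`, impossible) or by an active `T y`, `sc y + a l = St`.
Down: the same with COV (7); the bottom is `sc f`, `u (sc f + 1) = 0`, `u (sc f) ≠ 0`; `u` changes at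
`sc f`; an active `T y` there would give `u (sc f) = -1`; so an active `B x` with `sc x = sc f`. -/
def StWLK : Prop := ∀ (p l a b k : ℕ) [NeZero p] [NeZero l] (z : ZMod p → ZMod (p * l)),
  TC p l a b k z → b + k ≤ a → ∀ (W : ZMod p) (i u : ZMod (p * l) → ℤ), AB l a b z W i u →
  ∀ (X S : ZMod (p * l)) (f : ZMod p), i X = 0 → u S = 0 → box l a b z f X S →
  ((∃ n : ℕ, 1 ≤ n ∧ off (sc l z f + 1) S + n < a * l ∧ (∀ m : ℕ, m < n → u (S + m) = 0) ∧
    u (S + n) ≠ 0) ∨
   ((∀ n : ℕ, off (sc l z f + 1) S + n < a * l → u (S + n) = 0) ∧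
    ∃ y : ZMod p, sc l z y = sc l z f ∧ a < dd W y ∧ dd W y ≤ a + b)) ∧
  ((∃ n : ℕ, 1 ≤ n ∧ n ≤ off (sc l z f + 1) S ∧ (∀ m : ℕ, m < n → u (S - (m : ZMod (p * l))) = 0) ∧ u (S - (n : ZMod (p * l))) ≠ 0) ∨
   ((∀ n : ℕ, n ≤ off (sc l z f + 1) S → u (S - (n : ZMod (p * l))) = 0) ∧
    ∃ x : ZMod p, sc l z x = sc l z f ∧ 1 ≤ dd W x ∧ dd W x ≤ b))

/-- TA (to prove: `theorem ta : StCOV → StNB → StTA`).  Levels with `u ≤ 1`.

PROOF.  NB is used with `lam = i`, `rho = u - 2`.
(1) `dd ≤ b`: NB (2): `u (sc f) = u + 1 ≤ 1`, so `u = 0`, `i = 1` by COV (3).  (2) `a < dd`: NB (8).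
(3) by (1), (2) `b < dd ≤ a`; by `BL` all `X'` in `cols f` are line points of `f`; NB (1).  If not
`eR`: NB (7) gives `dd + k < a` or `dd + k = a`; in the second case `u` would be `2`.
(4) Let `i X = 2`, `off X (z f) < b l`.  For all `S` in `rows f`: `N = 1`, so by COV (2) `u S = 0`.
For `i X1 = 0`: by COV (1) a box `g` contains `(X1, sc f + 1)`; by COV (6) it contains
`(X1, S)` for all `S` in `rows f`; so `rows f ⊆ rows g`, `sc g = sc f` (both have length `a l < M`).
Take `X0` with `i X0 = 0`; a box `j` contains `(X0, X0 + e W)` and `u = 1` there (COV (3), (4)); by (3)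
`i = 0` on all columns of `j`; the boxes `g` over neighbouring columns are equal (COV (5): otherwise
`sc` changes by `k l`), so one `g` covers all columns of `j`, `z g = z j`, `g = j`, `sc j = sc f`, and
`u = 1` in a row of `f`; contradiction.
(5) NB (5) and COV (3) if `i = 1`: `i (z f + 1) = 2`, apply (4).  (6) in the same way with NB (3). -/
def StTA : Prop := ∀ (p l a b k : ℕ) [NeZero p] [NeZero l] (z : ZMod p → ZMod (p * l)),
  TC p l a b k z → b + k ≤ a → ∀ (W : ZMod p) (i u : ZMod (p * l) → ℤ), AB l a b z W i u →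
  (∀ S, u S ≤ 1) →
  (∀ X f, box l a b z f X (X + e p l W) → dd W f ≤ b → i X = 1 ∧ u (X + e p l W) = 0) ∧
  (∀ X f, box l a b z f X (X + e p l W) → a < dd W f → i X = 1 ∧ u (X + e p l W) = 0) ∧
  (∀ X f, box l a b z f X (X + e p l W) → i X = 0 → b < dd W f ∧ dd W f ≤ a ∧
    (∀ X', off X' (z f) < b * l → box l a b z f X' (X' + e p l W) ∧ i X' = 0) ∧
    (¬ eR l a b k z W f → TL l b k z f ∧ dd W f + k < a)) ∧
  (∀ X f, i X = 2 → ¬ off X (z f) < b * l) ∧
  (∀ X f, box l a b z f X (X + e p l W) → i X = 1 → dd W f ≤ a → eR l a b k z W f →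
    ∀ g, ¬ off (z f + 1) (z g) < b * l) ∧
  (∀ X f, box l a b z f X (X + e p l W) → i X = 1 → b < dd W f → eL l a b k z W f →
    ∀ g, ¬ off (z f - b * l : ZMod (p * l)) (z g) < b * l)

/-- TB (to prove: `theorem tb : StCOV → StNB → StTB`).  Levels with `i ≤ 1`: the chains of ties
over the rows with `u = 0`.

PROOF.  `m = a / h`, so `m h ≤ a < (m + 1) h`, `m ≥ 1`.
(A) Let `u S = 0`.  The line point `X = S - e W` has `N = 2 - i X ≥ 1`, so `N = 1`, `i X = 1`, a box
`f` contains it (COV (3), (4)).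
(B) Left: while `b < dd W f`: not `eL` (NB (3) would give `i = 2`), so NB (4): `TL (f + h)`,
`f + h` is on the line with the same `i`, `u`, `dd` smaller by `h`.  So there is `n1` with
`e = f + n1 h`, `1 ≤ dd W e ≤ b`, `TL (e - s h)` for `s < n1`, `dd W f = dd W e + n1 h`,
`sc e = sc f + n1 k l`.  By NB (2) `u (sc e) = 1`: `good e`.
(C) Right: while `dd W f ≤ a`: not `eR` (NB (5) would give `i = 2`), so NB (7): `TL f`,
`dd + k ≤ a`, and either `f - h` is on the line with the same `i`, `u`, or `dd + k = a`.  So there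
is `n2` with `TL (f - s h)` for `s < n2` and `a < dd W f + n2 h ≤ a + b` (in the case `dd + k = a`
the last step ends at `a + b`).
(D) So `TL (e - s h)` for `s < n1 + n2` and `a < dd W e + (n1 + n2) h ≤ a + b`; `HM`:
`n1 + n2 = m`.  In particular `dd W e > a - m h = a % h`.
(E) Rows: `S = sc f + σ`, `σ = off (sc f) S` with (BL) `(dd W f - b) l < σ ≤ min a (dd W f) l`;
`S = sc e + (σ - n1 k l)`, `σ - n1 k l > 0` (if `n1 ≥ 1`: `dd W f - b - n1 k =
dd W e + (n1 - 1) b > 0`) and `≤ (a - m k) l`: if `n2 = 0` (`n1 = m`) by `σ ≤ a l`; if `n2 ≥ 1` then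
`n1 ≤ m - 1`, `σ - n1 k l ≤ (dd W e + n1 b) l ≤ m b l ≤ (a - m k) l`.  This is (1).
(2) Let `good e`.  `u (sc e + 1) = u (sc e) - 1 = 0` (NB / JH), and the line point of `sc e + 1` is in
the box `e`, state `i = 1`, `u = 0`.  Apply (B), (C), (D) with `f = e`, `n1 = 0`: `TL (e - s h)` for
`s < m`, `dd W e + m h ∈ (a, a + b]`.  By NB the boxes `e - s h`, `s < m`, have `i = 1`, `u = 0` on
their line points, and the box `e - m h` too if `dd < a + b`.  Their line points are the positions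
with `S` from `sc e + 1` to `sc e + (a - m k) l`: box `e`: up to `sc e + dd W e l`; box `e - s h`,
`1 ≤ s < m`: `S` in `sc e - s k l + ((dd W e + s h - b) l, (dd W e + s h) l] =
sc e + ((dd W e + (s-1) b) l, (dd W e + s b) l]`; box `e - m h`: from
`sc e + (dd W e + (m-1) b) l` to `sc e - m k l + a l`.  At the end NB (8) (or NB (7), second case)
gives `u = 1` at `sc e + (a - m k) l + 1`.  `z e` is a line point of `e` (`dd W e ≤ b ≤ a`), so
`i (z e) = 1`. -/
def StTB : Prop := ∀ (p l a b k : ℕ) [NeZero p] [NeZero l] (z : ZMod p → ZMod (p * l)),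
  TC p l a b k z → b + k ≤ a → HM l a b k z → ∀ (W : ZMod p) (i u : ZMod (p * l) → ℤ),
  AB l a b z W i u → (∀ X, i X ≤ 1) →
  (∀ S, u S = 0 → ∃ x, good l b z W u x ∧
    off (sc l z x + 1) S < (a - a / (b + k) * k) * l) ∧
  (∀ x, good l b z W u x → a % (b + k) < dd W x ∧
    (∀ s < a / (b + k), TL l b k z (x - (s : ZMod p) * hh p b k)) ∧
    (∀ n : ℕ, n < (a - a / (b + k) * k) * l → u (sc l z x + 1 + n) = 0) ∧
    u (sc l z x + 1 + (((a - a / (b + k) * k) * l : ℕ) : ZMod (p * l))) = 1 ∧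
    i (z x) = 1)

/-- TC' (to prove: `theorem tcb : StTB → StCOV → StTCB`).  The boxes over a column with `i = 0`
contain the whole range of rows of a good box `e`, and chains to the left are short.

PROOF.  `m = a / h ≥ 1`, `n_C = (a - m k) l ≥ 1` (`m h ≤ a`).  Rows of `e`:
`C = {sc e + 1 + n : n < n_C}`, `u = 0` there (TB (2)).
(1) COV (1) gives a box `f` with `(X, sc e + 1)`; by COV (6) it contains `(X, S)` for all `S` in `C`.
(2) Let `f` contain `(X, sc e + 1)` and hence `(X, S)`, `S ∈ C`.  `off (sc f + 1) (sc e + 1) + n_C ≤ a l`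
(the offsets grow by one along `C` and stay `< a l`), so `off (sc f) (sc e) ≤ m k l`.
(3) Induction on `n`: if `i (X - n') = 0` for `n' ≤ n` and `f` contains `(X, sc e + 1)` then with
`q = (off X (z f) + n) / (b l)` the box `f + q h` contains `(X - n, sc e + 1)`,
`z (f + q h) = z f - q b l`, `sc (f + q h) = sc f + q k l`, and `TL (f + s h)` for `1 ≤ s ≤ q`.
Step: COV (5) for `X - n - 1`: the box `g` containing `(X - n - 1, sc e + 1)` (COV (1)) is `f + q h`, or
`z g = X - n - 1 = z (f + q h) - b l` and `g = f + (q + 1) h`; the second happens exactly when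
`off X (z f) + n + 1 = (q + 1) b l`.
(4) By (2) for `X - n` and `f + q h`: `off (sc f + q k l) (sc e) ≤ m k l`, and the row `sc e + 1` is
in `rows (f + q h)`, so `off (sc f) (sc e) = q k l + off (sc (f + q h)) (sc e)`; so
`q k l ≤ off (sc f) (sc e) ≤ m k l`, `q ≤ m`.  If `q = m`: `sc f + m k l = sc e`, so
`sc (f + m h) = sc e`, `f + m h = e` (`hsinj`).  As `m ≥ 1`, `X - n ≤ z e < X` along the columns
(`X - n` is in `cols e`, and `X` is in `cols f`, `f ≠ e`): precisely
`z e = z f - m b l = X - (m b l - off X (z f))` with `1 ≤ m b l - off X (z f) ≤ n`, so `i (z e) = 0`,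
contradiction to TB (2).  So `q < m`, which gives `off X (z f) + n < m b l`. -/
def StTCB : Prop := ∀ (p l a b k : ℕ) [NeZero p] [NeZero l] (z : ZMod p → ZMod (p * l)),
  TC p l a b k z → b + k ≤ a → HM l a b k z → ∀ (W : ZMod p) (i u : ZMod (p * l) → ℤ),
  AB l a b z W i u → (∀ X, i X ≤ 1) → ∀ x, good l b z W u x →
  (∀ X, i X = 0 → ∃ f, box l a b z f X (sc l z x + 1)) ∧
  (∀ (X : ZMod (p * l)) (f : ZMod p), i X = 0 → box l a b z f X (sc l z x + 1) →
    (∀ n : ℕ, n < (a - a / (b + k) * k) * l → box l a b z f X (sc l z x + 1 + n)) ∧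
    off (sc l z f) (sc l z x) ≤ a / (b + k) * k * l) ∧
  (∀ (X : ZMod (p * l)) (f : ZMod p) (n : ℕ), (∀ n' : ℕ, n' ≤ n → i (X - (n' : ZMod (p * l))) = 0) → box l a b z f X (sc l z x + 1) →
    (Function.Injective (sc l z) → off X (z f) + n < a / (b + k) * (b * l)) ∧
    off X (z f) + n < (a / (b + k) + 1) * (b * l) ∧
    (off X (z f) + n) / (b * l) * (k * l) ≤ off (sc l z f) (sc l z x) ∧
    (∀ s : ℕ, 1 ≤ s → s ≤ (off X (z f) + n) / (b * l) → TL l b k z (f + (s : ZMod p) * hh p b k)))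

/-- TR (to prove: `theorem tr : StJV → StNB → StCOV → StTR`).  Going right from a column with
`i = 0` to the end.

PROOF.  `i` is not constant `0` (hypothesis), so there is a least `n` with `i (X + n + 1) ≠ 0`
(`n < M`), and `i (X + n') = 0` for `n' ≤ n`.  At `X + n` `i` rises (`i ≥ 0`); by JV (only `eR` raises
`lam`) there is `j` with `eR j`, `z j = X + n`, and `i (z j + 1) = 1`.  `1 ≤ dd W j ≤ a`, so
`z j` is a line point of `j` (BL, `t = 0`), and `i (z j) = 0`, so `u = 1` there (COV (3)). -/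
def StTR : Prop := ∀ (p l a b k : ℕ) [NeZero p] [NeZero l] (z : ZMod p → ZMod (p * l)),
  TC p l a b k z → b + k ≤ a → ∀ (W : ZMod p) (i u : ZMod (p * l) → ℤ), AB l a b z W i u →
  (∃ X, i X ≠ 0) → ∀ X : ZMod (p * l), i X = 0 → ∃ (n : ℕ) (j : ZMod p), (∀ n' : ℕ, n' ≤ n → i (X + n') = 0) ∧
    z j = X + n ∧ eR l a b k z W j ∧ i (z j + 1) = 1 ∧ box l a b z j (z j) (z j + e p l W) ∧
    u (z j + e p l W) = 1

/-- TG (to prove: `theorem tg : StTB → StCN → StTG`).  Lower bound for the number of columns with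
`i = 0`.

PROOF.  `m = a / h`, `r = a % h`, `a = m h + r`.  By TB (1) the rows with `u = 0` lie in the union over
the good `x` of the sets `{sc x + 1 + n : n < (a - m k) l}`, so
`#{u = 0} ≤ #good * (a - m k) l`.  The `x` with `1 ≤ dd W x ≤ b` are `b` many, and `g` is one of
them and not good; so `#good ≤ b - 1`.  CN (second part):
`#{i = 0} = a b l + #{u = 2} - #{u = 0} ≥ a b l + 1 - (b - 1) (a - m k) l`
`= a l + (b - 1) m k l + 1 = m b l + b m k l + r l + 1` (`u` attains `2` at `sc g`). -/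
def StTG : Prop := ∀ (p l a b k : ℕ) [NeZero p] [NeZero l] (z : ZMod p → ZMod (p * l)),
  TC p l a b k z → b + k ≤ a → HM l a b k z → ∀ (W : ZMod p) (i u : ZMod (p * l) → ℤ),
  AB l a b z W i u → (∀ X, i X ≤ 1) → (∀ S, u S ≤ 2) → ∀ g : ZMod p, 1 ≤ dd W g → dd W g ≤ b →
  u (sc l z g) = 2 → open Classical in
  a / (b + k) * b * l + b * (a / (b + k)) * k * l + a % (b + k) * l + 1 ≤
    (Finset.univ.filter fun X => i X = 0).card

end Helper11.LV
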