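import Pool.Agent.Helper11.LV.StB

set_option autoImplicit false

/-!
Project LV, statements of part C (a level which is not in normal form although the same level of the
next window is), with complete proofs in the docstrings.  Conventions as in `StA.lean`, `StB.lean`.
The box `0` has `z 0 = 0`, `sc 0 = 0`, `dd W 0 = W.val`.  `M = p l`.  A box `j` is called a
`Q`-box if it has a line point `X` with `i X = 0`; if `u ≤ 1` then (TA (3)) `b < dd W j ≤ a`, all
columns of `j` have `i = 0` and are line points of `j`, and then `u = 1` there.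
-/

namespace Helper11.LV

open Helper11.N1

/-- PM (to prove: `theorem pm : StNB → StJH → StCN → StCOV → StPM`).

PROOF.  `d = W.val ∈ (b, a]`.  All `X` with `off X 0 < b l` are line points of the box `0` (BL).
(1) Take `X` with `i X = 0`; `off X 0 < b l` (`hL`); by NB (2) `i X' = 0` for all `X'` with
`off X' 0 < b l`, and `u (X' + e W) = 1` there (COV (3)).  With `hL`: `{i = 0} = {X : off X 0 < b l}`
has `b l` elements.  CN: `#{u = 0} ≥ a b l - b l = b N0`, `N0 = (a - 1) l`.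
(2) There is `S` with `u (S - n) = 0` for all `n < N0`.  Otherwise every `S` with `u S = 0` has a
least `n < N0` with `u (S - n) ≠ 0`, `n ≥ 1`; `u` drops from `1` to `0` at `S - n`, so by JH
`S - n = sc x` with `1 ≤ dd W x ≤ b`; so `{u = 0}` is contained in the union over these `b` many
`x` of `{sc x + n : 1 ≤ n < N0}`, which has at most `b (N0 - 1) < b N0` elements.
(3) Let `f` contain `(0, S)` (COV (1)); by COV (7) it contains `(0, S - n)` for `n < N0`.
(4) `f = 0`: `rows 0` is `{S : 1 ≤ S.val ≤ a l}`; the rows `X + e W`, `off X 0 < b l`, are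
`(d - b) l + 1, ..., d l` and have `u = 1`.  So the `N0` consecutive rows `S - n` lie in
`1, ..., (d - b) l` or in `d l + 1, ..., a l`; but `(d - b) l < N0`, `(a - d) l < N0` (`b ≥ 2`).
(5) `f ≠ 0`: `z f ≠ 0` (`hinj`), `(z f).val ∈ [1, b l - 1]`.  `X1 = z f - b l` has
`off X1 0 = b l - (z f).val`, so `i X1 = 0`.  Let `g` contain `(X1, S)` (COV (1)), hence
`(X1, S - n)`, `n < N0` (COV (7)).  `f` contains `(X1 + 1, S)`; COV (5): `g ≠ f` (`X1` is not in
`cols f`), so `z g = X1`, `f = g - h`, `TL g`, so `sc f = sc g - k l`.  The `N0` rows lie in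
`rows f ∩ rows g`, which has `(a - k) l` elements `sc g + 1, ..., sc g + (a - k) l`; so `k = 1` and
`S - (N0 - 1) = sc g + 1`, `u (sc g + 1) = 0`.  `u (sc g) ≠ 0`, otherwise COV (7) gives
`box g X1 (sc g)`, impossible.  So `u` drops at `sc g`, by JH and `hsinj` `1 ≤ dd W g ≤ b`.  Then `z g`
is a line point of `g` (BL, `t = 0`), and of the box `0` as `off (z g) 0 < b l`; so `g = 0`
(disjoint), but `dd W 0 = d > b`. -/
def StPM : Prop := ∀ (p l a b k : ℕ) [NeZero p] [NeZero l] (z : ZMod p → ZMod (p * l))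
  (W : ZMod p) (i u : ZMod (p * l) → ℤ), EM a b k z W i u → b + k ≤ a → False

/-- QR (to prove: `theorem qr : StTA → StCOV → StWLK → StQR`).  A foreign box over the last column
of a `Q`-box.

PROOF.  `f ≠ j`, `z j` in `cols f`, so `z f = z j + s`, `1 ≤ s < b l` (`hinj`), and `z j + 1` is in
`cols f`: first claim.  WLK (down) for `X = z j`.  First alternative: the claim.  Second alternative:
`u (S - n) = 0` down to the row `sc f + 1`.  The columns `z f - b l = z j - (b l - s)` and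
`z f - b l + 1` are in `cols j`, so `i = 0` (TA (3)).  Let `g` contain `(z f - b l, S)` (COV (1)); `f`
contains `(z f - b l + 1, S)`.  COV (5): `g ≠ f` (the column `z f - b l` is not in `cols f`), so
`z g = z f - b l`, `f = g - h`, `TL g`, `sc g = sc f + k l`.  By COV (7) `g` contains
`(z f - b l, sc f + 1)`, but `off (sc g + 1) (sc f + 1) = M - k l ≥ a l`, contradiction. -/
def StQR : Prop := ∀ (p l a b k : ℕ) [NeZero p] [NeZero l] (z : ZMod p → ZMod (p * l)),
  TC p l a b k z → b + k ≤ a → ∀ (W : ZMod p) (i u : ZMod (p * l) → ℤ), AB l a b z W i u →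
  (∀ S, u S ≤ 1) → ∀ (X S : ZMod (p * l)) (j f : ZMod p), box l a b z j X (X + e p l W) →
  i X = 0 → u S = 0 → box l a b z f (z j) S → f ≠ j →
  box l a b z f (z j + 1) S ∧ ∃ n : ℕ, 1 ≤ n ∧ n ≤ off (sc l z f + 1) S ∧
    (∀ m : ℕ, m < n → u (S - (m : ZMod (p * l))) = 0) ∧ u (S - (n : ZMod (p * l))) = 1

/-- QL (to prove: `theorem ql : StTA → StCOV → StWLK → StQL`).  A foreign box over the first column
`X_L + 1`, `X_L = z j - b l`, of a `Q`-box.

PROOF.  `f ≠ j`, `X_L + 1` in `cols f`.  If `X_L` were not in `cols f`, `z f = X_L + b l = z j`,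
`f = j`; so `z f = X_L + s`, `1 ≤ s < b l`: first claim.  WLK (up) for `X = X_L + 1`.  First
alternative: the claim.  Second: `u = 0` up to the top row `St = sc f + a l`.  The columns `z f` and
`z f + 1` are in `cols j` (`s < b l`), so `i = 0`.  Let `g` contain `(z f + 1, S)` (COV (1)).  COV (5)
with `X = z f`: `g ≠ f` (`z f + 1` is not in `cols f`), so `g = f - h`, `TL f`, `sc g = sc f - k l`.
By COV (6) `g` contains `(z f + 1, St)`, but `off (sc g + 1) St = (a + k) l - 1 ≥ a l` (`< M`). -/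
def StQL : Prop := ∀ (p l a b k : ℕ) [NeZero p] [NeZero l] (z : ZMod p → ZMod (p * l)),
  TC p l a b k z → b + k ≤ a → ∀ (W : ZMod p) (i u : ZMod (p * l) → ℤ), AB l a b z W i u →
  (∀ S, u S ≤ 1) → ∀ (X S : ZMod (p * l)) (j f : ZMod p), box l a b z j X (X + e p l W) →
  i X = 0 → u S = 0 → box l a b z f (z j - b * l + 1) S → f ≠ j →
  box l a b z f (z j - b * l) S ∧ ∃ n : ℕ, 1 ≤ n ∧ off (sc l z f + 1) S + n < a * l ∧
    (∀ m : ℕ, m < n → u (S + m) = 0) ∧ u (S + n) = 1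

/-- QC (to prove: `theorem qc : StTA → StNB → StCOV → StQC`).  Chains of `Q`-boxes.  The predicate
`Qb j` below says that `j` is a `Q`-box.

PROOF.  (1) `Qb j`, not `eR j`: TA (3) gives `TL j`, `dd W j + k < a`; NB (7): `j - h` is on the line
at `z j + 1` with `i = 0`, so `Qb (j - h)`.  If `S`, `u S = 0`, is in `rows (j - h)`: by COV (1) a box
`g` contains `(z j, S)` (`i (z j) = 0`); `j - h` contains `(z j + 1, S)` (`z (j - h) = z j + b l`);
COV (5): `g ≠ j - h`, so `z g = z j`, `g = j`.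
(2) `Qb j`, not `eL j`: NB (4): `TL (j + h)`, `j + h` is on the line at `z j - b l` with `i = 0`.  If
`S`, `u S = 0`, is in `rows (j + h)`: `j + h` contains `(z j - b l, S)`; a box `g` contains
`(z j - b l + 1, S)`; COV (5): `g ≠ j + h` (its last column is `z j - b l`), so
`z g - b l = z j - b l`, `g = j`. -/
def StQC : Prop := ∀ (p l a b k : ℕ) [NeZero p] [NeZero l] (z : ZMod p → ZMod (p * l)),
  TC p l a b k z → b + k ≤ a → ∀ (W : ZMod p) (i u : ZMod (p * l) → ℤ), AB l a b z W i u →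
  (∀ S, u S ≤ 1) → ∀ j : ZMod p, (∃ X, box l a b z j X (X + e p l W) ∧ i X = 0) →
  (¬ eR l a b k z W j → (∃ X, box l a b z (j - hh p b k) X (X + e p l W) ∧ i X = 0) ∧
    TL l b k z j ∧ dd W (j - hh p b k) = dd W j + (b + k) ∧
    ∀ S, u S = 0 → off (sc l z (j - hh p b k) + 1) S < a * l → off (sc l z j + 1) S < a * l) ∧
  (¬ eL l a b k z W j → (∃ X, box l a b z (j + hh p b k) X (X + e p l W) ∧ i X = 0) ∧
    TL l b k z (j + hh p b k) ∧ dd W j = dd W (j + hh p b k) + (b + k) ∧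
    ∀ S, u S = 0 → off (sc l z (j + hh p b k) + 1) S < a * l → off (sc l z j + 1) S < a * l)

/-- QD (to prove: `theorem qd : StTA → StCN → StCOV → StQD`).

PROOF.  Let `D` be the set of the `S` with `off S S1 < a l` or `off S1 S < a l`; it has at most
`2 a l - 1` elements.  If `u S = 0`: `S` and `S1` are in `rows j1`, so `S ∈ D`.  If `i X = 0`: on the
line `N = 2 - u ≤ 1` and `u ≤ 1`, so a box `j` contains the line point `X` (COV (4)), and `X + e W`,
`S1` are in `rows j`, so `X + e W ∈ D`, and `u (X + e W) = 1` (COV (3)).  So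
`#{u = 0} + #{i = 0} ≤ 2 a l - 1 < a b l`, contradiction to CN. -/
def StQD : Prop := ∀ (p l a b k : ℕ) [NeZero p] [NeZero l] (z : ZMod p → ZMod (p * l)),
  TC p l a b k z → b + k ≤ a → ∀ (W : ZMod p) (i u : ZMod (p * l) → ℤ), AB l a b z W i u →
  (∀ S, u S ≤ 1) → ∀ (S1 : ZMod (p * l)) (j1 : ZMod p), u S1 = 0 →
  (∀ S, u S = 0 → off (sc l z j1 + 1) S < a * l) →
  (∀ (j : ZMod p) (X : ZMod (p * l)), box l a b z j X (X + e p l W) → i X = 0 →
    off (sc l z j + 1) S1 < a * l) → False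

/-- PT1 (to prove: `theorem pt1 : StTA → StNB → StCOV → StQR → StQC → StQD → StPT1`).

PROOF.  `A = {X : 1 ≤ (X + b l).val ≤ δ}`, `E' = {S : 1 ≤ (S - a l).val ≤ δ}`.  Claim: for every
`Q`-box `j` and every `S` with `u S = 0`, `S ∈ rows j`.
(1) `eR j`.  `z j` has `i = 0` (TA (3)), so `2 ≤ (z j + b l).val < δ` (`hL`), so `z j + 1 ∈ A`;
`i (z j + 1) = 1` (NB (5)).  Let `f` contain `(z j, S)` (COV (1)) and suppose `f ≠ j`.  QR: `f` contains
`(z j + 1, S)`, and there is `n ≥ 1` with `u (S - m) = 0` for `m < n`, `u (S - n) = 1`, `S - n` in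
`rows f`.  `f ≠ 0`: otherwise `z j = -t` with `1 ≤ t < b l` (`z j`, `z j + 1` in `cols 0`), and the
column `-b l + 1 = z j - (b l - t - 1)` is in `cols j`, so has `i = 0`, but `(-b l + 1 + b l).val = 1`,
contradiction to `hL`.  `S - n` is not in `E'`: `S - n + 1` is not (`hU`), so if `S - n` were,
`(S - n - a l).val = δ`, and `hB` gives `u (S - n + 1) ≠ 0`, contradiction (`m = n - 1`).  So `hst`
for `X = z j + 1`, the row `S - n`, the box `f`: contradiction.
(2) not `eR j`: QC (1) and induction on `a - dd W j`.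
Now take `S1` with `u S1 = 0` and `X` with `i X = 0`; the box `j1` on the line at `X` (COV (4)) is a
`Q`-box; QD. -/
def StPT1 : Prop := ∀ (p l a b k : ℕ) [NeZero p] [NeZero l] (z : ZMod p → ZMod (p * l))
  (W : ZMod p) (i u : ZMod (p * l) → ℤ) (δ : ℕ), ET a b k z W i u δ → b + k ≤ a →
  (∀ S, u S ≤ 1) → False

/-- PB0 (to prove: `theorem pb0 : StTA → StNB → StJH → StCOV → StQR → StQL → StQC → StPB0`).  The
rows with `u = 0` over `Q`-boxes, row `0` between bottom and left side.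

PROOF.  `I = {x : 1 ≤ x.val ≤ δ}`, `d = W.val ∈ [1, b]`.  The box `0` has the line points `-t`,
`0 ≤ t < d l`, with `i = 1`, `u = 0` (TA (1)); `t = d l - 1` gives `u 1 = 0`, so `δ ≥ 2` (`hU`).
`0` is not a `Q`-box.
(1) `j` a `Q`-box with `eL j` and `X_L = z j - b l` not in `I`; then every `S` with `u S = 0` is in
`rows j`.  `i X_L = 1` (NB (3)), `i (X_L + 1) = 0`.  Let `f` contain `(X_L + 1, S)` and suppose
`f ≠ j`.  QL: `f` contains `(X_L, S)`, and `u (S + m) = 0` for `m < n`, `u (S + n) = 1`, `S + n` in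
`rows f`.  `f ≠ 0`: otherwise `X_L = -t`, `1 ≤ t < b l`, and the column `1` is in `cols j`, so
`i 1 = 0`, but `1 ∈ I`.  `S + n - 1` has `u = 0`, so `(S + n - 1).val ∈ [1, δ - 1]`, so `S + n ∈ I`; `hst`
for `X_L`, `S + n`, `f`: contradiction.
(2) `j` a `Q`-box with `eR j`, `u S = 0`, not (`u (S - m) = 0` for all `m < S.val`); then
`S ∈ rows j`.  `z j ∉ I` (`hL`), `z j ≠ 0` (`j ≠ 0`), so `z j + 1 ∉ I`; `i (z j + 1) = 1`.  Let `f` contain
`(z j, S)`, `f ≠ j`.  QR: `f` contains `(z j + 1, S)`, `u (S - m) = 0` for `m < n`, `u (S - n) = 1`,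
`S - n` in `rows f`.  `f ≠ 0`: otherwise `z j = -t`, `1 ≤ t < b l`, the columns `-b l`, `-b l + 1` are
in `cols j`, so `i = 0`; a box `g` contains `(-b l, 1)`, the box `0` contains `(-b l + 1, 1)`; COV (5):
`z g = -b l`, `g - h = 0`, `TL g`, `sc g = k l`, but `off (k l + 1) 1 = M - k l ≥ a l`, contradiction.
`(S - n + 1).val ∈ [1, δ - 1]`, so `S - n ∈ I` (then `hst` for `z j + 1`, `S - n`, `f`: contradiction)
or `S - n = 0`, i.e. `n = S.val` (`n ≤` the position): then `u (S - m) = 0` for `m < S.val`,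
contradiction to the assumption.  (3) also: if `f ≠ j` then `0 ∈ rows f`.
(4) For all `Q`-boxes the statement (2) holds: QC (1), induction on `a - dd W j`.
(5) For all `Q`-boxes `j`: either all `S` with `u S = 0` are in `rows j`, or there are `s` and a
`Q`-box `j1 = j + s h` with `eL j1`, `(z j1 - b l).val = δ`, `TL (j + n h)` for `1 ≤ n ≤ s`,
`dd W j = dd W j1 + s h`, and (chain property) every `S` with `u S = 0`, `S ∈ rows j1` is in
`rows j`: induction on `dd W j` with QC (2); if `eL j` use (1), and if `X_L ∈ I`: `X_L + 1 ∉ I` (`hL`),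
so `X_L.val = δ` (`δ + 1 < M` or not, in any case). -/
def StPB0 : Prop := ∀ (p l a b k : ℕ) [NeZero p] [NeZero l] (z : ZMod p → ZMod (p * l))
  (W : ZMod p) (i u : ZMod (p * l) → ℤ) (δ : ℕ), EB a b k z W i u δ → b + k ≤ a →
  (∀ S, u S ≤ 1) →
  (∀ (j : ZMod p) (X S : ZMod (p * l)), box l a b z j X (X + e p l W) → i X = 0 → u S = 0 →
    (∃ m : ℕ, m < S.val ∧ u (S - (m : ZMod (p * l))) ≠ 0) → off (sc l z j + 1) S < a * l) ∧
  (∀ (j f : ZMod p) (X S : ZMod (p * l)), box l a b z j X (X + e p l W) → i X = 0 →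
    eR l a b k z W j → u S = 0 → box l a b z f (z j) S → f ≠ j →
    off (sc l z f + 1) 0 < a * l) ∧
  (∀ (j : ZMod p) (X : ZMod (p * l)), box l a b z j X (X + e p l W) → i X = 0 →
    (∀ S, u S = 0 → off (sc l z j + 1) S < a * l) ∨
    ∃ (s : ℕ) (X1 : ZMod (p * l)), box l a b z (j + (s : ZMod p) * hh p b k) X1 (X1 + e p l W) ∧
      i X1 = 0 ∧ (z (j + (s : ZMod p) * hh p b k) - b * l).val = δ ∧
      dd W j = dd W (j + (s : ZMod p) * hh p b k) + s * (b + k) ∧
      sc l z (j + (s : ZMod p) * hh p b k) = sc l z j + ((s * k * l : ℕ) : ZMod (p * l)))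

/-- PB1 (to prove: `theorem pb1 : StTA → StJH → StCN → StCOV → StQC → StQD → StPB0 → StPB1`).

PROOF.  (A) There is `S1` with `u S1 = 0` and `u (S1 - m) ≠ 0` for some `m < S1.val`: `W - 1` and
`W - 2` have `dd` `1`, `2` `≤ b`; one of them, `x`, is not `0`.  By JH `u (sc x) = 1`,
`u (sc x + 1) = 0` (`u ≤ 1`), `S1 = sc x + 1`, `m = 1`: `sc x ≠ 0` (`hsinj`), so `S1.val > 1` (if
`S1 = 0` then `u S1 ≠ 0` by `hU`).  By PB0 (1) `S1 ∈ rows j` for all `Q`-boxes `j`.
(B) If some `Q`-box `j1` has all `S` with `u S = 0` in `rows j1`: QD with `S1`, `j1`.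
(C) Otherwise, by PB0 (3), every `Q`-box `j` is `j1 - s h` with one and the same `j1`
(`z j1 = δ + b l` determines `j1`, `hinj`), `dd W j = dd W j1 + s h`, `sc j1 = sc j + s k l`.  There is
a `Q`-box (`i X = 0` for some `X`, COV (4)), so `j1` is a `Q`-box.  Let
`V = {S : u S = 0, u (S - m) ≠ 0 for some m < S.val}`, `C0` the other `S` with `u S = 0`.
`V ⊆ rows j1` (PB0 (1)).  For `i X = 0` the line point `X` is in a `Q`-box `j = j1 - s h`,
`X + e W = sc j + σ` with `(dd W j - b) l < σ ≤ dd W j l` (BL), so `X + e W = sc j1 + (σ - s k l)` with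
`σ - s k l > (dd W j1 + s b - b) l ≥ 0` (for `s = 0`: `dd W j1 > b`) and `≤ dd W j l ≤ a l`; so
`X + e W ∈ rows j1`.  `u = 1` there.  So `#V + #{i = 0} ≤ a l`.
(D) `#C0 ≤ a l - 1` or `C0 ⊆ rows j1`: let `jr` be a `Q`-box with `eR jr` (exists: QC (1), `dd` grows,
`dd ≤ a`).  `C0` is an initial interval: if `S ∈ C0` then `S - m ∈ C0` for `m < S.val`; if `C0` is not
empty then `1 ∈ C0`.  Let `f` contain `(z jr, 1)`; by COV (6) `f` contains `(z jr, S)` for all
`S ∈ C0`.  If `f ≠ jr`: PB0 (2): `0 ∈ rows f`, `0 ∉ C0`, `C0 ⊆ rows f`, so `#C0 ≤ a l - 1`.  If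
`f = jr`: `C0 ⊆ rows jr`; and also `V ⊆ rows jr`, so `jr` is as in (B).
(E) So `#{u = 0} + #{i = 0} ≤ 2 a l - 1 < a b l`, contradiction to CN. -/
def StPB1 : Prop := ∀ (p l a b k : ℕ) [NeZero p] [NeZero l] (z : ZMod p → ZMod (p * l))
  (W : ZMod p) (i u : ZMod (p * l) → ℤ) (δ : ℕ), EB a b k z W i u δ → b + k ≤ a →
  (∀ S, u S ≤ 1) → False

/-- PB2 (to prove: `theorem pb2 : StJV → StNB → StCOV → StTB → StTCB → StTR → StTG → StPB2`).

PROOF.  `I = {x : 1 ≤ x.val ≤ δ}`, `m = a / h`, `r = a % h`, `d = W.val ∈ [1, b]`,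
`nC = (a - m k) l`; `m ≥ 1`, `nC ≥ m b l`.
(1) `z 0 = 0` is a line point of the box `0`; `eR 0` (`¬ TL 0`), so `i 1 = i 0 + 1 ≤ 1`: `i 0 = 0`,
`i 1 = 1`, `u (e W) = 1`; NB (2) (`d ≤ b`): `u 0 = u (sc 0) = 2`.
(2) Let `u S = 0` (exists).  TB (1): a good `x`; `x ≠ 0` (`u (sc 0) = 2`).  `s = (sc x).val`:
`u (sc x + 1) = 0` (TB (2)), so `(sc x + 1).val ∈ [1, δ - 1]`, and `sc x ≠ 0`, so `1 ≤ s`; the row
`sc x + nC` has `u = 0`, so (all rows `sc x + 1, ..., sc x + nC` have `u = 0`, hence `val` in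
`[1, δ - 1]`) `s + nC ≤ δ - 1`.  So `sc x` and `sc x + nC + 1` are in `I`, with `u = 1` (TB (2)).
(3) Let `i X = 0`.  TR (`i 1 ≠ 0`): `n`, `j` with `i = 0` on `X, ..., X + n = z j`, `eR j`,
`i (z j + 1) = 1`, `z j` a line point of `j`.  TCB (1): `f` contains `(z j, sc x + 1)`; TCB (3) (for
`z j`, going left `n` steps): `off (z j) (z f) + n < m b l`.  Claim: `X = -n'` with
`0 ≤ n' ≤ m b l + m k l + d l - 2 - l`, or `X = δ + n'` with `1 ≤ n' ≤ m k l - 1 - d l`.
(a) `j = 0`: `X = -n`, `n < m b l`.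
(b) `j ≠ 0`.  `z j ∉ I`, `z j ≠ 0`, so `z j + 1 ∉ I`.  Suppose `f ≠ j`, `f ≠ 0`.  `z j + 1` is in `cols f`
(otherwise `z f = z j`); by `hst` (`X = z j + 1`) the rows `sc x` and `sc x + nC + 1` are not in
`rows f`, but (TCB (2)) the rows `sc x + 1, ..., sc x + nC` are.  So `sc f = sc x` and
`off (sc f + 1) (sc x + nC + 1) = nC < a l` is in `rows f`, contradiction.  So `f = 0` or `f = j`.
(c) `f = 0`: `z j = -t`, `t = off (z j) 0 < b l`, `X = -(t + n)`, `t + n < m b l`.
(d) `f = j`: `n < m b l`.  TCB (2): `sc j = sc x - y`, `0 ≤ y ≤ m k l`.  The row of `z j` is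
`sc j + dd W j l`; as an integer `v = s - y + dd W j l`, `1 ≤ dd W j ≤ a`; `v ≥ 1 - m k l + l`,
`v ≤ s + a l = s + nC + m k l ≤ δ - 1 + m k l`.  By `hln` (`j ≠ 0`) it is not in `I`, so `v ≤ 0` or
`v > δ`.  If `v ≤ 0`: `X = v - d l - n = -n'` with `n' = d l + n - v ≤ d l + m b l - 1 + m k l - 1 - l`.
If `v > δ`: `z j` is `w = v - d l > δ - d l > 0` (`δ > nC ≥ b l ≥ d l`) and not in `I`, so
`w > δ`, `w ≤ δ - 1 + m k l - d l`; the columns `w - n, ..., w` have `i = 0`, so are not in `I`, so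
`w - n > δ` (otherwise the column `δ` is one of them).
(4) So `#{i = 0} ≤ (m b l + m k l + d l - 1 - l) + max 0 (m k l - 1 - d l)`, which is smaller than
`m b l + b m k l + r l + 1` (TG with `g = 0`; `b ≥ 2`, `d - 1 ≤ b - 1 ≤ (b - 1) m k`). -/
def StPB2 : Prop := ∀ (p l a b k : ℕ) [NeZero p] [NeZero l] (z : ZMod p → ZMod (p * l))
  (W : ZMod p) (i u : ZMod (p * l) → ℤ) (δ : ℕ), EB a b k z W i u δ → b + k ≤ a →
  HM l a b k z → (∀ X, i X ≤ 1) → (∀ S, u S ≤ 2) → False

/-- PT2 (to prove: `theorem pt2 : StJH → StNB → StCOV → StTB → StTCB → StTR → StTG → StPT2`).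

PROOF.  `A = {X : 1 ≤ (X + b l).val ≤ δ}`, `E' = {S : 1 ≤ (S - a l).val ≤ δ}`, `m`, `r`, `nC` as in PB2,
`w = W.val ∈ (a, a + b]`.  `δ ≥ 3` (`hL` and `ei`).
(1) The box `h`: `TL h`, `z h = -b l`, `sc h = k l`, `dd W h = w - h ∈ [1, a - k]`, so `-b l` is a line
point of `h` (BL, `t = 0`) with `i = 1` (`hz`), so `u = 0` at the row `(w - b) l`.  Not `eR h`.  NB (7):
if `w < a + b`: the box `0` is on the line with `i = 1`, `u = 0`; its line points are `-t`,
`(w - a) l ≤ t < b l`, rows `(w - b) l + 1, ..., a l`.  So in all cases `u = 0` on the rows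
`(w - b) l, ..., a l`, and `u (a l + 1) ≠ 0` (`hU`).
(2) TB (1) for the row `a l`: a good `x`, `a l = sc x + 1 + n`, `n < nC`; `u = 0` on
`sc x + 1, ..., sc x + nC` (TB (2)), so `sc x + nC = a l` (otherwise `a l + 1` is one of them), so
`sc x = m k l`, and with `TL (x - s h)`, `s < m`: `sc (x - m h) = sc x - m k l = 0`, so `x = m h`
(`hsinj`), `z x = - m b l`, `u = 0` on the rows `m k l + 1, ..., a l`, `u (m k l) = 1`, `dd W x ≤ b`,
`dd W x = w - m h`.
(3) `m k l ∉ E'`: `m k l + 1 ∉ E'` (`hU`), so otherwise `(m k l - a l).val = δ` and `hB` gives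
`u (m k l + 1) ≠ 0`.
(4) Let `i X = 0`.  TR: `n`, `j`, columns `X, ..., X + n = z j` with `i = 0`, `eR j`, `i (z j + 1) = 1`,
line point, `u = 1` there.  `j ≠ 0` (`dd W 0 = w > a`).  `2 ≤ (z j + b l).val < δ`, so `z j + 1 ∈ A`.
TCB (1): `f` contains `(z j, m k l + 1)`.  If `f ≠ j`, `f ≠ 0`: `z j + 1` in `cols f`, by `hst` the row
`m k l` is not in `rows f`, so `sc f = m k l`, `f = x`.  So `f = j`, `f = 0` or `f = x`.
TCB (3): `off (z j) (z f) + n < m b l`, and for `f = x`: `(off (z j) (z x) + n) / (b l) = 0`.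
(5) `f = j`.  TCB (2): `sc j = y`, `0 ≤ y ≤ m k l` (as an integer), the row of `z j` is
`v = y + dd W j l ∈ [l, m k l + a l]`, and `u = 1` there, so `v ≤ m k l` or `v > a l`.
(6) `f = 0`: `z j = -t`, `1 ≤ t < b l`, row `w l - t > (w - b) l`, `u = 1`, so `w l - t > a l`.
(7) `f = x`: `z j = - m b l - t`, `1 ≤ t`, `t + n < b l`; the row of `z j` is `w l - m b l - t <
(w - m h) l + m k l ≤ b l + m k l ≤ a l`, not in `m k l + 1, ..., a l`, so `≤ m k l`.
(8) In (6) and in (5) with `v > a l`: `z j > (a - w) l` (as integers near `0`), `z j ≤ -1` resp.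
`z j ≤ (a - w + m k) l`.  The column `(a - w) l` has the row `a l`, `u = 0`, so `i ≠ 0` there
(`N ≤ 1`).  So `X > (a - w) l` too (the columns `X, ..., z j` have `i = 0`).  So `X` is in
`{(a - w) l + n' : 1 ≤ n' ≤ max ((w - a) l - 1) (m k l)}`.
(9) In (7) and in (5) with `v ≤ m k l`: `X ≤ z j ≤ m k l - w l` and `X ≥ l - w l - (m b l - 1)`
(in (7): `X ≥ - m b l - b l + 1`, and `w ≥ b + 1`).  These are `m k l + m b l - l` columns.
(10) There is `g` with `1 ≤ dd W g ≤ b`, `u (sc g) = 2`: start at `S` with `u S = 2` and go up to the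
last row with `u = 2` before another value (`u` attains `0`); there `u` falls, JH.  TG:
`#{i = 0} ≥ m b l + b m k l + r l + 1 > max ((w - a) l - 1) (m k l) + m k l + m b l - l`
(`w - a ≤ b`, `(w - a - 1) ≤ (b - 1) m k`). -/
def StPT2 : Prop := ∀ (p l a b k : ℕ) [NeZero p] [NeZero l] (z : ZMod p → ZMod (p * l))
  (W : ZMod p) (i u : ZMod (p * l) → ℤ) (δ : ℕ), ET a b k z W i u δ → b + k ≤ a →
  HM l a b k z → (∀ X, i X ≤ 1) → (∀ S, u S ≤ 2) → (∃ S, u S = 2) → False

end Helper11.LV
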